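import Pool.Agent.Lib.MP_b9e19b_mp.Small.Tri.Spec3

set_option autoImplicit false

/-!
# A priori bounds for seven bodies
-/

namespace RelEqN.Small.Tri.Pri7M

open RelEqN.Small.Tri RelEqN.Small

/-- lower bound of the one-body function -/
theorem low (r : ℝ) (hr : 0 < r) :
    (57 / 400 : ℝ) ≤ 1 / r ^ 3 - 3 / 11 * (1 / r - r ^ 2 / ((7 : ℕ) : ℝ)) := by
  have key : (1 : ℝ) - 3 / 11 * r ^ 2 + 3 / 77 * r ^ 5 - 57 / 400 * r ^ 3
      = (r - 44 / 23) ^ 2 * (3 / 77 * r ^ 3 + 24 / 161 * r ^ 2 + 422529 / 1481200 * r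
          + 12795459 / 46842950)
        + 55827 / 48972175 * r + 359633 / 1126360025 := by ring
  have h0 : (0 : ℝ) ≤ 1 - 3 / 11 * r ^ 2 + 3 / 77 * r ^ 5 - 57 / 400 * r ^ 3 := by
    rw [key]; positivity
  have e : 1 / r ^ 3 - 3 / 11 * (1 / r - r ^ 2 / ((7 : ℕ) : ℝ)) - 57 / 400
      = (1 - 3 / 11 * r ^ 2 + 3 / 77 * r ^ 5 - 57 / 400 * r ^ 3) / r ^ 3 := by
    push_cast
    field_simp
    ring
  have h1 : 0 ≤ (1 - 3 / 11 * r ^ 2 + 3 / 77 * r ^ 5 - 57 / 400 * r ^ 3) / r ^ 3 := by positivity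
  linarith

end RelEqN.Small.Tri.Pri7M

namespace RelEqN.Small.Tri

open RelEqN.Small

/-- A priori bounds for seven bodies: upper bound of the distances, region of the triangles. -/
def StmtPri7 : Prop := ∀ q : Fin 7 → ℂ, CC q → ∀ Tb : ℝ, Tb ≤ 11 → T q ≤ Tb →
  (∀ i j : Fin 7, i ≠ j → ‖q i - q j‖ ≤ (21299 : ℝ) / 4096) ∧
  (∀ i j k : Fin 7, i ≠ j → i ≠ k → j ≠ k →
    (1 / ‖q i - q j‖ ^ 3 - 3 / 11 * (1 / ‖q i - q j‖ - ‖q i - q j‖ ^ 2 / 7))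
    + (1 / ‖q i - q k‖ ^ 3 - 3 / 11 * (1 / ‖q i - q k‖ - ‖q i - q k‖ ^ 2 / 7))
    + (1 / ‖q j - q k‖ ^ 3 - 3 / 11 * (1 / ‖q j - q k‖ - ‖q j - q k‖ ^ 2 / 7))
      ≤ Tb / 2 - 18 * (57 / 400))

theorem stmtPri7 (h7 : StmtRegion) (h8 : StmtRange) : StmtPri7 := by
  intro q hq Tb hTb hT
  obtain ⟨h3, -⟩ := h7 7 q (by norm_num) hq (3 / 11) (57 / 400) Pri7M.low
  refine ⟨fun i j hij => ?_, fun i j k hij hik hjk => ?_⟩
  · have h := h8 7 q (by norm_num) hq (39 / 25) (by norm_num) i j hij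
    push_cast at h
    have hb : ‖q i - q j‖ ^ 2 ≤ ((21299 : ℝ) / 4096) ^ 2 := by
      refine le_trans h ?_
      have : T q ≤ 11 := le_trans hT hTb
      nlinarith
    exact le_of_sq_le_sq hb (by norm_num)
  · have h := h3 i j k hij hik hjk
    push_cast at h
    refine le_trans h ?_
    linarith

end RelEqN.Small.Tri
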