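import Pool.Agent.Lib.MP_b9e19b_mp.Small.Tri.Cert

set_option autoImplicit false

/-! Concatenation of checked lists. -/

namespace RelEqN.Small.Tri

theorem runL_append {C : Cert} {l m : List (Nat × Nat × Nat)} (h : C.runL l = true)
    (k : C.runL m = true) : C.runL (l ++ m) = true := by
  simp only [Cert.runL, List.all_append, Bool.and_eq_true]
  exact ⟨h, k⟩

end RelEqN.Small.Tri
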