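import Pool.Agent.Lib.MP_b9e19b_mp.Small.Tri.All
import Pool.Agent.Lib.MP_b9e19b_mp.Small.Tri.Pri7
import Pool.Agent.Lib.MP_b9e19b_mp.Small.Tri.Run.G7a
import Pool.Agent.Lib.MP_b9e19b_mp.Small.Tri.Run.G7b

set_option autoImplicit false

/-!
# Seven bodies with mutual distances at least `6/5`
-/

namespace RelEqN.Small.Tri

open Chk RelEqN.Small

/-- No configuration of seven unit masses with all distances at least `6/5` satisfies the necessary
conditions. -/
theorem noNec7big : ∀ q : Fin 7 → ℂ, Nec q → (∀ j k, j ≠ k → 6 / 5 ≤ ‖q j - q k‖) → False := by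
  intro q hq hbig
  have htr : T q ≤ 11 := by
    have h := hq.tr
    norm_num at h
    exact h
  by_cases h : T q ≤ 10
  · obtain ⟨h1, h2⟩ := stmtPri7 stmtRegion stmtRange q hq.isCC 10 (by norm_num) h
    refine endAll Dat7a.cert G7a.good G7a.run q hq ?_ ?_ ?_ (Or.inl (by decide +kernel))
    · have e : (Dat7a.cert.par.Tb : ℝ) = 10 := by
        have : Dat7a.cert.par.Tb = 10 := rfl
        rw [this]; norm_num
      rw [e]; exact h
    · intro i j hij
      have e0 : Dat7a.cert.kt 0 = 4915 := rfl
      have e1 : Dat7a.cert.kt (Dat7a.cert.kn.length - 1) = 21299 := rfl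
      have e2 : Dat7a.cert.par.D = 4096 := rfl
      rw [e0, e1, e2]
      have := h1 i j hij
      have hb := hbig i j hij
      push_cast
      exact ⟨by linarith, this⟩
    · intro i j k hij hik hjk
      have := h2 i j k hij hik hjk
      have eF : Dat7a.cert.par.F = 65536 := rfl
      have eG : Dat7a.cert.par.G0 = 159581 := rfl
      have ek : Dat7a.cert.par.kn = 3 := rfl
      have ed : Dat7a.cert.par.kd = 11 := rfl
      have eN : Dat7a.cert.par.N = 7 := rfl
      simp only [gR, eF, eG, ek, ed, eN]
      push_cast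
      linarith
  · push Not at h
    obtain ⟨h1, h2⟩ := stmtPri7 stmtRegion stmtRange q hq.isCC 11 le_rfl htr
    refine endAll Dat7b.cert G7b.good G7b.run q hq ?_ ?_ ?_ (Or.inr ⟨?_, rfl⟩)
    · have e : (Dat7b.cert.par.Tb : ℝ) = 11 := by
        have : Dat7b.cert.par.Tb = 11 := rfl
        rw [this]; norm_num
      rw [e]; exact htr
    · intro i j hij
      have e0 : Dat7b.cert.kt 0 = 4915 := rfl
      have e1 : Dat7b.cert.kt (Dat7b.cert.kn.length - 1) = 21299 := rfl
      have e2 : Dat7b.cert.par.D = 4096 := rfl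
      rw [e0, e1, e2]
      have := h1 i j hij
      have hb := hbig i j hij
      push_cast
      exact ⟨by linarith, this⟩
    · intro i j k hij hik hjk
      have := h2 i j k hij hik hjk
      have eF : Dat7b.cert.par.F = 65536 := rfl
      have eG : Dat7b.cert.par.G0 = 192349 := rfl
      have ek : Dat7b.cert.par.kn = 3 := rfl
      have ed : Dat7b.cert.par.kd = 11 := rfl
      have eN : Dat7b.cert.par.N = 7 := rfl
      simp only [gR, eF, eG, ek, ed, eN]
      push_cast
      linarith
    · show (2 * ((7 : ℕ) : ℝ) - 3) - T q ≤ 1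
      push_cast
      linarith

end RelEqN.Small.Tri
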