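import Pool.Agent.Lib.MP_b9e19b_mp.Small.Tri.Spec2

set_option autoImplicit false

/-!
# Three-point certificates: bounds of the cosine and its derivatives on a box
-/

namespace RelEqN.Small.Tri.CoBdM

open Chk

/-- upper rounding -/
theorem le_up (F n d : ℕ) (hd : 0 < d) : (F : ℝ) * n / d ≤ (up F n d : ℕ) := by
  have hd' : (0 : ℝ) < d := by exact_mod_cast hd
  rw [div_le_iff₀ hd']
  have h := Nat.lt_div_mul_add (a := F * n) hd
  have h2 : F * n ≤ up F n d * d := by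
    unfold up
    nlinarith [h]
  exact_mod_cast h2

theorem key (F M d : ℕ) (n e : ℝ) (hd : 0 < d) (he : (d : ℝ) ≤ e) (hn : |n| ≤ M) :
    (F : ℝ) * |n / e| ≤ (up F M d : ℕ) := by
  have hd' : (0 : ℝ) < d := by exact_mod_cast hd
  have he' : 0 < e := lt_of_lt_of_le hd' he
  refine le_trans ?_ (le_up F M d hd)
  rw [abs_div, abs_of_pos he', mul_div_assoc]
  have h1 : |n| / e ≤ (M : ℝ) / d := by
    apply div_le_div₀ (Nat.cast_nonneg M) hn hd' he
  exact mul_le_mul_of_nonneg_left h1 (Nat.cast_nonneg F)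

theorem le_mx_left (a b : ℕ) : a ≤ mx a b := by unfold mx; omega

theorem le_mx_right (a b : ℕ) : b ≤ mx a b := by unfold mx; omega

theorem sub_cast (a b : ℕ) : (a : ℝ) - b ≤ ((a - b : ℕ) : ℝ) := by
  rcases le_total b a with h | h
  · rw [Nat.cast_sub h]
  · rw [Nat.sub_eq_zero_of_le h]
    have : (a : ℝ) ≤ b := by exact_mod_cast h
    simp only [Nat.cast_zero]
    linarith

/-- a real number between `-B` and `A` -/
theorem abs_mx (n A B A' B' : ℝ) (a b : ℕ) (h1 : n ≤ A) (h2 : -B ≤ n) (hA : A ≤ A')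
    (hB : B ≤ B') (h3 : A' ≤ (a : ℝ)) (h4 : B' ≤ (b : ℝ)) : |n| ≤ (mx a b : ℕ) := by
  have ha : (a : ℝ) ≤ (mx a b : ℕ) := by exact_mod_cast le_mx_left a b
  have hb : (b : ℝ) ≤ (mx a b : ℕ) := by exact_mod_cast le_mx_right a b
  rw [abs_le]
  constructor <;> linarith

end RelEqN.Small.Tri.CoBdM

namespace RelEqN.Small.Tri

open Chk CoBdM

theorem stmtCoBd : StmtCoBd := by
  intro P X0 X1 Y0 Y1 Z0 Z1 hP hX hY hZ x hx y hy z hz
  have hD : (0 : ℝ) < P.D := by exact_mod_cast hP.D0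
  obtain ⟨a, rfl⟩ : ∃ a : ℝ, x = a / P.D := ⟨x * P.D, by field_simp⟩
  obtain ⟨b, rfl⟩ : ∃ b : ℝ, y = b / P.D := ⟨y * P.D, by field_simp⟩
  obtain ⟨c, rfl⟩ : ∃ c : ℝ, z = c / P.D := ⟨z * P.D, by field_simp⟩
  have ha0 : (X0 : ℝ) ≤ a := by have := hx.1; rwa [div_le_div_iff_of_pos_right hD] at this
  have ha1 : a ≤ X1 := by have := hx.2; rwa [div_le_div_iff_of_pos_right hD] at this
  have hb0 : (Y0 : ℝ) ≤ b := by have := hy.1; rwa [div_le_div_iff_of_pos_right hD] at this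
  have hb1 : b ≤ Y1 := by have := hy.2; rwa [div_le_div_iff_of_pos_right hD] at this
  have hc0 : (Z0 : ℝ) ≤ c := by have := hz.1; rwa [div_le_div_iff_of_pos_right hD] at this
  have hc1 : c ≤ Z1 := by have := hz.2; rwa [div_le_div_iff_of_pos_right hD] at this
  have hX' : (0 : ℝ) < X0 := by exact_mod_cast hX
  have hY' : (0 : ℝ) < Y0 := by exact_mod_cast hY
  have hZ' : (0 : ℝ) < Z0 := by exact_mod_cast hZ
  have ha : 0 < a := lt_of_lt_of_le hX' ha0
  have hb : 0 < b := lt_of_lt_of_le hY' hb0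
  have hc : 0 < c := lt_of_lt_of_le hZ' hc0
  have aa0 : (X0 : ℝ) * X0 ≤ a * a := mul_self_le_mul_self hX'.le ha0
  have aa1 : a * a ≤ (X1 : ℝ) * X1 := mul_self_le_mul_self ha.le ha1
  have bb0 : (Y0 : ℝ) * Y0 ≤ b * b := mul_self_le_mul_self hY'.le hb0
  have bb1 : b * b ≤ (Y1 : ℝ) * Y1 := mul_self_le_mul_self hb.le hb1
  have cc0 : (Z0 : ℝ) * Z0 ≤ c * c := mul_self_le_mul_self hZ'.le hc0
  have cc1 : c * c ≤ (Z1 : ℝ) * Z1 := mul_self_le_mul_self hc.le hc1
  have ab0 : (X0 : ℝ) * Y0 ≤ a * b := mul_le_mul ha0 hb0 hY'.le ha.le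
  have aab0 : (X0 : ℝ) * X0 * Y0 ≤ a * a * b := mul_le_mul aa0 hb0 hY'.le (by positivity)
  have aaab0 : (X0 : ℝ) * X0 * X0 * Y0 ≤ a * a * a * b :=
    mul_le_mul (mul_le_mul aa0 ha0 hX'.le (by positivity)) hb0 hY'.le (by positivity)
  refine ⟨?_, ?_, ?_, ?_, ?_, ?_, ?_⟩
  · have e : co (a / P.D) (b / P.D) (c / P.D) = (a * a + b * b - c * c) / (2 * (a * b)) := by
      unfold co
      field_simp
    rw [e]
    unfold cmN
    refine key _ _ _ _ _ (by positivity) ?_ ?_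
    · push_cast
      nlinarith [ab0]
    · refine abs_mx _ (a * a + b * b - c * c) (c * c - (a * a + b * b))
        (((X1 * X1 + Y1 * Y1 : ℕ) : ℝ) - ((Z0 * Z0 : ℕ) : ℝ))
        (((Z1 * Z1 : ℕ) : ℝ) - ((X0 * X0 + Y0 * Y0 : ℕ) : ℝ)) _ _ le_rfl (by linarith) ?_ ?_
        (sub_cast _ _) (sub_cast _ _)
      · push_cast; linarith
      · push_cast; linarith
  · have e : ((a / P.D) ^ 2 - (b / P.D) ^ 2 + (c / P.D) ^ 2) / (2 * (a / P.D) ^ 2 * (b / P.D))
        = P.D * ((a * a + c * c - b * b) / (2 * (a * a * b))) := by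
      field_simp
      ring
    rw [e, abs_mul, abs_of_pos hD, ← mul_assoc]
    unfold gaN
    rw [← Nat.cast_mul]
    refine key _ _ _ _ _ (by positivity) ?_ ?_
    · push_cast
      nlinarith [aab0]
    · refine abs_mx _ (a * a + c * c - b * b) (b * b - (a * a + c * c))
        (((X1 * X1 + Z1 * Z1 : ℕ) : ℝ) - ((Y0 * Y0 : ℕ) : ℝ))
        (((Y1 * Y1 : ℕ) : ℝ) - ((X0 * X0 + Z0 * Z0 : ℕ) : ℝ)) _ _ le_rfl (by linarith) ?_ ?_
        (sub_cast _ _) (sub_cast _ _)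
      · push_cast; linarith
      · push_cast; linarith
  · have e : ((b / P.D) ^ 2 - (c / P.D) ^ 2) / ((a / P.D) ^ 3 * (b / P.D))
        = (P.D * P.D) * ((b * b - c * c) / (a * a * a * b)) := by
      field_simp
    rw [e, abs_mul, abs_of_pos (by positivity : (0 : ℝ) < P.D * P.D), ← mul_assoc, ← mul_assoc]
    unfold haN
    rw [← Nat.cast_mul, ← Nat.cast_mul]
    refine key _ _ _ _ _ (by positivity) ?_ ?_
    · push_cast
      linarith [aaab0]
    · have h1 := sub_cast (Z1 * Z1) (Y0 * Y0)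
      have h2 := sub_cast (Y1 * Y1) (Z0 * Z0)
      have h3 : ((Z1 * Z1 - Y0 * Y0 : ℕ) : ℝ)
          ≤ ((mx (Z1 * Z1 - Y0 * Y0) (Y1 * Y1 - Z0 * Z0) : ℕ) : ℝ) := by
        exact_mod_cast le_mx_left _ _
      have h4 : ((Y1 * Y1 - Z0 * Z0 : ℕ) : ℝ)
          ≤ ((mx (Z1 * Z1 - Y0 * Y0) (Y1 * Y1 - Z0 * Z0) : ℕ) : ℝ) := by
        exact_mod_cast le_mx_right _ _
      simp only [Nat.cast_mul] at h1 h2
      rw [abs_le]
      constructor
      · linarith
      · linarith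
  · have e : (c / P.D) / ((a / P.D) * (b / P.D)) = P.D * (c / (a * b)) := by
      field_simp
    rw [e, ← mul_assoc]
    unfold gzN
    rw [← Nat.cast_mul]
    have h := key (P.F * P.D) Z1 (X0 * Y0) c (a * b) (by positivity) (by push_cast; linarith)
      (by rw [abs_of_pos hc]; exact hc1)
    rwa [abs_of_pos (div_pos hc (mul_pos ha hb))] at h
  · have e : 1 / ((a / P.D) * (b / P.D)) = (P.D * P.D) * (1 / (a * b)) := by
      field_simp
    rw [e, ← mul_assoc, ← mul_assoc]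
    unfold hzN
    rw [← Nat.cast_mul, ← Nat.cast_mul]
    have h := key (P.F * P.D * P.D) 1 (X0 * Y0) 1 (a * b) (by positivity)
      (by push_cast; linarith) (by simp)
    rwa [abs_of_pos (div_pos one_pos (mul_pos ha hb))] at h
  · unfold cmN
    rw [Nat.add_comm (Y1 * Y1) (X1 * X1), Nat.add_comm (Y0 * Y0) (X0 * X0)]
    congr 1
    ring
  · intro k
    have e : 1 / (a / P.D) ^ k = ((P.D ^ k : ℕ) : ℝ) * (1 / a ^ k) := by
      rw [div_pow]
      push_cast
      field_simp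
    have h0 : 0 < a ^ k := pow_pos ha k
    have hXk : 0 < X0 ^ k := Nat.pow_pos hX
    have h := key (P.F * P.D ^ k) 1 (X0 ^ k) 1 (a ^ k) hXk
      (by push_cast; exact pow_le_pow_left₀ hX'.le ha0 k) (by simp)
    rw [abs_of_pos (div_pos one_pos h0)] at h
    rw [e, ← mul_assoc, ← Nat.cast_mul]
    refine h.trans ?_
    unfold up ipw
    rw [mul_one]

end RelEqN.Small.Tri
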