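import Pool.Agent.Lib.MP_b9e19b_mp.Small.Tri.Spec

set_option autoImplicit false

/-!
Three-point certificates: distribution over the triangles
-/

namespace RelEqN.Small.Tri

open RelEqN.Small

namespace DistM

variable {N : ℕ}

/-- the sum over the ordered triples of different indices -/
private noncomputable def TT (R : Fin N → Fin N → Fin N → ℝ) : ℝ :=
  ∑ i, ∑ j, ∑ k, if i ≠ j ∧ i ≠ k ∧ j ≠ k then R i j k else 0

private lemma TT_swap12 (R : Fin N → Fin N → Fin N → ℝ) : TT (fun i j k => R j i k) = TT R := by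
  unfold TT
  rw [Finset.sum_comm]
  refine Finset.sum_congr rfl fun i _ => Finset.sum_congr rfl fun j _ =>
    Finset.sum_congr rfl fun k _ => ?_
  refine if_congr ?_ rfl rfl
  constructor
  · rintro ⟨h1, h2, h3⟩
    exact ⟨h1.symm, h3, h2⟩
  · rintro ⟨h1, h2, h3⟩
    exact ⟨h1.symm, h3, h2⟩

private lemma TT_swap23 (R : Fin N → Fin N → Fin N → ℝ) : TT (fun i j k => R i k j) = TT R := by
  unfold TT
  refine Finset.sum_congr rfl fun i _ => ?_
  rw [Finset.sum_comm]
  refine Finset.sum_congr rfl fun j _ => Finset.sum_congr rfl fun k _ => ?_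
  refine if_congr ?_ rfl rfl
  constructor
  · rintro ⟨h1, h2, h3⟩
    exact ⟨h2, h1, h3.symm⟩
  · rintro ⟨h1, h2, h3⟩
    exact ⟨h2, h1, h3.symm⟩

private lemma TT_add (R S : Fin N → Fin N → Fin N → ℝ) :
    TT (fun i j k => R i j k + S i j k) = TT R + TT S := by
  unfold TT
  rw [← Finset.sum_add_distrib]
  refine Finset.sum_congr rfl fun i _ => ?_
  rw [← Finset.sum_add_distrib]
  refine Finset.sum_congr rfl fun j _ => ?_
  rw [← Finset.sum_add_distrib]
  refine Finset.sum_congr rfl fun k _ => ?_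
  split_ifs
  · rfl
  · rw [add_zero]

private lemma TT_six (R : Fin N → Fin N → Fin N → ℝ) :
    TT (fun i j k => R i j k + R i k j + R j i k + R j k i + R k i j + R k j i) = 6 * TT R := by
  have h1 : TT (fun i j k => R i k j) = TT R := TT_swap23 R
  have h2 : TT (fun i j k => R j i k) = TT R := TT_swap12 R
  have h3 : TT (fun i j k => R j k i) = TT R := by
    rw [← h1]
    exact TT_swap12 (fun i j k => R i k j)
  have h4 : TT (fun i j k => R k i j) = TT R := by
    rw [← h2]
    exact TT_swap23 (fun i j k => R j i k)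
  have h5 : TT (fun i j k => R k j i) = TT R := by
    rw [← h4]
    exact TT_swap12 (fun i j k => R k i j)
  rw [TT_add (fun i j k => R i j k + R i k j + R j i k + R j k i + R k i j),
    TT_add (fun i j k => R i j k + R i k j + R j i k + R j k i),
    TT_add (fun i j k => R i j k + R i k j + R j i k),
    TT_add (fun i j k => R i j k + R i k j), TT_add R, h1, h2, h3, h4, h5]
  ring

private lemma sum_erase_if (i : Fin N) (g : Fin N → ℝ) :
    ∑ j ∈ Finset.univ.erase i, g j = ∑ j, if i ≠ j then g j else 0 := by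
  rw [← Finset.sum_filter]
  refine Finset.sum_congr ?_ fun _ _ => rfl
  ext j
  simp [eq_comm]

private lemma TT_eq (R : Fin N → Fin N → Fin N → ℝ) :
    TT R = ∑ i, ∑ j ∈ Finset.univ.erase i, ∑ k ∈ (Finset.univ.erase i).erase j, R i j k := by
  unfold TT
  refine Finset.sum_congr rfl fun i _ => ?_
  rw [sum_erase_if]
  refine Finset.sum_congr rfl fun j _ => ?_
  by_cases hij : i ≠ j
  · rw [if_pos hij]
    have h1 : (Finset.univ.erase i).erase j = Finset.univ.filter fun k => i ≠ k ∧ j ≠ k := by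
      ext k
      simp only [Finset.mem_erase, Finset.mem_univ, and_true, Finset.mem_filter, true_and]
      constructor
      · rintro ⟨h1, h2⟩
        exact ⟨h2.symm, h1.symm⟩
      · rintro ⟨h1, h2⟩
        exact ⟨h2.symm, h1.symm⟩
    rw [h1, Finset.sum_filter]
    refine Finset.sum_congr rfl fun k _ => ?_
    exact if_congr ⟨fun h => h.2, fun h => ⟨hij, h⟩⟩ rfl rfl
  · rw [if_neg hij]
    refine Finset.sum_eq_zero fun k _ => ?_
    rw [if_neg fun h => hij h.1]

private lemma card1 (i : Fin N) : (Finset.univ.erase i).card = N - 1 := by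
  rw [Finset.card_erase_of_mem (Finset.mem_univ i), Finset.card_univ, Fintype.card_fin]

private lemma card2 (i j : Fin N) (h : j ∈ Finset.univ.erase i) :
    ((Finset.univ.erase i).erase j).card = N - 2 := by
  rw [Finset.card_erase_of_mem h, card1]
  rfl

private lemma cs_eq (q : Fin N → ℂ) (i j k : Fin N) :
    cs q i j k = co ‖q i - q j‖ ‖q i - q k‖ ‖q j - q k‖ := by
  have h1 : ‖q j - q k‖ ^ 2 = ‖q i - q j‖ ^ 2 + ‖q i - q k‖ ^ 2 -
      2 * (star (q i - q j) * (q i - q k)).re := by
    have h2 : q j - q k = (q i - q k) - (q i - q j) := by ring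
    rw [h2]
    generalize q i - q k = z
    generalize q i - q j = w
    rw [← Complex.normSq_eq_norm_sq, ← Complex.normSq_eq_norm_sq, ← Complex.normSq_eq_norm_sq,
      Complex.normSq_apply, Complex.normSq_apply, Complex.normSq_apply, Complex.mul_re,
      Complex.sub_re, Complex.sub_im]
    have h3 : (star w).re = w.re := Complex.conj_re w
    have h4 : (star w).im = - w.im := Complex.conj_im w
    rw [h3, h4]
    ring
  rw [cs, co, h1]
  have h5 : ‖q i - q j‖ ^ 2 + ‖q i - q k‖ ^ 2 - (‖q i - q j‖ ^ 2 + ‖q i - q k‖ ^ 2 -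
      2 * (star (q i - q j) * (q i - q k)).re) = 2 * (star (q i - q j) * (q i - q k)).re := by
    ring
  rw [h5, mul_assoc, mul_div_mul_left _ _ (two_ne_zero)]

end DistM

open DistM in
theorem stmtDist : StmtDist := by
  intro N q hN hq C u G h
  have hN1 : (N : ℝ) - 1 ≠ 0 := by
    have : (3 : ℝ) ≤ N := by exact_mod_cast hN
    linarith
  have hN2 : (N : ℝ) - 2 ≠ 0 := by
    have : (3 : ℝ) ≤ N := by exact_mod_cast hN
    linarith
  have hN0 : (N : ℝ) ≠ 0 := by
    have : (3 : ℝ) ≤ N := by exact_mod_cast hN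
    linarith
  have hc1 : ((N - 1 : ℕ) : ℝ) = N - 1 := by
    rw [Nat.cast_sub (by omega)]
    norm_num
  have hc2 : ((N - 2 : ℕ) : ℝ) = N - 2 := by
    rw [Nat.cast_sub (by omega)]
    norm_num
  set R : Fin N → Fin N → Fin N → ℝ := fun i j k =>
    (C / (N * (N - 1) * (N - 2)) + u ‖q i - q j‖ / (N - 2)) +
      G ‖q i - q j‖ ‖q i - q k‖ (cs q i j k) with hR
  have hTR : TT R = C + pS q u + tS q G := by
    have h1 : TT (fun _ _ _ : Fin N => C / (N * (N - 1) * (N - 2))) = C := by
      rw [TT_eq]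
      have h2 : ∀ i : Fin N, ∑ j ∈ Finset.univ.erase i, ∑ k ∈ (Finset.univ.erase i).erase j,
          C / (N * (N - 1) * (N - 2)) = (N - 1) * ((N - 2) * (C / (N * (N - 1) * (N - 2)))) := by
        intro i
        rw [Finset.sum_congr rfl fun j hj => by
          rw [Finset.sum_const, card2 i j hj, nsmul_eq_mul, hc2], Finset.sum_const, card1,
          nsmul_eq_mul, hc1]
      rw [Finset.sum_congr rfl fun i _ => h2 i, Finset.sum_const, Finset.card_univ,
        Fintype.card_fin, nsmul_eq_mul]
      field_simp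
    have h3 : TT (fun i j _ : Fin N => u ‖q i - q j‖ / (N - 2)) = pS q u := by
      rw [TT_eq, pS]
      refine Finset.sum_congr rfl fun i _ => Finset.sum_congr rfl fun j hj => ?_
      rw [Finset.sum_const, card2 i j hj, nsmul_eq_mul, hc2]
      field_simp
    have h4 : TT (fun i j k : Fin N => G ‖q i - q j‖ ‖q i - q k‖ (cs q i j k)) = tS q G := by
      rw [TT_eq, tS]
    rw [hR, TT_add (fun i j k => C / (N * (N - 1) * (N - 2)) + u ‖q i - q j‖ / (N - 2)),
      TT_add (fun _ _ _ => C / (N * (N - 1) * (N - 2))), h1, h3, h4]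
  rw [← hTR]
  have hlt : ∀ i j k : Fin N, i ≠ j → i ≠ k → j ≠ k →
      R i j k + R i k j + R j i k + R j k i + R k i j + R k j i < 0 := by
    intro i j k hij hik hjk
    have h1 := h i j k hij hik hjk
    have e1 : ‖q j - q i‖ = ‖q i - q j‖ := norm_sub_rev _ _
    have e2 : ‖q k - q i‖ = ‖q i - q k‖ := norm_sub_rev _ _
    have e3 : ‖q k - q j‖ = ‖q j - q k‖ := norm_sub_rev _ _
    have c1 : co ‖q i - q k‖ ‖q i - q j‖ ‖q j - q k‖ = co ‖q i - q j‖ ‖q i - q k‖ ‖q j - q k‖ := by
      unfold co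
      ring
    have c2 : co ‖q j - q k‖ ‖q i - q j‖ ‖q i - q k‖ = co ‖q i - q j‖ ‖q j - q k‖ ‖q i - q k‖ := by
      unfold co
      ring
    have c3 : co ‖q j - q k‖ ‖q i - q k‖ ‖q i - q j‖ = co ‖q i - q k‖ ‖q j - q k‖ ‖q i - q j‖ := by
      unfold co
      ring
    simp only [hR, cs_eq, e1, e2, e3, c1, c2, c3]
    refine lt_of_eq_of_lt ?_ h1
    field_simp
    ring
  have h6 : TT (fun i j k => R i j k + R i k j + R j i k + R j k i + R k i j + R k j i) < 0 := by
    rw [TT_eq]
    have hle : ∀ i j k : Fin N, j ∈ Finset.univ.erase i → k ∈ (Finset.univ.erase i).erase j →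
        R i j k + R i k j + R j i k + R j k i + R k i j + R k j i < 0 := by
      intro i j k hj hk
      rw [Finset.mem_erase] at hj hk
      exact hlt i j k hj.1.symm (Finset.mem_erase.1 hk.2).1.symm hk.1.symm
    let i0 : Fin N := ⟨0, by omega⟩
    refine Finset.sum_neg' (fun i _ => Finset.sum_nonpos fun j hj => Finset.sum_nonpos fun k hk =>
      (hle i j k hj hk).le) ⟨i0, Finset.mem_univ _, ?_⟩
    refine Finset.sum_neg (fun j hj => Finset.sum_neg (fun k hk => hle i0 j k hj hk) ?_) ?_
    · rw [← Finset.card_pos, card2 i0 j hj]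
      omega
    · rw [← Finset.card_pos, card1]
      omega
  rw [TT_six] at h6
  linarith

end RelEqN.Small.Tri
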