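import Pool.Agent.Lib.MP_b9e19b_mp.Small.Tri.Spec3

set_option autoImplicit false

/-!
# Three-point certificates: the end of the argument
-/

namespace RelEqN.Small.Tri

open Chk RelEqN.Small

namespace EndM

theorem lam_one : lam 1 = 0 := by
  unfold lam
  have h : Real.sqrt (4 * 1 ^ 2 + 9 / 4) = 5 / 2 := by
    rw [show (4 * 1 ^ 2 + 9 / 4 : ℝ) = (5 / 2) ^ 2 by norm_num]
    exact Real.sqrt_sq (by norm_num)
  rw [h]
  norm_num

/-- the range of the knots -/
def rng (C : Cert) : Set ℝ :=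
  Set.Icc ((C.kn.getD 0 0 : ℝ) / C.par.D) ((C.kn.getD (C.kn.length - 1) 0 : ℝ) / C.par.D)

/-- sorted sides -/
theorem core (h2 : StmtGood) (h3 : StmtMatchU) (h4 : StmtMatchW) (h7 : StmtCov) (hgo : StmtGo)
    (C : Cert) (hC : C.good = true) (hR : C.Run) (x y z : ℝ) (hxy : x ≤ y) (hyz : y ≤ z)
    (ht : z ≤ x + y) (hx : x ∈ rng C) (hy : y ∈ rng C) (hz : z ∈ rng C)
    (hreg : C.par.F * (gR C.par x + gR C.par y + gR C.par z) ≤ C.par.G0) :
    C.fn.S C.par.N C.par.Tb x y z < 0 := by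
  obtain ⟨hP, -, -, -, hlen, hkn, hcel, -, -, -⟩ := h2 C hC
  obtain ⟨ι, hι, hmono⟩ := h7.1 C.par.D hP.D0 C.kn hlen hkn
  obtain ⟨ha, hxa⟩ := hι x hx
  obtain ⟨hb, hyb⟩ := hι y hy
  obtain ⟨hc, hzc⟩ := hι z hz
  have hab := hmono x y hxy hx hy
  have hbc := hmono y z hyz hy hz
  have hac := hab.trans hbc
  have htri := hR _ _ _ hab hbc hc
  rw [h7.2.2.2] at htri
  obtain ⟨a1, a2, a3, -⟩ := hcel _ ha
  obtain ⟨b1, b2, b3, -⟩ := hcel _ hb
  obtain ⟨c1, c2, c3, -⟩ := hcel _ hc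
  have hxa' : x ∈ Set.Icc (((C.cel (ι x)).a0 : ℝ) / C.par.D) (((C.cel (ι x)).a1 : ℝ) / C.par.D) := by
    rw [a2, a3]
    exact hxa
  have hyb' : y ∈ Set.Icc (((C.cel (ι y)).a0 : ℝ) / C.par.D) (((C.cel (ι y)).a1 : ℝ) / C.par.D) := by
    rw [b2, b3]
    exact hyb
  have hzc' : z ∈ Set.Icc (((C.cel (ι z)).a0 : ℝ) / C.par.D) (((C.cel (ι z)).a1 : ℝ) / C.par.D) := by
    rw [c2, c3]
    exact hzc
  have key := hgo C.par (C.cel (ι x)) (C.cel (ι y)) (C.cel (ι z)) (C.ker (ι x) (ι y))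
    (C.ker (ι y) (ι z)) (C.ker (ι x) (ι z)) hP a1 b1 c1 htri x hxa' y hyb' z hzc'
    ⟨hxy, hyz, ht, hreg⟩
  have u1 := h3 C hC _ ha x hxa
  have u2 := h3 C hC _ hb y hyb
  have u3 := h3 C hC _ hc z hzc
  have w1 := h4 C hC _ _ hab hb x hxa y hyb z
  have w2 := h4 C hC _ _ hbc hc y hyb z hzc x
  have w3 := h4 C hC _ _ hac hc x hxa z hzc y
  have hmu : C.fn.mu = (C.par.mu : ℝ) / C.par.Q := rfl
  unfold SR at key
  unfold Fn.S
  rw [← u1, ← u2, ← u3, ← w1, ← w2, ← w3] at key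
  rw [hmu]
  linarith

/-- all orders of the sides -/
theorem all (h2 : StmtGood) (h3 : StmtMatchU) (h4 : StmtMatchW) (h5 : StmtSymS) (h7 : StmtCov)
    (hgo : StmtGo)
    (C : Cert) (hC : C.good = true) (hR : C.Run) (x y z : ℝ) (tx : x ≤ y + z) (ty : y ≤ x + z)
    (tz : z ≤ x + y) (hx : x ∈ rng C) (hy : y ∈ rng C) (hz : z ∈ rng C)
    (hreg : C.par.F * (gR C.par x + gR C.par y + gR C.par z) ≤ C.par.G0) :
    C.fn.S C.par.N C.par.Tb x y z < 0 := by
  have co := core h2 h3 h4 h7 hgo C hC hR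
  have s := h5 C.fn C.par.N C.par.Tb
  rcases le_total x y with h | h
  · rcases le_total y z with h' | h'
    · exact co x y z h h' tz hx hy hz hreg
    · rcases le_total x z with h'' | h''
      · rw [(s x y z).2]
        refine co x z y h'' h' ty hx hz hy ?_
        rw [add_right_comm]
        exact hreg
      · rw [(s x y z).2, (s x z y).1]
        refine co z x y h'' h (by linarith) hz hx hy ?_
        rw [add_comm (gR C.par z), add_right_comm]
        exact hreg
  · rcases le_total y z with h' | h'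
    · rcases le_total x z with h'' | h''
      · rw [(s x y z).1]
        refine co y x z h h'' (by linarith) hy hx hz ?_
        rw [add_comm (gR C.par y)]
        exact hreg
      · rw [(s x y z).1, (s y x z).2]
        refine co y z x h' h'' tx hy hz hx ?_
        rw [add_right_comm, add_comm (gR C.par y)]
        exact hreg
    · rw [(s x y z).1, (s y x z).2, (s y z x).1]
      refine co z y x h' h (by linarith) hz hy hx ?_
      rw [add_comm (gR C.par z), add_right_comm, add_comm (gR C.par y)]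
      exact hreg

end EndM

open EndM in
theorem stmtEnd (h2 : StmtGood) (h3 : StmtMatchU) (h4 : StmtMatchW) (h5 : StmtSymS)
    (h6 : StmtPsdC) (h7 : StmtCov) (hgo : StmtGo) (hm : StmtMain) (hm0 : StmtMain0) :
    StmtEnd := by
  intro C hC hR q hN hT hr hreg hz
  obtain ⟨hP, hE, -, -, hlen, hkn, -, -, -, -⟩ := h2 C hC
  have hrng : ∀ i j : Fin C.par.N, i ≠ j → ‖q i - q j‖ ∈ rng C := fun i j hij => hr i j hij
  have hmu : 0 ≤ C.fn.mu := by
    have h : C.fn.mu = (C.par.mu : ℝ) / C.par.Q := rfl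
    rw [h]
    positivity
  have hex : ∃ i j k : Fin C.par.N, i ≠ j ∧ i ≠ k ∧ j ≠ k ∧
      0 ≤ C.fn.S C.par.N C.par.Tb ‖q i - q j‖ ‖q i - q k‖ ‖q j - q k‖ := by
    rcases hz with h0 | ⟨hs, hca⟩
    · exact hm0 C.par.N q hP.N3 hN C.fn C.par.Tb hmu hT (h6.2 C h0)
    · have hE' : (0 : ℝ) < C.E := by exact_mod_cast hE
      refine hm C.par.N q hP.N3 hN C.fn C.par.Tb 1 hmu hT zero_le_one le_rfl (by linarith) ?_ ?_ ?_
      · have h : C.fn.ca = (C.ca : ℝ) / C.E := rfl
        have h' : C.fn.ca = 4 := by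
          rw [h, hca, Nat.cast_mul]
          push_cast
          field_simp
        rw [lam_one, h']
        norm_num
      · have h : C.fn.cb = (C.cb : ℝ) / C.E := rfl
        rw [lam_one, h]
        have h' : (0 : ℝ) ≤ (C.cb : ℝ) / C.E := by positivity
        linarith
      · obtain ⟨ι, hι, -⟩ := h7.1 C.par.D hP.D0 C.kn hlen hkn
        constructor
        · intro i j hij
          obtain ⟨ha, hxa⟩ := hι _ (hrng i j hij)
          exact (h6.1 C hC _ ha _ hxa).1
        · intro i j hij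
          obtain ⟨ha, hxa⟩ := hι _ (hrng i j hij)
          exact (h6.1 C hC _ ha _ hxa).2
  obtain ⟨i, j, k, hij, hik, hjk, h0⟩ := hex
  refine absurd h0 (not_le.2 ?_)
  refine all h2 h3 h4 h5 h7 hgo C hC hR _ _ _ ?_ ?_ ?_ (hrng i j hij) (hrng i k hik)
    (hrng j k hjk) (hreg i j k hij hik hjk)
  · have h : q i - q j = (q i - q k) - (q j - q k) := by ring
    rw [h]
    exact norm_sub_le _ _
  · have h : q i - q k = (q i - q j) + (q j - q k) := by ring
    rw [h]
    exact norm_add_le _ _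
  · have h : q j - q k = (q i - q k) - (q i - q j) := by ring
    rw [h]
    exact (norm_sub_le _ _).trans (by rw [add_comm])

end RelEqN.Small.Tri
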