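import Pool.Agent.Lib.MP_b9e19b_mp.Small.Tri.Spec2

set_option autoImplicit false

/-!
# Three-point certificates: induction over the bisection
-/

namespace RelEqN.Small.Tri

open Chk

namespace GoM

theorem mid {a b D : ℝ} {c : ℝ} {x : ℝ} (hx : x ∈ Set.Icc (a / D) (b / D)) :
    x ∈ Set.Icc (a / D) (c / D) ∨ x ∈ Set.Icc (c / D) (b / D) := by
  rcases le_total x (c / D) with h | h
  · exact Or.inl ⟨hx.1, h⟩
  · exact Or.inr ⟨h, hx.2⟩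

theorem go_sound (h12 : StmtLeaf) (h13 : StmtSkip) (P : Par) (p q r : Cel) (k l m : Ker)
    (hP : P.Ok) (hp : p.Ok P) (hq : q.Ok P) (hr : r.Ok P) (n : ℕ) :
    ∀ X0 X1 Y0 Y1 Z0 Z1 : ℕ, p.a0 ≤ X0 → X0 ≤ X1 → X1 ≤ p.a1 → q.a0 ≤ Y0 → Y0 ≤ Y1 → Y1 ≤ q.a1 →
      r.a0 ≤ Z0 → Z0 ≤ Z1 → Z1 ≤ r.a1 → go P p q r k l m n X0 X1 Y0 Y1 Z0 Z1 = true →
      ∀ x ∈ Set.Icc ((X0 : ℝ) / P.D) ((X1 : ℝ) / P.D),
      ∀ y ∈ Set.Icc ((Y0 : ℝ) / P.D) ((Y1 : ℝ) / P.D),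
      ∀ z ∈ Set.Icc ((Z0 : ℝ) / P.D) ((Z1 : ℝ) / P.D), Adm P x y z →
        SR P p q r k l m x y z < 0 := by
  induction n with
  | zero =>
    intro X0 X1 Y0 Y1 Z0 Z1 _ _ _ _ _ _ _ _ _ h
    rw [go] at h
    exact absurd h (by simp)
  | succ n ih =>
    intro X0 X1 Y0 Y1 Z0 Z1 a1 a2 a3 b1 b2 b3 c1 c2 c3 h x hx y hy z hz hadm
    rw [go] at h
    by_cases hs : skip P X0 X1 Y0 Y1 Z0 Z1 = true
    · exact absurd hadm (h13 P X0 X1 Y0 Y1 Z0 Z1 hP (lt_of_lt_of_le hp.pos a1) a2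
        (lt_of_lt_of_le hq.pos b1) b2 (lt_of_lt_of_le hr.pos c1) c2 hs x hx y hy z hz)
    rw [if_neg hs] at h
    by_cases hc : corners P p q r k l m (e1 P p q r k l m X0 X1 Y0 Y1 Z0 Z1
      + e2 P p q r k l m X0 X1 Y0 Y1 Z0 Z1 + e3 P p q r k l m X0 X1 Y0 Y1 Z0 Z1)
      X0 X1 Y0 Y1 Z0 Z1 = true
    · exact h12 P p q r k l m X0 X1 Y0 Y1 Z0 Z1 hP hp hq hr a1 a2 a3 b1 b2 b3 c1 c2 c3 hc
        x hx y hy z hz
    rw [if_neg hc] at h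
    split_ifs at h with h1 h2
    · rw [Bool.and_eq_true] at h
      have m1 : X0 ≤ (X0 + X1) / 2 := by omega
      have m2 : (X0 + X1) / 2 ≤ X1 := by omega
      rcases mid (c := (((X0 + X1) / 2 : ℕ) : ℝ)) hx with hx' | hx'
      · exact ih X0 _ Y0 Y1 Z0 Z1 a1 m1 (m2.trans a3) b1 b2 b3 c1 c2 c3 h.1 x hx' y hy z hz hadm
      · exact ih _ X1 Y0 Y1 Z0 Z1 (a1.trans m1) m2 a3 b1 b2 b3 c1 c2 c3 h.2 x hx' y hy z hz hadm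
    · rw [Bool.and_eq_true] at h
      have m1 : Y0 ≤ (Y0 + Y1) / 2 := by omega
      have m2 : (Y0 + Y1) / 2 ≤ Y1 := by omega
      rcases mid (c := (((Y0 + Y1) / 2 : ℕ) : ℝ)) hy with hy' | hy'
      · exact ih X0 X1 Y0 _ Z0 Z1 a1 a2 a3 b1 m1 (m2.trans b3) c1 c2 c3 h.1 x hx y hy' z hz hadm
      · exact ih X0 X1 _ Y1 Z0 Z1 a1 a2 a3 (b1.trans m1) m2 b3 c1 c2 c3 h.2 x hx y hy' z hz hadm
    · rw [Bool.and_eq_true] at h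
      have m1 : Z0 ≤ (Z0 + Z1) / 2 := by omega
      have m2 : (Z0 + Z1) / 2 ≤ Z1 := by omega
      rcases mid (c := (((Z0 + Z1) / 2 : ℕ) : ℝ)) hz with hz' | hz'
      · exact ih X0 X1 Y0 Y1 Z0 _ a1 a2 a3 b1 b2 b3 c1 m1 (m2.trans c3) h.1 x hx y hy z hz' hadm
      · exact ih X0 X1 Y0 Y1 _ Z1 a1 a2 a3 b1 b2 b3 (c1.trans m1) m2 c3 h.2 x hx y hy z hz' hadm

end GoM

open GoM in
theorem stmtGo (h12 : StmtLeaf) (h13 : StmtSkip) : StmtGo := by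
  intro P p q r k l m hP hp hq hr hcell x hx y hy z hz hadm
  unfold cell at hcell
  exact go_sound h12 h13 P p q r k l m hP hp hq hr 40 _ _ _ _ _ _ le_rfl hp.lt.le le_rfl le_rfl
    hq.lt.le le_rfl le_rfl hr.lt.le le_rfl hcell x hx y hy z hz hadm

end RelEqN.Small.Tri
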