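import Pool.Agent.Lib.MP_b9e19b_mp.Small.Tri.Spec3

set_option autoImplicit false

/-!
# Three-point certificates: what the check of a certificate says
-/

namespace RelEqN.Small.Tri

open Chk RelEqN.Small

namespace GoodM

lemma beq_iff (a b : ℕ) : Nat.beq a b = true ↔ a = b := by rw [Nat.beq_eq]

lemma ble_iff (a b : ℕ) : Nat.ble a b = true ↔ a ≤ b := by rw [Nat.ble_eq]

lemma blt_iff (a b : ℕ) : Nat.blt a b = true ↔ a < b := by rw [Nat.blt_eq]

lemma sum_eq (H : ℕ) (a b : ℕ) : ∀ vs : List (List ℕ),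
    (Cert.sA H vs a b : ℝ) - Cert.sB H vs a b
      = (vs.map fun v => ((v.getD a H : ℝ) - H) * ((v.getD b H : ℝ) - H)).sum := by
  intro vs
  induction vs with
  | nil => simp [Cert.sA, Cert.sB]
  | cons v vs ih =>
    have h1 : (Cert.sA H (v :: vs) a b : ℝ)
        = ((v.getD a H : ℝ) * (v.getD b H : ℝ) + (H : ℝ) * H) + Cert.sA H vs a b := by
      simp only [Cert.sA, List.map_cons, List.sum_cons]
      push_cast
      ring
    have h2 : (Cert.sB H (v :: vs) a b : ℝ)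
        = ((H : ℝ) * ((v.getD a H : ℝ) + (v.getD b H : ℝ))) + Cert.sB H vs a b := by
      simp only [Cert.sB, List.map_cons, List.sum_cons]
      push_cast
      ring
    rw [h1, h2, List.map_cons, List.sum_cons, ← ih]
    ring

lemma ad_sq (a b : ℕ) : ((ad a b * ad a b : ℕ) : ℝ) = ((a : ℝ) - b) ^ 2 := by
  unfold ad
  rcases le_total a b with h | h
  · rw [Nat.sub_eq_zero_of_le h, zero_add, Nat.cast_mul, Nat.cast_sub h]
    ring
  · rw [Nat.sub_eq_zero_of_le h, add_zero, Nat.cast_mul, Nat.cast_sub h]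
    ring

structure CelFacts (C : Cert) (a : ℕ) : Prop where
  e0 : (C.cel a).a0 = C.kt a
  e1 : (C.cel a).a1 = C.kt (a + 1)
  pos : 0 < (C.cel a).a0
  lt : (C.cel a).a0 < (C.cel a).a1
  cvx : 2 * (C.cel a).d1 ≤ (C.cel a).d0 + (C.cel a).d2 + 2 * C.par.O

lemma celFacts (C : Cert) (a : ℕ) (h : C.okCel (C.cel a) a = true) : CelFacts C a := by
  unfold Cert.okCel at h
  simp only [Bool.and_eq_true, beq_iff, ble_iff, blt_iff] at h
  obtain ⟨⟨⟨⟨⟨⟨⟨⟨⟨h1, h2⟩, h3⟩, h4⟩, -⟩, -⟩, -⟩, -⟩, -⟩, h10⟩ := h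
  exact ⟨h1, h2, h3, h4, h10⟩

end GoodM

open GoodM

theorem stmtGood : StmtGood := by
  intro C h
  unfold Cert.good at h
  simp only [Bool.and_eq_true, beq_iff, ble_iff, blt_iff, List.all_eq_true, List.mem_range] at h
  obtain ⟨⟨⟨⟨⟨⟨⟨⟨⟨⟨hN, hD⟩, hE⟩, hQ⟩, hF⟩, hk⟩, hO⟩, hL⟩, hC⟩, hK⟩, hP⟩ := h
  have hcf : ∀ a, a + 1 < C.kn.length → CelFacts C a := fun a ha =>
    celFacts C a (hC a (by omega))
  refine ⟨⟨hN, hD, ?_, hF, hk⟩, hE, hQ, hO, hL, ?_, ?_, ?_, ?_,
    fun vs a b => sum_eq C.H a b vs⟩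
  · rw [hQ]
    positivity
  · intro i hi
    have := hcf i hi
    have h1 := this.lt
    rw [this.e0, this.e1] at h1
    exact h1
  · intro a ha
    have := hcf a ha
    exact ⟨⟨this.pos, this.lt, this.cvx⟩, this.e0, this.e1, hC a (by omega)⟩
  · intro a b hab hb
    have := hK a (by omega) (b - a) (by omega)
    rwa [Nat.add_sub_cancel' hab] at this
  · intro a ha
    have := hP a ha
    unfold Cert.okP at this
    simp only [Bool.and_eq_true, ble_iff] at this
    obtain ⟨h1, h2⟩ := this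
    constructor
    · rw [← ad_sq]
      exact_mod_cast h1
    · rw [← ad_sq]
      exact_mod_cast h2

end RelEqN.Small.Tri
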