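import Pool.Agent.Lib.MP_b9e19b_mp.Small.Tri.Spec2

set_option autoImplicit false

/-!
# Three-point certificates: second derivative bound of the pair function
-/

namespace RelEqN.Small.Tri.KUaM

open Chk

theorem deriv1 (ψ R C G : ℝ → ℝ) (s r c g m x : ℝ) (hx : x ≠ 0) (hs : HasDerivAt ψ s x)
    (hr : HasDerivAt R r x) (hc : HasDerivAt C c x) (hg : HasDerivAt G g x) (w : ℝ) :
    HasDerivAt (fun t => w * (G t + ψ t / t ^ 2 - ψ t * t / 2 - m / t ^ 3 + 10 / t ^ 6 + C t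
      + R t / t ^ 3))
      (w * (g + (s / x ^ 2 - 2 * ψ x / x ^ 3) - (s * x + ψ x) / 2 + 3 * m / x ^ 4 - 60 / x ^ 7 + c
      + (r / x ^ 3 - 3 * R x / x ^ 4))) x := by
  have h2 : HasDerivAt (fun t : ℝ => t ^ 2) (2 * x ^ 1) x := by
    simpa using hasDerivAt_pow 2 x
  have h3 : HasDerivAt (fun t : ℝ => t ^ 3) (3 * x ^ 2) x := by
    simpa using hasDerivAt_pow 3 x
  have h6 : HasDerivAt (fun t : ℝ => t ^ 6) (6 * x ^ 5) x := by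
    simpa using hasDerivAt_pow 6 x
  have e1 := hs.fun_div h2 (pow_ne_zero 2 hx)
  have e2 := (hs.fun_mul (hasDerivAt_id' x)).div_const 2
  have e3 := (hasDerivAt_const x m).fun_div h3 (pow_ne_zero 3 hx)
  have e4 := (hasDerivAt_const x (10 : ℝ)).fun_div h6 (pow_ne_zero 6 hx)
  have e5 := hr.fun_div h3 (pow_ne_zero 3 hx)
  have e := ((((((hg.fun_add e1).fun_sub e2).fun_sub e3).fun_add e4).fun_add hc).fun_add e5).const_mul w
  refine e.congr_deriv ?_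
  field_simp
  ring

theorem deriv2 (ψ R : ℝ → ℝ) (G' : ℝ → ℝ) (s r c g m x : ℝ) (hx : x ≠ 0) (hs : HasDerivAt ψ s x)
    (hr : HasDerivAt R r x) (hg : HasDerivAt G' g x) (w : ℝ) :
    HasDerivAt (fun t => w * (G' t + (s / t ^ 2 - 2 * ψ t / t ^ 3) - (s * t + ψ t) / 2
      + 3 * m / t ^ 4 - 60 / t ^ 7 + c + (r / t ^ 3 - 3 * R t / t ^ 4)))
      (w * (g + (6 * ψ x / x ^ 4 - 4 * s / x ^ 3) - s - 12 * m / x ^ 5 + 420 / x ^ 8
      + (12 * R x / x ^ 5 - 6 * r / x ^ 4))) x := by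
  have h2 : HasDerivAt (fun t : ℝ => t ^ 2) (2 * x ^ 1) x := by
    simpa using hasDerivAt_pow 2 x
  have h3 : HasDerivAt (fun t : ℝ => t ^ 3) (3 * x ^ 2) x := by
    simpa using hasDerivAt_pow 3 x
  have h4 : HasDerivAt (fun t : ℝ => t ^ 4) (4 * x ^ 3) x := by
    simpa using hasDerivAt_pow 4 x
  have h7 : HasDerivAt (fun t : ℝ => t ^ 7) (7 * x ^ 6) x := by
    simpa using hasDerivAt_pow 7 x
  have e1 := (hasDerivAt_const x s).fun_div h2 (pow_ne_zero 2 hx)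
  have e2 := (hs.const_mul 2).fun_div h3 (pow_ne_zero 3 hx)
  have e3 := (((hasDerivAt_id' x).const_mul s).fun_add hs).div_const 2
  have e4 := (hasDerivAt_const x (3 * m)).fun_div h4 (pow_ne_zero 4 hx)
  have e5 := (hasDerivAt_const x (60 : ℝ)).fun_div h7 (pow_ne_zero 7 hx)
  have e6 := (hasDerivAt_const x r).fun_div h3 (pow_ne_zero 3 hx)
  have e7 := (hr.const_mul 3).fun_div h4 (pow_ne_zero 4 hx)
  have e := (((((hg.fun_add (e1.fun_sub e2)).fun_sub e3).fun_add e4).fun_sub e5).fun_add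
    (hasDerivAt_const x c)).fun_add (e6.fun_sub e7)
  refine (e.const_mul w).congr_deriv ?_
  field_simp
  ring

theorem affR_deriv (P : Par) (p : Cel) (f0 f1 o : ℕ) (x : ℝ) :
    HasDerivAt (affR P p f0 f1 o) (affS P p f0 f1) x := by
  have h := ((((hasDerivAt_id' x).const_mul (P.D : ℝ)).const_sub (p.a1 : ℝ)).const_mul
    ((f0 : ℝ) - o)).fun_add ((((hasDerivAt_id' x).const_mul (P.D : ℝ)).sub_const (p.a0 : ℝ)).const_mul
    ((f1 : ℝ) - o))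
  have h' := h.div_const (P.Q * ((p.a1 : ℝ) - p.a0))
  refine h'.congr_deriv ?_
  rw [affS]
  congr 1
  ring

theorem diag_deriv (P : Par) (p : Cel) (x : ℝ) :
    HasDerivAt (fun x : ℝ => ((p.d0 : ℝ) * (p.a1 - P.D * x) ^ 2
        + 2 * ((p.d1 : ℝ) - P.O) * ((P.D * x - p.a0) * (p.a1 - P.D * x))
        + (p.d2 : ℝ) * (P.D * x - p.a0) ^ 2) / (P.Q * ((p.a1 : ℝ) - p.a0) ^ 2))
      ((2 * (p.d0 : ℝ) * (p.a1 - P.D * x) * (-P.D)
        + 2 * ((p.d1 : ℝ) - P.O) * (P.D * (p.a1 - P.D * x) - P.D * (P.D * x - p.a0))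
        + 2 * (p.d2 : ℝ) * (P.D * x - p.a0) * P.D) / (P.Q * ((p.a1 : ℝ) - p.a0) ^ 2)) x := by
  have hu : HasDerivAt (fun t : ℝ => (p.a1 : ℝ) - P.D * t) (-((P.D : ℝ) * 1)) x :=
    ((hasDerivAt_id' x).const_mul (P.D : ℝ)).const_sub (p.a1 : ℝ)
  have hv : HasDerivAt (fun t : ℝ => P.D * t - (p.a0 : ℝ)) ((P.D : ℝ) * 1) x :=
    ((hasDerivAt_id' x).const_mul (P.D : ℝ)).sub_const (p.a0 : ℝ)
  have h := (((hu.fun_pow 2).const_mul (p.d0 : ℝ)).fun_add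
    ((hv.fun_mul hu).const_mul (2 * ((p.d1 : ℝ) - P.O)))).fun_add ((hv.fun_pow 2).const_mul (p.d2 : ℝ))
  have h' := h.div_const (P.Q * ((p.a1 : ℝ) - p.a0) ^ 2)
  refine h'.congr_deriv ?_
  congr 1
  push_cast
  ring

theorem diag_deriv2 (P : Par) (p : Cel) (x : ℝ) :
    HasDerivAt (fun x : ℝ => ((2 * (p.d0 : ℝ) * (p.a1 - P.D * x) * (-P.D)
        + 2 * ((p.d1 : ℝ) - P.O) * (P.D * (p.a1 - P.D * x) - P.D * (P.D * x - p.a0))
        + 2 * (p.d2 : ℝ) * (P.D * x - p.a0) * P.D) / (P.Q * ((p.a1 : ℝ) - p.a0) ^ 2)))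
      (2 * (P.D : ℝ) ^ 2 * ((p.d0 : ℝ) - 2 * (p.d1 - P.O) + p.d2) /
        (P.Q * ((p.a1 : ℝ) - p.a0) ^ 2)) x := by
  have hu : HasDerivAt (fun t : ℝ => (p.a1 : ℝ) - P.D * t) (-((P.D : ℝ) * 1)) x :=
    ((hasDerivAt_id' x).const_mul (P.D : ℝ)).const_sub (p.a1 : ℝ)
  have hv : HasDerivAt (fun t : ℝ => P.D * t - (p.a0 : ℝ)) ((P.D : ℝ) * 1) x :=
    ((hasDerivAt_id' x).const_mul (P.D : ℝ)).sub_const (p.a0 : ℝ)
  have h := (((hu.const_mul (2 * (p.d0 : ℝ))).mul_const (-(P.D : ℝ))).fun_add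
    (((hu.const_mul (P.D : ℝ)).fun_sub (hv.const_mul (P.D : ℝ))).const_mul
      (2 * ((p.d1 : ℝ) - P.O)))).fun_add
    ((hv.const_mul (2 * (p.d2 : ℝ))).mul_const (P.D : ℝ))
  have h' := h.div_const (P.Q * ((p.a1 : ℝ) - p.a0) ^ 2)
  refine h'.congr_deriv ?_
  congr 1
  ring

theorem up_ge (F n d : ℕ) (hd : 0 < d) : (F : ℝ) * n / d ≤ (up F n d : ℝ) := by
  have hd' : (0 : ℝ) < d := by exact_mod_cast hd
  have h1 : F * n < d * (F * n / d + 1) := Nat.lt_mul_div_succ _ hd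
  have h2 : ((F * n : ℕ) : ℝ) < (d * (F * n / d + 1) : ℕ) := by exact_mod_cast h1
  rw [up, div_le_iff₀ hd']
  push_cast at h2 ⊢
  nlinarith

theorem ku_nat (A B F n : ℕ) (hn : 0 < n) :
    2 * ((A : ℝ) - B) * (F * F) / n ≤ ((2 * (A - B) * (F * F) / n + 1 : ℕ) : ℝ) := by
  have hn' : (0 : ℝ) < n := by exact_mod_cast hn
  have hs : (A : ℝ) - B ≤ ((A - B : ℕ) : ℝ) := by
    rw [sub_le_iff_le_add]
    have : A ≤ A - B + B := by omega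
    exact_mod_cast this
  generalize A - B = K at *
  rw [div_le_iff₀ hn']
  have hdiv : 2 * K * (F * F) < n * (2 * K * (F * F) / n + 1) := Nat.lt_mul_div_succ _ hn
  have hdiv' : ((2 * K * (F * F) : ℕ) : ℝ) < ((n * (2 * K * (F * F) / n + 1) : ℕ) : ℝ) := by
    exact_mod_cast hdiv
  rw [Nat.cast_mul n, mul_comm (n : ℝ)] at hdiv'
  refine le_trans ?_ hdiv'.le
  push_cast
  have hFF : (0 : ℝ) ≤ F * F := by positivity
  have h2 : 2 * ((A : ℝ) - B) ≤ 2 * K := by linarith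
  exact mul_le_mul_of_nonneg_right h2 hFF

theorem ku_fin (V F n T K : ℝ) (hF : 0 < F) (hn : 0 < n) (h1 : F * F * (-V) ≤ T)
    (h2 : 2 * T * (F * F) / n ≤ K) : -(K / F ^ 4) ≤ 2 / n * V := by
  rw [neg_le, ← mul_neg, le_div_iff₀ (by positivity)]
  refine le_trans ?_ h2
  rw [div_mul_eq_mul_div, div_mul_eq_mul_div]
  refine div_le_div_of_nonneg_right ?_ hn.le
  have hFF : (0 : ℝ) ≤ 2 * (F * F) := by positivity
  have := mul_le_mul_of_nonneg_left h1 hFF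
  linarith [this]

theorem ku_real (a r a' r' m5 v8 dg u3 u4 u5 F n1 n2 i3 i4 i5 s1 s2 bb u : ℝ) (hF : 0 ≤ F)
    (hn1 : 0 ≤ n1) (hn2 : 0 ≤ n2) (h3 : 0 ≤ u3) (h4 : 0 ≤ u4) (h5 : 0 ≤ u5) (hdg : 0 ≤ dg)
    (ha : F * (-a) ≤ n1) (hr : F * (-r) ≤ n2) (ha' : F * |a'| ≤ s1) (hr' : F * |r'| ≤ s2)
    (hi3 : F * u3 ≤ i3) (hi4 : F * u4 ≤ i4) (hi5 : F * u5 ≤ i5) (hm : F * m5 ≤ u)
    (hb : bb ≤ F * v8) :
    F * F * (-(dg + (6 * a * u4 - 4 * a' * u3) - a' - m5 + v8 + (12 * r * u5 - 6 * r' * u4))) ≤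
      6 * n1 * i4 + 4 * s1 * i3 + s1 * F + u * F + 6 * s2 * i4 + 12 * n2 * i5 - bb * F := by
  have hs1 : 0 ≤ s1 := (mul_nonneg hF (abs_nonneg _)).trans ha'
  have hs2 : 0 ≤ s2 := (mul_nonneg hF (abs_nonneg _)).trans hr'
  have k1 : (F * (-a)) * (F * u4) ≤ n1 * i4 := by
    refine (mul_le_mul_of_nonneg_right ha (mul_nonneg hF h4)).trans ?_
    exact mul_le_mul_of_nonneg_left hi4 hn1
  have k2 : (F * (-r)) * (F * u5) ≤ n2 * i5 := by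
    refine (mul_le_mul_of_nonneg_right hr (mul_nonneg hF h5)).trans ?_
    exact mul_le_mul_of_nonneg_left hi5 hn2
  have ha2 : F * a' ≤ s1 := (mul_le_mul_of_nonneg_left (le_abs_self a') hF).trans ha'
  have hr2 : F * r' ≤ s2 := (mul_le_mul_of_nonneg_left (le_abs_self r') hF).trans hr'
  have k3 : (F * a') * (F * u3) ≤ s1 * i3 := by
    refine (mul_le_mul_of_nonneg_right ha2 (mul_nonneg hF h3)).trans ?_
    exact mul_le_mul_of_nonneg_left hi3 hs1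
  have k4 : (F * r') * (F * u4) ≤ s2 * i4 := by
    refine (mul_le_mul_of_nonneg_right hr2 (mul_nonneg hF h4)).trans ?_
    exact mul_le_mul_of_nonneg_left hi4 hs2
  have k5 : (F * a') * F ≤ s1 * F := mul_le_mul_of_nonneg_right ha2 hF
  have k6 : (F * m5) * F ≤ u * F := mul_le_mul_of_nonneg_right hm hF
  have k7 : bb * F ≤ (F * v8) * F := mul_le_mul_of_nonneg_right hb hF
  have k8 : 0 ≤ F * F * dg := mul_nonneg (mul_nonneg hF hF) hdg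
  linarith [k1, k2, k3, k4, k5, k6, k7, k8]

end RelEqN.Small.Tri.KUaM

namespace RelEqN.Small.Tri

open Chk KUaM

theorem stmtKU (h0 : StmtLC) (h5 : StmtCoBd) (h7 : StmtNodeBd) : StmtKU := by
  intro P p X0 X1 hP hp hX0 hX hp0 hp1
  have hD : (0 : ℝ) < P.D := by exact_mod_cast hP.D0
  have hQ : (0 : ℝ) < P.Q := by exact_mod_cast hP.Q0
  have hF : (0 : ℝ) < P.F := by exact_mod_cast hP.F0
  have hX0' : (0 : ℝ) < X0 := by exact_mod_cast hX0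
  have hX' : (X0 : ℝ) ≤ X1 := by exact_mod_cast hX
  have hN : (0 : ℝ) < ((P.N - 2 : ℕ) : ℝ) := by
    have := hP.N3
    exact_mod_cast (by omega : 0 < P.N - 2)
  have hN' : ((P.N - 2 : ℕ) : ℝ) = (P.N : ℝ) - 2 := by
    have := hP.N3
    rw [Nat.cast_sub (by omega)]
    norm_num
  have hha : (0 : ℝ) < (p.a1 : ℝ) - p.a0 := by
    have := hp.lt
    rw [sub_pos]
    exact_mod_cast this
  have hmem : ((X0 : ℝ) / P.D) ∈ Set.Icc ((X0 : ℝ) / P.D) ((X0 : ℝ) / P.D) := ⟨le_rfl, le_rfl⟩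
  refine h0.1 (fun x => UR P p x)
    (fun t => 2 / ((P.N : ℝ) - 2) * ((2 * (p.d0 : ℝ) * (p.a1 - P.D * t) * (-P.D)
        + 2 * ((p.d1 : ℝ) - P.O) * (P.D * (p.a1 - P.D * t) - P.D * (P.D * t - p.a0))
        + 2 * (p.d2 : ℝ) * (P.D * t - p.a0) * P.D) / (P.Q * ((p.a1 : ℝ) - p.a0) ^ 2)
      + (affS P p p.s0 p.s1 / t ^ 2 - 2 * affR P p p.s0 p.s1 P.O t / t ^ 3)
      - (affS P p p.s0 p.s1 * t + affR P p p.s0 p.s1 P.O t) / 2
      + 3 * (6 + (P.mu : ℝ) / P.Q) / t ^ 4 - 60 / t ^ 7 + affS P p p.C0 p.C1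
      + (affS P p p.R0 p.R1 / t ^ 3 - 3 * affR P p p.R0 p.R1 P.O t / t ^ 4)))
    (fun x => 2 / ((P.N : ℝ) - 2) * (2 * (P.D : ℝ) ^ 2 * ((p.d0 : ℝ) - 2 * (p.d1 - P.O) + p.d2) /
        (P.Q * ((p.a1 : ℝ) - p.a0) ^ 2)
      + (6 * affR P p p.s0 p.s1 P.O x / x ^ 4 - 4 * affS P p p.s0 p.s1 / x ^ 3)
      - affS P p p.s0 p.s1 - 12 * (6 + (P.mu : ℝ) / P.Q) / x ^ 5 + 420 / x ^ 8
      + (12 * affR P p p.R0 p.R1 P.O x / x ^ 5 - 6 * affS P p p.R0 p.R1 / x ^ 4)))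
    _ _ _ ?_ ?_ ?_
  · intro x hx
    have hx0 : 0 < x := lt_of_lt_of_le (by positivity) hx.1
    have h := deriv1 (affR P p p.s0 p.s1 P.O) (affR P p p.R0 p.R1 P.O) (affR P p p.C0 p.C1 0) _ _ _
      _ _ (6 + (P.mu : ℝ) / P.Q) x hx0.ne' (affR_deriv P p p.s0 p.s1 P.O x)
      (affR_deriv P p p.R0 p.R1 P.O x) (affR_deriv P p p.C0 p.C1 0 x) (diag_deriv P p x)
      (2 / ((P.N : ℝ) - 2))
    exact h
  · intro x hx
    have hx0 : 0 < x := lt_of_lt_of_le (by positivity) hx.1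
    exact deriv2 (affR P p p.s0 p.s1 P.O) (affR P p p.R0 p.R1 P.O) _ _ _ (affS P p p.C0 p.C1) _
      (6 + (P.mu : ℝ) / P.Q) x hx0.ne' (affR_deriv P p p.s0 p.s1 P.O x)
      (affR_deriv P p p.R0 p.R1 P.O x) (diag_deriv2 P p x) (2 / ((P.N : ℝ) - 2))
  · intro x hx
    have hx0 : 0 < x := lt_of_lt_of_le (by positivity) hx.1
    obtain ⟨-, -, -, -, -, -, hip⟩ := h5 P X0 X1 X0 X0 X0 X0 hP hX0 hX0 hX0 x hx _ hmem _ hmem
    obtain ⟨-, hnd⟩ := h7 P p p X0 X1 X0 X0 hP hp hp hp0 hX hp1 hp0 le_rfl (hX.trans hp1) x hx _ hmem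
    obtain ⟨-, hs1, hs2⟩ := hnd p.s0 p.s1 P.O
    obtain ⟨-, hr1, hr2⟩ := hnd p.R0 p.R1 P.O
    have hi3 := hip 3
    have hi4 := hip 4
    have hi5 := hip 5
    have hm : (P.F : ℝ) * (12 * (6 + (P.mu : ℝ) / P.Q) / x ^ 5) ≤
        (up (P.F * P.D ^ 5) (12 * (6 * P.Q + P.mu)) (P.Q * X0 ^ 5) : ℝ) := by
      have hu := up_ge (P.F * P.D ^ 5) (12 * (6 * P.Q + P.mu)) (P.Q * X0 ^ 5)
        (Nat.mul_pos hP.Q0 (pow_pos hX0 5))
      refine le_trans ?_ hu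
      have hxx : ((X0 : ℝ) / P.D) ^ 5 ≤ x ^ 5 := pow_le_pow_left₀ (by positivity) hx.1 5
      have h1 : 12 * (6 + (P.mu : ℝ) / P.Q) / x ^ 5 ≤
          12 * (6 + (P.mu : ℝ) / P.Q) / ((X0 : ℝ) / P.D) ^ 5 :=
        div_le_div_of_nonneg_left (by positivity) (by positivity) hxx
      refine le_trans (mul_le_mul_of_nonneg_left h1 hF.le) (le_of_eq ?_)
      push_cast
      field_simp
    have hb : ((420 * P.F * P.D ^ 8 / X1 ^ 8 : ℕ) : ℝ) ≤ (P.F : ℝ) * (420 / x ^ 8) := by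
      have hX1 : (0 : ℝ) < X1 := hX0'.trans_le hX'
      have h1 : ((420 * P.F * P.D ^ 8 / X1 ^ 8 : ℕ) : ℝ) ≤ ((420 * P.F * P.D ^ 8 : ℕ) : ℝ) /
          ((X1 ^ 8 : ℕ) : ℝ) := Nat.cast_div_le
      refine h1.trans ?_
      have hxx : x ^ 8 ≤ ((X1 : ℝ) / P.D) ^ 8 := pow_le_pow_left₀ hx0.le hx.2 8
      have h2 : 420 / ((X1 : ℝ) / P.D) ^ 8 ≤ 420 / x ^ 8 :=
        div_le_div_of_nonneg_left (by positivity) (by positivity) hxx
      refine le_trans (le_of_eq ?_) (mul_le_mul_of_nonneg_left h2 hF.le)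
      push_cast
      field_simp
    have hdiag : 0 ≤ 2 * (P.D : ℝ) ^ 2 * ((p.d0 : ℝ) - 2 * (p.d1 - P.O) + p.d2) /
        (P.Q * ((p.a1 : ℝ) - p.a0) ^ 2) := by
      have hc : ((2 * p.d1 : ℕ) : ℝ) ≤ ((p.d0 + p.d2 + 2 * P.O : ℕ) : ℝ) := by
        exact_mod_cast hp.cvx
      push_cast at hc
      have : 0 ≤ (p.d0 : ℝ) - 2 * (p.d1 - P.O) + p.d2 := by linarith
      positivity
    have hN2 : (0 : ℝ) < (P.N : ℝ) - 2 := hN' ▸ hN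
    have hKU := ku_nat (6 * fneg P p p.s0 p.s1 P.O X0 X1 * ipw P 4 X0
        + 4 * fs P p p.s0 p.s1 * ipw P 3 X0 + fs P p p.s0 p.s1 * P.F
        + up (P.F * P.D ^ 5) (12 * (6 * P.Q + P.mu)) (P.Q * X0 ^ 5) * P.F
        + 6 * fs P p p.R0 p.R1 * ipw P 4 X0 + 12 * fneg P p p.R0 p.R1 P.O X0 X1 * ipw P 5 X0)
        (420 * P.F * P.D ^ 8 / X1 ^ 8 * P.F) P.F (P.N - 2) (by have := hP.N3; omega)
    have hreal := ku_real (affR P p p.s0 p.s1 P.O x) (affR P p p.R0 p.R1 P.O x)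
      (affS P p p.s0 p.s1) (affS P p p.R0 p.R1) (12 * (6 + (P.mu : ℝ) / P.Q) / x ^ 5)
      (420 / x ^ 8) (2 * (P.D : ℝ) ^ 2 * ((p.d0 : ℝ) - 2 * (p.d1 - P.O) + p.d2) /
        (P.Q * ((p.a1 : ℝ) - p.a0) ^ 2)) (1 / x ^ 3) (1 / x ^ 4) (1 / x ^ 5) P.F
      (fneg P p p.s0 p.s1 P.O X0 X1) (fneg P p p.R0 p.R1 P.O X0 X1) (ipw P 3 X0) (ipw P 4 X0)
      (ipw P 5 X0) (fs P p p.s0 p.s1) (fs P p p.R0 p.R1) (420 * P.F * P.D ^ 8 / X1 ^ 8 : ℕ)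
      (up (P.F * P.D ^ 5) (12 * (6 * P.Q + P.mu)) (P.Q * X0 ^ 5)) hF.le (Nat.cast_nonneg _)
      (Nat.cast_nonneg _) (by positivity) (by positivity) (by positivity) hdiag hs1 hr1 hs2 hr2
      hi3 hi4 hi5 hm hb
    have hk : (KU P p X0 X1 : ℝ) = ((2 * (6 * fneg P p p.s0 p.s1 P.O X0 X1 * ipw P 4 X0
        + 4 * fs P p p.s0 p.s1 * ipw P 3 X0 + fs P p p.s0 p.s1 * P.F
        + up (P.F * P.D ^ 5) (12 * (6 * P.Q + P.mu)) (P.Q * X0 ^ 5) * P.F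
        + 6 * fs P p p.R0 p.R1 * ipw P 4 X0 + 12 * fneg P p p.R0 p.R1 P.O X0 X1 * ipw P 5 X0
        - 420 * P.F * P.D ^ 8 / X1 ^ 8 * P.F) * (P.F * P.F) / (P.N - 2) + 1 : ℕ) : ℝ) := rfl
    rw [← hk, hN'] at hKU
    refine ku_fin _ _ _ _ _ hF hN2 ?_ hKU
    refine le_trans (le_of_eq ?_) (hreal.trans (le_of_eq ?_))
    · ring
    · push_cast
      ring

end RelEqN.Small.Tri
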