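import Pool.Agent.Lib.MP_b9e19b_mp.Small.Tri.Spec2

set_option autoImplicit false

/-!
# Second derivative of the vertex function in the first side (C8)
-/

namespace RelEqN.Small.Tri.KXaM

open RelEqN.Small.Tri Chk

/-! ### absolute values -/

theorem mulle {a b A B : ℝ} (ha : |a| ≤ A) (hb : |b| ≤ B) : |a * b| ≤ A * B := by
  rw [abs_mul]
  exact mul_le_mul ha hb (abs_nonneg _) (le_trans (abs_nonneg _) ha)

theorem addle {a b A B : ℝ} (ha : |a| ≤ A) (hb : |b| ≤ B) : |a + b| ≤ A + B :=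
  le_trans (abs_add_le a b) (add_le_add ha hb)

theorem negle {a A : ℝ} (ha : |a| ≤ A) : |-a| ≤ A := by rwa [abs_neg]

theorem divle {F a A : ℝ} (hF : 0 < F) (h : F * |a| ≤ A) : |a| ≤ A / F := by
  rw [le_div_iff₀ hF, mul_comm]; exact h

/-- a twice differentiable function with bounds -/
def BB (a b : ℝ) (f : ℝ → ℝ) (K K1 K2 : ℝ) : Prop :=
  ∃ f1 f2 : ℝ → ℝ, ∀ x ∈ Set.Icc a b, HasDerivAt f (f1 x) x ∧ HasDerivAt f1 (f2 x) x ∧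
    |f x| ≤ K ∧ |f1 x| ≤ K1 ∧ |f2 x| ≤ K2

theorem BB.lc (h0 : StmtLC) {a b K K1 K2 : ℝ} {f : ℝ → ℝ} (h : BB a b f K K1 K2) :
    LC f a b K2 := by
  obtain ⟨f1, f2, h⟩ := h
  refine h0.1 f f1 f2 a b K2 (fun x hx => (h x hx).1) (fun x hx => (h x hx).2.1) ?_
  intro x hx
  have := (h x hx).2.2.2.2
  have h1 := neg_abs_le (f2 x)
  linarith

/-- product of an affine and a twice differentiable function -/
theorem lc_aff (h0 : StmtLC) {a b M D V1 V2 : ℝ} {u v v1 v2 : ℝ → ℝ} {s : ℝ}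
    (hu : ∀ x, HasDerivAt u s x) (hM : ∀ x ∈ Set.Icc a b, |u x| ≤ M) (hD : |s| ≤ D)
    (hv : ∀ x ∈ Set.Icc a b, HasDerivAt v (v1 x) x)
    (hv1 : ∀ x ∈ Set.Icc a b, HasDerivAt v1 (v2 x) x)
    (hV1 : ∀ x ∈ Set.Icc a b, |v1 x| ≤ V1) (hV2 : ∀ x ∈ Set.Icc a b, |v2 x| ≤ V2) :
    LC (fun t => u t * v t) a b (2 * (D * V1) + M * V2) := by
  refine h0.1 _ (fun x => s * v x + u x * v1 x) (fun x => 2 * (s * v1 x) + u x * v2 x) a b _ ?_ ?_ ?_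
  · intro x hx
    exact (hu x).mul (hv x hx)
  · intro x hx
    have e1 := ((hv x hx).const_mul s).add ((hu x).mul (hv1 x hx))
    exact e1.congr_deriv (by ring)
  · intro x hx
    have e := addle (mulle (le_of_eq (abs_two : |(2 : ℝ)| = 2)) (mulle hD (hV1 x hx)))
      (mulle (hM x hx) (hV2 x hx))
    have h1 := neg_abs_le (2 * (s * v1 x) + u x * v2 x)
    linarith

/-- product of two twice differentiable functions -/
theorem lc_mul (h0 : StmtLC) {a b U U1 U2 V V1 V2 : ℝ} {u u1 u2 v v1 v2 : ℝ → ℝ}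
    (hu : ∀ x ∈ Set.Icc a b, HasDerivAt u (u1 x) x)
    (hu1 : ∀ x ∈ Set.Icc a b, HasDerivAt u1 (u2 x) x)
    (hU : ∀ x ∈ Set.Icc a b, |u x| ≤ U)
    (hU1 : ∀ x ∈ Set.Icc a b, |u1 x| ≤ U1) (hU2 : ∀ x ∈ Set.Icc a b, |u2 x| ≤ U2)
    (hv : ∀ x ∈ Set.Icc a b, HasDerivAt v (v1 x) x)
    (hv1 : ∀ x ∈ Set.Icc a b, HasDerivAt v1 (v2 x) x)
    (hV : ∀ x ∈ Set.Icc a b, |v x| ≤ V)
    (hV1 : ∀ x ∈ Set.Icc a b, |v1 x| ≤ V1) (hV2 : ∀ x ∈ Set.Icc a b, |v2 x| ≤ V2) :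
    LC (fun t => u t * v t) a b (U2 * V + 2 * (U1 * V1) + U * V2) := by
  refine h0.1 _ (fun x => u1 x * v x + u x * v1 x)
    (fun x => u2 x * v x + 2 * (u1 x * v1 x) + u x * v2 x) a b _ ?_ ?_ ?_
  · intro x hx
    exact (hu x hx).mul (hv x hx)
  · intro x hx
    have e1 := ((hu1 x hx).mul (hv x hx)).add ((hu x hx).mul (hv1 x hx))
    exact e1.congr_deriv (by ring)
  · intro x hx
    have e := addle (addle (mulle (hU2 x hx) (hV x hx))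
      (mulle (le_of_eq (abs_two : |(2 : ℝ)| = 2)) (mulle (hU1 x hx) (hV1 x hx))))
      (mulle (hU x hx) (hV2 x hx))
    have h1 := neg_abs_le (u2 x * v x + 2 * (u1 x * v1 x) + u x * v2 x)
    linarith

/-- the cosine along a side -/
structure Cur (a b : ℝ) (c c1 c2 : ℝ → ℝ) (G H : ℝ) : Prop where
  d1 : ∀ x ∈ Set.Icc a b, HasDerivAt c (c1 x) x
  d2 : ∀ x ∈ Set.Icc a b, HasDerivAt c1 (c2 x) x
  b1 : ∀ x ∈ Set.Icc a b, |c1 x| ≤ G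
  b2 : ∀ x ∈ Set.Icc a b, |c2 x| ≤ H

/-- composition with a polynomial -/
theorem Cur.comp {a b G H : ℝ} {c c1 c2 : ℝ → ℝ} (hc : Cur a b c c1 c2 G H)
    {T T1 T2 : ℝ → ℝ} (hT : ∀ s, HasDerivAt T (T1 s) s) (hT1 : ∀ s, HasDerivAt T1 (T2 s) s)
    {V1 V2 : ℝ}
    (hV1 : ∀ x ∈ Set.Icc a b, |T1 (c x)| ≤ V1) (hV2 : ∀ x ∈ Set.Icc a b, |T2 (c x)| ≤ V2) :
    Cur a b (fun x => T (c x)) (fun x => T1 (c x) * c1 x)
      (fun x => T2 (c x) * c1 x * c1 x + T1 (c x) * c2 x) (V1 * G) (V2 * G * G + V1 * H) where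
  d1 := fun x hx => (hT (c x)).comp x (hc.d1 x hx)
  d2 := fun x hx => ((hT1 (c x)).comp x (hc.d1 x hx)).mul (hc.d2 x hx)
  b1 := fun x hx => mulle (hV1 x hx) (hc.b1 x hx)
  b2 := fun x hx => addle (mulle (mulle (hV2 x hx) (hc.b1 x hx)) (hc.b1 x hx))
    (mulle (hV1 x hx) (hc.b2 x hx))

/-- multiplication with a constant -/
theorem Cur.smul {a b G H : ℝ} {c c1 c2 : ℝ → ℝ} (hc : Cur a b c c1 c2 G H)
    {s S : ℝ} (hs : |s| ≤ S) :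
    Cur a b (fun x => s * c x) (fun x => s * c1 x) (fun x => s * c2 x) (S * G) (S * H) where
  d1 := fun x hx => (hc.d1 x hx).const_mul s
  d2 := fun x hx => (hc.d2 x hx).const_mul s
  b1 := fun x hx => mulle hs (hc.b1 x hx)
  b2 := fun x hx => mulle hs (hc.b2 x hx)

theorem Cur.const {a b s : ℝ} :
    Cur a b (fun _ => s) (fun _ => 0) (fun _ => 0) 0 0 where
  d1 := fun x _ => hasDerivAt_const x s
  d2 := fun x _ => hasDerivAt_const x 0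
  b1 := fun _ _ => by simp
  b2 := fun _ _ => by simp

/-! ### negative powers -/

theorem hd_pow2 {x : ℝ} (hx : 0 < x) : HasDerivAt (fun t : ℝ => 1 / t ^ 2) (-2 * (1 / x ^ 3)) x := by
  have h := ((hasDerivAt_id x).pow 2).inv (by simp; positivity)
  have e : (fun t : ℝ => 1 / t ^ 2) = (fun t : ℝ => (id t ^ 2)⁻¹) := by
    funext t; simp
  rw [e]
  refine h.congr_deriv ?_
  simp
  field_simp

theorem hd_pow3 {x : ℝ} (hx : 0 < x) : HasDerivAt (fun t : ℝ => 1 / t ^ 3) (-3 * (1 / x ^ 4)) x := by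
  have h := ((hasDerivAt_id x).pow 3).inv (by simp; positivity)
  have e : (fun t : ℝ => 1 / t ^ 3) = (fun t : ℝ => (id t ^ 3)⁻¹) := by
    funext t; simp
  rw [e]
  refine h.congr_deriv ?_
  simp
  field_simp

theorem hd_pow4 {x : ℝ} (hx : 0 < x) : HasDerivAt (fun t : ℝ => 1 / t ^ 4) (-4 * (1 / x ^ 5)) x := by
  have h := ((hasDerivAt_id x).pow 4).inv (by simp; positivity)
  have e : (fun t : ℝ => 1 / t ^ 4) = (fun t : ℝ => (id t ^ 4)⁻¹) := by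
    funext t; simp
  rw [e]
  refine h.congr_deriv ?_
  simp
  field_simp

theorem cur_pow3 {a b X4 X5 : ℝ} (ha : 0 < a)
    (h4 : ∀ x ∈ Set.Icc a b, 1 / x ^ 4 ≤ X4) (h5 : ∀ x ∈ Set.Icc a b, 1 / x ^ 5 ≤ X5) :
    Cur a b (fun t => 1 / t ^ 3) (fun t => -3 * (1 / t ^ 4)) (fun t => 12 * (1 / t ^ 5))
      (3 * X4) (12 * X5) where
  d1 := fun x hx => hd_pow3 (lt_of_lt_of_le ha hx.1)
  d2 := fun x hx => by
    have := (hd_pow4 (lt_of_lt_of_le ha hx.1)).const_mul (-3)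
    exact this.congr_deriv (by ring)
  b1 := fun x hx => by
    have hx0 : 0 < x := lt_of_lt_of_le ha hx.1
    have h : |(-3 : ℝ)| = 3 := by norm_num
    rw [abs_mul, h, abs_of_pos (by positivity : (0:ℝ) < 1 / x ^ 4)]
    have := h4 x hx; linarith
  b2 := fun x hx => by
    have hx0 : 0 < x := lt_of_lt_of_le ha hx.1
    have h : |(12 : ℝ)| = 12 := by norm_num
    rw [abs_mul, h, abs_of_pos (by positivity : (0:ℝ) < 1 / x ^ 5)]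
    have := h5 x hx; linarith

theorem cur_pow2 {a b X3 X4 : ℝ} (ha : 0 < a)
    (h3 : ∀ x ∈ Set.Icc a b, 1 / x ^ 3 ≤ X3) (h4 : ∀ x ∈ Set.Icc a b, 1 / x ^ 4 ≤ X4) :
    Cur a b (fun t => 1 / t ^ 2) (fun t => -2 * (1 / t ^ 3)) (fun t => 6 * (1 / t ^ 4))
      (2 * X3) (6 * X4) where
  d1 := fun x hx => hd_pow2 (lt_of_lt_of_le ha hx.1)
  d2 := fun x hx => by
    have := (hd_pow3 (lt_of_lt_of_le ha hx.1)).const_mul (-2)
    exact this.congr_deriv (by ring)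
  b1 := fun x hx => by
    have hx0 : 0 < x := lt_of_lt_of_le ha hx.1
    have h : |(-2 : ℝ)| = 2 := by norm_num
    rw [abs_mul, h, abs_of_pos (by positivity : (0:ℝ) < 1 / x ^ 3)]
    have := h3 x hx; linarith
  b2 := fun x hx => by
    have hx0 : 0 < x := lt_of_lt_of_le ha hx.1
    have h : |(6 : ℝ)| = 6 := by norm_num
    rw [abs_mul, h, abs_of_pos (by positivity : (0:ℝ) < 1 / x ^ 4)]
    have := h4 x hx; linarith

/-! ### the polynomials of the cosine -/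

theorem hp1 (s : ℝ) : HasDerivAt (fun c : ℝ => 2 * c ^ 2 - 1) (4 * s) s := by
  have h := (((hasDerivAt_id s).pow 2).const_mul 2).sub_const 1
  exact h.congr_deriv (by simp; ring)

theorem hp1' (s : ℝ) : HasDerivAt (fun c : ℝ => 4 * c) 4 s := by
  have h := (hasDerivAt_id s).const_mul 4
  exact h.congr_deriv (by simp)

theorem hp2 (s : ℝ) : HasDerivAt (fun c : ℝ => 4 * c ^ 3 - 3 * c) (12 * s ^ 2 - 3) s := by
  have h := (((hasDerivAt_id s).pow 3).const_mul 4).sub ((hasDerivAt_id s).const_mul 3)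
  exact h.congr_deriv (by simp; ring)

theorem hp2' (s : ℝ) : HasDerivAt (fun c : ℝ => 12 * c ^ 2 - 3) (24 * s) s := by
  have h := (((hasDerivAt_id s).pow 2).const_mul 12).sub_const 3
  exact h.congr_deriv (by simp; ring)

theorem hp3 (s : ℝ) : HasDerivAt (fun c : ℝ => 8 * c ^ 4 - 8 * c ^ 2 + 1) (32 * s ^ 3 - 16 * s) s := by
  have h := ((((hasDerivAt_id s).pow 4).const_mul 8).sub (((hasDerivAt_id s).pow 2).const_mul 8)).add_const 1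
  exact h.congr_deriv (by simp; ring)

theorem hp3' (s : ℝ) : HasDerivAt (fun c : ℝ => 32 * c ^ 3 - 16 * c) (96 * s ^ 2 - 16) s := by
  have h := (((hasDerivAt_id s).pow 3).const_mul 32).sub ((hasDerivAt_id s).const_mul 16)
  exact h.congr_deriv (by simp; ring)

theorem hp4 (s : ℝ) : HasDerivAt (fun c : ℝ => 18 * c ^ 2 - 8) (36 * s) s := by
  have h := (((hasDerivAt_id s).pow 2).const_mul 18).sub_const 8
  exact h.congr_deriv (by simp; ring)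

theorem hp4' (s : ℝ) : HasDerivAt (fun c : ℝ => 36 * c) 36 s := by
  have h := (hasDerivAt_id s).const_mul 36
  exact h.congr_deriv (by simp)


theorem absinv {x X : ℝ} (hx : 0 < x) (k : ℕ) (h : 1 / x ^ k ≤ X) : |1 / x ^ k| ≤ X := by
  rw [abs_of_pos (by positivity)]; exact h

theorem lc_lin (h0 : StmtLC) {a b s : ℝ} {u : ℝ → ℝ} (hu : ∀ x, HasDerivAt u s x) : LC u a b 0 :=
  h0.1 u (fun _ => s) (fun _ => 0) a b 0 (fun x _ => hu x) (fun x _ => hasDerivAt_const x s)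
    (fun _ _ => by simp)

/-- the bound for an abstract vertex function along an adjacent side -/
theorem adj (h0 : StmtLC) (h6 : StmtTBd)
    (F cm g h m1 m2 m3 m4 d1 d2 d3 d4 x2 x3 x4 x5 y2 y3 Ay Bx By Bs Sx Sy Ss : ℕ)
    (hF : 0 < F) {a b : ℝ} (ha : 0 < a) {y : ℝ} (hy : 0 < y)
    {c c1 c2 L0 L1 L2 L3 L4 A B S : ℝ → ℝ} {s0 s1 s2 s3 s4 sA sB sS A' B' S' : ℝ}
    (hc : Cur a b c c1 c2 ((g : ℝ) / F) ((h : ℝ) / F))
    (hcm : ∀ x ∈ Set.Icc a b, (F : ℝ) * |c x| ≤ cm)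
    (hL0 : ∀ x, HasDerivAt L0 s0 x) (hL1 : ∀ x, HasDerivAt L1 s1 x)
    (hL2 : ∀ x, HasDerivAt L2 s2 x) (hL3 : ∀ x, HasDerivAt L3 s3 x)
    (hL4 : ∀ x, HasDerivAt L4 s4 x) (hA : ∀ x, HasDerivAt A sA x)
    (hB : ∀ x, HasDerivAt B sB x) (hS : ∀ x, HasDerivAt S sS x)
    (bL1 : ∀ x ∈ Set.Icc a b, |L1 x| ≤ (m1 : ℝ) / F) (bL2 : ∀ x ∈ Set.Icc a b, |L2 x| ≤ (m2 : ℝ) / F)
    (bL3 : ∀ x ∈ Set.Icc a b, |L3 x| ≤ (m3 : ℝ) / F) (bL4 : ∀ x ∈ Set.Icc a b, |L4 x| ≤ (m4 : ℝ) / F)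
    (bs1 : |s1| ≤ (d1 : ℝ) / F) (bs2 : |s2| ≤ (d2 : ℝ) / F)
    (bs3 : |s3| ≤ (d3 : ℝ) / F) (bs4 : |s4| ≤ (d4 : ℝ) / F)
    (bB : ∀ x ∈ Set.Icc a b, |B x| ≤ (Bx : ℝ) / F) (bS : ∀ x ∈ Set.Icc a b, |S x| ≤ (Sx : ℝ) / F)
    (bsB : |sB| ≤ (Bs : ℝ) / F) (bsS : |sS| ≤ (Ss : ℝ) / F)
    (bA' : |A'| ≤ (Ay : ℝ) / F) (bB' : |B'| ≤ (By : ℝ) / F) (bS' : |S'| ≤ (Sy : ℝ) / F)
    (bx2 : ∀ x ∈ Set.Icc a b, 1 / x ^ 2 ≤ (x2 : ℝ) / F)
    (bx3 : ∀ x ∈ Set.Icc a b, 1 / x ^ 3 ≤ (x3 : ℝ) / F)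
    (bx4 : ∀ x ∈ Set.Icc a b, 1 / x ^ 4 ≤ (x4 : ℝ) / F)
    (bx5 : ∀ x ∈ Set.Icc a b, 1 / x ^ 5 ≤ (x5 : ℝ) / F)
    (by2 : 1 / y ^ 2 ≤ (y2 : ℝ) / F) (by3 : 1 / y ^ 3 ≤ (y3 : ℝ) / F) :
    LC (fun t => L0 t + L1 t * c t + L2 t * (2 * c t ^ 2 - 1) + L3 t * (4 * c t ^ 3 - 3 * c t)
      + L4 t * (8 * c t ^ 4 - 8 * c t ^ 2 + 1)
      + (18 * c t ^ 2 - 8) / (t ^ 3 * y ^ 3)
      + (A t - B t * (2 * c t ^ 2 - 1)) / y ^ 3
      + (A' - B' * (2 * c t ^ 2 - 1)) / t ^ 3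
      + (S t / y ^ 2 + S' / t ^ 2) * c t) a b
      ((kadj F cm g h m1 m2 m3 m4 d1 d2 d3 d4 x2 x3 x4 x5 y2 y3 Ay Bx By Bs Sx Sy Ss : ℝ)
        / (F : ℝ) ^ 4) := by
  have hF' : (0 : ℝ) < F := by exact_mod_cast hF
  have hT := fun x (hx : x ∈ Set.Icc a b) => h6 F cm (c x) hF (hcm x hx)
  have bc : ∀ x ∈ Set.Icc a b, |c x| ≤ (cm : ℝ) / F := fun x hx => divle hF' (hcm x hx)
  have b02 : ∀ x ∈ Set.Icc a b, |2 * c x ^ 2 - 1| ≤ (t02 F cm : ℝ) / F :=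
    fun x hx => divle hF' (hT x hx).1
  have b13 : ∀ x ∈ Set.Icc a b, |12 * c x ^ 2 - 3| ≤ (t13 F cm : ℝ) / F :=
    fun x hx => divle hF' (hT x hx).2.1
  have b14 : ∀ x ∈ Set.Icc a b, |32 * c x ^ 3 - 16 * c x| ≤ (t14 F cm : ℝ) / F :=
    fun x hx => divle hF' (hT x hx).2.2.1
  have b24 : ∀ x ∈ Set.Icc a b, |96 * c x ^ 2 - 16| ≤ (t24 F cm : ℝ) / F :=
    fun x hx => divle hF' (hT x hx).2.2.2
  have a4 : |(4 : ℝ)| ≤ 4 := by norm_num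
  have a24 : |(24 : ℝ)| ≤ 24 := by norm_num
  have a36 : |(36 : ℝ)| ≤ 36 := by norm_num
  have q2 := hc.comp hp1 hp1' (V1 := 4 * ((cm : ℝ) / F)) (V2 := 4)
    (fun x hx => mulle a4 (bc x hx)) (fun x hx => a4)
  have q3 := hc.comp hp2 hp2' (V1 := (t13 F cm : ℝ) / F) (V2 := 24 * ((cm : ℝ) / F))
    (fun x hx => b13 x hx) (fun x hx => mulle a24 (bc x hx))
  have q4 := hc.comp hp3 hp3' (V1 := (t14 F cm : ℝ) / F) (V2 := (t24 F cm : ℝ) / F)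
    (fun x hx => b14 x hx) (fun x hx => b24 x hx)
  have q5 := hc.comp hp4 hp4' (V1 := 36 * ((cm : ℝ) / F)) (V2 := 36)
    (fun x hx => mulle a36 (bc x hx)) (fun x hx => a36)
  have b18 : ∀ x ∈ Set.Icc a b, |18 * c x ^ 2 - 8| ≤ 1 + 9 * ((t02 F cm : ℝ) / F) := by
    intro x hx
    have e : 18 * c x ^ 2 - 8 = 1 + 9 * (2 * c x ^ 2 - 1) := by ring
    rw [e]
    exact addle (by norm_num) (mulle (by norm_num) (b02 x hx))
  have i3 := absinv hy 3 by3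
  have i2 := absinv hy 2 by2
  have p3 := cur_pow3 ha bx4 bx5
  have p2 := cur_pow2 ha bx3 bx4
  have bp3 : ∀ x ∈ Set.Icc a b, |1 / x ^ 3| ≤ (x3 : ℝ) / F :=
    fun x hx => absinv (lt_of_lt_of_le ha hx.1) 3 (bx3 x hx)
  have bp2 : ∀ x ∈ Set.Icc a b, |1 / x ^ 2| ≤ (x2 : ℝ) / F :=
    fun x hx => absinv (lt_of_lt_of_le ha hx.1) 2 (bx2 x hx)
  have T0 := lc_lin h0 (a := a) (b := b) hL0
  have T1 := lc_aff h0 hL1 bL1 bs1 hc.d1 hc.d2 hc.b1 hc.b2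
  have T2 := lc_aff h0 hL2 bL2 bs2 q2.d1 q2.d2 q2.b1 q2.b2
  have T3 := lc_aff h0 hL3 bL3 bs3 q3.d1 q3.d2 q3.b1 q3.b2
  have T4 := lc_aff h0 hL4 bL4 bs4 q4.d1 q4.d2 q4.b1 q4.b2
  have r5 := q5.smul i3
  have T5 := lc_mul h0 p3.d1 p3.d2 bp3 p3.b1 p3.b2 r5.d1 r5.d2
    (fun x hx => mulle i3 (b18 x hx)) r5.b1 r5.b2
  have T6 := lc_lin h0 (a := a) (b := b) (fun x => (hA x).const_mul (1 / y ^ 3))
  have T7 := lc_aff h0 (fun x => (hB x).const_mul (-(1 / y ^ 3)))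
    (fun x hx => mulle (negle i3) (bB x hx)) (mulle (negle i3) bsB) q2.d1 q2.d2 q2.b1 q2.b2
  have rA := Cur.const (a := a) (b := b) (s := A')
  have T8 := lc_mul h0 p3.d1 p3.d2 bp3 p3.b1 p3.b2 rA.d1 rA.d2 (fun _ _ => bA') rA.b1 rA.b2
  have rB := q2.smul (negle bB')
  have T9 := lc_mul h0 p3.d1 p3.d2 bp3 p3.b1 p3.b2 rB.d1 rB.d2
    (fun x hx => mulle (negle bB') (b02 x hx)) rB.b1 rB.b2
  have T10 := lc_aff h0 (fun x => (hS x).const_mul (1 / y ^ 2))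
    (fun x hx => mulle i2 (bS x hx)) (mulle i2 bsS) hc.d1 hc.d2 hc.b1 hc.b2
  have rS := hc.smul bS'
  have T11 := lc_mul h0 p2.d1 p2.d2 bp2 p2.b1 p2.b2 rS.d1 rS.d2
    (fun x hx => mulle bS' (bc x hx)) rS.b1 rS.b2
  have A1 := h0.2.1 _ _ _ _ _ _ T0 T1
  have A2 := h0.2.1 _ _ _ _ _ _ A1 T2
  have A3 := h0.2.1 _ _ _ _ _ _ A2 T3
  have A4 := h0.2.1 _ _ _ _ _ _ A3 T4
  have A5 := h0.2.1 _ _ _ _ _ _ A4 T5
  have A6 := h0.2.1 _ _ _ _ _ _ A5 T6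
  have A7 := h0.2.1 _ _ _ _ _ _ A6 T7
  have A8 := h0.2.1 _ _ _ _ _ _ A7 T8
  have A9 := h0.2.1 _ _ _ _ _ _ A8 T9
  have A10 := h0.2.1 _ _ _ _ _ _ A9 T10
  have A11 := h0.2.1 _ _ _ _ _ _ A10 T11
  have e : (fun t => L0 t + L1 t * c t + L2 t * (2 * c t ^ 2 - 1) + L3 t * (4 * c t ^ 3 - 3 * c t)
      + L4 t * (8 * c t ^ 4 - 8 * c t ^ 2 + 1)
      + (18 * c t ^ 2 - 8) / (t ^ 3 * y ^ 3)
      + (A t - B t * (2 * c t ^ 2 - 1)) / y ^ 3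
      + (A' - B' * (2 * c t ^ 2 - 1)) / t ^ 3
      + (S t / y ^ 2 + S' / t ^ 2) * c t) = (fun t => L0 t + L1 t * c t + L2 t * (2 * c t ^ 2 - 1)
      + L3 t * (4 * c t ^ 3 - 3 * c t) + L4 t * (8 * c t ^ 4 - 8 * c t ^ 2 + 1)
      + 1 / t ^ 3 * (1 / y ^ 3 * (18 * c t ^ 2 - 8)) + 1 / y ^ 3 * A t
      + -(1 / y ^ 3) * B t * (2 * c t ^ 2 - 1) + 1 / t ^ 3 * A'
      + 1 / t ^ 3 * (-B' * (2 * c t ^ 2 - 1)) + 1 / y ^ 2 * S t * c t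
      + 1 / t ^ 2 * (S' * c t)) := by
    funext t
    ring
  rw [e]
  refine h0.2.2.2.2 _ a b _ _ (le_of_eq ?_) A11
  unfold kadj
  push_cast
  field_simp
  ring

/-! ### the concrete functions -/

theorem hd_bilX (P : Par) (p q : Cel) (g : Quad) (x y : ℝ) :
    HasDerivAt (fun x => bilR P p q g x y) (bilX P p q g y) x := by
  have e : (fun x => bilR P p q g x y) = fun x => bilR P p q g 0 y + bilX P p q g y * x := by
    funext x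
    unfold bilR bilX
    ring
  rw [e]
  have h := ((hasDerivAt_id x).const_mul (bilX P p q g y)).const_add (bilR P p q g 0 y)
  exact h.congr_deriv (by simp)

theorem hd_bilY (P : Par) (p q : Cel) (g : Quad) (x y : ℝ) :
    HasDerivAt (fun y => bilR P p q g x y) (bilY P p q g x) y := by
  have e : (fun y => bilR P p q g x y) = fun y => bilR P p q g x 0 + bilY P p q g x * y := by
    funext y
    unfold bilR bilY
    ring
  rw [e]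
  have h := ((hasDerivAt_id y).const_mul (bilY P p q g x)).const_add (bilR P p q g x 0)
  exact h.congr_deriv (by simp)

theorem hd_aff (P : Par) (p : Cel) (f0 f1 o : ℕ) (x : ℝ) :
    HasDerivAt (fun x => affR P p f0 f1 o x) (affS P p f0 f1) x := by
  have e : (fun x => affR P p f0 f1 o x) = fun x => affR P p f0 f1 o 0 + affS P p f0 f1 * x := by
    funext x
    unfold affR affS
    ring
  rw [e]
  have h := ((hasDerivAt_id x).const_mul (affS P p f0 f1)).const_add (affR P p f0 f1 o 0)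
  exact h.congr_deriv (by simp)

theorem hd_co {x y z : ℝ} (hx : 0 < x) (hy : 0 < y) :
    HasDerivAt (fun t => co t y z) ((x ^ 2 - y ^ 2 + z ^ 2) / (2 * x ^ 2 * y)) x := by
  have h1 : HasDerivAt (fun t : ℝ => t ^ 2 + y ^ 2 - z ^ 2) (2 * x) x := by
    have h := (((hasDerivAt_id x).pow 2).add_const (y ^ 2)).sub_const (z ^ 2)
    exact h.congr_deriv (by simp)
  have h2 : HasDerivAt (fun t : ℝ => 2 * t * y) (2 * y) x := by
    have h := ((hasDerivAt_id x).const_mul 2).mul_const y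
    exact h.congr_deriv (by simp)
  have h3 := h1.div h2 (by positivity)
  refine h3.congr_deriv ?_
  field_simp
  ring

theorem hd_co2 {x y z : ℝ} (hx : 0 < x) (hy : 0 < y) :
    HasDerivAt (fun t : ℝ => (t ^ 2 - y ^ 2 + z ^ 2) / (2 * t ^ 2 * y))
      ((y ^ 2 - z ^ 2) / (x ^ 3 * y)) x := by
  have h1 : HasDerivAt (fun t : ℝ => t ^ 2 - y ^ 2 + z ^ 2) (2 * x) x := by
    have h := (((hasDerivAt_id x).pow 2).sub_const (y ^ 2)).add_const (z ^ 2)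
    exact h.congr_deriv (by simp)
  have h2 : HasDerivAt (fun t : ℝ => 2 * t ^ 2 * y) (4 * x * y) x := by
    have h := (((hasDerivAt_id x).pow 2).const_mul 2).mul_const y
    exact h.congr_deriv (by simp only [id, Nat.cast_ofNat]; ring)
  have h3 := h1.div h2 (by positivity)
  refine h3.congr_deriv ?_
  field_simp
  ring

end RelEqN.Small.Tri.KXaM

namespace RelEqN.Small.Tri

open Chk KXaM

/-- (C8) -/
theorem stmtKX (h0 : StmtLC) (h5 : StmtCoBd) (h6 : StmtTBd) (h7 : StmtNodeBd) : StmtKX := by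
  intro P p q k X0 X1 Y0 Y1 Z0 Z1 hP hp hq hX0 hX hY0 hY hZ0 hZ hpa hpb hqa hqb y hy z hz
  have hD : (0 : ℝ) < P.D := by exact_mod_cast hP.D0
  have hF : (0 : ℝ) < P.F := by exact_mod_cast hP.F0
  have hX0' : (0 : ℝ) < X0 := by exact_mod_cast hX0
  have hY0' : (0 : ℝ) < Y0 := by exact_mod_cast hY0
  have hXX : (X0 : ℝ) ≤ X1 := by exact_mod_cast hX
  have ha : (0 : ℝ) < (X0 : ℝ) / P.D := div_pos hX0' hD
  have hy0 : 0 < y := lt_of_lt_of_le (div_pos hY0' hD) hy.1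
  have hx0 : (X0 : ℝ) / P.D ∈ Set.Icc ((X0 : ℝ) / P.D) ((X1 : ℝ) / P.D) :=
    ⟨le_refl _, div_le_div_of_nonneg_right hXX hD.le⟩
  have H5 := fun x (hx : x ∈ Set.Icc ((X0 : ℝ) / P.D) ((X1 : ℝ) / P.D)) =>
    h5 P X0 X1 Y0 Y1 Z0 Z1 hP hX0 hY0 hZ0 x hx y hy z hz
  have H5' := fun x (hx : x ∈ Set.Icc ((X0 : ℝ) / P.D) ((X1 : ℝ) / P.D)) =>
    h5 P Y0 Y1 X0 X1 Z0 Z1 hP hY0 hX0 hZ0 y hy x hx z hz
  have H7 := fun x (hx : x ∈ Set.Icc ((X0 : ℝ) / P.D) ((X1 : ℝ) / P.D)) =>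
    h7 P p q X0 X1 Y0 Y1 hP hp hq hpa hX hpb hqa hY hqb x hx y hy
  have H7' := h7 P q p Y0 Y1 X0 X1 hP hq hp hqa hY hqb hpa hX hpb y hy _ hx0
  have hc : Cur ((X0 : ℝ) / P.D) ((X1 : ℝ) / P.D) (fun t => co t y z)
      (fun t => (t ^ 2 - y ^ 2 + z ^ 2) / (2 * t ^ 2 * y))
      (fun t => (y ^ 2 - z ^ 2) / (t ^ 3 * y)) ((gaN P X0 X1 Y0 Y1 Z0 Z1 : ℝ) / P.F)
      ((haN P X0 Y0 Y1 Z0 Z1 : ℝ) / P.F) :=
    ⟨fun x hx => hd_co (lt_of_lt_of_le ha hx.1) hy0,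
      fun x hx => hd_co2 (lt_of_lt_of_le ha hx.1) hy0,
      fun x hx => divle hF (H5 x hx).2.1, fun x hx => divle hF (H5 x hx).2.2.1⟩
  have ip : ∀ k : ℕ, ∀ x ∈ Set.Icc ((X0 : ℝ) / P.D) ((X1 : ℝ) / P.D),
      1 / x ^ k ≤ (ipw P k X0 : ℝ) / P.F := by
    intro k x hx
    rw [le_div_iff₀ hF, mul_comm]
    exact (H5 x hx).2.2.2.2.2.2 k
  have iq : ∀ k : ℕ, 1 / y ^ k ≤ (ipw P k Y0 : ℝ) / P.F := by
    intro k
    rw [le_div_iff₀ hF, mul_comm]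
    exact (H5' _ hx0).2.2.2.2.2.2 k
  exact adj h0 h6 P.F (cmN P X0 X1 Y0 Y1 Z0 Z1) (gaN P X0 X1 Y0 Y1 Z0 Z1) (haN P X0 Y0 Y1 Z0 Z1)
    (sm P p q k.k1 X0 X1 Y0 Y1) (sm P p q k.k2 X0 X1 Y0 Y1)
    (sm P p q k.k3 X0 X1 Y0 Y1) (sm P p q k.k4 X0 X1 Y0 Y1)
    (sx P p q k.k1 Y0 Y1) (sx P p q k.k2 Y0 Y1) (sx P p q k.k3 Y0 Y1) (sx P p q k.k4 Y0 Y1)
    (ipw P 2 X0) (ipw P 3 X0) (ipw P 4 X0) (ipw P 5 X0) (ipw P 2 Y0) (ipw P 3 Y0)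
    (fa P q q.A0 q.A1 0 Y0 Y1) (fa P p p.B0 p.B1 P.O X0 X1) (fa P q q.B0 q.B1 P.O Y0 Y1)
    (fs P p p.B0 p.B1) (fa P p p.s0 p.s1 P.O X0 X1) (fa P q q.s0 q.s1 P.O Y0 Y1)
    (fs P p p.s0 p.s1) hP.F0 ha hy0 hc (fun x hx => (H5 x hx).1)
    (fun x => hd_bilX P p q k.k0 x y) (fun x => hd_bilX P p q k.k1 x y)
    (fun x => hd_bilX P p q k.k2 x y) (fun x => hd_bilX P p q k.k3 x y)
    (fun x => hd_bilX P p q k.k4 x y)
    (fun x => hd_aff P p p.A0 p.A1 0 x) (fun x => hd_aff P p p.B0 p.B1 P.O x)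
    (fun x => hd_aff P p p.s0 p.s1 P.O x)
    (fun x hx => divle hF ((H7 x hx).1 k.k1).1) (fun x hx => divle hF ((H7 x hx).1 k.k2).1)
    (fun x hx => divle hF ((H7 x hx).1 k.k3).1) (fun x hx => divle hF ((H7 x hx).1 k.k4).1)
    (divle hF ((H7 _ hx0).1 k.k1).2.1) (divle hF ((H7 _ hx0).1 k.k2).2.1)
    (divle hF ((H7 _ hx0).1 k.k3).2.1) (divle hF ((H7 _ hx0).1 k.k4).2.1)
    (fun x hx => divle hF ((H7 x hx).2 p.B0 p.B1 P.O).1)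
    (fun x hx => divle hF ((H7 x hx).2 p.s0 p.s1 P.O).1)
    (divle hF ((H7 _ hx0).2 p.B0 p.B1 P.O).2.2) (divle hF ((H7 _ hx0).2 p.s0 p.s1 P.O).2.2)
    (divle hF (H7'.2 q.A0 q.A1 0).1) (divle hF (H7'.2 q.B0 q.B1 P.O).1)
    (divle hF (H7'.2 q.s0 q.s1 P.O).1)
    (ip 2) (ip 3) (ip 4) (ip 5) (iq 2) (iq 3)

end RelEqN.Small.Tri
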