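import Pool.Agent.Lib.MP_b9e19b_mp.Small.Tri.KXa

set_option autoImplicit false

/-!
# Second derivative of the vertex function in the second side (C9)
-/

namespace RelEqN.Small.Tri.KYaM

open RelEqN.Small.Tri Chk

theorem co_comm (x y z : ℝ) : co x y z = co y x z := by
  unfold co
  ring

end RelEqN.Small.Tri.KYaM

namespace RelEqN.Small.Tri

open Chk KXaM KYaM

/-- (C9) -/
theorem stmtKY (h0 : StmtLC) (h5 : StmtCoBd) (h6 : StmtTBd) (h7 : StmtNodeBd) : StmtKY := by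
  intro P p q k X0 X1 Y0 Y1 Z0 Z1 hP hp hq hX0 hX hY0 hY hZ0 hZ hpa hpb hqa hqb x hx z hz
  have hD : (0 : ℝ) < P.D := by exact_mod_cast hP.D0
  have hF : (0 : ℝ) < P.F := by exact_mod_cast hP.F0
  have hX0' : (0 : ℝ) < X0 := by exact_mod_cast hX0
  have hY0' : (0 : ℝ) < Y0 := by exact_mod_cast hY0
  have hYY : (Y0 : ℝ) ≤ Y1 := by exact_mod_cast hY
  have ha : (0 : ℝ) < (Y0 : ℝ) / P.D := div_pos hY0' hD
  have hxp : 0 < x := lt_of_lt_of_le (div_pos hX0' hD) hx.1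
  have hy0 : (Y0 : ℝ) / P.D ∈ Set.Icc ((Y0 : ℝ) / P.D) ((Y1 : ℝ) / P.D) :=
    ⟨le_refl _, div_le_div_of_nonneg_right hYY hD.le⟩
  have H5 := fun y (hy : y ∈ Set.Icc ((Y0 : ℝ) / P.D) ((Y1 : ℝ) / P.D)) =>
    h5 P X0 X1 Y0 Y1 Z0 Z1 hP hX0 hY0 hZ0 x hx y hy z hz
  have H5' := fun y (hy : y ∈ Set.Icc ((Y0 : ℝ) / P.D) ((Y1 : ℝ) / P.D)) =>
    h5 P Y0 Y1 X0 X1 Z0 Z1 hP hY0 hX0 hZ0 y hy x hx z hz
  have H7 := fun y (hy : y ∈ Set.Icc ((Y0 : ℝ) / P.D) ((Y1 : ℝ) / P.D)) =>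
    h7 P p q X0 X1 Y0 Y1 hP hp hq hpa hX hpb hqa hY hqb x hx y hy
  have H7' := fun y (hy : y ∈ Set.Icc ((Y0 : ℝ) / P.D) ((Y1 : ℝ) / P.D)) =>
    h7 P q p Y0 Y1 X0 X1 hP hq hp hqa hY hqb hpa hX hpb y hy x hx
  have hc : Cur ((Y0 : ℝ) / P.D) ((Y1 : ℝ) / P.D) (fun t => co t x z)
      (fun t => (t ^ 2 - x ^ 2 + z ^ 2) / (2 * t ^ 2 * x))
      (fun t => (x ^ 2 - z ^ 2) / (t ^ 3 * x)) ((gaN P Y0 Y1 X0 X1 Z0 Z1 : ℝ) / P.F)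
      ((haN P Y0 X0 X1 Z0 Z1 : ℝ) / P.F) :=
    ⟨fun y hy => hd_co (lt_of_lt_of_le ha hy.1) hxp,
      fun y hy => hd_co2 (lt_of_lt_of_le ha hy.1) hxp,
      fun y hy => divle hF (H5' y hy).2.1, fun y hy => divle hF (H5' y hy).2.2.1⟩
  have iq : ∀ k : ℕ, ∀ y ∈ Set.Icc ((Y0 : ℝ) / P.D) ((Y1 : ℝ) / P.D),
      1 / y ^ k ≤ (ipw P k Y0 : ℝ) / P.F := by
    intro k y hy
    rw [le_div_iff₀ hF, mul_comm]
    exact (H5' y hy).2.2.2.2.2.2 k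
  have ip : ∀ k : ℕ, 1 / x ^ k ≤ (ipw P k X0 : ℝ) / P.F := by
    intro k
    rw [le_div_iff₀ hF, mul_comm]
    exact (H5 _ hy0).2.2.2.2.2.2 k
  have e : (fun y => WR P p q k x y z) = fun t => bilR P p q k.k0 x t
      + bilR P p q k.k1 x t * co t x z
      + bilR P p q k.k2 x t * (2 * co t x z ^ 2 - 1)
      + bilR P p q k.k3 x t * (4 * co t x z ^ 3 - 3 * co t x z)
      + bilR P p q k.k4 x t * (8 * co t x z ^ 4 - 8 * co t x z ^ 2 + 1)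
      + (18 * co t x z ^ 2 - 8) / (t ^ 3 * x ^ 3)
      + (affR P q q.A0 q.A1 0 t - affR P q q.B0 q.B1 P.O t * (2 * co t x z ^ 2 - 1)) / x ^ 3
      + (affR P p p.A0 p.A1 0 x - affR P p p.B0 p.B1 P.O x * (2 * co t x z ^ 2 - 1)) / t ^ 3
      + (affR P q q.s0 q.s1 P.O t / x ^ 2 + affR P p p.s0 p.s1 P.O x / t ^ 2) * co t x z := by
    funext t
    unfold WR
    rw [co_comm x t z]
    ring
  rw [e]
  exact adj h0 h6 P.F (cmN P X0 X1 Y0 Y1 Z0 Z1) (gaN P Y0 Y1 X0 X1 Z0 Z1) (haN P Y0 X0 X1 Z0 Z1)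
    (sm P p q k.k1 X0 X1 Y0 Y1) (sm P p q k.k2 X0 X1 Y0 Y1)
    (sm P p q k.k3 X0 X1 Y0 Y1) (sm P p q k.k4 X0 X1 Y0 Y1)
    (sy P p q k.k1 X0 X1) (sy P p q k.k2 X0 X1) (sy P p q k.k3 X0 X1) (sy P p q k.k4 X0 X1)
    (ipw P 2 Y0) (ipw P 3 Y0) (ipw P 4 Y0) (ipw P 5 Y0) (ipw P 2 X0) (ipw P 3 X0)
    (fa P p p.A0 p.A1 0 X0 X1) (fa P q q.B0 q.B1 P.O Y0 Y1) (fa P p p.B0 p.B1 P.O X0 X1)
    (fs P q q.B0 q.B1) (fa P q q.s0 q.s1 P.O Y0 Y1) (fa P p p.s0 p.s1 P.O X0 X1)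
    (fs P q q.s0 q.s1) hP.F0 ha hxp hc
    (fun y hy => by rw [← co_comm x y z]; exact (H5 y hy).1)
    (fun y => hd_bilY P p q k.k0 x y) (fun y => hd_bilY P p q k.k1 x y)
    (fun y => hd_bilY P p q k.k2 x y) (fun y => hd_bilY P p q k.k3 x y)
    (fun y => hd_bilY P p q k.k4 x y)
    (fun y => hd_aff P q q.A0 q.A1 0 y) (fun y => hd_aff P q q.B0 q.B1 P.O y)
    (fun y => hd_aff P q q.s0 q.s1 P.O y)
    (fun y hy => divle hF ((H7 y hy).1 k.k1).1) (fun y hy => divle hF ((H7 y hy).1 k.k2).1)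
    (fun y hy => divle hF ((H7 y hy).1 k.k3).1) (fun y hy => divle hF ((H7 y hy).1 k.k4).1)
    (divle hF ((H7 _ hy0).1 k.k1).2.2) (divle hF ((H7 _ hy0).1 k.k2).2.2)
    (divle hF ((H7 _ hy0).1 k.k3).2.2) (divle hF ((H7 _ hy0).1 k.k4).2.2)
    (fun y hy => divle hF ((H7' y hy).2 q.B0 q.B1 P.O).1)
    (fun y hy => divle hF ((H7' y hy).2 q.s0 q.s1 P.O).1)
    (divle hF ((H7' _ hy0).2 q.B0 q.B1 P.O).2.2) (divle hF ((H7' _ hy0).2 q.s0 q.s1 P.O).2.2)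
    (divle hF ((H7 _ hy0).2 p.A0 p.A1 0).1) (divle hF ((H7 _ hy0).2 p.B0 p.B1 P.O).1)
    (divle hF ((H7 _ hy0).2 p.s0 p.s1 P.O).1)
    (iq 2) (iq 3) (iq 4) (iq 5) (ip 2) (ip 3)

end RelEqN.Small.Tri
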