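import Pool.Agent.Lib.MP_b9e19b_mp.Small.Tri.KXa

set_option autoImplicit false

/-!
# Second derivative of the vertex function in the opposite side (C10)
-/

namespace RelEqN.Small.Tri.KZaM

open RelEqN.Small.Tri Chk KXaM

theorem lc_cur (h0 : StmtLC) {a b G H : ℝ} {c c1 c2 : ℝ → ℝ} (hc : Cur a b c c1 c2 G H) :
    LC c a b H := by
  refine h0.1 c c1 c2 a b H hc.d1 hc.d2 ?_
  intro x hx
  have := hc.b2 x hx
  have h1 := neg_abs_le (c2 x)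
  linarith

theorem hd_co {x y z : ℝ} (hx : 0 < x) (hy : 0 < y) :
    HasDerivAt (fun t => co x y t) (-(z / (x * y))) z := by
  have h1 : HasDerivAt (fun t : ℝ => x ^ 2 + y ^ 2 - t ^ 2) (-(2 * z)) z := by
    have h := ((hasDerivAt_id z).pow 2).const_sub (x ^ 2 + y ^ 2)
    exact h.congr_deriv (by simp)
  have h3 := h1.div_const (2 * x * y)
  refine h3.congr_deriv ?_
  field_simp

theorem hd_co2 {x y z : ℝ} :
    HasDerivAt (fun t : ℝ => -(t / (x * y))) (-(1 / (x * y))) z := by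
  have h := ((hasDerivAt_id z).div_const (x * y)).neg
  exact h

end RelEqN.Small.Tri.KZaM

namespace RelEqN.Small.Tri

open Chk KXaM KZaM

/-- (C10) -/
theorem stmtKZ (h0 : StmtLC) (h5 : StmtCoBd) (h6 : StmtTBd) (h7 : StmtNodeBd) : StmtKZ := by
  intro P p q k X0 X1 Y0 Y1 Z0 Z1 hP hp hq hX0 hX hY0 hY hZ0 hZ hpa hpb hqa hqb x hx y hy
  have hD : (0 : ℝ) < P.D := by exact_mod_cast hP.D0
  have hF : (0 : ℝ) < P.F := by exact_mod_cast hP.F0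
  have hX0' : (0 : ℝ) < X0 := by exact_mod_cast hX0
  have hY0' : (0 : ℝ) < Y0 := by exact_mod_cast hY0
  have hZ0' : (0 : ℝ) < Z0 := by exact_mod_cast hZ0
  have hZZ : (Z0 : ℝ) ≤ Z1 := by exact_mod_cast hZ
  have ha : (0 : ℝ) < (Z0 : ℝ) / P.D := div_pos hZ0' hD
  have hxp : 0 < x := lt_of_lt_of_le (div_pos hX0' hD) hx.1
  have hyp : 0 < y := lt_of_lt_of_le (div_pos hY0' hD) hy.1
  have hz0 : (Z0 : ℝ) / P.D ∈ Set.Icc ((Z0 : ℝ) / P.D) ((Z1 : ℝ) / P.D) :=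
    ⟨le_refl _, div_le_div_of_nonneg_right hZZ hD.le⟩
  have H5 := fun z (hz : z ∈ Set.Icc ((Z0 : ℝ) / P.D) ((Z1 : ℝ) / P.D)) =>
    h5 P X0 X1 Y0 Y1 Z0 Z1 hP hX0 hY0 hZ0 x hx y hy z hz
  have H5' := h5 P Y0 Y1 X0 X1 Z0 Z1 hP hY0 hX0 hZ0 y hy x hx _ hz0
  have H7 := h7 P p q X0 X1 Y0 Y1 hP hp hq hpa hX hpb hqa hY hqb x hx y hy
  have H7' := h7 P q p Y0 Y1 X0 X1 hP hq hp hqa hY hqb hpa hX hpb y hy x hx
  have hc : Cur ((Z0 : ℝ) / P.D) ((Z1 : ℝ) / P.D) (fun t => co x y t)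
      (fun t => -(t / (x * y))) (fun _ => -(1 / (x * y))) ((gzN P X0 Y0 Z1 : ℝ) / P.F)
      ((hzN P X0 Y0 : ℝ) / P.F) := by
    refine ⟨fun z _ => KZaM.hd_co hxp hyp, fun z _ => KZaM.hd_co2, fun z hz => ?_, fun z hz => ?_⟩
    · have hzp : 0 < z := lt_of_lt_of_le ha hz.1
      rw [abs_neg, abs_of_pos (by positivity)]
      rw [le_div_iff₀ hF, mul_comm]
      exact (H5 z hz).2.2.2.1
    · rw [abs_neg, abs_of_pos (by positivity)]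
      rw [le_div_iff₀ hF, mul_comm]
      exact (H5 z hz).2.2.2.2.1
  set cm := cmN P X0 X1 Y0 Y1 Z0 Z1 with hcmd
  set g := gzN P X0 Y0 Z1 with hgd
  set h := hzN P X0 Y0 with hhd
  have hcm : ∀ z ∈ Set.Icc ((Z0 : ℝ) / P.D) ((Z1 : ℝ) / P.D), (P.F : ℝ) * |co x y z| ≤ cm :=
    fun z hz => (H5 z hz).1
  have hT := fun z (hz : z ∈ Set.Icc ((Z0 : ℝ) / P.D) ((Z1 : ℝ) / P.D)) =>
    h6 P.F cm (co x y z) hP.F0 (hcm z hz)
  have bc : ∀ z ∈ Set.Icc ((Z0 : ℝ) / P.D) ((Z1 : ℝ) / P.D), |co x y z| ≤ (cm : ℝ) / P.F :=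
    fun z hz => divle hF (hcm z hz)
  have b13 : ∀ z ∈ Set.Icc ((Z0 : ℝ) / P.D) ((Z1 : ℝ) / P.D),
      |12 * co x y z ^ 2 - 3| ≤ (t13 P.F cm : ℝ) / P.F := fun z hz => divle hF (hT z hz).2.1
  have b14 : ∀ z ∈ Set.Icc ((Z0 : ℝ) / P.D) ((Z1 : ℝ) / P.D),
      |32 * co x y z ^ 3 - 16 * co x y z| ≤ (t14 P.F cm : ℝ) / P.F :=
    fun z hz => divle hF (hT z hz).2.2.1
  have b24 : ∀ z ∈ Set.Icc ((Z0 : ℝ) / P.D) ((Z1 : ℝ) / P.D),
      |96 * co x y z ^ 2 - 16| ≤ (t24 P.F cm : ℝ) / P.F := fun z hz => divle hF (hT z hz).2.2.2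
  have a4 : |(4 : ℝ)| ≤ 4 := by norm_num
  have a24 : |(24 : ℝ)| ≤ 24 := by norm_num
  have a36 : |(36 : ℝ)| ≤ 36 := by norm_num
  have q2 := hc.comp hp1 hp1' (V1 := 4 * ((cm : ℝ) / P.F)) (V2 := 4)
    (fun z hz => mulle a4 (bc z hz)) (fun z hz => a4)
  have q3 := hc.comp hp2 hp2' (V1 := (t13 P.F cm : ℝ) / P.F) (V2 := 24 * ((cm : ℝ) / P.F))
    (fun z hz => b13 z hz) (fun z hz => mulle a24 (bc z hz))
  have q4 := hc.comp hp3 hp3' (V1 := (t14 P.F cm : ℝ) / P.F) (V2 := (t24 P.F cm : ℝ) / P.F)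
    (fun z hz => b14 z hz) (fun z hz => b24 z hz)
  have q5 := hc.comp hp4 hp4' (V1 := 36 * ((cm : ℝ) / P.F)) (V2 := 36)
    (fun z hz => mulle a36 (bc z hz)) (fun z hz => a36)
  have ip : ∀ k : ℕ, |1 / x ^ k| ≤ (ipw P k X0 : ℝ) / P.F := by
    intro k
    refine absinv hxp k ?_
    rw [le_div_iff₀ hF, mul_comm]
    exact (H5 _ hz0).2.2.2.2.2.2 k
  have iq : ∀ k : ℕ, |1 / y ^ k| ≤ (ipw P k Y0 : ℝ) / P.F := by
    intro k
    refine absinv hyp k ?_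
    rw [le_div_iff₀ hF, mul_comm]
    exact H5'.2.2.2.2.2.2 k
  have bBx := divle hF (H7.2 p.B0 p.B1 P.O).1
  have bSx := divle hF (H7.2 p.s0 p.s1 P.O).1
  have bBy := divle hF (H7'.2 q.B0 q.B1 P.O).1
  have bSy := divle hF (H7'.2 q.s0 q.s1 P.O).1
  have T1 := lc_cur h0 (hc.smul (divle hF (H7.1 k.k1).1))
  have T2 := lc_cur h0 (q2.smul (divle hF (H7.1 k.k2).1))
  have T3 := lc_cur h0 (q3.smul (divle hF (H7.1 k.k3).1))
  have T4 := lc_cur h0 (q4.smul (divle hF (H7.1 k.k4).1))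
  have T5 := lc_cur h0 (q5.smul (mulle (ip 3) (iq 3)))
  have T6 := lc_cur h0 (q2.smul (negle (mulle bBx (iq 3))))
  have T7 := lc_cur h0 (q2.smul (negle (mulle bBy (ip 3))))
  have T8 := lc_cur h0 (hc.smul (addle (mulle bSx (iq 2)) (mulle bSy (ip 2))))
  have A2 := h0.2.1 _ _ _ _ _ _ T1 T2
  have A3 := h0.2.1 _ _ _ _ _ _ A2 T3
  have A4 := h0.2.1 _ _ _ _ _ _ A3 T4
  have A5 := h0.2.1 _ _ _ _ _ _ A4 T5
  have A6 := h0.2.1 _ _ _ _ _ _ A5 T6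
  have A7 := h0.2.1 _ _ _ _ _ _ A6 T7
  have A8 := h0.2.1 _ _ _ _ _ _ A7 T8
  have A9 := h0.2.2.2.1 _ _ _ (bilR P p q k.k0 x y + affR P p p.A0 p.A1 0 x / y ^ 3
    + affR P q q.A0 q.A1 0 y / x ^ 3) _ A8
  have e : (fun z => WR P p q k x y z) = fun t => (bilR P p q k.k0 x y
      + affR P p p.A0 p.A1 0 x / y ^ 3 + affR P q q.A0 q.A1 0 y / x ^ 3)
      + (bilR P p q k.k1 x y * co x y t
      + bilR P p q k.k2 x y * (2 * co x y t ^ 2 - 1)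
      + bilR P p q k.k3 x y * (4 * co x y t ^ 3 - 3 * co x y t)
      + bilR P p q k.k4 x y * (8 * co x y t ^ 4 - 8 * co x y t ^ 2 + 1)
      + 1 / x ^ 3 * (1 / y ^ 3) * (18 * co x y t ^ 2 - 8)
      + -(affR P p p.B0 p.B1 P.O x * (1 / y ^ 3)) * (2 * co x y t ^ 2 - 1)
      + -(affR P q q.B0 q.B1 P.O y * (1 / x ^ 3)) * (2 * co x y t ^ 2 - 1)
      + (affR P p p.s0 p.s1 P.O x * (1 / y ^ 2) + affR P q q.s0 q.s1 P.O y * (1 / x ^ 2))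
        * co x y t) := by
    funext t
    unfold WR
    ring
  rw [e]
  refine h0.2.2.2.2 _ _ _ _ _ (le_of_eq ?_) A9
  unfold KZ kopp
  rw [← hcmd, ← hgd, ← hhd]
  push_cast
  field_simp
  ring

end RelEqN.Small.Tri
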