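import Pool.Agent.Lib.MP_b9e19b_mp.Small.Tri.Spec2

set_option autoImplicit false

/-!
# Rules for lower bounds of the second derivative
-/

namespace RelEqN.Small.Tri

open Chk

namespace LCdM

lemma second (f f' f'' : ℝ → ℝ) (a b K : ℝ) (h1 : ∀ x ∈ Set.Icc a b, HasDerivAt f (f' x) x)
    (h2 : ∀ x ∈ Set.Icc a b, HasDerivAt f' (f'' x) x) (h3 : ∀ x ∈ Set.Icc a b, -K ≤ f'' x) :
    LC f a b K := by
  have e1 : ∀ x ∈ Set.Icc a b,
      HasDerivAt (fun t => f t + K / 2 * t ^ 2) (f' x + K * x) x := by
    intro x hx
    have h := (h1 x hx).add (((hasDerivAt_pow 2 x)).const_mul (K / 2))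
    refine h.congr_deriv ?_
    simp
    ring
  have e2 : ∀ x ∈ Set.Icc a b, HasDerivAt (fun t => f' t + K * t) (f'' x + K) x := by
    intro x hx
    have h := (h2 x hx).add ((hasDerivAt_id x).const_mul K)
    refine h.congr_deriv ?_
    ring
  refine convexOn_of_hasDerivWithinAt2_nonneg (convex_Icc a b)
    (f' := fun t => f' t + K * t) (f'' := fun t => f'' t + K) ?_ ?_ ?_ ?_
  · intro x hx
    exact (e1 x hx).continuousAt.continuousWithinAt
  · intro x hx
    exact (e1 x (interior_subset hx)).hasDerivWithinAt
  · intro x hx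
    exact (e2 x (interior_subset hx)).hasDerivWithinAt
  · intro x hx
    have := h3 x (interior_subset hx)
    linarith

lemma sq_convex (a b c : ℝ) (hc : 0 ≤ c) :
    ConvexOn ℝ (Set.Icc a b) (fun t : ℝ => c / 2 * t ^ 2) := by
  have h : ConvexOn ℝ (Set.Icc a b) (fun t : ℝ => t ^ 2) :=
    (Even.convexOn_pow (by decide : Even 2)).subset (Set.subset_univ _) (convex_Icc a b)
  have h2 := h.smul (c := c / 2) (by positivity)
  exact h2

end LCdM

theorem stmtLC : StmtLC := by
  refine ⟨LCdM.second, ?_, ?_, ?_, ?_⟩
  · intro f g a b K L hf hg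
    have h := ConvexOn.add hf hg
    unfold LC
    have e : (fun t => f t + g t + (K + L) / 2 * t ^ 2)
        = (fun t => f t + K / 2 * t ^ 2) + (fun t => g t + L / 2 * t ^ 2) := by
      funext t
      simp only [Pi.add_apply]
      ring
    rw [e]
    exact h
  · intro f a b c K hc hf
    have h := ConvexOn.smul hc hf
    unfold LC
    have e : (fun t => c * f t + c * K / 2 * t ^ 2)
        = fun t => c • (f t + K / 2 * t ^ 2) := by
      funext t
      simp only [smul_eq_mul]
      ring
    rw [e]
    exact h
  · intro f a b c K hf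
    have h := ConvexOn.add (convexOn_const c (convex_Icc a b)) hf
    unfold LC
    have e : (fun t => c + f t + K / 2 * t ^ 2)
        = (fun _ => c) + (fun t => f t + K / 2 * t ^ 2) := by
      funext t
      simp only [Pi.add_apply]
      ring
    rw [e]
    exact h
  · intro f a b K L hKL hf
    have h := ConvexOn.add hf (LCdM.sq_convex a b (L - K) (by linarith))
    unfold LC
    have e : (fun t => f t + L / 2 * t ^ 2)
        = (fun t => f t + K / 2 * t ^ 2) + (fun t => (L - K) / 2 * t ^ 2) := by
      funext t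
      simp only [Pi.add_apply]
      ring
    rw [e]
    exact h

end RelEqN.Small.Tri
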