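import Pool.Agent.Lib.MP_b9e19b_mp.Small.Tri.Spec

set_option autoImplicit false

/-!
# The three-point inequality (assembly)
-/

namespace RelEqN.Small.Tri

open RelEqN.Small

namespace MainM

variable {N : ℕ}

lemma pS_add (q : Fin N → ℂ) (f g : ℝ → ℝ) :
    pS q (fun r => f r + g r) = pS q f + pS q g := by
  unfold pS
  simp only [Finset.sum_add_distrib]

lemma pS_sub (q : Fin N → ℂ) (f g : ℝ → ℝ) :
    pS q (fun r => f r - g r) = pS q f - pS q g := by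
  unfold pS
  simp only [Finset.sum_sub_distrib]

lemma pS_mul (q : Fin N → ℂ) (c : ℝ) (f : ℝ → ℝ) :
    pS q (fun r => c * f r) = c * pS q f := by
  unfold pS
  simp only [Finset.mul_sum]

lemma pS_zero (q : Fin N → ℂ) : pS q (fun _ => 0) = 0 := by
  unfold pS
  simp

lemma tS_add (q : Fin N → ℂ) (f g : ℝ → ℝ → ℝ → ℝ) :
    tS q (fun x y c => f x y c + g x y c) = tS q f + tS q g := by
  unfold tS
  simp only [Finset.sum_add_distrib]

lemma tS_zero (q : Fin N → ℂ) : tS q (fun _ _ _ => 0) = 0 := by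
  unfold tS
  simp

/-- the kernel part -/
lemma ker_nonneg (h1 : StmtKer) (q : Fin N → ℂ) (hq : Function.Injective q)
    (L : List (ℕ × (ℝ → ℝ))) :
    0 ≤ pS q (fun r => (L.map fun p => (p.2 r) ^ 2).sum)
      + tS q (fun x y c => (L.map fun p => p.2 x * p.2 y * ch p.1 c).sum) := by
  induction L with
  | nil =>
    simp only [List.map_nil, List.sum_nil]
    rw [pS_zero, tS_zero, add_zero]
  | cons a L ih =>
    simp only [List.map_cons, List.sum_cons]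
    rw [pS_add q (fun r => (a.2 r) ^ 2), tS_add q (fun x y c => a.2 x * a.2 y * ch a.1 c)]
    have h := h1 N q hq a.1 a.2
    linarith

/-- the odd pair function -/
noncomputable def oP (F : Fn) (r : ℝ) : ℝ :=
  F.ca * F.p0 r + F.cb * F.p2 r + 1 * ((F.p0 r + F.p2 r - 6 * F.p1 r) / r ^ 3)

/-- the even pair function -/
noncomputable def eP (F : Fn) (r : ℝ) : ℝ :=
  F.ca * F.e0 r + F.cb * F.e2 r + 0 * ((F.e0 r + F.e2 r - 6 * F.e1 r) / r ^ 3)

/-- the odd vertex function -/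
noncomputable def oT (F : Fn) (x y c : ℝ) : ℝ :=
  ((F.p0 x + F.p2 x) / 2 - 3 * F.p1 x * (2 * c ^ 2 - 1)) / y ^ 3

/-- the even vertex function -/
noncomputable def eT (F : Fn) (x y c : ℝ) : ℝ :=
  ((F.e0 x + F.e2 x) / 2 - 3 * F.e1 x * (2 * c ^ 2 - 1)) / y ^ 3

lemma pS_U (q : Fin N → ℂ) (F : Fn) : pS q F.U =
    pS q (fun r => (F.ker.map fun p => (p.2 r) ^ 2).sum)
      + pS q (fun r => F.psi r / r ^ 2 - F.psi r * r / 2)
      + pS q (fun r => -6 / r ^ 3 + 10 / r ^ 6) - F.mu * pS q (fun r => 1 / r ^ 3)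
      + pS q (oP F) + pS q (eP F) := by
  rw [← pS_mul, ← pS_add, ← pS_add, ← pS_sub, ← pS_add, ← pS_add]
  congr 1
  funext r
  simp only [Fn.U, oP, eP]
  ring

lemma tS_V (q : Fin N → ℂ) (F : Fn) : tS q F.V =
    tS q (fun x y c => (F.ker.map fun p => p.2 x * p.2 y * ch p.1 c).sum)
      + tS q (fun x y c => F.psi x * c / y ^ 2)
      + tS q (fun x y c => (9 * c ^ 2 - 4) / (x ^ 3 * y ^ 3))
      + tS q (oT F) + tS q (eT F) := by
  rw [← tS_add, ← tS_add, ← tS_add, ← tS_add]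
  congr 1
  funext x y c
  simp only [Fn.V, oT, eT]
  ring

lemma p4_nonneg (hN : 3 ≤ N) {q : Fin N → ℂ} (hq : Nec q) : 0 ≤ p4 q := by
  have h := hq.lo
  have h3 : (3 : ℝ) ≤ (N : ℝ) := by exact_mod_cast hN
  have h1 : 0 ≤ (2 * (N : ℝ) - 4) * p4 q := (sq_nonneg _).trans h
  exact nonneg_of_mul_nonneg_right h1 (by linarith)

lemma core (h1 : StmtKer) (h2 : StmtPhi) (h3 : StmtPFour) (h5 : StmtDist) (hN : 3 ≤ N)
    {q : Fin N → ℂ} (hq : Nec q) (F : Fn) (Tb : ℝ) (hmu : 0 ≤ F.mu) (hT : T q ≤ Tb)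
    (hO : 0 ≤ pS q (oP F) + tS q (oT F)) (hE : 0 ≤ pS q (eP F) + tS q (eT F)) :
    ∃ i j k : Fin N, i ≠ j ∧ i ≠ k ∧ j ≠ k ∧
      0 ≤ F.S N Tb ‖q i - q j‖ ‖q i - q k‖ ‖q j - q k‖ := by
  by_contra hcon
  have hneg : ∀ i j k : Fin N, i ≠ j → i ≠ k → j ≠ k →
      F.S N Tb ‖q i - q j‖ ‖q i - q k‖ ‖q j - q k‖ < 0 := by
    intro i j k hij hik hjk
    by_contra h
    exact hcon ⟨i, j, k, hij, hik, hjk, not_lt.1 h⟩
  have hD := h5 N q hN hq.isCC.1 ((2 * N - 3) + F.mu * Tb) F.U F.V (by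
    intro i j k hij hik hjk
    have h := hneg i j k hij hik hjk
    unfold Fn.S at h
    linarith)
  rw [pS_U, tS_V] at hD
  have hK := ker_nonneg h1 q hq.isCC.1 F.ker
  have hP := h2 N q hq.isCC F.psi
  obtain ⟨hT1, hF⟩ := h3 N q hq.isCC.1
  have h4 := p4_nonneg hN hq
  have hm : 0 ≤ F.mu * (Tb - T q) := mul_nonneg hmu (by linarith)
  rw [hT1] at hm
  nlinarith

end MainM

theorem stmtMain (h1 : StmtKer) (h2 : StmtPhi) (h3 : StmtPFour) (h4 : StmtPairTest)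
    (h5 : StmtDist) : StmtMain := by
  intro N q hN hq F Tb ν hmu hT hν0 hν1 hs hca hcb hpsd
  refine MainM.core h1 h2 h3 h5 hN hq F Tb hmu hT ?_ ?_
  · exact h4 N q hN hq ν F.ca F.cb 1 (Or.inr rfl) hν0 hν1 hs hca hcb F.p0 F.p1 F.p2 hpsd.1
  · exact h4 N q hN hq ν F.ca F.cb 0 (Or.inl rfl) hν0 hν1 hs hca hcb F.e0 F.e1 F.e2 hpsd.2

theorem stmtMain0 (h1 : StmtKer) (h2 : StmtPhi) (h3 : StmtPFour) (h5 : StmtDist) :
    StmtMain0 := by
  intro N q hN hq F Tb hmu hT h0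
  have e1 : MainM.oP F = fun _ => 0 := by
    funext r
    obtain ⟨a, b, c, _, _, _⟩ := h0 r
    simp only [MainM.oP, a, b, c]
    ring
  have e2 : MainM.eP F = fun _ => 0 := by
    funext r
    obtain ⟨_, _, _, a, b, c⟩ := h0 r
    simp only [MainM.eP, a, b, c]
    ring
  have e3 : MainM.oT F = fun _ _ _ => 0 := by
    funext x y c'
    obtain ⟨a, b, c, _, _, _⟩ := h0 x
    simp only [MainM.oT, a, b, c]
    ring
  have e4 : MainM.eT F = fun _ _ _ => 0 := by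
    funext x y c'
    obtain ⟨_, _, _, a, b, c⟩ := h0 x
    simp only [MainM.eT, a, b, c]
    ring
  refine MainM.core h1 h2 h3 h5 hN hq F Tb hmu hT ?_ ?_
  · rw [e1, e3, MainM.pS_zero, MainM.tS_zero, add_zero]
  · rw [e2, e4, MainM.pS_zero, MainM.tS_zero, add_zero]

end RelEqN.Small.Tri
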