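import Pool.Agent.Lib.MP_b9e19b_mp.Small.Tri.Spec3

set_option autoImplicit false

/-!
# Three-point certificates: the pair function of a certificate (D3)
-/

namespace RelEqN.Small.Tri.MatchUM

open Chk RelEqN.Small RelEqN.Small.Tri

lemma quadSum (H E k0 k1 X : ℝ) (hE : E ≠ 0) (hk : k1 - k0 ≠ 0) (g : List ℕ → ℝ → ℝ)
    (ga gb : List ℕ → ℝ) (x : ℝ)
    (hg : ∀ v, g v x = ((ga v - H) / E * (k1 - X) + (gb v - H) / E * (X - k0)) / (k1 - k0)) :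
    ∀ vs : List (List ℕ), (vs.map fun v => g v x ^ 2).sum
      = ((vs.map fun v => (ga v - H) * (ga v - H)).sum * (k1 - X) ^ 2
        + 2 * (vs.map fun v => (ga v - H) * (gb v - H)).sum * ((X - k0) * (k1 - X))
        + (vs.map fun v => (gb v - H) * (gb v - H)).sum * (X - k0) ^ 2)
          / (E * E * (k1 - k0) ^ 2) := by
  intro vs
  induction vs with
  | nil => simp
  | cons v vs ih =>
    simp only [List.map_cons, List.sum_cons]
    rw [ih, hg v]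
    field_simp
    ring

end RelEqN.Small.Tri.MatchUM

namespace RelEqN.Small.Tri

open Chk RelEqN.Small MatchUM

theorem stmtMatchU (h1 : StmtPlf) (h2 : StmtGood) : StmtMatchU := by
  intro C hC a ha x hx
  obtain ⟨hP, hE, hQ, hO, -, hkn, hcel, -, -, hS⟩ := h2 C hC
  obtain ⟨hc, hc0, hc1, hok⟩ := hcel a ha
  have hk : (C.kn.getD a 0 : ℝ) < C.kn.getD (a + 1) 0 := by exact_mod_cast hkn a ha
  have hD' : (0 : ℝ) < C.par.D := by exact_mod_cast hP.D0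
  have hE' : (0 : ℝ) < C.E := by exact_mod_cast hE
  have hEne : (C.E : ℝ) ≠ 0 := hE'.ne'
  have hx' : x ∈ Set.Icc ((C.kn.getD a 0 : ℝ) / C.par.D) ((C.kn.getD (a + 1) 0 : ℝ) / C.par.D) := hx
  have hQ' : (C.par.Q : ℝ) = C.E * C.E := by exact_mod_cast hQ
  have hO' : (C.par.O : ℝ) = C.H * C.E := by exact_mod_cast hO
  have hc0' : ((C.cel a).a0 : ℝ) = (C.kn.getD a 0 : ℝ) := by
    rw [hc0]; rfl
  have hc1' : ((C.cel a).a1 : ℝ) = (C.kn.getD (a + 1) 0 : ℝ) := by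
    rw [hc1]; rfl
  have hx0 : (0 : ℝ) < x := by
    have h := hx'.1
    have hpos : (0 : ℝ) < (C.kn.getD a 0 : ℝ) := by
      rw [← hc0']; exact_mod_cast hc.pos
    exact lt_of_lt_of_le (div_pos hpos hD') h
  have epH : ∀ v : List ℕ, C.pH v x = (((v.getD a C.H : ℝ) - C.H) / C.E
        * ((C.kn.getD (a + 1) 0 : ℝ) - C.par.D * x)
      + ((v.getD (a + 1) C.H : ℝ) - C.H) / C.E * (C.par.D * x - (C.kn.getD a 0 : ℝ)))
        / ((C.kn.getD (a + 1) 0 : ℝ) - (C.kn.getD a 0 : ℝ)) := fun v => by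
    unfold Cert.pH
    rw [h1 C.par.D hP.D0 C.kn _ a x hkn ha hx']
  have ep0 : ∀ v : List ℕ, C.p00 v x = ((v.getD a 0 : ℝ) / C.E
        * ((C.kn.getD (a + 1) 0 : ℝ) - C.par.D * x)
      + (v.getD (a + 1) 0 : ℝ) / C.E * (C.par.D * x - (C.kn.getD a 0 : ℝ)))
        / ((C.kn.getD (a + 1) 0 : ℝ) - (C.kn.getD a 0 : ℝ)) := fun v => by
    unfold Cert.p00
    rw [h1 C.par.D hP.D0 C.kn _ a x hkn ha hx']
  -- the checks
  unfold Cert.okCel Cert.okN at hok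
  simp only [Bool.and_eq_true] at hok
  obtain ⟨⟨⟨⟨⟨⟨-, ⟨⟨⟨⟨s0, -⟩, -⟩, C0⟩, R0⟩⟩, ⟨⟨⟨⟨s1, -⟩, -⟩, C1⟩, R1⟩⟩, d0⟩, d1⟩, d2⟩, -⟩ := hok
  replace s0 := Nat.eq_of_beq_eq_true s0
  replace s1 := Nat.eq_of_beq_eq_true s1
  replace C0 := Nat.eq_of_beq_eq_true C0
  replace C1 := Nat.eq_of_beq_eq_true C1
  replace R0 := Nat.eq_of_beq_eq_true R0
  replace R1 := Nat.eq_of_beq_eq_true R1
  replace d0 := Nat.eq_of_beq_eq_true d0
  replace d1 := Nat.eq_of_beq_eq_true d1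
  replace d2 := Nat.eq_of_beq_eq_true d2
  have s0' : ((C.cel a).s0 : ℝ) = (C.psi.getD a C.H : ℝ) * C.E := by exact_mod_cast s0
  have s1' : ((C.cel a).s1 : ℝ) = (C.psi.getD (a + 1) C.H : ℝ) * C.E := by exact_mod_cast s1
  have C0' : ((C.cel a).C0 : ℝ) = C.ca * ((C.p0.getD a 0 : ℝ) + C.e0.getD a 0)
      + C.cb * ((C.p2.getD a 0 : ℝ) + C.e2.getD a 0) := by exact_mod_cast C0
  have C1' : ((C.cel a).C1 : ℝ) = C.ca * ((C.p0.getD (a + 1) 0 : ℝ) + C.e0.getD (a + 1) 0)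
      + C.cb * ((C.p2.getD (a + 1) 0 : ℝ) + C.e2.getD (a + 1) 0) := by exact_mod_cast C1
  have R0' : ((C.cel a).R0 : ℝ) + 6 * (C.p1.getD a C.H : ℝ) * C.E
      = ((C.p0.getD a 0 : ℝ) + C.p2.getD a 0) * C.E + 7 * C.par.O := by exact_mod_cast R0
  have R1' : ((C.cel a).R1 : ℝ) + 6 * (C.p1.getD (a + 1) C.H : ℝ) * C.E
      = ((C.p0.getD (a + 1) 0 : ℝ) + C.p2.getD (a + 1) 0) * C.E + 7 * C.par.O := by
    exact_mod_cast R1
  generalize hvs : C.v0 ++ C.v1 ++ C.v2 ++ C.v3 ++ C.v4 = vs at d0 d1 d2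
  have d0' : ((C.cel a).d0 : ℝ) = (vs.map fun v => ((v.getD a C.H : ℝ) - C.H)
      * ((v.getD a C.H : ℝ) - C.H)).sum := by
    rw [← hS]
    have : ((C.cel a).d0 : ℝ) + Cert.sB C.H vs a a = Cert.sA C.H vs a a := by exact_mod_cast d0
    linarith
  have d1' : ((C.cel a).d1 : ℝ) - C.par.O = (vs.map fun v => ((v.getD a C.H : ℝ) - C.H)
      * ((v.getD (a + 1) C.H : ℝ) - C.H)).sum := by
    rw [← hS]
    have : ((C.cel a).d1 : ℝ) + Cert.sB C.H vs a (a + 1)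
      = Cert.sA C.H vs a (a + 1) + C.par.O := by exact_mod_cast d1
    linarith
  have d2' : ((C.cel a).d2 : ℝ) = (vs.map fun v => ((v.getD (a + 1) C.H : ℝ) - C.H)
      * ((v.getD (a + 1) C.H : ℝ) - C.H)).sum := by
    rw [← hS]
    have : ((C.cel a).d2 : ℝ) + Cert.sB C.H vs (a + 1) (a + 1)
      = Cert.sA C.H vs (a + 1) (a + 1) := by exact_mod_cast d2
    linarith
  -- the sum of squares
  have hker : (C.fn.ker.map fun p => (p.2 x) ^ 2).sum = (vs.map fun v => C.pH v x ^ 2).sum := by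
    rw [← hvs]
    simp only [Cert.fn, List.map_append, List.map_map, List.sum_append, Function.comp_def,
      add_assoc]
  have hkne : ((C.kn.getD (a + 1) 0 : ℝ) - (C.kn.getD a 0 : ℝ)) ≠ 0 := (sub_pos.2 hk).ne'
  have hquad := quadSum (C.H : ℝ) (C.E : ℝ) (C.kn.getD a 0 : ℝ) (C.kn.getD (a + 1) 0 : ℝ)
    (C.par.D * x) hEne hkne C.pH (fun v => (v.getD a C.H : ℝ)) (fun v => (v.getD (a + 1) C.H : ℝ))
    x epH vs
  rw [← d0', ← d1', ← d2'] at hquad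
  -- the affine functions
  have epsi : C.fn.psi x = affR C.par (C.cel a) (C.cel a).s0 (C.cel a).s1 C.par.O x := by
    show C.pH C.psi x = _
    rw [epH]
    unfold affR
    rw [hc0', hc1', s0', s1', hO', hQ']
    field_simp
  have eC : C.fn.ca * (C.fn.p0 x + C.fn.e0 x) + C.fn.cb * (C.fn.p2 x + C.fn.e2 x)
      = affR C.par (C.cel a) (C.cel a).C0 (C.cel a).C1 0 x := by
    show (C.ca : ℝ) / C.E * (C.p00 C.p0 x + C.p00 C.e0 x)
      + (C.cb : ℝ) / C.E * (C.p00 C.p2 x + C.p00 C.e2 x) = _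
    rw [ep0, ep0, ep0, ep0]
    unfold affR
    rw [hc0', hc1', C0', C1', hQ']
    field_simp
    push_cast
    ring
  have eR : C.fn.p0 x + C.fn.p2 x - 6 * C.fn.p1 x
      = affR C.par (C.cel a) (C.cel a).R0 (C.cel a).R1 C.par.O x := by
    show C.p00 C.p0 x + C.p00 C.p2 x - 6 * C.pH C.p1 x = _
    rw [ep0, ep0, epH]
    have r0 : ((C.cel a).R0 : ℝ) = ((C.p0.getD a 0 : ℝ) + C.p2.getD a 0) * C.E + 7 * C.par.O
      - 6 * (C.p1.getD a C.H : ℝ) * C.E := by linarith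
    have r1 : ((C.cel a).R1 : ℝ) = ((C.p0.getD (a + 1) 0 : ℝ) + C.p2.getD (a + 1) 0) * C.E
      + 7 * C.par.O - 6 * (C.p1.getD (a + 1) C.H : ℝ) * C.E := by linarith
    unfold affR
    rw [hc0', hc1', r0, r1, hQ', hO']
    field_simp
    ring
  unfold UR Fn.U
  rw [hker, hquad, epsi, hc0', hc1', ← eC, ← eR, hQ']
  have hmu : C.fn.mu = (C.par.mu : ℝ) / (C.E * C.E) := by
    show (C.par.mu : ℝ) / C.par.Q = _
    rw [hQ']
  rw [hmu]
  ring

end RelEqN.Small.Tri
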