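import Pool.Agent.Lib.MP_b9e19b_mp.Small.Tri.Spec3

set_option autoImplicit false

/-!
# Three-point certificates: the vertex function of a certificate (D4)
-/

namespace RelEqN.Small.Tri

open Chk RelEqN.Small

namespace MatchWM

/-- the facts on a knot interval which are used below -/
structure CelF (C : Cert) (a : ℕ) : Prop where
  a0 : ((C.cel a).a0 : ℝ) = C.kt a
  a1 : ((C.cel a).a1 : ℝ) = C.kt (a + 1)
  lt : (C.kt a : ℝ) < C.kt (a + 1)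
  s0 : ((C.cel a).s0 : ℝ) = C.psi.getD a C.H * C.E
  s1 : ((C.cel a).s1 : ℝ) = C.psi.getD (a + 1) C.H * C.E
  A0 : 2 * ((C.cel a).A0 : ℝ) =
    ((C.p0.getD a 0 : ℝ) + C.p2.getD a 0 + C.e0.getD a 0 + C.e2.getD a 0) * C.E
  A1 : 2 * ((C.cel a).A1 : ℝ) =
    ((C.p0.getD (a + 1) 0 : ℝ) + C.p2.getD (a + 1) 0 + C.e0.getD (a + 1) 0 +
      C.e2.getD (a + 1) 0) * C.E
  B0 : ((C.cel a).B0 : ℝ) + 5 * C.par.O = 3 * ((C.p1.getD a C.H : ℝ) + C.e1.getD a C.H) * C.E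
  B1 : ((C.cel a).B1 : ℝ) + 5 * C.par.O =
    3 * ((C.p1.getD (a + 1) C.H : ℝ) + C.e1.getD (a + 1) C.H) * C.E

theorem celF {C : Cert} {a : ℕ} (hok : (C.cel a).Ok C.par) (h0 : (C.cel a).a0 = C.kt a)
    (h1 : (C.cel a).a1 = C.kt (a + 1)) (h : C.okCel (C.cel a) a = true) : CelF C a := by
  unfold Cert.okCel Cert.okN at h
  simp only [Bool.and_eq_true, Nat.beq_eq] at h
  obtain ⟨⟨⟨⟨⟨⟨-, h2⟩, h3⟩, -⟩, -⟩, -⟩, -⟩ := h
  obtain ⟨⟨⟨⟨a1, a2⟩, a3⟩, -⟩, -⟩ := h2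
  obtain ⟨⟨⟨⟨b1, b2⟩, b3⟩, -⟩, -⟩ := h3
  refine ⟨?_, ?_, ?_, ?_, ?_, ?_, ?_, ?_, ?_⟩
  · exact_mod_cast h0
  · exact_mod_cast h1
  · have := hok.lt
    rw [h0, h1] at this
    exact_mod_cast this
  · exact_mod_cast a1
  · exact_mod_cast b1
  · exact_mod_cast a2
  · exact_mod_cast b2
  · exact_mod_cast a3
  · exact_mod_cast b3

/-- the basic data of a good certificate -/
structure Base (C : Cert) : Prop where
  D0 : 0 < C.par.D
  E0 : (0 : ℝ) < C.E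
  Q : (C.par.Q : ℝ) = C.E * C.E
  O : (C.par.O : ℝ) = C.H * C.E
  mono : ∀ i, i + 1 < C.kn.length → C.kn.getD i 0 < C.kn.getD (i + 1) 0

theorem plf_eq (h1 : StmtPlf) {C : Cert} (hB : Base C) {a : ℕ} (ha : a + 1 < C.kn.length)
    {x : ℝ} (hx : x ∈ C.Icl a) (f : ℕ → ℝ) :
    plf C.par.D C.kn f x =
      (f a * ((C.kt (a + 1) : ℝ) - C.par.D * x) + f (a + 1) * (C.par.D * x - (C.kt a : ℝ)))
        / ((C.kt (a + 1) : ℝ) - (C.kt a : ℝ)) :=
  h1 C.par.D hB.D0 C.kn f a x hB.mono ha hx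

theorem psi_eq (h1 : StmtPlf) {C : Cert} (hB : Base C) {a : ℕ} (ha : a + 1 < C.kn.length)
    (hF : CelF C a) {x : ℝ} (hx : x ∈ C.Icl a) :
    C.pH C.psi x = affR C.par (C.cel a) (C.cel a).s0 (C.cel a).s1 C.par.O x := by
  have hE := hB.E0.ne'
  have hh : (C.kt (a + 1) : ℝ) - (C.kt a : ℝ) ≠ 0 := (sub_pos.mpr hF.lt).ne'
  unfold Cert.pH affR
  rw [plf_eq h1 hB ha hx, hF.a0, hF.a1, hF.s0, hF.s1, hB.Q, hB.O]
  field_simp

theorem A_eq (h1 : StmtPlf) {C : Cert} (hB : Base C) {a : ℕ} (ha : a + 1 < C.kn.length)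
    (hF : CelF C a) {x : ℝ} (hx : x ∈ C.Icl a) :
    (C.p00 C.p0 x + C.p00 C.p2 x + C.p00 C.e0 x + C.p00 C.e2 x) / 2 =
      affR C.par (C.cel a) (C.cel a).A0 (C.cel a).A1 0 x := by
  have hE := hB.E0.ne'
  have hh : (C.kt (a + 1) : ℝ) - (C.kt a : ℝ) ≠ 0 := (sub_pos.mpr hF.lt).ne'
  have hA0 : ((C.cel a).A0 : ℝ) =
      ((C.p0.getD a 0 : ℝ) + C.p2.getD a 0 + C.e0.getD a 0 + C.e2.getD a 0) * C.E / 2 := by
    linarith [hF.A0]
  have hA1 : ((C.cel a).A1 : ℝ) =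
      ((C.p0.getD (a + 1) 0 : ℝ) + C.p2.getD (a + 1) 0 + C.e0.getD (a + 1) 0 +
        C.e2.getD (a + 1) 0) * C.E / 2 := by
    linarith [hF.A1]
  unfold Cert.p00 affR
  rw [plf_eq h1 hB ha hx, plf_eq h1 hB ha hx, plf_eq h1 hB ha hx, plf_eq h1 hB ha hx, hF.a0,
    hF.a1, hA0, hA1, hB.Q]
  push_cast
  field_simp
  ring

theorem B_eq (h1 : StmtPlf) {C : Cert} (hB : Base C) {a : ℕ} (ha : a + 1 < C.kn.length)
    (hF : CelF C a) {x : ℝ} (hx : x ∈ C.Icl a) :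
    3 * (C.pH C.p1 x + C.pH C.e1 x) =
      affR C.par (C.cel a) (C.cel a).B0 (C.cel a).B1 C.par.O x := by
  have hE := hB.E0.ne'
  have hh : (C.kt (a + 1) : ℝ) - (C.kt a : ℝ) ≠ 0 := (sub_pos.mpr hF.lt).ne'
  have hB0 : ((C.cel a).B0 : ℝ) =
      3 * ((C.p1.getD a C.H : ℝ) + C.e1.getD a C.H) * C.E - 5 * (C.H * C.E) := by
    rw [← hB.O]
    linarith [hF.B0]
  have hB1 : ((C.cel a).B1 : ℝ) =
      3 * ((C.p1.getD (a + 1) C.H : ℝ) + C.e1.getD (a + 1) C.H) * C.E - 5 * (C.H * C.E) := by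
    rw [← hB.O]
    linarith [hF.B1]
  unfold Cert.pH affR
  rw [plf_eq h1 hB ha hx, plf_eq h1 hB ha hx, hF.a0, hF.a1, hB0, hB1, hB.Q, hB.O]
  field_simp
  ring

/-- sums of products of node values -/
theorem sum_four (vs : List (List ℕ)) (p q r s : List ℕ → ℝ) (A B C D : ℝ) :
    (vs.map fun v => p v * A + q v * B + r v * C + s v * D).sum =
      (vs.map p).sum * A + (vs.map q).sum * B + (vs.map r).sum * C + (vs.map s).sum * D := by
  induction vs with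
  | nil => simp
  | cons v vs ih =>
    simp only [List.map_cons, List.sum_cons]
    rw [ih]
    ring

theorem ker_eq (h1 : StmtPlf) {C : Cert} (hB : Base C) {a b : ℕ} (ha : a + 1 < C.kn.length)
    (hb : b + 1 < C.kn.length) (hF : CelF C a) (hG : CelF C b)
    (hs : ∀ (vs : List (List ℕ)) (a b : ℕ), (Cert.sA C.H vs a b : ℝ) - Cert.sB C.H vs a b
      = (vs.map fun v => ((v.getD a C.H : ℝ) - C.H) * ((v.getD b C.H : ℝ) - C.H)).sum)
    {x y : ℝ} (hx : x ∈ C.Icl a) (hy : y ∈ C.Icl b) (vs : List (List ℕ)) (g : Quad)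
    (hg : C.okQ vs g a b = true) :
    2 * (vs.map fun v => C.pH v x * C.pH v y).sum = bilR C.par (C.cel a) (C.cel b) g x y := by
  have hE := hB.E0.ne'
  have hh : (C.kt (a + 1) : ℝ) - (C.kt a : ℝ) ≠ 0 := (sub_pos.mpr hF.lt).ne'
  have hk : (C.kt (b + 1) : ℝ) - (C.kt b : ℝ) ≠ 0 := (sub_pos.mpr hG.lt).ne'
  unfold Cert.okQ Cert.okG at hg
  simp only [Bool.and_eq_true, Nat.beq_eq] at hg
  obtain ⟨⟨⟨g1, g2⟩, g3⟩, g4⟩ := hg
  have key : ∀ (n i j : ℕ), n + 2 * Cert.sB C.H vs i j = 2 * Cert.sA C.H vs i j + C.par.O →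
      (n : ℝ) - C.par.O =
        2 * (vs.map fun v => ((v.getD i C.H : ℝ) - C.H) * ((v.getD j C.H : ℝ) - C.H)).sum := by
    intro n i j h
    rw [← hs]
    have h' : (n : ℝ) + 2 * Cert.sB C.H vs i j = 2 * Cert.sA C.H vs i j + C.par.O := by
      exact_mod_cast h
    linarith
  unfold bilR
  rw [key _ _ _ g1, key _ _ _ g2, key _ _ _ g3, key _ _ _ g4, hF.a0, hF.a1, hG.a0, hG.a1, hB.Q]
  have e1 : (vs.map fun v => C.pH v x * C.pH v y) = vs.map fun v =>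
      ((v.getD a C.H : ℝ) - C.H) * ((v.getD b C.H : ℝ) - C.H) *
        (((C.kt (a + 1) : ℝ) - C.par.D * x) * ((C.kt (b + 1) : ℝ) - C.par.D * y) /
          (C.E * C.E * (((C.kt (a + 1) : ℝ) - C.kt a) * ((C.kt (b + 1) : ℝ) - C.kt b)))) +
      ((v.getD (a + 1) C.H : ℝ) - C.H) * ((v.getD b C.H : ℝ) - C.H) *
        ((C.par.D * x - (C.kt a : ℝ)) * ((C.kt (b + 1) : ℝ) - C.par.D * y) /
          (C.E * C.E * (((C.kt (a + 1) : ℝ) - C.kt a) * ((C.kt (b + 1) : ℝ) - C.kt b)))) +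
      ((v.getD a C.H : ℝ) - C.H) * ((v.getD (b + 1) C.H : ℝ) - C.H) *
        (((C.kt (a + 1) : ℝ) - C.par.D * x) * (C.par.D * y - (C.kt b : ℝ)) /
          (C.E * C.E * (((C.kt (a + 1) : ℝ) - C.kt a) * ((C.kt (b + 1) : ℝ) - C.kt b)))) +
      ((v.getD (a + 1) C.H : ℝ) - C.H) * ((v.getD (b + 1) C.H : ℝ) - C.H) *
        ((C.par.D * x - (C.kt a : ℝ)) * (C.par.D * y - (C.kt b : ℝ)) /
          (C.E * C.E * (((C.kt (a + 1) : ℝ) - C.kt a) * ((C.kt (b + 1) : ℝ) - C.kt b)))) := by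
    refine List.map_congr_left fun v _ => ?_
    unfold Cert.pH
    rw [plf_eq h1 hB ha hx, plf_eq h1 hB hb hy]
    field_simp
    ring
  rw [e1, sum_four]
  generalize (vs.map fun v => ((v.getD a C.H : ℝ) - C.H) * ((v.getD b C.H : ℝ) - C.H)).sum = S1
  generalize (vs.map fun v =>
    ((v.getD (a + 1) C.H : ℝ) - C.H) * ((v.getD b C.H : ℝ) - C.H)).sum = S2
  generalize (vs.map fun v =>
    ((v.getD a C.H : ℝ) - C.H) * ((v.getD (b + 1) C.H : ℝ) - C.H)).sum = S3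
  generalize (vs.map fun v =>
    ((v.getD (a + 1) C.H : ℝ) - C.H) * ((v.getD (b + 1) C.H : ℝ) - C.H)).sum = S4
  field_simp
  ring

theorem sum_ch (C : Cert) (vs : List (List ℕ)) (m : ℕ) (x y c : ℝ) :
    ((vs.map fun v => (m, C.pH v)).map fun p => p.2 x * p.2 y * ch p.1 c).sum =
      (vs.map fun v => C.pH v x * C.pH v y).sum * ch m c := by
  induction vs with
  | nil => simp
  | cons v vs ih =>
    simp only [List.map_cons, List.sum_cons]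
    rw [ih]
    ring

end MatchWM

open MatchWM in
theorem stmtMatchW (h1 : StmtPlf) (h2 : StmtGood) : StmtMatchW := by
  intro C hC a b hab hb x hx y hy z
  obtain ⟨g1, g2, g3, g4, -, g6, g7, g8, -, g10⟩ := h2 C hC
  have ha : a + 1 < C.kn.length := by omega
  have hB : Base C := by
    refine ⟨g1.D0, by exact_mod_cast g2, by exact_mod_cast g3, by exact_mod_cast g4, g6⟩
  obtain ⟨a1, a2, a3, a4⟩ := g7 a ha
  obtain ⟨b1, b2, b3, b4⟩ := g7 b hb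
  have hF := celF a1 a2 a3 a4
  have hG := celF b1 b2 b3 b4
  have hK := g8 a b hab hb
  unfold Cert.okKer at hK
  simp only [Bool.and_eq_true] at hK
  obtain ⟨⟨⟨⟨k0, k1⟩, k2⟩, k3⟩, k4⟩ := hK
  have q0 := ker_eq h1 hB ha hb hF hG g10 hx hy C.v0 _ k0
  have q1 := ker_eq h1 hB ha hb hF hG g10 hx hy C.v1 _ k1
  have q2 := ker_eq h1 hB ha hb hF hG g10 hx hy C.v2 _ k2
  have q3 := ker_eq h1 hB ha hb hF hG g10 hx hy C.v3 _ k3
  have q4 := ker_eq h1 hB ha hb hF hG g10 hx hy C.v4 _ k4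
  have hsw : ∀ vs : List (List ℕ), (vs.map fun v => C.pH v y * C.pH v x) =
      vs.map fun v => C.pH v x * C.pH v y := fun vs => List.map_congr_left fun v _ => mul_comm _ _
  have c2 : ∀ c : ℝ, ch 2 c = 2 * c ^ 2 - 1 := by
    intro c
    show 2 * c * c - 1 = _
    ring
  have c3 : ∀ c : ℝ, ch 3 c = 4 * c ^ 3 - 3 * c := by
    intro c
    show 2 * c * (2 * c * c - 1) - c = _
    ring
  have c4 : ∀ c : ℝ, ch 4 c = 8 * c ^ 4 - 8 * c ^ 2 + 1 := by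
    intro c
    show 2 * c * (2 * c * (2 * c * c - 1) - c) - (2 * c * c - 1) = _
    ring
  have c0 : ∀ c : ℝ, ch 0 c = 1 := fun c => rfl
  have c1 : ∀ c : ℝ, ch 1 c = c := fun c => rfl
  have hker : ∀ u w c : ℝ, (C.fn.ker.map fun p => p.2 u * p.2 w * ch p.1 c).sum =
      (C.v0.map fun v => C.pH v u * C.pH v w).sum +
      ((C.v1.map fun v => C.pH v u * C.pH v w).sum * c +
      ((C.v2.map fun v => C.pH v u * C.pH v w).sum * (2 * c ^ 2 - 1) +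
      ((C.v3.map fun v => C.pH v u * C.pH v w).sum * (4 * c ^ 3 - 3 * c) +
      (C.v4.map fun v => C.pH v u * C.pH v w).sum * (8 * c ^ 4 - 8 * c ^ 2 + 1)))) := by
    intro u w c
    show ((C.v0.map (fun v => (0, C.pH v)) ++ (C.v1.map (fun v => (1, C.pH v)) ++
      (C.v2.map (fun v => (2, C.pH v)) ++ (C.v3.map (fun v => (3, C.pH v)) ++
        C.v4.map (fun v => (4, C.pH v)))))).map
          fun p : ℕ × (ℝ → ℝ) => p.2 u * p.2 w * ch p.1 c).sum = _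
    rw [List.map_append, List.sum_append, List.map_append, List.sum_append, List.map_append,
      List.sum_append, List.map_append, List.sum_append, sum_ch, sum_ch, sum_ch, sum_ch, sum_ch,
      c0, c1, c2, c3, c4, mul_one]
  have e1 : C.fn.psi = C.pH C.psi := rfl
  have e2 : ∀ u, (C.fn.p0 u + C.fn.p2 u + C.fn.e0 u + C.fn.e2 u) / 2 =
      (C.p00 C.p0 u + C.p00 C.p2 u + C.p00 C.e0 u + C.p00 C.e2 u) / 2 := fun u => rfl
  have e3 : ∀ u, 3 * (C.fn.p1 u + C.fn.e1 u) = 3 * (C.pH C.p1 u + C.pH C.e1 u) := fun u => rfl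
  unfold Fn.V WR
  rw [hker, hker, hsw, hsw, hsw, hsw, hsw, e1, e2, e2, e3, e3, psi_eq h1 hB ha hF hx,
    psi_eq h1 hB hb hG hy, A_eq h1 hB ha hF hx, A_eq h1 hB hb hG hy, B_eq h1 hB ha hF hx,
    B_eq h1 hB hb hG hy, ← q0, ← q1, ← q2, ← q3, ← q4]
  ring

end RelEqN.Small.Tri
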