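import Pool.Agent.Lib.MP_b9e19b_mp.Small.Tri.Spec2

set_option autoImplicit false

/-!
# Three-point certificates: bounds of the interpolations on a box
-/

namespace RelEqN.Small.Tri.NodeBdM

open Chk

/-- upper rounding -/
theorem le_up (F n d : ℕ) (hd : 0 < d) : (F : ℝ) * n / d ≤ (up F n d : ℕ) := by
  have hd' : (0 : ℝ) < d := by exact_mod_cast hd
  rw [div_le_iff₀ hd']
  have h := Nat.lt_div_mul_add (a := F * n) hd
  have h2 : F * n ≤ up F n d * d := by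
    unfold up
    nlinarith [h]
  exact_mod_cast h2

/-- a real number `n ≤ M`, divided by `d` -/
theorem key (F M d : ℕ) (n : ℝ) (hd : 0 < d) (hn : n ≤ M) :
    (F : ℝ) * (n / d) ≤ (up F M d : ℕ) := by
  have hd' : (0 : ℝ) < d := by exact_mod_cast hd
  refine le_trans ?_ (le_up F M d hd)
  rw [mul_div_assoc]
  exact mul_le_mul_of_nonneg_left (div_le_div_of_nonneg_right hn hd'.le) (Nat.cast_nonneg F)

theorem keyA (F M d : ℕ) (n : ℝ) (hd : 0 < d) (hn : |n| ≤ M) :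
    (F : ℝ) * |n / d| ≤ (up F M d : ℕ) := by
  have hd' : (0 : ℝ) < d := by exact_mod_cast hd
  rw [abs_div, abs_of_pos hd']
  exact key F M d |n| hd hn

theorem le_mx_left (a b : ℕ) : a ≤ mx a b := by unfold mx; omega

theorem le_mx_right (a b : ℕ) : b ≤ mx a b := by unfold mx; omega

theorem le_mx_left' (a b : ℕ) : (a : ℝ) ≤ (mx a b : ℕ) := by exact_mod_cast le_mx_left a b

theorem le_mx_right' (a b : ℕ) : (b : ℝ) ≤ (mx a b : ℕ) := by exact_mod_cast le_mx_right a b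

theorem sub_cast (a b : ℕ) : (a : ℝ) - b ≤ ((a - b : ℕ) : ℝ) := by
  rcases le_total b a with h | h
  · rw [Nat.cast_sub h]
  · rw [Nat.sub_eq_zero_of_le h]
    have : (a : ℝ) ≤ b := by exact_mod_cast h
    simp only [Nat.cast_zero]
    linarith

/-- absolute difference -/
theorem ad_cast (a b : ℕ) : ((ad a b : ℕ) : ℝ) = |(a : ℝ) - b| := by
  unfold ad
  rcases le_total b a with h | h
  · have h' : (b : ℝ) ≤ a := by exact_mod_cast h
    rw [Nat.sub_eq_zero_of_le h, Nat.add_zero, Nat.cast_sub h, abs_of_nonneg (by linarith)]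
  · have h' : (a : ℝ) ≤ b := by exact_mod_cast h
    rw [Nat.sub_eq_zero_of_le h, Nat.zero_add, Nat.cast_sub h, abs_of_nonpos (by linarith)]
    ring

/-- an affine function on an interval -/
theorem aff_le (α β t t0 t1 M : ℝ) (h0 : t0 ≤ t) (h1 : t ≤ t1) (h2 : α + β * t0 ≤ M)
    (h3 : α + β * t1 ≤ M) : α + β * t ≤ M := by
  rcases le_total 0 β with h | h
  · have := mul_le_mul_of_nonneg_left h1 h
    linarith
  · have := mul_le_mul_of_nonpos_left h0 h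
    linarith

theorem aff_abs (α β t t0 t1 M : ℝ) (h0 : t0 ≤ t) (h1 : t ≤ t1) (h2 : |α + β * t0| ≤ M)
    (h3 : |α + β * t1| ≤ M) : |α + β * t| ≤ M := by
  rw [abs_le] at h2 h3 ⊢
  constructor
  · have := aff_le (-α) (-β) t t0 t1 M h0 h1 (by linarith [h2.1]) (by linarith [h3.1])
    linarith
  · exact aff_le α β t t0 t1 M h0 h1 h2.2 h3.2

/-- the same for a function which is known to be affine -/
theorem abs_of_aff (f : ℝ → ℝ) (α β t t0 t1 M : ℝ) (hf : ∀ u, f u = α + β * u) (h0 : t0 ≤ t)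
    (h1 : t ≤ t1) (h2 : |f t0| ≤ M) (h3 : |f t1| ≤ M) : |f t| ≤ M := by
  rw [hf] at h2 h3 ⊢
  exact aff_abs α β t t0 t1 M h0 h1 h2 h3

theorem le_of_aff (f : ℝ → ℝ) (α β t t0 t1 M : ℝ) (hf : ∀ u, f u = α + β * u) (h0 : t0 ≤ t)
    (h1 : t ≤ t1) (h2 : f t0 ≤ M) (h3 : f t1 ≤ M) : f t ≤ M := by
  rw [hf] at h2 h3 ⊢
  exact aff_le α β t t0 t1 M h0 h1 h2 h3

/-- numerator of `bilR` -/
def bn (p q : Cel) (g : Quad) (O : ℝ) (X Y : ℝ) : ℝ :=
  (((g.g00 : ℝ) - O) * (p.a1 - X) + ((g.g10 : ℝ) - O) * (X - p.a0)) * (q.a1 - Y)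
    + (((g.g01 : ℝ) - O) * (p.a1 - X) + ((g.g11 : ℝ) - O) * (X - p.a0)) * (Y - q.a0)

theorem bn_cast (p q : Cel) (g : Quad) (O X Y : ℕ) (h1 : p.a0 ≤ X) (h2 : X ≤ p.a1)
    (h3 : q.a0 ≤ Y) (h4 : Y ≤ q.a1) :
    bn p q g O X Y = (bilN p q g X Y : ℕ) -
      ((O * ((p.a1 - p.a0) * (q.a1 - q.a0)) : ℕ) : ℝ) := by
  unfold bn bilN
  have h5 : p.a0 ≤ p.a1 := h1.trans h2
  have h6 : q.a0 ≤ q.a1 := h3.trans h4
  simp only [Nat.cast_add, Nat.cast_mul, Nat.cast_sub h1, Nat.cast_sub h2, Nat.cast_sub h3,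
    Nat.cast_sub h4, Nat.cast_sub h5, Nat.cast_sub h6]
  ring

/-- numerator of `affR` -/
def an (p : Cel) (f0 f1 o : ℝ) (X : ℝ) : ℝ := (f0 - o) * (p.a1 - X) + (f1 - o) * (X - p.a0)

theorem an_cast (p : Cel) (f0 f1 o X : ℕ) (h1 : p.a0 ≤ X) (h2 : X ≤ p.a1) :
    an p f0 f1 o X = (affN p.a0 p.a1 f0 f1 X : ℕ) - ((o * (p.a1 - p.a0) : ℕ) : ℝ) := by
  unfold an affN
  have h5 : p.a0 ≤ p.a1 := h1.trans h2
  simp only [Nat.cast_add, Nat.cast_mul, Nat.cast_sub h1, Nat.cast_sub h2, Nat.cast_sub h5]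
  ring

/-- numerator of `bilX`, `bilY` -/
def xn (q : Cel) (u v w z : ℝ) (Y : ℝ) : ℝ := (u - v) * (q.a1 - Y) + (w - z) * (Y - q.a0)

theorem xn_cast (q : Cel) (u v w z Y : ℕ) (h1 : q.a0 ≤ Y) (h2 : Y ≤ q.a1) :
    xn q u v w z Y = ((u * (q.a1 - Y) + w * (Y - q.a0) : ℕ) : ℝ)
      - ((v * (q.a1 - Y) + z * (Y - q.a0) : ℕ) : ℝ) := by
  unfold xn
  simp only [Nat.cast_add, Nat.cast_mul, Nat.cast_sub h1, Nat.cast_sub h2]
  ring

theorem xn_abs (q : Cel) (u v w z Y0 Y1 : ℕ) (Y : ℝ) (h1 : q.a0 ≤ Y0) (h2 : Y0 ≤ Y1)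
    (h3 : Y1 ≤ q.a1) (h4 : (Y0 : ℝ) ≤ Y) (h5 : Y ≤ Y1) :
    |xn q u v w z Y| ≤ (mx
      (ad (u * (q.a1 - Y0) + w * (Y0 - q.a0)) (v * (q.a1 - Y0) + z * (Y0 - q.a0)))
      (ad (u * (q.a1 - Y1) + w * (Y1 - q.a0)) (v * (q.a1 - Y1) + z * (Y1 - q.a0))) : ℕ) := by
  have c0 := (ad_cast (u * (q.a1 - Y0) + w * (Y0 - q.a0)) (v * (q.a1 - Y0) + z * (Y0 - q.a0)))
  have c1 := (ad_cast (u * (q.a1 - Y1) + w * (Y1 - q.a0)) (v * (q.a1 - Y1) + z * (Y1 - q.a0)))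
  rw [← xn_cast q u v w z Y0 h1 (h2.trans h3)] at c0
  rw [← xn_cast q u v w z Y1 (h1.trans h2) h3] at c1
  refine abs_of_aff (fun Y => xn q u v w z Y) (((u : ℝ) - v) * q.a1 - ((w : ℝ) - z) * q.a0)
    (((w : ℝ) - z) - ((u : ℝ) - v)) Y Y0 Y1 _ (fun t => ?_) h4 h5 ?_ ?_
  · unfold xn; ring
  · exact c0.ge.trans (le_mx_left' _ _)
  · exact c1.ge.trans (le_mx_right' _ _)

end RelEqN.Small.Tri.NodeBdM

namespace RelEqN.Small.Tri

open Chk NodeBdM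

theorem stmtNodeBd : StmtNodeBd := by
  intro P p q X0 X1 Y0 Y1 hP hp hq hX0 hX01 hX1 hY0 hY01 hY1 x hx y hy
  have hD : (0 : ℝ) < P.D := by exact_mod_cast hP.D0
  obtain ⟨X, rfl⟩ : ∃ a : ℝ, x = a / P.D := ⟨x * P.D, by field_simp⟩
  obtain ⟨Y, rfl⟩ : ∃ b : ℝ, y = b / P.D := ⟨y * P.D, by field_simp⟩
  have ha0 : (X0 : ℝ) ≤ X := by have := hx.1; rwa [div_le_div_iff_of_pos_right hD] at this
  have ha1 : X ≤ X1 := by have := hx.2; rwa [div_le_div_iff_of_pos_right hD] at this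
  have hb0 : (Y0 : ℝ) ≤ Y := by have := hy.1; rwa [div_le_div_iff_of_pos_right hD] at this
  have hb1 : Y ≤ Y1 := by have := hy.2; rwa [div_le_div_iff_of_pos_right hD] at this
  have eX : (P.D : ℝ) * (X / P.D) = X := by field_simp
  have eY : (P.D : ℝ) * (Y / P.D) = Y := by field_simp
  have hpl : p.a0 ≤ p.a1 := hp.lt.le
  have hql : q.a0 ≤ q.a1 := hq.lt.le
  have hX0' : X0 ≤ p.a1 := hX01.trans hX1
  have hX1' : p.a0 ≤ X1 := hX0.trans hX01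
  have hY0' : Y0 ≤ q.a1 := hY01.trans hY1
  have hY1' : q.a0 ≤ Y1 := hY0.trans hY01
  have hQ := hP.Q0
  have hp1 : 0 < p.a1 - p.a0 := Nat.sub_pos_of_lt hp.lt
  have hq1 : 0 < q.a1 - q.a0 := Nat.sub_pos_of_lt hq.lt
  have hd2 : 0 < P.Q * ((p.a1 - p.a0) * (q.a1 - q.a0)) := by positivity
  have hd1 : 0 < P.Q * (p.a1 - p.a0) := by positivity
  have ed2 : (P.Q : ℝ) * (((p.a1 : ℝ) - p.a0) * ((q.a1 : ℝ) - q.a0))
      = ((P.Q * ((p.a1 - p.a0) * (q.a1 - q.a0)) : ℕ) : ℝ) := by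
    simp only [Nat.cast_mul, Nat.cast_sub hpl, Nat.cast_sub hql]
  have ed1 : (P.Q : ℝ) * ((p.a1 : ℝ) - p.a0) = ((P.Q * (p.a1 - p.a0) : ℕ) : ℝ) := by
    simp only [Nat.cast_mul, Nat.cast_sub hpl]
  refine ⟨fun g => ⟨?_, ?_, ?_⟩, fun f0 f1 o => ⟨?_, ?_, ?_⟩⟩
  · -- the kernel
    have e : bilR P p q g (X / P.D) (Y / P.D)
        = bn p q g P.O X Y / ((P.Q * ((p.a1 - p.a0) * (q.a1 - q.a0)) : ℕ) : ℝ) := by
      unfold bilR bn
      rw [eX, eY, ed2]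
    rw [e]
    unfold sm
    refine keyA _ _ _ _ hd2 ?_
    set o := P.O * ((p.a1 - p.a0) * (q.a1 - q.a0)) with ho
    have c00 : |bn p q g P.O X0 Y0| = (ad (bilN p q g X0 Y0) o : ℕ) := by
      rw [bn_cast p q g P.O X0 Y0 hX0 hX0' hY0 hY0', ad_cast]
    have c10 : |bn p q g P.O X1 Y0| = (ad (bilN p q g X1 Y0) o : ℕ) := by
      rw [bn_cast p q g P.O X1 Y0 hX1' hX1 hY0 hY0', ad_cast]
    have c01 : |bn p q g P.O X0 Y1| = (ad (bilN p q g X0 Y1) o : ℕ) := by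
      rw [bn_cast p q g P.O X0 Y1 hX0 hX0' hY1' hY1, ad_cast]
    have c11 : |bn p q g P.O X1 Y1| = (ad (bilN p q g X1 Y1) o : ℕ) := by
      rw [bn_cast p q g P.O X1 Y1 hX1' hX1 hY1' hY1, ad_cast]
    have ax : ∀ v : ℝ, ∃ α β : ℝ, ∀ u, bn p q g P.O u v = α + β * u := fun v =>
      ⟨(((g.g00 : ℝ) - P.O) * p.a1 - ((g.g10 : ℝ) - P.O) * p.a0) * (q.a1 - v)
        + (((g.g01 : ℝ) - P.O) * p.a1 - ((g.g11 : ℝ) - P.O) * p.a0) * (v - q.a0),
       (((g.g10 : ℝ) - P.O) - ((g.g00 : ℝ) - P.O)) * (q.a1 - v)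
        + (((g.g11 : ℝ) - P.O) - ((g.g01 : ℝ) - P.O)) * (v - q.a0),
       fun u => by unfold bn; ring⟩
    have ay : ∀ v : ℝ, ∃ α β : ℝ, ∀ u, bn p q g P.O v u = α + β * u := fun v =>
      ⟨(((g.g00 : ℝ) - P.O) * (p.a1 - v) + ((g.g10 : ℝ) - P.O) * (v - p.a0)) * q.a1
        - (((g.g01 : ℝ) - P.O) * (p.a1 - v) + ((g.g11 : ℝ) - P.O) * (v - p.a0)) * q.a0,
       (((g.g01 : ℝ) - P.O) * (p.a1 - v) + ((g.g11 : ℝ) - P.O) * (v - p.a0))
        - (((g.g00 : ℝ) - P.O) * (p.a1 - v) + ((g.g10 : ℝ) - P.O) * (v - p.a0)),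
       fun u => by unfold bn; ring⟩
    set M := mx (mx (ad (bilN p q g X0 Y0) o) (ad (bilN p q g X1 Y0) o))
      (mx (ad (bilN p q g X0 Y1) o) (ad (bilN p q g X1 Y1) o)) with hM
    have m0 := le_mx_left' (mx (ad (bilN p q g X0 Y0) o) (ad (bilN p q g X1 Y0) o))
      (mx (ad (bilN p q g X0 Y1) o) (ad (bilN p q g X1 Y1) o))
    have m1 := le_mx_right' (mx (ad (bilN p q g X0 Y0) o) (ad (bilN p q g X1 Y0) o))
      (mx (ad (bilN p q g X0 Y1) o) (ad (bilN p q g X1 Y1) o))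
    have m00 := le_mx_left' (ad (bilN p q g X0 Y0) o) (ad (bilN p q g X1 Y0) o)
    have m10 := le_mx_right' (ad (bilN p q g X0 Y0) o) (ad (bilN p q g X1 Y0) o)
    have m01 := le_mx_left' (ad (bilN p q g X0 Y1) o) (ad (bilN p q g X1 Y1) o)
    have m11 := le_mx_right' (ad (bilN p q g X0 Y1) o) (ad (bilN p q g X1 Y1) o)
    rw [← hM] at m0 m1
    have r0 : |bn p q g P.O X Y0| ≤ (M : ℕ) := by
      obtain ⟨α, β, h⟩ := ax Y0
      exact abs_of_aff (fun u => bn p q g P.O u Y0) α β X X0 X1 M h ha0 ha1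
        (c00.le.trans (m00.trans m0)) (c10.le.trans (m10.trans m0))
    have r1 : |bn p q g P.O X Y1| ≤ (M : ℕ) := by
      obtain ⟨α, β, h⟩ := ax Y1
      exact abs_of_aff (fun u => bn p q g P.O u Y1) α β X X0 X1 M h ha0 ha1
        (c01.le.trans (m01.trans m1)) (c11.le.trans (m11.trans m1))
    obtain ⟨α, β, h⟩ := ay X
    exact abs_of_aff (fun u => bn p q g P.O X u) α β Y Y0 Y1 M h hb0 hb1 r0 r1
  · -- the derivative in the first variable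
    have e : bilX P p q g (Y / P.D)
        = P.D * (xn q g.g10 g.g00 g.g11 g.g01 Y
          / ((P.Q * ((p.a1 - p.a0) * (q.a1 - q.a0)) : ℕ) : ℝ)) := by
      unfold bilX xn
      rw [eY, ed2, mul_div_assoc]
    rw [e, abs_mul, abs_of_pos hD, ← mul_assoc, ← Nat.cast_mul]
    unfold sx
    exact keyA _ _ _ _ hd2 (xn_abs q _ _ _ _ Y0 Y1 Y hY0 hY01 hY1 hb0 hb1)
  · -- the derivative in the second variable
    have e : bilY P p q g (X / P.D)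
        = P.D * (xn p g.g01 g.g00 g.g11 g.g10 X
          / ((P.Q * ((p.a1 - p.a0) * (q.a1 - q.a0)) : ℕ) : ℝ)) := by
      unfold bilY xn
      rw [eX, ed2, mul_div_assoc]
    rw [e, abs_mul, abs_of_pos hD, ← mul_assoc, ← Nat.cast_mul]
    unfold sy
    exact keyA _ _ _ _ hd2 (xn_abs p _ _ _ _ X0 X1 X hX0 hX01 hX1 ha0 ha1)
  · -- the absolute value of an affine function
    have e : affR P p f0 f1 o (X / P.D)
        = an p f0 f1 o X / ((P.Q * (p.a1 - p.a0) : ℕ) : ℝ) := by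
      unfold affR an
      rw [eX, ed1]
    rw [e]
    unfold fa
    refine keyA _ _ _ _ hd1 ?_
    have c0 : |an p f0 f1 o X0| = (ad (affN p.a0 p.a1 f0 f1 X0) (o * (p.a1 - p.a0)) : ℕ) := by
      rw [an_cast p f0 f1 o X0 hX0 hX0', ad_cast]
    have c1 : |an p f0 f1 o X1| = (ad (affN p.a0 p.a1 f0 f1 X1) (o * (p.a1 - p.a0)) : ℕ) := by
      rw [an_cast p f0 f1 o X1 hX1' hX1, ad_cast]
    refine abs_of_aff (fun t => an p f0 f1 o t) (((f0 : ℝ) - o) * p.a1 - ((f1 : ℝ) - o) * p.a0)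
      (((f1 : ℝ) - o) - ((f0 : ℝ) - o)) X X0 X1 _ (fun t => ?_) ha0 ha1 ?_ ?_
    · unfold an; ring
    · exact c0.le.trans (le_mx_left' _ _)
    · exact c1.le.trans (le_mx_right' _ _)
  · -- its negative part
    have e : -affR P p f0 f1 o (X / P.D)
        = (-an p f0 f1 o X) / ((P.Q * (p.a1 - p.a0) : ℕ) : ℝ) := by
      unfold affR an
      rw [eX, ed1, neg_div]
    rw [e]
    unfold fneg
    refine key _ _ _ _ hd1 ?_
    have c0 := sub_cast (o * (p.a1 - p.a0)) (affN p.a0 p.a1 f0 f1 X0)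
    have c1 := sub_cast (o * (p.a1 - p.a0)) (affN p.a0 p.a1 f0 f1 X1)
    have d0 := an_cast p f0 f1 o X0 hX0 hX0'
    have d1 := an_cast p f0 f1 o X1 hX1' hX1
    refine le_of_aff (fun t => -an p f0 f1 o t)
      (-(((f0 : ℝ) - o) * p.a1 - ((f1 : ℝ) - o) * p.a0))
      (-(((f1 : ℝ) - o) - ((f0 : ℝ) - o))) X X0 X1 _ (fun t => ?_) ha0 ha1 ?_ ?_
    · unfold an; ring
    · refine le_trans ?_ (le_mx_left' _ _)
      show -an p f0 f1 o X0 ≤ _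
      linarith
    · refine le_trans ?_ (le_mx_right' _ _)
      show -an p f0 f1 o X1 ≤ _
      linarith
  · -- the slope
    have e : affS P p f0 f1 = P.D * (((f1 : ℝ) - f0) / ((P.Q * (p.a1 - p.a0) : ℕ) : ℝ)) := by
      unfold affS
      rw [ed1, mul_div_assoc]
    rw [e, abs_mul, abs_of_pos hD, ← mul_assoc, ← Nat.cast_mul]
    unfold fs
    refine keyA _ _ _ _ hd1 ?_
    rw [ad_cast, abs_sub_comm]

end RelEqN.Small.Tri
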