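import Pool.Agent.Lib.MP_b9e19b_mp.Small.Tri.Spec

set_option autoImplicit false

/-!
# `T` and `p4` as sums over pairs and vertices
-/

namespace RelEqN.Small.Tri

open RelEqN.Small Finset

namespace PFourM

/-- square of a sum -/
lemma sq_sum {ι : Type} [DecidableEq ι] (E : Finset ι) (f : ι → ℝ) :
    (∑ j ∈ E, f j) ^ 2 = ∑ j ∈ E, f j ^ 2 + ∑ j ∈ E, ∑ k ∈ E.erase j, f j * f k := by
  rw [sq, Finset.sum_mul_sum, ← Finset.sum_add_distrib]
  refine Finset.sum_congr rfl fun j hj => ?_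
  rw [← Finset.add_sum_erase E (fun k => f j * f k) hj]
  ring

/-- squared absolute value of a sum -/
lemma norm_sq_sum {ι : Type} [DecidableEq ι] (E : Finset ι) (z : ι → ℂ) :
    ‖∑ j ∈ E, z j‖ ^ 2 = ∑ j ∈ E, ‖z j‖ ^ 2
      + ∑ j ∈ E, ∑ k ∈ E.erase j, (star (z j) * z k).re := by
  have h : ∀ w : ℂ, ‖w‖ ^ 2 = (star w * w).re := by
    intro w
    rw [← Complex.normSq_eq_norm_sq, Complex.normSq_apply]
    simp [Complex.mul_re]
  rw [h, star_sum, Finset.sum_mul_sum, Complex.re_sum, ← Finset.sum_add_distrib]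
  refine Finset.sum_congr rfl fun j hj => ?_
  rw [Complex.re_sum, ← Finset.add_sum_erase E (fun k => (star (z j) * z k).re) hj, h]

/-- the angular factor -/
lemma re_sq_mul (a b : ℂ) :
    (star (a ^ 2) * b ^ 2).re = 2 * (star a * b).re ^ 2 - (‖a‖ * ‖b‖) ^ 2 := by
  have h1 : star (a ^ 2) * b ^ 2 = (star a * b) ^ 2 := by rw [star_pow]; ring
  have h2 : (‖a‖ * ‖b‖) ^ 2 = (star a * b).re ^ 2 + (star a * b).im ^ 2 := by
    have h3 : ‖a‖ * ‖b‖ = ‖star a * b‖ := by rw [norm_mul, norm_star]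
    rw [h3, ← Complex.normSq_eq_norm_sq, Complex.normSq_apply]; ring
  rw [h1, h2, sq, Complex.mul_re]
  ring

lemma wt_self {N : ℕ} (q : Fin N → ℂ) (i : Fin N) : wt q i i = 0 := by
  unfold wt; simp

lemma wu_self {N : ℕ} (q : Fin N → ℂ) (i : Fin N) : wu q i i = 0 := by
  unfold wu; simp

lemma sum_erase_zero {M : Type} [AddCommMonoid M] {N : ℕ} (f : Fin N → M) (i : Fin N)
    (h : f i = 0) : ∑ k, f k = ∑ k ∈ univ.erase i, f k := by
  rw [← Finset.add_sum_erase univ f (mem_univ i), h, zero_add]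

/-- contribution of a vertex -/
lemma vertex {N : ℕ} (q : Fin N → ℂ) (hq : Function.Injective q) (i : Fin N) :
    -6 * dd q i + 1 / 2 * dd q i ^ 2 + 9 / 2 * ‖cc q i‖ ^ 2 + 5 * ∑ k, wt q i k ^ 2
      = ∑ j ∈ univ.erase i, (-6 / ‖q i - q j‖ ^ 3 + 10 / ‖q i - q j‖ ^ 6)
        + ∑ j ∈ univ.erase i, ∑ k ∈ (univ.erase i).erase j,
          (9 * cs q i j k ^ 2 - 4) / (‖q i - q j‖ ^ 3 * ‖q i - q k‖ ^ 3) := by
  have hne : ∀ j ∈ univ.erase i, 0 < ‖q i - q j‖ := by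
    intro j hj
    exact norm_pos_iff.2 (sub_ne_zero.2 fun h => (Finset.ne_of_mem_erase hj) (hq h.symm))
  have hd : dd q i = ∑ j ∈ univ.erase i, wt q i j := by
    unfold dd; exact sum_erase_zero _ i (wt_self q i)
  have hc : cc q i = ∑ j ∈ univ.erase i, wu q i j := by
    unfold cc; exact sum_erase_zero _ i (wu_self q i)
  have hw : ∑ k, wt q i k ^ 2 = ∑ j ∈ univ.erase i, wt q i j ^ 2 :=
    sum_erase_zero (fun k => wt q i k ^ 2) i (by rw [wt_self]; norm_num)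
  have hn : ∀ j ∈ univ.erase i, ‖wu q i j‖ ^ 2 = wt q i j ^ 2 := by
    intro j hj
    have h := hne j hj
    unfold wu wt
    rw [norm_mul, norm_pow, Complex.norm_real, Real.norm_of_nonneg (by positivity)]
    field_simp
  have hr : ∀ j ∈ univ.erase i, ∀ k ∈ (univ.erase i).erase j,
      (star (wu q i j) * wu q i k).re = wt q i j * wt q i k * (2 * cs q i j k ^ 2 - 1) := by
    intro j hj k hk
    have h1 := hne j hj
    have h2 := hne k (Finset.mem_of_mem_erase hk)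
    unfold wu wt cs
    have e : star ((((‖q i - q j‖ ^ 5)⁻¹ : ℝ) : ℂ) * (q i - q j) ^ 2)
        * ((((‖q i - q k‖ ^ 5)⁻¹ : ℝ) : ℂ) * (q i - q k) ^ 2)
        = (((‖q i - q j‖ ^ 5)⁻¹ * (‖q i - q k‖ ^ 5)⁻¹ : ℝ) : ℂ)
          * (star ((q i - q j) ^ 2) * (q i - q k) ^ 2) := by
      rw [star_mul]
      have : star ((((‖q i - q j‖ ^ 5)⁻¹ : ℝ) : ℂ)) = (((‖q i - q j‖ ^ 5)⁻¹ : ℝ) : ℂ) :=
        Complex.conj_ofReal _
      rw [this]
      push_cast
      ring
    rw [e, Complex.re_ofReal_mul, re_sq_mul]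
    field_simp
  rw [hc, norm_sq_sum, hd, sq_sum, hw]
  rw [Finset.sum_congr rfl hn,
    Finset.sum_congr rfl fun j hj => Finset.sum_congr rfl fun k hk => hr j hj k hk]
  have e1 : ∑ j ∈ univ.erase i, (-6 / ‖q i - q j‖ ^ 3 + 10 / ‖q i - q j‖ ^ 6)
      = -6 * ∑ j ∈ univ.erase i, wt q i j + 10 * ∑ j ∈ univ.erase i, wt q i j ^ 2 := by
    rw [Finset.mul_sum, Finset.mul_sum, ← Finset.sum_add_distrib]
    refine Finset.sum_congr rfl fun j hj => ?_
    have h := hne j hj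
    unfold wt
    field_simp
  have e2 : ∑ j ∈ univ.erase i, ∑ k ∈ (univ.erase i).erase j,
        (9 * cs q i j k ^ 2 - 4) / (‖q i - q j‖ ^ 3 * ‖q i - q k‖ ^ 3)
      = 1 / 2 * ∑ j ∈ univ.erase i, ∑ k ∈ (univ.erase i).erase j, wt q i j * wt q i k
        + 9 / 2 * ∑ j ∈ univ.erase i, ∑ k ∈ (univ.erase i).erase j,
          wt q i j * wt q i k * (2 * cs q i j k ^ 2 - 1) := by
    rw [Finset.mul_sum, Finset.mul_sum, ← Finset.sum_add_distrib]
    refine Finset.sum_congr rfl fun j hj => ?_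
    rw [Finset.mul_sum, Finset.mul_sum, ← Finset.sum_add_distrib]
    refine Finset.sum_congr rfl fun k hk => ?_
    have h1 := hne j hj
    have h2 := hne k (Finset.mem_of_mem_erase hk)
    unfold wt
    field_simp
    ring
  rw [e1, e2]
  ring

end PFourM

theorem stmtPFour : StmtPFour := by
  intro N q hq
  constructor
  · unfold T pS
    refine Finset.sum_congr rfl fun i _ => ?_
    rw [PFourM.sum_erase_zero _ i (PFourM.wt_self q i)]
    refine Finset.sum_congr rfl fun j _ => ?_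
    unfold wt
    simp only [one_div]
  · have h : ∑ i, (-6 * dd q i + 1 / 2 * dd q i ^ 2 + 9 / 2 * ‖cc q i‖ ^ 2
        + 5 * ∑ k, wt q i k ^ 2)
      = ∑ i, (∑ j ∈ univ.erase i, (-6 / ‖q i - q j‖ ^ 3 + 10 / ‖q i - q j‖ ^ 6)
        + ∑ j ∈ univ.erase i, ∑ k ∈ (univ.erase i).erase j,
          (9 * cs q i j k ^ 2 - 4) / (‖q i - q j‖ ^ 3 * ‖q i - q k‖ ^ 3)) :=
      Finset.sum_congr rfl fun i _ => PFourM.vertex q hq i
    rw [Finset.sum_add_distrib, Finset.sum_add_distrib, Finset.sum_add_distrib,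
      Finset.sum_add_distrib, ← Finset.mul_sum, ← Finset.mul_sum, ← Finset.mul_sum,
      ← Finset.mul_sum] at h
    have hT : T q = ∑ i, dd q i := rfl
    unfold p4 pS tS
    rw [hT]
    linarith

end RelEqN.Small.Tri
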