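import Pool.Agent.Lib.MP_b9e19b_mp.Small.Tri.Spec

set_option autoImplicit false

/-!
# Small/Tri/PairTest: the pair tests of the form `Hf`
-/

namespace RelEqN.Small.Tri.PairTestM

open RelEqN.Small RelEqN.Small.Tri

variable {N : ℕ}

/-- unit vector -/
noncomputable def un (z : ℂ) : ℂ := z / ((‖z‖ : ℝ) : ℂ)

lemma norm_un {z : ℂ} (hz : z ≠ 0) : ‖un z‖ = 1 := by
  have hz' : ‖z‖ ≠ 0 := norm_ne_zero_iff.2 hz
  rw [un, norm_div, Complex.norm_real, norm_norm, div_self hz']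

lemma re_term (z y : ℂ) (hz : z ≠ 0) (hy : y ≠ 0) :
    ((((‖y‖ ^ 5)⁻¹ : ℝ) : ℂ) * y ^ 2 * (star (un z) * star (un z))).re
      = (‖y‖ ^ 3)⁻¹ * (2 * ((star z * y).re / (‖z‖ * ‖y‖)) ^ 2 - 1) := by
  have hz' : ‖z‖ ≠ 0 := norm_ne_zero_iff.2 hz
  have hy' : ‖y‖ ≠ 0 := norm_ne_zero_iff.2 hy
  have h0 : star (un z) = star z / ((‖z‖ : ℝ) : ℂ) := by
    rw [un, star_div₀]
    congr 1
    exact Complex.conj_ofReal _
  have h1 : (((‖y‖ ^ 5)⁻¹ : ℝ) : ℂ) * y ^ 2 * (star (un z) * star (un z))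
      = (((‖y‖ ^ 5)⁻¹ * (‖z‖ ^ 2)⁻¹ : ℝ) : ℂ) * ((star z * y) ^ 2) := by
    rw [h0]
    push_cast
    have hzc : ((‖z‖ : ℝ) : ℂ) ≠ 0 := by exact_mod_cast hz'
    field_simp
  have h2 : ((star z * y) ^ 2).re = 2 * (star z * y).re ^ 2 - (‖z‖ * ‖y‖) ^ 2 := by
    have h3 : ‖star z * y‖ ^ 2 = (star z * y).re ^ 2 + (star z * y).im ^ 2 := by
      rw [Complex.sq_norm, Complex.normSq_apply]
      ring
    have h4 : ‖star z * y‖ = ‖z‖ * ‖y‖ := by
      rw [norm_mul, norm_star]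
    rw [h4] at h3
    rw [h3, pow_two (star z * y), Complex.mul_re]
    ring
  rw [h1, Complex.re_ofReal_mul, h2]
  field_simp

lemma sum_two {i j : Fin N} (hij : i ≠ j) (f : Fin N → ℝ) (h : ∀ k, k ≠ i → k ≠ j → f k = 0) :
    ∑ k, f k = f i + f j := by
  rw [← Finset.add_sum_erase Finset.univ _ (Finset.mem_univ i),
    ← Finset.add_sum_erase (Finset.univ.erase i) _
      (Finset.mem_erase.2 ⟨hij.symm, Finset.mem_univ j⟩), Finset.sum_eq_zero, add_zero]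
  intro k hk
  rw [Finset.mem_erase, Finset.mem_erase] at hk
  exact h k hk.2.1 hk.1

lemma sum_row {i j : Fin N} (hij : i ≠ j) (f : Fin N → ℝ) :
    ∑ k, f k = f i + f j + ∑ k ∈ (Finset.univ.erase i).erase j, f k := by
  rw [← Finset.add_sum_erase Finset.univ _ (Finset.mem_univ i),
    ← Finset.add_sum_erase (Finset.univ.erase i) _
      (Finset.mem_erase.2 ⟨hij.symm, Finset.mem_univ j⟩)]
  ring

lemma sum_sym {i j : Fin N} (hij : i ≠ j) (f : Fin N → Fin N → ℝ) (hs : ∀ k l, f k l = f l k)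
    (h0 : ∀ k, f k k = 0) (h : ∀ k l, k ≠ i → k ≠ j → l ≠ i → l ≠ j → f k l = 0) :
    ∑ k, ∑ l, f k l = 2 * f i j + 2 * ∑ k ∈ (Finset.univ.erase i).erase j, (f i k + f j k) := by
  rw [sum_row hij fun k => ∑ l, f k l, sum_row hij (f i), sum_row hij (f j), h0 i, h0 j, hs j i]
  have h1 : ∑ k ∈ (Finset.univ.erase i).erase j, ∑ l, f k l =
      ∑ k ∈ (Finset.univ.erase i).erase j, (f i k + f j k) := by
    refine Finset.sum_congr rfl fun k hk => ?_
    rw [Finset.mem_erase, Finset.mem_erase] at hk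
    rw [sum_two hij (f k) fun l hl1 hl2 => h k l hk.2.1 hk.1 hl1 hl2, hs k i, hs k j]
  rw [h1, Finset.sum_add_distrib]
  ring

/-- the test vector -/
noncomputable def tv (i j : Fin N) (τ : ℝ) (v : ℂ) : Fin N → ℂ :=
  fun k => if k = i then v else if k = j then (τ : ℂ) * v else 0

lemma tv_i (i j : Fin N) (τ : ℝ) (v : ℂ) : tv i j τ v i = v := if_pos rfl

lemma tv_j {i j : Fin N} (hij : i ≠ j) (τ : ℝ) (v : ℂ) : tv i j τ v j = (τ : ℂ) * v := by
  rw [tv, if_neg hij.symm, if_pos rfl]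

lemma tv_k {i j k : Fin N} (hi : k ≠ i) (hj : k ≠ j) (τ : ℝ) (v : ℂ) : tv i j τ v k = 0 := by
  rw [tv, if_neg hi, if_neg hj]

lemma wt_symm (q : Fin N → ℂ) (k l : Fin N) : wt q k l = wt q l k := by
  rw [wt, wt, norm_sub_rev]

lemma wu_symm (q : Fin N → ℂ) (k l : Fin N) : wu q k l = wu q l k := by
  rw [wu, wu, norm_sub_rev]
  ring

/-- The value of the form at the test vectors. -/
lemma Hf_value (q : Fin N → ℂ) (hq : Function.Injective q) {i j : Fin N} (hij : i ≠ j)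
    (ν τ α β : ℝ) (hτ : τ ^ 2 = 1) :
    Hf q ν (tv i j τ ((α : ℂ) * un (q i - q j))) (tv i j τ (-((β : ℂ) * star (un (q i - q j)))))
      = 2 * (ν + 1) ^ 2 * α ^ 2 + 2 * (ν - 1) ^ 2 * β ^ 2
        + (1 - τ) ^ 2 * (1 / 2 * wt q i j * (α ^ 2 + β ^ 2) - 3 * wt q i j * (α * β))
        + ∑ k ∈ (Finset.univ.erase i).erase j,
          (1 / 2 * (wt q i k + wt q j k) * (α ^ 2 + β ^ 2)
            - 3 * (wt q i k * (2 * cs q i j k ^ 2 - 1)
              + wt q j k * (2 * cs q j i k ^ 2 - 1)) * (α * β)) := by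
  set u := un (q i - q j) with hu
  set a := tv i j τ ((α : ℂ) * u) with ha
  set b := tv i j τ (-((β : ℂ) * star u)) with hb
  have hz : q i - q j ≠ 0 := sub_ne_zero.2 fun h => hij (hq h)
  have hun : ‖u‖ = 1 := norm_un hz
  have hna : ‖(α : ℂ) * u‖ ^ 2 = α ^ 2 := by
    rw [norm_mul, hun, mul_one, Complex.norm_real, Real.norm_eq_abs, sq_abs]
  have hnb : ‖-((β : ℂ) * star u)‖ ^ 2 = β ^ 2 := by
    rw [norm_neg, norm_mul, norm_star, hun, mul_one, Complex.norm_real, Real.norm_eq_abs, sq_abs]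
  have hnτ : ∀ v : ℂ, ‖(τ : ℂ) * v‖ ^ 2 = ‖v‖ ^ 2 := by
    intro v
    rw [norm_mul, mul_pow, Complex.norm_real, Real.norm_eq_abs, sq_abs, hτ, one_mul]
  have hsa : ∑ k, ‖a k‖ ^ 2 = 2 * α ^ 2 := by
    rw [sum_two hij (fun k => ‖a k‖ ^ 2) (fun k h1 h2 => by
      show ‖a k‖ ^ 2 = 0
      rw [ha, tv_k h1 h2, norm_zero]
      norm_num)]
    show ‖a i‖ ^ 2 + ‖a j‖ ^ 2 = _
    rw [ha, tv_i, tv_j hij, hnτ, hna]
    ring
  have hsb : ∑ k, ‖b k‖ ^ 2 = 2 * β ^ 2 := by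
    rw [sum_two hij (fun k => ‖b k‖ ^ 2) (fun k h1 h2 => by
      show ‖b k‖ ^ 2 = 0
      rw [hb, tv_k h1 h2, norm_zero]
      norm_num)]
    show ‖b i‖ ^ 2 + ‖b j‖ ^ 2 = _
    rw [hb, tv_i, tv_j hij, hnτ, hnb]
    ring
  set φ : Fin N → Fin N → ℝ := fun k l =>
    1 / 4 * (wt q k l * (‖a k - a l‖ ^ 2 + ‖b k - b l‖ ^ 2))
      + 3 / 2 * (wu q k l * (star (a k - a l) * (b k - b l))).re with hφ
  have hH : Hf q ν a b = (ν + 1) ^ 2 * ∑ k, ‖a k‖ ^ 2 + (ν - 1) ^ 2 * ∑ k, ‖b k‖ ^ 2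
      + ∑ k, ∑ l, φ k l := by
    rw [Hf, hφ]
    simp only [Finset.sum_add_distrib, ← Finset.mul_sum]
    rw [Complex.re_sum]
    simp only [Complex.re_sum]
    ring
  have hsym : ∀ k l, φ k l = φ l k := by
    intro k l
    simp only [hφ]
    rw [wt_symm q k l, wu_symm q k l, norm_sub_rev (a k), norm_sub_rev (b k)]
    congr 3
    rw [← neg_sub (a l) (a k), ← neg_sub (b l) (b k), star_neg, neg_mul_neg]
  have hdiag : ∀ k, φ k k = 0 := by
    intro k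
    simp only [hφ, sub_self, norm_zero, star_zero, mul_zero, Complex.zero_re]
    ring
  have hvan : ∀ k l, k ≠ i → k ≠ j → l ≠ i → l ≠ j → φ k l = 0 := by
    intro k l h1 h2 h3 h4
    simp only [hφ]
    rw [ha, hb, tv_k h1 h2, tv_k h3 h4, tv_k h1 h2, tv_k h3 h4]
    simp
  have hfij : φ i j = (1 - τ) ^ 2 * (1 / 4 * wt q i j * (α ^ 2 + β ^ 2)
      - 3 / 2 * wt q i j * (α * β)) := by
    simp only [hφ]
    rw [ha, hb, tv_i, tv_j hij, tv_i, tv_j hij]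
    have e1 : (α : ℂ) * u - (τ : ℂ) * ((α : ℂ) * u) = ((1 - τ : ℝ) : ℂ) * ((α : ℂ) * u) := by
      push_cast
      ring
    have e2 : -((β : ℂ) * star u) - (τ : ℂ) * (-((β : ℂ) * star u)) =
        ((1 - τ : ℝ) : ℂ) * (-((β : ℂ) * star u)) := by
      push_cast
      ring
    rw [e1, e2]
    have e3 : ∀ v : ℂ, ‖((1 - τ : ℝ) : ℂ) * v‖ ^ 2 = (1 - τ) ^ 2 * ‖v‖ ^ 2 := by
      intro v
      rw [norm_mul, mul_pow, Complex.norm_real, Real.norm_eq_abs, sq_abs]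
    rw [e3, e3, hna, hnb]
    have e4 : wu q i j * (star (((1 - τ : ℝ) : ℂ) * ((α : ℂ) * u)) *
        (((1 - τ : ℝ) : ℂ) * (-((β : ℂ) * star u)))) =
        ((-((1 - τ) ^ 2 * (α * β)) : ℝ) : ℂ) *
          ((((‖q i - q j‖ ^ 5)⁻¹ : ℝ) : ℂ) * (q i - q j) ^ 2 * (star u * star u)) := by
      rw [star_mul, star_mul, wu]
      have e5 : star ((1 - τ : ℝ) : ℂ) = ((1 - τ : ℝ) : ℂ) := Complex.conj_ofReal _
      have e6 : star (α : ℂ) = (α : ℂ) := Complex.conj_ofReal _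
      rw [e5, e6]
      push_cast
      ring
    rw [e4, Complex.re_ofReal_mul, hu, re_term _ _ hz hz]
    have hn : ‖q i - q j‖ ≠ 0 := norm_ne_zero_iff.2 hz
    have e7 : (star (q i - q j) * (q i - q j)).re = ‖q i - q j‖ * ‖q i - q j‖ := by
      have := Complex.conj_mul' (q i - q j)
      change (starRingEnd ℂ (q i - q j) * (q i - q j)).re = _
      rw [this, ← Complex.ofReal_pow, Complex.ofReal_re]
      ring
    rw [e7, div_self (mul_ne_zero hn hn), wt]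
    ring
  have hgen : ∀ (y : ℂ), y ≠ 0 → ∀ (s : ℝ), s ^ 2 = 1 →
      1 / 4 * ((‖y‖ ^ 3)⁻¹ * (‖(s : ℂ) * ((α : ℂ) * u)‖ ^ 2 + ‖(s : ℂ) * (-((β : ℂ) * star u))‖ ^ 2))
      + 3 / 2 * ((((‖y‖ ^ 5)⁻¹ : ℝ) : ℂ) * y ^ 2 * (star ((s : ℂ) * ((α : ℂ) * u)) *
        ((s : ℂ) * (-((β : ℂ) * star u))))).re =
      1 / 4 * (‖y‖ ^ 3)⁻¹ * (α ^ 2 + β ^ 2) - 3 / 2 * ((‖y‖ ^ 3)⁻¹ *
        (2 * ((star (q i - q j) * y).re / (‖q i - q j‖ * ‖y‖)) ^ 2 - 1)) * (α * β) := by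
    intro y hy s hs
    have e3 : ∀ v : ℂ, ‖(s : ℂ) * v‖ ^ 2 = ‖v‖ ^ 2 := by
      intro v
      rw [norm_mul, mul_pow, Complex.norm_real, Real.norm_eq_abs, sq_abs, hs, one_mul]
    rw [e3, e3, hna, hnb]
    have e4 : (((‖y‖ ^ 5)⁻¹ : ℝ) : ℂ) * y ^ 2 * (star ((s : ℂ) * ((α : ℂ) * u)) *
        ((s : ℂ) * (-((β : ℂ) * star u)))) =
        ((-(s ^ 2 * (α * β)) : ℝ) : ℂ) *
          ((((‖y‖ ^ 5)⁻¹ : ℝ) : ℂ) * y ^ 2 * (star u * star u)) := by
      rw [star_mul, star_mul]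
      have e5 : star (s : ℂ) = (s : ℂ) := Complex.conj_ofReal _
      have e6 : star (α : ℂ) = (α : ℂ) := Complex.conj_ofReal _
      rw [e5, e6]
      push_cast
      ring
    rw [e4, Complex.re_ofReal_mul, hu, re_term _ _ hz hy, hs]
    ring
  have hfik : ∀ k ∈ (Finset.univ.erase i).erase j, φ i k =
      1 / 4 * wt q i k * (α ^ 2 + β ^ 2) - 3 / 2 * (wt q i k * (2 * cs q i j k ^ 2 - 1)) *
        (α * β) := by
    intro k hk
    rw [Finset.mem_erase, Finset.mem_erase] at hk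
    have hy : q i - q k ≠ 0 := sub_ne_zero.2 fun h => hk.2.1 (hq h).symm
    have h1 := hgen (q i - q k) hy 1 (by norm_num)
    simp only [hφ]
    rw [ha, hb, tv_i, tv_k hk.2.1 hk.1, tv_i, tv_k hk.2.1 hk.1, sub_zero, sub_zero, wt, wu, cs]
    simpa only [Complex.ofReal_one, one_mul] using h1
  have hfjk : ∀ k ∈ (Finset.univ.erase i).erase j, φ j k =
      1 / 4 * wt q j k * (α ^ 2 + β ^ 2) - 3 / 2 * (wt q j k * (2 * cs q j i k ^ 2 - 1)) *
        (α * β) := by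
    intro k hk
    rw [Finset.mem_erase, Finset.mem_erase] at hk
    have hy : q j - q k ≠ 0 := sub_ne_zero.2 fun h => hk.1 (hq h).symm
    have h1 := hgen (q j - q k) hy τ hτ
    simp only [hφ]
    rw [ha, hb, tv_j hij, tv_k hk.2.1 hk.1, tv_j hij, tv_k hk.2.1 hk.1, sub_zero, sub_zero, wt,
      wu, cs, h1, norm_sub_rev (q j) (q i), ← neg_sub (q i) (q j), star_neg, neg_mul,
      Complex.neg_re, neg_div, neg_sq]
  rw [hH, hsa, hsb, sum_sym hij φ hsym hdiag hvan, hfij,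
    Finset.sum_congr rfl fun k hk => by rw [hfik k hk, hfjk k hk], Finset.mul_sum]
  have hlast : ∑ k ∈ (Finset.univ.erase i).erase j, 2 *
      (1 / 4 * wt q i k * (α ^ 2 + β ^ 2) - 3 / 2 * (wt q i k * (2 * cs q i j k ^ 2 - 1)) *
        (α * β) +
      (1 / 4 * wt q j k * (α ^ 2 + β ^ 2) - 3 / 2 * (wt q j k * (2 * cs q j i k ^ 2 - 1)) *
        (α * β))) = ∑ k ∈ (Finset.univ.erase i).erase j,
          (1 / 2 * (wt q i k + wt q j k) * (α ^ 2 + β ^ 2)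
            - 3 * (wt q i k * (2 * cs q i j k ^ 2 - 1)
              + wt q j k * (2 * cs q j i k ^ 2 - 1)) * (α * β)) := by
    refine Finset.sum_congr rfl fun k _ => ?_
    ring
  rw [hlast]
  ring

/-- Pairing of a nonnegative form with a positive semidefinite matrix. -/
lemma psd_pair {A B C p0 p1 p2 : ℝ} (h : ∀ α β : ℝ, 0 ≤ A * α ^ 2 + 2 * B * (α * β) + C * β ^ 2)
    (h0 : 0 ≤ p0) (h2 : 0 ≤ p2) (h1 : p1 ^ 2 ≤ p0 * p2) :
    0 ≤ p0 * A + 2 * p1 * B + p2 * C := by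
  have hC : 0 ≤ C := by
    have := h 0 1
    linarith
  rcases h0.eq_or_lt with h3 | h3
  · have h4 : p1 = 0 := by
      rw [← h3, zero_mul] at h1
      exact pow_eq_zero_iff (two_ne_zero) |>.1 (le_antisymm h1 (sq_nonneg _))
    rw [← h3, h4]
    have := mul_nonneg h2 hC
    linarith
  · have h4 := h p0 p1
    have h5 : 0 ≤ (p0 * p2 - p1 ^ 2) * C := mul_nonneg (sub_nonneg.2 h1) hC
    have h6 : 0 ≤ p0 * (p0 * A + 2 * p1 * B + p2 * C) := by
      nlinarith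
    exact nonneg_of_mul_nonneg_right h6 h3

end RelEqN.Small.Tri.PairTestM

namespace RelEqN.Small.Tri

open RelEqN.Small RelEqN.Small.Tri.PairTestM

/-- **(T4)** -/
theorem stmtPairTest : StmtPairTest := by
  intro N q hN hnec ν ca cb σ hσ hν0 hν1 hs hca hcb p0 p1 p2 hp
  have hq : Function.Injective q := hnec.isCC.1
  obtain ⟨τ, hτ, hτσ⟩ : ∃ τ : ℝ, τ ^ 2 = 1 ∧ (1 - τ) ^ 2 = 4 * σ := by
    rcases hσ with h | h
    · exact ⟨1, by norm_num, by rw [h]; norm_num⟩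
    · exact ⟨-1, by norm_num, by rw [h]; norm_num⟩
  set G : Fin N → Fin N → Fin N → ℝ := fun i j k =>
    ((p0 ‖q i - q j‖ + p2 ‖q i - q j‖) / 2 - 3 * p1 ‖q i - q j‖ * (2 * cs q i j k ^ 2 - 1)) /
      ‖q i - q k‖ ^ 3 with hG
  have key : ∀ i j : Fin N, i ≠ j →
      0 ≤ 2 * (ca * p0 ‖q i - q j‖ + cb * p2 ‖q i - q j‖ +
        σ * ((p0 ‖q i - q j‖ + p2 ‖q i - q j‖ - 6 * p1 ‖q i - q j‖) / ‖q i - q j‖ ^ 3)) +
        ∑ k ∈ (Finset.univ.erase i).erase j, (G i j k + G j i k) := by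
    intro i j hij
    obtain ⟨h0, h2, h1⟩ := hp i j hij
    have hform : ∀ α β : ℝ, 0 ≤
        (2 * ((ν + 1) ^ 2 - lam ν) + 2 * σ * wt q i j +
          1 / 2 * ∑ k ∈ (Finset.univ.erase i).erase j, (wt q i k + wt q j k)) * α ^ 2 +
        2 * (-(6 * σ * wt q i j) - 3 / 2 * ∑ k ∈ (Finset.univ.erase i).erase j,
          (wt q i k * (2 * cs q i j k ^ 2 - 1) + wt q j k * (2 * cs q j i k ^ 2 - 1))) *
          (α * β) +
        (2 * ((ν - 1) ^ 2 - lam ν) + 2 * σ * wt q i j +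
          1 / 2 * ∑ k ∈ (Finset.univ.erase i).erase j, (wt q i k + wt q j k)) * β ^ 2 := by
      intro α β
      have h3 := hnec.pos ν hν0 hν1 hs (tv i j τ ((α : ℂ) * un (q i - q j)))
        (tv i j τ (-((β : ℂ) * star (un (q i - q j)))))
      rw [Hf_value q hq hij ν τ α β hτ, hτσ] at h3
      have hz : q i - q j ≠ 0 := sub_ne_zero.2 fun h => hij (hq h)
      have hun : ‖un (q i - q j)‖ = 1 := norm_un hz
      have hnτ : ∀ v : ℂ, ‖(τ : ℂ) * v‖ ^ 2 = ‖v‖ ^ 2 := by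
        intro v
        rw [norm_mul, mul_pow, Complex.norm_real, Real.norm_eq_abs, sq_abs, hτ, one_mul]
      have hsum : ∀ v : ℂ, ∑ k, ‖tv i j τ v k‖ ^ 2 = 2 * ‖v‖ ^ 2 := by
        intro v
        rw [sum_two hij (fun k => ‖tv i j τ v k‖ ^ 2) (fun k h1 h2 => by
          show ‖tv i j τ v k‖ ^ 2 = 0
          rw [tv_k h1 h2, norm_zero]
          norm_num)]
        show ‖tv i j τ v i‖ ^ 2 + ‖tv i j τ v j‖ ^ 2 = _
        rw [tv_i, tv_j hij, hnτ]
        ring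
      rw [hsum, hsum] at h3
      have hna : ‖(α : ℂ) * un (q i - q j)‖ ^ 2 = α ^ 2 := by
        rw [norm_mul, hun, mul_one, Complex.norm_real, Real.norm_eq_abs, sq_abs]
      have hnb : ‖-((β : ℂ) * star (un (q i - q j)))‖ ^ 2 = β ^ 2 := by
        rw [norm_neg, norm_mul, norm_star, hun, mul_one, Complex.norm_real, Real.norm_eq_abs,
          sq_abs]
      rw [hna, hnb] at h3
      have h4 : ∑ k ∈ (Finset.univ.erase i).erase j,
          (1 / 2 * (wt q i k + wt q j k) * (α ^ 2 + β ^ 2)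
            - 3 * (wt q i k * (2 * cs q i j k ^ 2 - 1)
              + wt q j k * (2 * cs q j i k ^ 2 - 1)) * (α * β)) =
          1 / 2 * (∑ k ∈ (Finset.univ.erase i).erase j, (wt q i k + wt q j k)) * (α ^ 2 + β ^ 2) -
          3 * (∑ k ∈ (Finset.univ.erase i).erase j, (wt q i k * (2 * cs q i j k ^ 2 - 1)
              + wt q j k * (2 * cs q j i k ^ 2 - 1))) * (α * β) := by
        rw [Finset.sum_sub_distrib, Finset.mul_sum, Finset.sum_mul, Finset.mul_sum,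
          Finset.sum_mul]
      rw [h4] at h3
      nlinarith [h3]
    have h5 := psd_pair hform h0 h2 h1
    have h6 : ∑ k ∈ (Finset.univ.erase i).erase j, (G i j k + G j i k) =
        (p0 ‖q i - q j‖ + p2 ‖q i - q j‖) / 2 *
          ∑ k ∈ (Finset.univ.erase i).erase j, (wt q i k + wt q j k) -
        3 * p1 ‖q i - q j‖ * ∑ k ∈ (Finset.univ.erase i).erase j,
          (wt q i k * (2 * cs q i j k ^ 2 - 1) + wt q j k * (2 * cs q j i k ^ 2 - 1)) := by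
      rw [Finset.mul_sum, Finset.mul_sum, ← Finset.sum_sub_distrib]
      refine Finset.sum_congr rfl fun k _ => ?_
      simp only [hG]
      rw [norm_sub_rev (q j) (q i), wt, wt, div_eq_mul_inv, div_eq_mul_inv _ (‖q j - q k‖ ^ 3)]
      ring
    have h7 : σ * ((p0 ‖q i - q j‖ + p2 ‖q i - q j‖ - 6 * p1 ‖q i - q j‖) / ‖q i - q j‖ ^ 3) =
        σ * (p0 ‖q i - q j‖ + p2 ‖q i - q j‖ - 6 * p1 ‖q i - q j‖) * wt q i j := by
      rw [wt, div_eq_mul_inv]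
      ring
    have h8 := mul_le_mul_of_nonneg_left hca h0
    have h9 := mul_le_mul_of_nonneg_left hcb h2
    rw [h6, h7]
    nlinarith [h5, h8, h9]
  have hsum : 0 ≤ ∑ i, ∑ j ∈ Finset.univ.erase i,
      (2 * (ca * p0 ‖q i - q j‖ + cb * p2 ‖q i - q j‖ +
        σ * ((p0 ‖q i - q j‖ + p2 ‖q i - q j‖ - 6 * p1 ‖q i - q j‖) / ‖q i - q j‖ ^ 3)) +
        ∑ k ∈ (Finset.univ.erase i).erase j, (G i j k + G j i k)) := by
    refine Finset.sum_nonneg fun i _ => Finset.sum_nonneg fun j hj => ?_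
    rw [Finset.mem_erase] at hj
    exact key i j hj.1.symm
  have hswap : ∑ i, ∑ j ∈ Finset.univ.erase i, ∑ k ∈ (Finset.univ.erase i).erase j, G j i k =
      ∑ i, ∑ j ∈ Finset.univ.erase i, ∑ k ∈ (Finset.univ.erase i).erase j, G i j k := by
    rw [Finset.sum_comm' (s' := fun j => Finset.univ.erase j) (t' := Finset.univ)]
    · refine Finset.sum_congr rfl fun j _ => Finset.sum_congr rfl fun i _ => ?_
      rw [Finset.erase_right_comm]
    · intro i j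
      simp only [Finset.mem_univ, Finset.mem_erase, true_and, and_true]
      exact ne_comm
  simp only [Finset.sum_add_distrib, ← Finset.mul_sum] at hsum
  rw [hswap] at hsum
  rw [pS, tS]
  simp only [Finset.sum_add_distrib, ← Finset.mul_sum]
  simp only [hG] at hsum
  linarith

end RelEqN.Small.Tri
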