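import Pool.Agent.Lib.MP_b9e19b_mp.Small.Tri.Spec

set_option autoImplicit false

/-!
# Three-point certificates: the equation of the central configuration
-/

namespace RelEqN.Small.Tri

open RelEqN.Small

namespace PhiM

variable {N : ℕ}

/-- Exchange of the two points of a pair. -/
theorem swap (a : Fin N → Fin N → ℝ) :
    ∑ i, ∑ k ∈ Finset.univ.erase i, a i k = ∑ i, ∑ k ∈ Finset.univ.erase i, a k i := by
  refine Finset.sum_comm' ?_
  intro x y
  simp only [Finset.mem_univ, Finset.mem_erase, true_and, and_true]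
  exact ne_comm

/-- The inner product of `q i - q k` and `q i - q j`. -/
theorem inner_eq {q : Fin N → ℂ} (hq : Function.Injective q) {i k j : Fin N} (hk : k ≠ i)
    (hj : j ≠ i) :
    (star (q i - q k) * (q i - q j)).re = ‖q i - q k‖ * ‖q i - q j‖ * cs q i k j := by
  have h1 : ‖q i - q k‖ ≠ 0 := norm_ne_zero_iff.mpr (sub_ne_zero.mpr fun h => hk (hq h).symm)
  have h2 : ‖q i - q j‖ ≠ 0 := norm_ne_zero_iff.mpr (sub_ne_zero.mpr fun h => hj (hq h).symm)
  unfold cs
  field_simp

theorem self_inner (z : ℂ) : (star z * z).re = ‖z‖ ^ 2 := by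
  rw [← Complex.normSq_eq_norm_sq, Complex.normSq_apply]
  simp [Complex.mul_re]

/-- The equation tested with one difference. -/
theorem tested {q : Fin N → ℂ} (h : CC q) {i k : Fin N} (hk : k ≠ i) :
    1 / ‖q i - q k‖ +
      ∑ j ∈ (Finset.univ.erase i).erase k, ‖q i - q k‖ * cs q i k j / ‖q i - q j‖ ^ 2 =
        (star (q i - q k) * q i).re := by
  have hr : ∀ j, j ≠ i → ‖q i - q j‖ ≠ 0 := fun j hj =>
    norm_ne_zero_iff.mpr (sub_ne_zero.mpr fun h0 => hj (h.1 h0).symm)
  have h1 : ∑ j, wt q i j * (star (q i - q k) * (q i - q j)).re =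
      (star (q i - q k) * q i).re := by
    have h0 := congrArg (fun z => (star (q i - q k) * z).re) (h.2 i)
    rw [← h0, Finset.mul_sum, Complex.re_sum]
    refine Finset.sum_congr rfl fun j _ => ?_
    have h2 : star (q i - q k) * ((wt q i j : ℂ) * (q i - q j)) =
        (wt q i j : ℂ) * (star (q i - q k) * (q i - q j)) := by ring
    rw [h2, Complex.re_ofReal_mul]
  rw [← h1, ← Finset.add_sum_erase _ _ (Finset.mem_univ i), sub_self, mul_zero, Complex.zero_re,
    mul_zero, zero_add, ← Finset.add_sum_erase (Finset.univ.erase i) _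
      (Finset.mem_erase.mpr ⟨hk, Finset.mem_univ k⟩), self_inner]
  congr 1
  · have := hr k hk
    unfold wt
    field_simp
  · refine Finset.sum_congr rfl fun j hj => ?_
    have hji : j ≠ i := (Finset.mem_erase.mp (Finset.mem_erase.mp hj).2).1
    have := hr j hji
    rw [inner_eq h.1 hk hji]
    unfold wt
    field_simp

end PhiM

open PhiM

/-- **(T2)** The equation of the central configuration, tested with radial fields. -/
theorem stmtPhi : StmtPhi := by
  intro N q h ψ
  have hr : ∀ i j, j ≠ i → ‖q i - q j‖ ≠ 0 := fun i j hj =>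
    norm_ne_zero_iff.mpr (sub_ne_zero.mpr fun h0 => hj (h.1 h0).symm)
  -- the symmetrised right side
  have hR : ∑ i, ∑ k ∈ Finset.univ.erase i,
      ψ ‖q i - q k‖ / ‖q i - q k‖ * (star (q i - q k) * q i).re =
        ∑ i, ∑ k ∈ Finset.univ.erase i, ψ ‖q i - q k‖ * ‖q i - q k‖ / 2 := by
    have h1 := swap fun i k => ψ ‖q i - q k‖ / ‖q i - q k‖ * (star (q i - q k) * q i).re
    have h2 : ∑ i, ∑ k ∈ Finset.univ.erase i,
        (ψ ‖q i - q k‖ / ‖q i - q k‖ * (star (q i - q k) * q i).re +
          ψ ‖q k - q i‖ / ‖q k - q i‖ * (star (q k - q i) * q k).re) =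
        ∑ i, ∑ k ∈ Finset.univ.erase i, ψ ‖q i - q k‖ * ‖q i - q k‖ := by
      refine Finset.sum_congr rfl fun i _ => Finset.sum_congr rfl fun k hk => ?_
      have h3 := hr i k (Finset.mem_erase.mp hk).1
      have h4 : (star (q i - q k) * q i).re + (star (q k - q i) * q k).re =
          ‖q i - q k‖ ^ 2 := by
        rw [← self_inner, ← Complex.add_re]
        congr 1
        simp only [star_sub]
        ring
      rw [norm_sub_rev (q k) (q i), ← mul_add, h4]
      field_simp
    have h5 : ∑ i, ∑ k ∈ Finset.univ.erase i, ψ ‖q i - q k‖ * ‖q i - q k‖ / 2 =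
        (∑ i, ∑ k ∈ Finset.univ.erase i, ψ ‖q i - q k‖ * ‖q i - q k‖) / 2 := by
      rw [Finset.sum_div]
      exact Finset.sum_congr rfl fun i _ => (Finset.sum_div _ _ _).symm
    rw [h5, ← h2]
    simp only [Finset.sum_add_distrib]
    rw [← h1]
    ring
  have hL : ∑ i, ∑ k ∈ Finset.univ.erase i,
      ψ ‖q i - q k‖ / ‖q i - q k‖ * (star (q i - q k) * q i).re =
        ∑ i, ∑ k ∈ Finset.univ.erase i, ψ ‖q i - q k‖ / ‖q i - q k‖ ^ 2 +
          tS q (fun x y c => ψ x * c / y ^ 2) := by
    unfold tS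
    rw [← Finset.sum_add_distrib]
    refine Finset.sum_congr rfl fun i _ => ?_
    rw [← Finset.sum_add_distrib]
    refine Finset.sum_congr rfl fun k hk => ?_
    have hki := (Finset.mem_erase.mp hk).1
    have h3 := hr i k hki
    rw [← tested h hki, mul_add, Finset.mul_sum]
    congr 1
    · field_simp
    · refine Finset.sum_congr rfl fun j hj => ?_
      have hji : j ≠ i := (Finset.mem_erase.mp (Finset.mem_erase.mp hj).2).1
      have h4 := hr i j hji
      field_simp
  have hP : pS q (fun r => ψ r / r ^ 2 - ψ r * r / 2) =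
      ∑ i, ∑ k ∈ Finset.univ.erase i, ψ ‖q i - q k‖ / ‖q i - q k‖ ^ 2 -
        ∑ i, ∑ k ∈ Finset.univ.erase i, ψ ‖q i - q k‖ * ‖q i - q k‖ / 2 := by
    unfold pS
    rw [← Finset.sum_sub_distrib]
    refine Finset.sum_congr rfl fun i _ => ?_
    rw [← Finset.sum_sub_distrib]
  rw [hP]
  linarith

end RelEqN.Small.Tri
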