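import Pool.Agent.Lib.MP_b9e19b_mp.Small.Tri.Spec3

set_option autoImplicit false

/-!
# Three-point certificates: piecewise linear functions
-/

namespace RelEqN.Small.Tri

open Chk RelEqN.Small

namespace PlfM

lemma mono_le (kn : List ℕ)
    (h : ∀ i, i + 1 < kn.length → kn.getD i 0 < kn.getD (i + 1) 0) :
    ∀ a b : ℕ, a ≤ b → b < kn.length → kn.getD a 0 ≤ kn.getD b 0 := by
  intro a b hab hb
  induction b, hab using Nat.le_induction with
  | base => exact le_refl _
  | succ b hab ih => exact (ih (by omega)).trans (h b hb).le

lemma mono_lt (kn : List ℕ)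
    (h : ∀ i, i + 1 < kn.length → kn.getD i 0 < kn.getD (i + 1) 0) (a b : ℕ) (hab : a < b)
    (hb : b < kn.length) : kn.getD a 0 < kn.getD b 0 :=
  (h a (by omega)).trans_le (mono_le kn h (a + 1) b hab hb)

end PlfM

open PlfM

theorem stmtPlf : StmtPlf := by
  intro D hD kn f a x hmono ha hx
  have hD' : (0 : ℝ) < D := by exact_mod_cast hD
  induction a generalizing kn f with
  | zero =>
    match kn, ha with
    | k0 :: k1 :: ks, _ =>
      have h1 : (D : ℝ) * x ≤ k1 := by
        have := hx.2
        simp only [List.getD_cons_succ, List.getD_cons_zero] at this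
        rw [le_div_iff₀ hD'] at this
        linarith
      simp only [plf, List.getD_cons_succ, List.getD_cons_zero]
      rw [if_pos h1]
  | succ a ih =>
    match kn, ha with
    | k0 :: k1 :: ks, ha =>
      have hx1 : (((k0 :: k1 :: ks).getD (a + 1) 0 : ℕ) : ℝ) ≤ D * x := by
        have := hx.1
        rw [div_le_iff₀ hD'] at this
        linarith
      have hx2 : D * x ≤ (((k0 :: k1 :: ks).getD (a + 2) 0 : ℕ) : ℝ) := by
        have := hx.2
        rw [le_div_iff₀ hD'] at this
        linarith
      have htail : ∀ i, i + 1 < (k1 :: ks).length →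
          (k1 :: ks).getD i 0 < (k1 :: ks).getD (i + 1) 0 := by
        intro i hi
        have := hmono (i + 1) (by simpa using hi)
        simpa only [List.getD_cons_succ] using this
      have hlen : a + 1 < (k1 :: ks).length := by
        simp only [List.length_cons] at ha ⊢
        omega
      by_cases h1 : (D : ℝ) * x ≤ k1
      · have ha0 : a = 0 := by
          by_contra hne
          have hlt := mono_lt (k0 :: k1 :: ks) hmono 1 (a + 1) (by omega) (by omega)
          have hlt' : (((k0 :: k1 :: ks).getD 1 0 : ℕ) : ℝ)
              < (((k0 :: k1 :: ks).getD (a + 1) 0 : ℕ) : ℝ) := by exact_mod_cast hlt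
          have : (((k0 :: k1 :: ks).getD 1 0 : ℕ) : ℝ) = k1 := by
            simp only [List.getD_cons_succ, List.getD_cons_zero]
          linarith
        subst ha0
        have hk1 : (((k0 :: k1 :: ks).getD (0 + 1) 0 : ℕ) : ℝ) = k1 := by
          simp only [Nat.zero_add, List.getD_cons_succ, List.getD_cons_zero]
        rw [hk1] at hx1
        have hDx : (D : ℝ) * x = k1 := le_antisymm h1 hx1
        have h01 : (k0 : ℝ) < k1 := by
          have := hmono 0 (by simp)
          simp only [Nat.zero_add, List.getD_cons_succ, List.getD_cons_zero] at this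
          exact_mod_cast this
        have h12 : (k1 : ℝ) < (((k0 :: k1 :: ks).getD (0 + 1 + 1) 0 : ℕ) : ℝ) := by
          have := hmono 1 (by simpa using ha)
          have e : (k0 :: k1 :: ks).getD 1 0 = k1 := by
            simp only [List.getD_cons_succ, List.getD_cons_zero]
          rw [e] at this
          exact_mod_cast this
        rw [plf, if_pos h1, hk1, hDx]
        rw [show (f 0 * ((k1 : ℝ) - k1) + f 1 * ((k1 : ℝ) - k0)) / ((k1 : ℝ) - k0) = f 1 by
          rw [sub_self, mul_zero, zero_add, mul_div_assoc, div_self (by linarith), mul_one]]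
        rw [sub_self, mul_zero, add_zero, mul_div_assoc, div_self (by linarith), mul_one]
      · rw [plf, if_neg h1]
        have := ih (k1 :: ks) (fun i => f (i + 1)) htail hlen
          ⟨by simpa only [List.getD_cons_succ] using hx.1,
            by simpa only [List.getD_cons_succ] using hx.2⟩
        rw [this]
        simp only [List.getD_cons_succ]

end RelEqN.Small.Tri
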