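import Pool.Agent.Lib.MP_b9e19b_mp.Small.Tri.Spec3

set_option autoImplicit false

/-!
# Three-point certificates: a priori bounds, 8 bodies
-/

namespace RelEqN.Small.Tri

open Chk RelEqN.Small

namespace Pri8M

/-- the lower bound of the pair function -/
theorem g_low (r : ℝ) (hr : 0 < r) :
    (1 / 8 : ℝ) ≤ 1 / r ^ 3 - 1 / 4 * (1 / r - r ^ 2 / (8 : ℕ)) := by
  have h : 1 / r ^ 3 - 1 / 4 * (1 / r - r ^ 2 / (8 : ℕ)) - 1 / 8
      = (r - 2) ^ 2 * (r ^ 3 + 4 * r ^ 2 + 8 * r + 8) / (32 * r ^ 3) := by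
    field_simp
    push_cast
    ring
  have h2 : 0 ≤ (r - 2) ^ 2 * (r ^ 3 + 4 * r ^ 2 + 8 * r + 8) / (32 * r ^ 3) := by
    positivity
  linarith

/-- the pair function is large near zero -/
theorem g_near (r : ℝ) (hr : 0 < r) (h : r < 2662 / 4096)
    (hg : 1 / r ^ 3 - 1 / 4 * (1 / r - r ^ 2 / (8 : ℕ)) ≤ 25 / 8) : False := by
  have h1 : 1 / r ^ 3 - 1 / 4 * (1 / r - r ^ 2 / (8 : ℕ))
      = (1 - r ^ 2 / 4 + r ^ 5 / 32) / r ^ 3 := by
    field_simp
    push_cast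
    ring
  have h3 : 0 < r ^ 3 := by positivity
  rw [h1, div_le_iff₀ h3] at hg
  have h5 : 0 < r ^ 5 := by positivity
  have h2 : r ^ 2 ≤ (2662 / 4096) ^ 2 := pow_le_pow_left₀ hr.le h.le 2
  have h4 : r ^ 3 ≤ (2662 / 4096) ^ 3 := pow_le_pow_left₀ hr.le h.le 3
  norm_num at h2 h4
  linarith

end Pri8M

theorem stmtPri8 (h7 : StmtRegion) (h8 : StmtRange) : StmtPri8 := by
  intro q hq Tb hTb hT
  have hN : 3 ≤ 8 := by norm_num
  obtain ⟨hA, hB⟩ := h7 8 q hN hq (1 / 4) (1 / 8) Pri8M.g_low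
  refine ⟨fun i j hij => ⟨?_, ?_⟩, fun i j k hij hik hjk => ?_⟩
  · by_contra hc
    push Not at hc
    have hpos : 0 < ‖q i - q j‖ := by
      rw [norm_pos_iff, sub_ne_zero]
      exact fun he => hij (hq.1 he)
    refine Pri8M.g_near _ hpos hc ?_
    have h1 := hB i j hij
    push_cast at h1 ⊢
    linarith
  · have h1 := h8 8 q hN hq (163 / 100) (by norm_num) i j hij
    have h2 : ‖q i - q j‖ ^ 2 ≤ (24166 / 4096 : ℝ) ^ 2 := by
      push_cast at h1
      norm_num at h1 ⊢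
      linarith
    exact abs_le_of_sq_le_sq' h2 (by norm_num) |>.2
  · have h1 := hA i j k hij hik hjk
    push_cast at h1
    linarith

end RelEqN.Small.Tri
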