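import Pool.Agent.Lib.MP_b9e19b_mp.Small.Tri.Spec3

set_option autoImplicit false

/-!
# A priori bounds for nine bodies (D10)
-/

namespace RelEqN.Small.Tri.Pri9M

open RelEqN.Small.Tri RelEqN.Small

/-- lower bound of the one-body function -/
theorem low (r : ℝ) (hr : 0 < r) :
    (1109 / 10000 : ℝ) ≤ 1 / r ^ 3 - 3 / 13 * (1 / r - r ^ 2 / ((9 : ℕ) : ℝ)) := by
  have key : (1 : ℝ) - 3 / 13 * r ^ 2 + r ^ 5 / 39 - 1109 / 10000 * r ^ 3
      = (r - 52 / 25) ^ 2 * (r ^ 3 / 39 + 8 / 75 * r ^ 2 + 2219 / 10000 * r + 281351 / 1218750)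
        + 371 / 1171875 * r + 36371 / 29296875 := by ring
  have h0 : (0 : ℝ) ≤ 1 - 3 / 13 * r ^ 2 + r ^ 5 / 39 - 1109 / 10000 * r ^ 3 := by
    rw [key]; positivity
  have e : 1 / r ^ 3 - 3 / 13 * (1 / r - r ^ 2 / ((9 : ℕ) : ℝ)) - 1109 / 10000
      = (1 - 3 / 13 * r ^ 2 + r ^ 5 / 39 - 1109 / 10000 * r ^ 3) / r ^ 3 := by
    push_cast
    field_simp
    ring
  have h1 : 0 ≤ (1 - 3 / 13 * r ^ 2 + r ^ 5 / 39 - 1109 / 10000 * r ^ 3) / r ^ 3 := by positivity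
  linarith

/-- small distances are impossible -/
theorem small (r : ℝ) (hr : 0 < r)
    (h : 1 / r ^ 3 - 3 / 13 * (1 / r - r ^ 2 / ((9 : ℕ) : ℝ)) ≤ 15 / 2 - 35 * (1109 / 10000)) :
    (2580 : ℝ) / 4096 ≤ r := by
  by_contra hc
  rw [not_le] at hc
  set w := 1 / r with hw
  have hw0 : (4096 : ℝ) / 2580 < w := by
    rw [hw, div_lt_div_iff₀ (by norm_num) hr]
    rw [lt_div_iff₀ (by norm_num)] at hc
    linarith
  have e3 : 1 / r ^ 3 = w ^ 3 := by rw [hw]; field_simp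
  rw [e3] at h
  have hr2 : 0 ≤ r ^ 2 / ((9 : ℕ) : ℝ) := by positivity
  have hsq : ((4096 : ℝ) / 2580) ^ 2 < w ^ 2 := by
    apply pow_lt_pow_left₀ hw0 (by norm_num) (by norm_num)
  have hmul : ((4096 : ℝ) / 2580) * (((4096 : ℝ) / 2580) ^ 2 - 3 / 13) < w * (w ^ 2 - 3 / 13) := by
    apply mul_lt_mul'' hw0 (by linarith) (by norm_num) (by norm_num)
  have h2 : w * (w ^ 2 - 3 / 13) ≤ 15 / 2 - 35 * (1109 / 10000) := by nlinarith
  have h3 : (15 : ℝ) / 2 - 35 * (1109 / 10000)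
      < ((4096 : ℝ) / 2580) * (((4096 : ℝ) / 2580) ^ 2 - 3 / 13) := by norm_num
  linarith

end RelEqN.Small.Tri.Pri9M

namespace RelEqN.Small.Tri

open RelEqN.Small

/-- (D10) -/
theorem stmtPri9 (h7 : StmtRegion) (h8 : StmtRange) : StmtPri9 := by
  intro q hq Tb hTb hT
  have hpos : ∀ i j : Fin 9, i ≠ j → 0 < ‖q i - q j‖ := by
    intro i j hij
    rw [norm_pos_iff, sub_ne_zero]
    exact fun h => hij (hq.1 h)
  obtain ⟨h3, h2⟩ := h7 9 q (by norm_num) hq (3 / 13) (1109 / 10000) Pri9M.low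
  refine ⟨fun i j hij => ⟨?_, ?_⟩, fun i j k hij hik hjk => ?_⟩
  · have h := h2 i j hij
    refine Pri9M.small _ (hpos i j hij) (le_trans h ?_)
    push_cast
    linarith
  · have h := h8 9 q (by norm_num) hq (169 / 100) (by norm_num) i j hij
    push_cast at h
    have hb : ‖q i - q j‖ ^ 2 ≤ ((27034 : ℝ) / 4096) ^ 2 := by
      refine le_trans h ?_
      have : T q ≤ 15 := le_trans hT hTb
      nlinarith
    exact le_of_sq_le_sq hb (by norm_num)
  · have h := h3 i j k hij hik hjk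
    push_cast at h
    refine le_trans h ?_
    linarith

end RelEqN.Small.Tri
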