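import Pool.Agent.Lib.MP_b9e19b_mp.Small.Tri.Spec3

set_option autoImplicit false

/-!
# Three-point certificates: positivity of the multipliers (D6)
-/

namespace RelEqN.Small.Tri.PsdCM

open Chk RelEqN.Small RelEqN.Small.Tri

lemma cross {u0 u1 u2 v0 v1 v2 : ℝ} (hu0 : 0 ≤ u0) (hu2 : 0 ≤ u2) (hu : u1 ^ 2 ≤ u0 * u2)
    (hv0 : 0 ≤ v0) (hv2 : 0 ≤ v2) (hv : v1 ^ 2 ≤ v0 * v2) :
    2 * (u1 * v1) ≤ u0 * v2 + v0 * u2 := by
  by_contra h
  push Not at h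
  have h0 : 0 ≤ u0 * v2 + v0 * u2 := by positivity
  have h1 : (u0 * v2 + v0 * u2) ^ 2 < (2 * (u1 * v1)) ^ 2 := pow_lt_pow_left₀ h h0 (by norm_num)
  have h2 : u1 ^ 2 * v1 ^ 2 ≤ (u0 * u2) * (v0 * v2) :=
    mul_le_mul hu hv (sq_nonneg _) (by positivity)
  nlinarith [sq_nonneg (u0 * v2 - v0 * u2)]

lemma comb {u0 u1 u2 v0 v1 v2 s t : ℝ} (hu0 : 0 ≤ u0) (hu2 : 0 ≤ u2) (hu : u1 ^ 2 ≤ u0 * u2)
    (hv0 : 0 ≤ v0) (hv2 : 0 ≤ v2) (hv : v1 ^ 2 ≤ v0 * v2) (hs : 0 ≤ s) (ht : 0 ≤ t) :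
    (u1 * s + v1 * t) ^ 2 ≤ (u0 * s + v0 * t) * (u2 * s + v2 * t) := by
  have h1 := cross hu0 hu2 hu hv0 hv2 hv
  have h2 := mul_le_mul_of_nonneg_right hu (sq_nonneg s)
  have h3 := mul_le_mul_of_nonneg_right hv (sq_nonneg t)
  have h4 := mul_le_mul_of_nonneg_right h1 (mul_nonneg hs ht)
  nlinarith

lemma plf_zero (D : ℕ) (x : ℝ) : ∀ (kn : List ℕ) (f : ℕ → ℝ), (∀ i, f i = 0) →
    plf D kn f x = 0 := by
  intro kn
  induction kn with
  | nil => intro f _; rfl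
  | cons k0 ks ih =>
    cases ks with
    | nil => intro f _; rfl
    | cons k1 ks =>
      intro f hf
      have h := ih (fun i => f (i + 1)) (fun i => hf (i + 1))
      show (if (D : ℝ) * x ≤ k1 then (f 0 * (k1 - D * x) + f 1 * (D * x - k0)) / ((k1 : ℝ) - k0)
        else plf D (k1 :: ks) (fun i => f (i + 1)) x) = 0
      split_ifs
      · rw [hf 0, hf 1]; simp
      · exact h

lemma getD_of_all {l : List ℕ} {d : ℕ} (h : l.all (Nat.beq d) = true) (i : ℕ) :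
    l.getD i d = d := by
  rw [List.all_eq_true] at h
  by_cases hi : i < l.length
  · rw [List.getD_eq_getElem _ _ hi]
    have := h _ (List.getElem_mem hi)
    exact (Nat.eq_of_beq_eq_true this).symm
  · rw [List.getD_eq_default _ _ (by omega)]

lemma part (h1 : StmtPlf) {C : Cert} (hD : 0 < C.par.D) (hE : 0 < C.E)
    (hkn : ∀ i, i + 1 < C.kn.length → C.kn.getD i 0 < C.kn.getD (i + 1) 0)
    (w0 w1 w2 : List ℕ)
    (hw : ∀ a, a < C.kn.length → ((w1.getD a C.H : ℝ) - C.H) ^ 2 ≤ (w0.getD a 0 : ℝ) * w2.getD a 0)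
    {a : ℕ} (ha : a + 1 < C.kn.length) {x : ℝ} (hx : x ∈ C.Icl a) :
    0 ≤ C.p00 w0 x ∧ 0 ≤ C.p00 w2 x ∧ C.pH w1 x ^ 2 ≤ C.p00 w0 x * C.p00 w2 x := by
  have hk : (C.kn.getD a 0 : ℝ) < C.kn.getD (a + 1) 0 := by exact_mod_cast hkn a ha
  have hD' : (0 : ℝ) < C.par.D := by exact_mod_cast hD
  have hE' : (0 : ℝ) < C.E := by exact_mod_cast hE
  have hx' : x ∈ Set.Icc ((C.kn.getD a 0 : ℝ) / C.par.D) ((C.kn.getD (a + 1) 0 : ℝ) / C.par.D) := hx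
  set k0 : ℝ := (C.kn.getD a 0 : ℝ) with hk0
  set k1 : ℝ := (C.kn.getD (a + 1) 0 : ℝ) with hk1
  have hx0 : 0 ≤ (C.par.D : ℝ) * x - k0 := by
    have := hx'.1
    rw [div_le_iff₀ hD'] at this
    linarith
  have hx1 : 0 ≤ k1 - (C.par.D : ℝ) * x := by
    have := hx'.2
    rw [le_div_iff₀ hD'] at this
    linarith
  have hkk : 0 < k1 - k0 := by linarith
  have e0 : C.p00 w0 x = ((w0.getD a 0 : ℝ) / C.E) * ((k1 - C.par.D * x) / (k1 - k0))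
      + ((w0.getD (a + 1) 0 : ℝ) / C.E) * ((C.par.D * x - k0) / (k1 - k0)) := by
    unfold Cert.p00
    rw [h1 C.par.D hD C.kn _ a x hkn ha hx']
    ring
  have e2 : C.p00 w2 x = ((w2.getD a 0 : ℝ) / C.E) * ((k1 - C.par.D * x) / (k1 - k0))
      + ((w2.getD (a + 1) 0 : ℝ) / C.E) * ((C.par.D * x - k0) / (k1 - k0)) := by
    unfold Cert.p00
    rw [h1 C.par.D hD C.kn _ a x hkn ha hx']
    ring
  have e1 : C.pH w1 x = (((w1.getD a C.H : ℝ) - C.H) / C.E) * ((k1 - C.par.D * x) / (k1 - k0))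
      + (((w1.getD (a + 1) C.H : ℝ) - C.H) / C.E) * ((C.par.D * x - k0) / (k1 - k0)) := by
    unfold Cert.pH
    rw [h1 C.par.D hD C.kn _ a x hkn ha hx']
    ring
  have hs : 0 ≤ (k1 - C.par.D * x) / (k1 - k0) := div_nonneg hx1 hkk.le
  have ht : 0 ≤ (C.par.D * x - k0) / (k1 - k0) := div_nonneg hx0 hkk.le
  have key : ∀ b, b < C.kn.length → (((w1.getD b C.H : ℝ) - C.H) / C.E) ^ 2
      ≤ ((w0.getD b 0 : ℝ) / C.E) * ((w2.getD b 0 : ℝ) / C.E) := by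
    intro b hb
    rw [div_pow, div_mul_div_comm, ← pow_two]
    exact div_le_div_of_nonneg_right (hw b hb) (by positivity)
  have n0 : ∀ b, 0 ≤ ((w0.getD b 0 : ℝ) / C.E) := fun b => by positivity
  have n2 : ∀ b, 0 ≤ ((w2.getD b 0 : ℝ) / C.E) := fun b => by positivity
  rw [e0, e1, e2]
  refine ⟨?_, ?_, ?_⟩
  · exact add_nonneg (mul_nonneg (n0 _) hs) (mul_nonneg (n0 _) ht)
  · exact add_nonneg (mul_nonneg (n2 _) hs) (mul_nonneg (n2 _) ht)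
  · exact comb (n0 _) (n2 _) (key a (by omega)) (n0 _) (n2 _) (key (a + 1) ha) hs ht

end RelEqN.Small.Tri.PsdCM

namespace RelEqN.Small.Tri

open Chk RelEqN.Small PsdCM

theorem stmtPsdC (h1 : StmtPlf) (h2 : StmtGood) : StmtPsdC := by
  refine ⟨?_, ?_⟩
  · intro C hC a ha x hx
    obtain ⟨hP, hE, -, -, -, hkn, -, -, hp, -⟩ := h2 C hC
    exact ⟨part h1 hP.D0 hE hkn C.p0 C.p1 C.p2 (fun b hb => (hp b hb).1) ha hx,
      part h1 hP.D0 hE hkn C.e0 C.e1 C.e2 (fun b hb => (hp b hb).2) ha hx⟩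
  · intro C hC r
    unfold Cert.zero at hC
    simp only [Bool.and_eq_true] at hC
    obtain ⟨⟨⟨⟨⟨z0, z2⟩, y0⟩, y2⟩, z1⟩, y1⟩ := hC
    have h00 : ∀ w : List ℕ, w.all (Nat.beq 0) = true → C.p00 w r = 0 := by
      intro w hw
      unfold Cert.p00
      apply plf_zero
      intro i
      rw [getD_of_all hw i]; simp
    have hHH : ∀ w : List ℕ, w.all (Nat.beq C.H) = true → C.pH w r = 0 := by
      intro w hw
      unfold Cert.pH
      apply plf_zero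
      intro i
      rw [getD_of_all hw i]; simp
    exact ⟨h00 _ z0, hHH _ z1, h00 _ z2, h00 _ y0, hHH _ y1, h00 _ y2⟩

end RelEqN.Small.Tri
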