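import Pool.Agent.Lib.MP_b9e19b_mp.Small.Tri.Spec

set_option autoImplicit false

/-!
Three-point certificates: the a-priori region
-/

namespace RelEqN.Small.Tri

open RelEqN.Small

namespace RegionM

variable {N : ℕ}

private lemma wt_symm (q : Fin N → ℂ) (j k : Fin N) : wt q j k = wt q k j := by
  unfold wt
  rw [norm_sub_rev]

private lemma wt_self (q : Fin N → ℂ) (j : Fin N) : wt q j j = 0 := by
  unfold wt
  simp

private lemma sum_offDiag (F : Fin N → Fin N → ℝ) (h : ∀ j, F j j = 0) :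
    ∑ j, ∑ k, F j k = ∑ p ∈ (Finset.univ : Finset (Fin N)).offDiag, F p.1 p.2 := by
  rw [← Finset.sum_product' Finset.univ Finset.univ F]
  symm
  apply Finset.sum_subset
  · intro p _
    exact Finset.mem_product.2 ⟨Finset.mem_univ _, Finset.mem_univ _⟩
  · intro p _ hp
    have h1 : p.1 = p.2 := by
      by_contra hne
      exact hp (Finset.mem_offDiag.2 ⟨Finset.mem_univ _, Finset.mem_univ _, hne⟩)
    rw [← h1]
    exact h p.1

private lemma com {q : Fin N → ℂ} (h : CC q) : ∑ j, q j = 0 := by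
  have h1 : ∑ j, q j = ∑ j, ∑ k, (wt q j k : ℂ) * (q j - q k) :=
    Finset.sum_congr rfl fun j _ => (h.2 j).symm
  have h2 : ∑ j, ∑ k, (wt q j k : ℂ) * (q j - q k) =
      - ∑ j, ∑ k, (wt q j k : ℂ) * (q j - q k) := by
    conv_lhs => rw [Finset.sum_comm]
    rw [← Finset.sum_neg_distrib]
    refine Finset.sum_congr rfl fun j _ => ?_
    rw [← Finset.sum_neg_distrib]
    refine Finset.sum_congr rfl fun k _ => ?_
    rw [wt_symm]
    ring
  rw [h1]
  exact self_eq_neg.1 h2

private lemma star_mul_self_re (z : ℂ) : (star z * z).re = ‖z‖ ^ 2 := by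
  have h3 : star z * z = ((Complex.normSq z : ℝ) : ℂ) := (Complex.normSq_eq_conj_mul_self).symm
  rw [h3, Complex.ofReal_re, Complex.normSq_eq_norm_sq]

private lemma norm_sub_sq' (z w : ℂ) :
    ‖z - w‖ ^ 2 = ‖z‖ ^ 2 + ‖w‖ ^ 2 - 2 * (star z * w).re := by
  rw [← Complex.normSq_eq_norm_sq, ← Complex.normSq_eq_norm_sq, ← Complex.normSq_eq_norm_sq,
    Complex.normSq_apply, Complex.normSq_apply, Complex.normSq_apply, Complex.mul_re,
    Complex.sub_re, Complex.sub_im]
  have h3 : (star z).re = z.re := Complex.conj_re z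
  have h4 : (star z).im = - z.im := Complex.conj_im z
  rw [h3, h4]
  ring

private lemma pair_re (z w : ℂ) :
    (star z * (z - w)).re + (star w * (w - z)).re = ‖z - w‖ ^ 2 := by
  rw [norm_sub_sq', ← star_mul_self_re, ← star_mul_self_re, mul_sub, mul_sub, Complex.sub_re,
    Complex.sub_re]
  have h5 : (star w * z).re = (star z * w).re := by
    rw [Complex.mul_re, Complex.mul_re]
    have h1 : (star z).re = z.re := Complex.conj_re z
    have h2 : (star z).im = - z.im := Complex.conj_im z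
    have h3 : (star w).re = w.re := Complex.conj_re w
    have h4 : (star w).im = - w.im := Complex.conj_im w
    rw [h1, h2, h3, h4]
    ring
  rw [h5]
  ring

/-- the moment of inertia is half the sum of the inverse distances -/
private lemma vir {q : Fin N → ℂ} (h : CC q) :
    ∑ p ∈ (Finset.univ : Finset (Fin N)).offDiag, 1 / ‖q p.1 - q p.2‖ = 2 * ∑ j, ‖q j‖ ^ 2 := by
  have h1 : ∀ j, ‖q j‖ ^ 2 = ∑ k, wt q j k * (star (q j) * (q j - q k)).re := by
    intro j
    have h3 : star (q j) * q j = ∑ k, (wt q j k : ℂ) * (star (q j) * (q j - q k)) := by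
      calc star (q j) * q j = star (q j) * ∑ k, (wt q j k : ℂ) * (q j - q k) := by rw [h.2 j]
        _ = _ := by
          rw [Finset.mul_sum]
          exact Finset.sum_congr rfl fun k _ => by ring
    rw [← star_mul_self_re, h3, Complex.re_sum]
    exact Finset.sum_congr rfl fun k _ => Complex.re_ofReal_mul _ _
  have h5 : ∑ j, ‖q j‖ ^ 2 = ∑ j, ∑ k, wt q j k * (star (q j) * (q j - q k)).re :=
    Finset.sum_congr rfl fun j _ => h1 j
  have h6 : ∑ j, ‖q j‖ ^ 2 = ∑ j, ∑ k, wt q j k * (star (q k) * (q k - q j)).re := by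
    rw [h5, Finset.sum_comm]
    refine Finset.sum_congr rfl fun j _ => Finset.sum_congr rfl fun k _ => ?_
    rw [wt_symm]
  have h7 : 2 * ∑ j, ‖q j‖ ^ 2 = ∑ j, ∑ k, wt q j k * ‖q j - q k‖ ^ 2 := by
    have h8 : 2 * ∑ j, ‖q j‖ ^ 2 = ∑ j, ∑ k, wt q j k * (star (q j) * (q j - q k)).re +
        ∑ j, ∑ k, wt q j k * (star (q k) * (q k - q j)).re := by
      rw [← h5, ← h6]
      ring
    rw [h8, ← Finset.sum_add_distrib]
    refine Finset.sum_congr rfl fun j _ => ?_
    rw [← Finset.sum_add_distrib]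
    refine Finset.sum_congr rfl fun k _ => ?_
    rw [← mul_add, pair_re]
  rw [h7, sum_offDiag (fun j k => wt q j k * ‖q j - q k‖ ^ 2) (fun j => by rw [wt_self, zero_mul])]
  refine Finset.sum_congr rfl fun p hp => ?_
  have h9 : ‖q p.1 - q p.2‖ ≠ 0 := by
    rw [norm_ne_zero_iff, sub_ne_zero]
    exact fun h10 => (Finset.mem_offDiag.1 hp).2.2 (h.1 h10)
  unfold wt
  field_simp

/-- the sum of the squares of the distances -/
private lemma sumSq {q : Fin N → ℂ} (h : CC q) :
    ∑ p ∈ (Finset.univ : Finset (Fin N)).offDiag, ‖q p.1 - q p.2‖ ^ 2 =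
      2 * N * ∑ j, ‖q j‖ ^ 2 := by
  rw [← sum_offDiag (fun j k => ‖q j - q k‖ ^ 2) (fun j => by simp)]
  have h1 : ∀ j, ∑ k, ‖q j - q k‖ ^ 2 = N * ‖q j‖ ^ 2 + ∑ k, ‖q k‖ ^ 2 := by
    intro j
    have h2 : ∀ k, ‖q j - q k‖ ^ 2 = ‖q j‖ ^ 2 + ‖q k‖ ^ 2 - 2 * (star (q j) * q k).re :=
      fun k => norm_sub_sq' _ _
    have h3 : ∑ k, (star (q j) * q k).re = 0 := by
      rw [← Complex.re_sum, ← Finset.mul_sum, com h, mul_zero, Complex.zero_re]
    rw [Finset.sum_congr rfl fun k _ => h2 k, Finset.sum_sub_distrib, Finset.sum_add_distrib,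
      ← Finset.mul_sum, h3, Finset.sum_const, Finset.card_univ, Fintype.card_fin, nsmul_eq_mul]
    ring
  rw [Finset.sum_congr rfl fun j _ => h1 j, Finset.sum_add_distrib, ← Finset.mul_sum,
    Finset.sum_const, Finset.card_univ, Fintype.card_fin, nsmul_eq_mul]
  ring

private lemma T_eq (q : Fin N → ℂ) :
    T q = ∑ p ∈ (Finset.univ : Finset (Fin N)).offDiag, 1 / ‖q p.1 - q p.2‖ ^ 3 := by
  rw [T, sum_offDiag (wt q) (wt_self q)]
  refine Finset.sum_congr rfl fun p _ => ?_
  rw [wt, one_div]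

private lemma card_offDiag (hN : 1 ≤ N) :
    ((Finset.univ : Finset (Fin N)).offDiag.card : ℝ) = N * (N - 1) := by
  rw [Finset.offDiag_card, Finset.card_univ, Fintype.card_fin, Nat.cast_sub (Nat.le_mul_self N)]
  push_cast
  ring

/-- the function of the region -/
private noncomputable def gg (N : ℕ) (κ r : ℝ) : ℝ := 1 / r ^ 3 - κ * (1 / r - r ^ 2 / N)

private lemma sum_gg {q : Fin N → ℂ} (hN : 3 ≤ N) (h : CC q) (κ : ℝ) :
    ∑ p ∈ (Finset.univ : Finset (Fin N)).offDiag, gg N κ ‖q p.1 - q p.2‖ = T q := by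
  have hN0 : (N : ℝ) ≠ 0 := by
    have : (3 : ℝ) ≤ N := by exact_mod_cast hN
    linarith
  unfold gg
  rw [Finset.sum_sub_distrib, ← T_eq, ← Finset.mul_sum, Finset.sum_sub_distrib, vir h,
    ← Finset.sum_div, sumSq h]
  field_simp
  ring

end RegionM

open RegionM in
theorem stmtRegion : StmtRegion := by
  classical
  intro N q hN h κ t ht
  have hsum := sum_gg hN h κ
  have hcard := card_offDiag (N := N) (by omega)
  have hpos : ∀ i j : Fin N, i ≠ j → 0 < ‖q i - q j‖ := fun i j hij =>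
    norm_pos_iff.2 (sub_ne_zero.2 fun h1 => hij (h.1 h1))
  have hnn : ∀ i j : Fin N, i ≠ j → 0 ≤ gg N κ ‖q i - q j‖ - t := fun i j hij =>
    sub_nonneg.2 (ht _ (hpos i j hij))
  have htot : ∑ p ∈ (Finset.univ : Finset (Fin N)).offDiag, (gg N κ ‖q p.1 - q p.2‖ - t) =
      T q - N * (N - 1) * t := by
    rw [Finset.sum_sub_distrib, hsum, Finset.sum_const, nsmul_eq_mul, hcard]
  have hsub : ∀ P : Finset (Fin N × Fin N), (∀ p ∈ P, p.1 ≠ p.2) →
      ∑ p ∈ P, (gg N κ ‖q p.1 - q p.2‖ - t) ≤ T q - N * (N - 1) * t := by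
    intro P hP
    rw [← htot]
    refine Finset.sum_le_sum_of_subset_of_nonneg ?_ ?_
    · intro p hp
      exact Finset.mem_offDiag.2 ⟨Finset.mem_univ _, Finset.mem_univ _, hP p hp⟩
    · intro p hp _
      exact hnn _ _ (Finset.mem_offDiag.1 hp).2.2
  constructor
  · intro i j k hij hik hjk
    have h1 := hsub {(i, j), (j, i), (i, k), (k, i), (j, k), (k, j)} (by
      intro p hp
      simp only [Finset.mem_insert, Finset.mem_singleton] at hp
      rcases hp with rfl | rfl | rfl | rfl | rfl | rfl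
      · exact hij
      · exact hij.symm
      · exact hik
      · exact hik.symm
      · exact hjk
      · exact hjk.symm)
    rw [Finset.sum_insert (by simp [hij, hij.symm, hik, hik.symm, hjk, hjk.symm]),
      Finset.sum_insert (by simp [hij, hij.symm, hik, hik.symm, hjk, hjk.symm]),
      Finset.sum_insert (by simp [hij, hij.symm, hik, hik.symm, hjk, hjk.symm]),
      Finset.sum_insert (by simp [hij, hij.symm, hik, hik.symm, hjk, hjk.symm]),
      Finset.sum_insert (by simp [hij, hij.symm, hik, hik.symm, hjk, hjk.symm]),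
      Finset.sum_singleton] at h1
    have e1 : ‖q j - q i‖ = ‖q i - q j‖ := norm_sub_rev _ _
    have e2 : ‖q k - q i‖ = ‖q i - q k‖ := norm_sub_rev _ _
    have e3 : ‖q k - q j‖ = ‖q j - q k‖ := norm_sub_rev _ _
    simp only [e1, e2, e3] at h1
    change gg N κ ‖q i - q j‖ + gg N κ ‖q i - q k‖ + gg N κ ‖q j - q k‖ ≤
      T q / 2 - (N * (N - 1) / 2 - 3) * t
    linarith
  · intro i j hij
    have h1 := hsub {(i, j), (j, i)} (by
      intro p hp
      simp only [Finset.mem_insert, Finset.mem_singleton] at hp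
      rcases hp with rfl | rfl
      · exact hij
      · exact hij.symm)
    rw [Finset.sum_insert (by simp [hij, hij.symm]), Finset.sum_singleton] at h1
    have e1 : ‖q j - q i‖ = ‖q i - q j‖ := norm_sub_rev _ _
    simp only [e1] at h1
    change gg N κ ‖q i - q j‖ ≤ T q / 2 - (N * (N - 1) / 2 - 1) * t
    linarith

open RegionM in
theorem stmtRange : StmtRange := by
  classical
  intro N q hN h l hl i j hij
  have hpos : ∀ i j : Fin N, i ≠ j → 0 < ‖q i - q j‖ := fun i j hij =>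
    norm_pos_iff.2 (sub_ne_zero.2 fun h1 => hij (h.1 h1))
  have h1 : ‖q i - q j‖ ^ 2 ≤ 2 * ∑ k, ‖q k‖ ^ 2 := by
    have h2 : ‖q i - q j‖ ^ 2 ≤ 2 * (‖q i‖ ^ 2 + ‖q j‖ ^ 2) := by
      have h3 := norm_sub_le (q i) (q j)
      have h4 := norm_nonneg (q i - q j)
      nlinarith [sq_nonneg (‖q i‖ - ‖q j‖), norm_nonneg (q i), norm_nonneg (q j)]
    have h5 : ‖q i‖ ^ 2 + ‖q j‖ ^ 2 ≤ ∑ k, ‖q k‖ ^ 2 := by
      rw [← Finset.sum_pair (f := fun k => ‖q k‖ ^ 2) hij]
      exact Finset.sum_le_sum_of_subset_of_nonneg (Finset.subset_univ _)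
        fun k _ _ => sq_nonneg _
    linarith
  rw [← vir h] at h1
  refine h1.trans ?_
  have h6 : ∀ r : ℝ, 0 < r → 1 / r ≤ l ^ 2 / 3 * (1 / r ^ 3) + 2 / (3 * l) := by
    intro r hr
    have h7 : l ^ 2 / 3 * (1 / r ^ 3) + 2 / (3 * l) - 1 / r =
        (l - r) ^ 2 * (l + 2 * r) / (3 * l * r ^ 3) := by
      field_simp
      ring
    have h8 : 0 ≤ (l - r) ^ 2 * (l + 2 * r) / (3 * l * r ^ 3) := by positivity
    linarith
  calc ∑ p ∈ (Finset.univ : Finset (Fin N)).offDiag, 1 / ‖q p.1 - q p.2‖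
      ≤ ∑ p ∈ (Finset.univ : Finset (Fin N)).offDiag,
        (l ^ 2 / 3 * (1 / ‖q p.1 - q p.2‖ ^ 3) + 2 / (3 * l)) :=
        Finset.sum_le_sum fun p hp => h6 _ (hpos _ _ (Finset.mem_offDiag.1 hp).2.2)
    _ = l ^ 2 / 3 * T q + 2 / (3 * l) * (N * (N - 1)) := by
      rw [Finset.sum_add_distrib, ← Finset.mul_sum, ← T_eq, Finset.sum_const, nsmul_eq_mul,
        card_offDiag (by omega)]
      ring

end RelEqN.Small.Tri
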