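import Pool.Agent.Lib.MP_b9e19b_mp.Small.Tri.Spec2

set_option autoImplicit false

/-!
# Three-point certificates: the skip test
-/

namespace RelEqN.Small.Tri

open Chk

namespace SkipM

theorem le_up (F n d : ℕ) (hd : 0 < d) : (F : ℝ) * n / d ≤ (up F n d : ℝ) := by
  have h := Nat.lt_mul_div_succ (F * n) hd
  have h1 : ((F * n : ℕ) : ℝ) < ((d * (F * n / d + 1) : ℕ) : ℝ) := by exact_mod_cast h
  have hd' : (0 : ℝ) < d := by exact_mod_cast hd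
  rw [div_le_iff₀ hd']
  unfold up
  push_cast at h1 ⊢
  linarith

theorem dn_le (F n d : ℕ) : (dn F n d : ℝ) ≤ (F : ℝ) * n / d := by
  unfold dn
  have h : ((F * n / d : ℕ) : ℝ) ≤ ((F * n : ℕ) : ℝ) / d := Nat.cast_div_le
  rw [Nat.cast_mul] at h
  exact h

theorem g_ge (P : Par) (hP : P.Ok) (X0 X1 : ℕ) (h0 : 0 < X0) (x : ℝ)
    (hx : x ∈ Set.Icc ((X0 : ℝ) / P.D) ((X1 : ℝ) / P.D)) :
    (gP P X0 X1 : ℝ) - gN P X0 ≤ P.F * gR P x := by
  obtain ⟨hx0, hx1⟩ := hx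
  have hD : (0 : ℝ) < P.D := by exact_mod_cast hP.D0
  have hX0 : (0 : ℝ) < X0 := by exact_mod_cast h0
  have hF : (0 : ℝ) < P.F := by exact_mod_cast hP.F0
  have hk : (0 : ℝ) < P.kd := by exact_mod_cast hP.k0
  have hkn : (0 : ℝ) ≤ P.kn := Nat.cast_nonneg _
  have hN : (0 : ℝ) < P.N := by
    have := hP.N3
    exact_mod_cast (by omega : 0 < P.N)
  have hxp : 0 < x := lt_of_lt_of_le (div_pos hX0 hD) hx0
  have hX1 : (0 : ℝ) < X1 := by
    have h := lt_of_lt_of_le hxp hx1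
    rcases lt_or_ge (0 : ℝ) X1 with h' | h'
    · exact h'
    · exact absurd h (not_lt.2 (div_nonpos_of_nonpos_of_nonneg h' hD.le))
  have e1 : ((P.F * P.D ^ 3 / X1 ^ 3 : ℕ) : ℝ) ≤ P.F * (1 / x ^ 3) := by
    have h1 : ((P.F * P.D ^ 3 / X1 ^ 3 : ℕ) : ℝ) ≤
        ((P.F * P.D ^ 3 : ℕ) : ℝ) / ((X1 ^ 3 : ℕ) : ℝ) := Nat.cast_div_le
    refine h1.trans ?_
    push_cast
    rw [mul_one_div, div_le_div_iff₀ (by positivity) (by positivity)]
    have h2 : x * P.D ≤ X1 := (le_div_iff₀ hD).1 hx1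
    have h3 : (x * P.D) ^ 3 ≤ (X1 : ℝ) ^ 3 := pow_le_pow_left₀ (by positivity) h2 3
    calc (P.F : ℝ) * P.D ^ 3 * x ^ 3 = P.F * (x * P.D) ^ 3 := by ring
      _ ≤ P.F * (X1 : ℝ) ^ 3 := mul_le_mul_of_nonneg_left h3 hF.le
  have e2 : (P.F : ℝ) * ((P.kn : ℝ) / P.kd * (1 / x)) ≤ gN P X0 := by
    have h1 := le_up P.F (P.kn * P.D) (P.kd * X0) (Nat.mul_pos hP.k0 h0)
    unfold gN
    refine le_trans ?_ h1
    push_cast
    have h2 : 1 / x ≤ P.D / X0 := by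
      rw [div_le_div_iff₀ hxp hX0]
      have := (div_le_iff₀ hD).1 hx0
      linarith
    have h3 : (P.F : ℝ) * ((P.kn : ℝ) * P.D) / (P.kd * X0) =
        P.F * ((P.kn : ℝ) / P.kd * (P.D / X0)) := by
      field_simp
    rw [h3]
    exact mul_le_mul_of_nonneg_left (mul_le_mul_of_nonneg_left h2 (by positivity)) hF.le
  have e3 : ((dn P.F (P.kn * (X0 * X0)) (P.kd * P.N * (P.D * P.D)) : ℕ) : ℝ) ≤
      P.F * ((P.kn : ℝ) / P.kd * (x ^ 2 / P.N)) := by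
    refine (dn_le _ _ _).trans ?_
    push_cast
    have h2 : ((X0 : ℝ) / P.D) ^ 2 ≤ x ^ 2 := pow_le_pow_left₀ (by positivity) hx0 2
    have h3 : (P.F : ℝ) * ((P.kn : ℝ) * (X0 * X0)) / (P.kd * P.N * (P.D * P.D)) =
        P.F * ((P.kn : ℝ) / P.kd * (((X0 : ℝ) / P.D) ^ 2 / P.N)) := by
      field_simp
    rw [h3]
    exact mul_le_mul_of_nonneg_left (mul_le_mul_of_nonneg_left
      (div_le_div_of_nonneg_right h2 hN.le) (by positivity)) hF.le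
  unfold gP gR
  push_cast at e1 e3 ⊢
  have e4 : (P.F : ℝ) * (1 / x ^ 3 - (P.kn : ℝ) / P.kd * (1 / x - x ^ 2 / P.N)) =
      P.F * (1 / x ^ 3) - P.F * ((P.kn : ℝ) / P.kd * (1 / x)) +
        P.F * ((P.kn : ℝ) / P.kd * (x ^ 2 / P.N)) := by ring
  rw [e4]
  linarith

end SkipM

open SkipM in
theorem stmtSkip : StmtSkip := by
  intro P X0 X1 Y0 Y1 Z0 Z1 hP hX0 _ hY0 _ hZ0 _ hs x hx y hy z hz hadm
  have hD : (0 : ℝ) < P.D := by exact_mod_cast hP.D0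
  have hx0 := (div_le_iff₀ hD).1 hx.1
  have hx1 := (le_div_iff₀ hD).1 hx.2
  have hy0 := (div_le_iff₀ hD).1 hy.1
  have hy1 := (le_div_iff₀ hD).1 hy.2
  have hz0 := (div_le_iff₀ hD).1 hz.1
  have hz1 := (le_div_iff₀ hD).1 hz.2
  have a1 := mul_le_mul_of_nonneg_right hadm.xy hD.le
  have a2 := mul_le_mul_of_nonneg_right hadm.yz hD.le
  have a3 := mul_le_mul_of_nonneg_right hadm.tri hD.le
  unfold skip at hs
  simp only [Bool.or_eq_true, Nat.blt_eq] at hs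
  rcases hs with ((hs | hs) | hs) | hs
  · have : ((X1 + Y1 : ℕ) : ℝ) < Z0 := by exact_mod_cast hs
    push_cast at this
    nlinarith
  · have : (Y1 : ℝ) < X0 := by exact_mod_cast hs
    linarith
  · have : (Z1 : ℝ) < Y0 := by exact_mod_cast hs
    linarith
  · have h1 : ((P.G0 + gN P X0 + gN P Y0 + gN P Z0 : ℕ) : ℝ) <
        ((gP P X0 X1 + gP P Y0 Y1 + gP P Z0 Z1 : ℕ) : ℝ) := by exact_mod_cast hs
    push_cast at h1
    have b1 := g_ge P hP X0 X1 hX0 x hx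
    have b2 := g_ge P hP Y0 Y1 hY0 y hy
    have b3 := g_ge P hP Z0 Z1 hZ0 z hz
    have b4 := hadm.reg
    rw [mul_add, mul_add] at b4
    linarith

end RelEqN.Small.Tri
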