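import Pool.Agent.Lib.MP_b9e19b_mp.Small.Tri.Spec3

set_option autoImplicit false

/-!
# Symmetry of the triangle function (D5)
-/

namespace RelEqN.Small.Tri.SymSM

open RelEqN.Small.Tri

theorem co_comm (x y z : ℝ) : co x y z = co y x z := by
  unfold co
  ring

end RelEqN.Small.Tri.SymSM

namespace RelEqN.Small.Tri

/-- (D5) -/
theorem stmtSymS : StmtSymS := by
  intro F N Tb x y z
  constructor
  · unfold Fn.S
    rw [SymSM.co_comm y x z]
    ring
  · unfold Fn.S
    rw [SymSM.co_comm z y x]
    ring

end RelEqN.Small.Tri
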