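import Pool.Agent.Lib.MP_b9e19b_mp.Small.Tri.Spec2

set_option autoImplicit false

/-!
# Three-point certificates: bounds of the Chebyshev polynomials
-/

namespace RelEqN.Small.Tri

open Chk

namespace TBdM

theorem le_mx_left (a b : ℕ) : (a : ℝ) ≤ (mx a b : ℝ) := by
  unfold mx
  push_cast
  have : (0 : ℝ) ≤ ((b - a : ℕ) : ℝ) := Nat.cast_nonneg _
  linarith

theorem le_mx_right (a b : ℕ) : (b : ℝ) ≤ (mx a b : ℝ) := by
  have h : b ≤ mx a b := by
    unfold mx
    omega
  exact_mod_cast h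

theorem le_sub (a b : ℕ) : (a : ℝ) - b ≤ ((a - b : ℕ) : ℝ) := by
  rcases le_total b a with h | h
  · rw [Nat.cast_sub h]
  · have h1 : (a : ℝ) ≤ b := by exact_mod_cast h
    have h2 : (0 : ℝ) ≤ ((a - b : ℕ) : ℝ) := Nat.cast_nonneg _
    linarith

theorem le_up (n d : ℕ) (hd : 0 < d) : (n : ℝ) / d ≤ ((n / d : ℕ) : ℝ) + 1 := by
  have hd' : (0 : ℝ) < d := by exact_mod_cast hd
  rw [div_le_iff₀ hd']
  have h1 := Nat.div_add_mod n d
  have h2 := Nat.mod_lt n hd
  have h3 : n ≤ (n / d + 1) * d := by nlinarith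
  exact_mod_cast h3

/-- the quadratic polynomials -/
theorem quad (F cm a b : ℕ) (c : ℝ) (hF : 0 < F) (h : (F : ℝ) * |c| ≤ (cm : ℝ)) :
    (F : ℝ) * |a * c ^ 2 - b| ≤ (mx (b * F) (a * cm * cm / F + 1 - b * F) : ℝ) := by
  have hf : (0 : ℝ) < F := by exact_mod_cast hF
  have hu : 0 ≤ |c| := abs_nonneg c
  have hc2 : c ^ 2 = |c| ^ 2 := (sq_abs c).symm
  have ha : (0 : ℝ) ≤ a := Nat.cast_nonneg a
  have hb : (0 : ℝ) ≤ b := Nat.cast_nonneg b
  have h1 : (F : ℝ) * (a * |c| ^ 2) ≤ (a * cm * cm : ℕ) / (F : ℝ) := by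
    rw [le_div_iff₀ hf]
    push_cast
    have h2 : ((F : ℝ) * |c|) * ((F : ℝ) * |c|) ≤ (cm : ℝ) * cm :=
      mul_le_mul h h (by positivity) (Nat.cast_nonneg _)
    have h3 := mul_le_mul_of_nonneg_left h2 ha
    nlinarith [h3]
  have h4 := le_up (a * cm * cm) F hF
  have h5 := le_sub (a * cm * cm / F + 1) (b * F)
  have h6 := le_mx_right (b * F) (a * cm * cm / F + 1 - b * F)
  have h7 := le_mx_left (b * F) (a * cm * cm / F + 1 - b * F)
  push_cast at h5 h7
  have h8 : 0 ≤ (F : ℝ) * (a * |c| ^ 2) := by positivity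
  rw [hc2]
  have key : |(F : ℝ) * (a * |c| ^ 2 - b)| ≤ (mx (b * F) (a * cm * cm / F + 1 - b * F) : ℝ) := by
    rw [abs_le]
    constructor
    · nlinarith
    · nlinarith
  rwa [abs_mul, abs_of_pos hf] at key

theorem cub (F cm : ℕ) (c : ℝ) (hF : 0 < F) (h : (F : ℝ) * |c| ≤ (cm : ℝ)) :
    (F : ℝ) * |32 * c ^ 3 - 16 * c| ≤ (t14 F cm : ℝ) := by
  have hf : (0 : ℝ) < F := by exact_mod_cast hF
  have hab : |32 * c ^ 3 - 16 * c| = abs (32 * |c| ^ 3 - 16 * |c|) := by
    rcases abs_cases c with ⟨h1, _⟩ | ⟨h1, _⟩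
    · rw [h1]
    · rw [h1, ← abs_neg]
      congr 1
      ring
  rw [hab]
  have hu : 0 ≤ |c| := abs_nonneg c
  generalize |c| = u at h hu
  have hl := le_mx_left (5 * F) (32 * cm * cm * cm / (F * F) + 1 - 16 * cm)
  have hr := le_mx_right (5 * F) (32 * cm * cm * cm / (F * F) + 1 - 16 * cm)
  have hs := le_sub (32 * cm * cm * cm / (F * F) + 1) (16 * cm)
  have hq := le_up (32 * cm * cm * cm) (F * F) (Nat.mul_pos hF hF)
  push_cast at hl hs
  have key : |(F : ℝ) * (32 * u ^ 3 - 16 * u)| ≤ (t14 F cm : ℝ) := by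
    unfold t14
    rw [abs_le]
    constructor
    · have h1 : 0 ≤ 32 * u ^ 3 - 16 * u + 5 := by
        have : 0 ≤ 32 * ((u - 41 / 100) ^ 2 * (u + 82 / 100)) := by positivity
        nlinarith
      have h2 := mul_nonneg hf.le h1
      nlinarith
    · by_cases h0 : 32 * u ^ 3 - 16 * u ≤ 0
      · have h2 : (F : ℝ) * (32 * u ^ 3 - 16 * u) ≤ 0 := mul_nonpos_of_nonneg_of_nonpos hf.le h0
        linarith
      · push Not at h0
        have hu0 : 0 < u := by
          rcases hu.lt_or_eq with h1 | h1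
          · exact h1
          · rw [← h1] at h0
            norm_num at h0
        have hu2 : 1 / 2 < u ^ 2 := by
          by_contra hn
          push Not at hn
          have : u * (32 * u ^ 2 - 16) ≤ 0 := mul_nonpos_of_nonneg_of_nonpos hu (by linarith)
          nlinarith
        -- compare with `C = cm / F`
        set C : ℝ := (cm : ℝ) / F with hC
        have huC : u ≤ C := by
          rw [hC, le_div_iff₀ hf]
          linarith
        have hCF : C * F = cm := by
          rw [hC]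
          field_simp
        have hm : 32 * u ^ 3 - 16 * u ≤ 32 * C ^ 3 - 16 * C := by
          have h1 : 0 ≤ (C - u) * (32 * (C ^ 2 + C * u + u ^ 2) - 16) := by
            apply mul_nonneg (by linarith)
            have : 0 ≤ C * u := mul_nonneg (hu.trans huC) hu
            nlinarith [sq_nonneg C]
          nlinarith
        have hv : (F : ℝ) * (32 * C ^ 3 - 16 * C) =
            (32 * cm * cm * cm : ℕ) / ((F * F : ℕ) : ℝ) - 16 * cm := by
          rw [hC]
          push_cast
          field_simp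
        have h2 := mul_le_mul_of_nonneg_left hm hf.le
        linarith
  rwa [abs_mul, abs_of_pos hf] at key

end TBdM

open TBdM

theorem stmtTBd : StmtTBd := by
  intro F cm c hF h
  have q1 := quad F cm 2 1 c hF h
  have q2 := quad F cm 12 3 c hF h
  have q3 := quad F cm 96 16 c hF h
  refine ⟨?_, ?_, cub F cm c hF h, ?_⟩
  · unfold t02
    rw [one_mul] at q1
    exact_mod_cast q1
  · unfold t13
    exact_mod_cast q2
  · unfold t24
    exact_mod_cast q3

end RelEqN.Small.Tri
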