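import Pool.Agent.Lib.MP_b9e19b_mp.Small.Tri.Spec2

set_option autoImplicit false

/-!
# Three-point certificates: value of the pair function at a lattice point
-/

namespace RelEqN.Small.Tri

open Chk

namespace UValM

private theorem le_up (F n d : ℕ) (hd : 0 < d) : (F : ℝ) * ((n : ℝ) / d) ≤ (up F n d : ℝ) := by
  have hd' : (0 : ℝ) < d := by exact_mod_cast hd
  have h1 : F * n < d * (F * n / d + 1) := Nat.lt_mul_div_succ _ hd
  have h2 : ((F : ℝ) * n) < d * ((F * n / d + 1 : ℕ) : ℝ) := by exact_mod_cast h1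
  unfold up
  rw [← mul_div_assoc, div_le_iff₀ hd']
  linarith

private theorem dn_le (F n d : ℕ) (hd : 0 < d) : (dn F n d : ℝ) ≤ (F : ℝ) * ((n : ℝ) / d) := by
  have hd' : (0 : ℝ) < d := by exact_mod_cast hd
  have h1 : F * n / d * d ≤ F * n := Nat.div_mul_le_self _ _
  have h2 : ((F * n / d : ℕ) : ℝ) * d ≤ F * n := by exact_mod_cast h1
  unfold dn
  rw [← mul_div_assoc, le_div_iff₀ hd']
  exact h2

end UValM

open UValM in
theorem stmtUVal : StmtUVal := by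
  intro P p X hP hp hX h0 h1
  have hD : (0 : ℝ) < P.D := by exact_mod_cast hP.D0
  have hQ : (0 : ℝ) < P.Q := by exact_mod_cast hP.Q0
  have hXr : (0 : ℝ) < X := by exact_mod_cast hX
  have hlt : p.a0 < p.a1 := hp.lt
  have hha : (0 : ℝ) < (p.a1 : ℝ) - p.a0 := by
    have : (p.a0 : ℝ) < p.a1 := by exact_mod_cast hlt
    linarith
  have hN3 := hP.N3
  have hn2 : (0 : ℝ) < (P.N : ℝ) - 2 := by
    have : (3 : ℝ) ≤ P.N := by exact_mod_cast hN3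
    linarith
  have c1 : ((p.a1 - p.a0 : ℕ) : ℝ) = (p.a1 : ℝ) - p.a0 := Nat.cast_sub hlt.le
  have c2 : ((p.a1 - X : ℕ) : ℝ) = (p.a1 : ℝ) - X := Nat.cast_sub h1
  have c3 : ((X - p.a0 : ℕ) : ℝ) = (X : ℝ) - p.a0 := Nat.cast_sub h0
  have c4 : ((P.N - 2 : ℕ) : ℝ) = (P.N : ℝ) - 2 := by
    rw [Nat.cast_sub (by omega)]
    norm_num
  have pha : 0 < p.a1 - p.a0 := Nat.sub_pos_of_lt hlt
  have pn2 : 0 < P.N - 2 := by omega
  have pQ := hP.Q0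
  have pD := hP.D0
  have hDX : (P.D : ℝ) * ((X : ℝ) / P.D) = X := by field_simp
  have u1 := le_up P.F (2 * (p.d0 * ((p.a1 - X) * (p.a1 - X)) + 2 * p.d1 * ((X - p.a0) * (p.a1 - X))
      + p.d2 * ((X - p.a0) * (X - p.a0)))) (P.Q * ((p.a1 - p.a0) * (p.a1 - p.a0)) * (P.N - 2))
      (by positivity)
  have u2 := le_up P.F (2 * (P.D * P.D) * affN p.a0 p.a1 p.s0 p.s1 X)
      (P.Q * (p.a1 - p.a0) * (X * X) * (P.N - 2)) (by positivity)
  have u3 := le_up P.F (P.O * X) (P.Q * P.D * (P.N - 2)) (by positivity)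
  have u4 := le_up P.F (20 * ((P.D * P.D * P.D) * (P.D * P.D * P.D)))
      ((X * X * X) * (X * X * X) * (P.N - 2)) (by positivity)
  have u5 := le_up P.F (2 * affN p.a0 p.a1 p.C0 p.C1 X) (P.Q * (p.a1 - p.a0) * (P.N - 2))
      (by positivity)
  have u6 := le_up P.F (2 * (P.D * P.D * P.D) * affN p.a0 p.a1 p.R0 p.R1 X)
      (P.Q * (p.a1 - p.a0) * (X * X * X) * (P.N - 2)) (by positivity)
  have l1 := dn_le P.F (4 * P.O * ((X - p.a0) * (p.a1 - X)))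
      (P.Q * ((p.a1 - p.a0) * (p.a1 - p.a0)) * (P.N - 2)) (by positivity)
  have l2 := dn_le P.F (2 * (P.D * P.D) * P.O) (P.Q * (X * X) * (P.N - 2)) (by positivity)
  have l3 := dn_le P.F (X * affN p.a0 p.a1 p.s0 p.s1 X) (P.Q * (p.a1 - p.a0) * P.D * (P.N - 2))
      (by positivity)
  have l4 := dn_le P.F (2 * (P.D * P.D * P.D) * (6 * P.Q + P.mu)) (P.Q * (X * X * X) * (P.N - 2))
      (by positivity)
  have l5 := dn_le P.F (2 * (P.D * P.D * P.D) * P.O) (P.Q * (X * X * X) * (P.N - 2))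
      (by positivity)
  have e : UR P p ((X : ℝ) / P.D) =
      ((2 * (p.d0 * ((p.a1 - X) * (p.a1 - X)) + 2 * p.d1 * ((X - p.a0) * (p.a1 - X))
      + p.d2 * ((X - p.a0) * (X - p.a0))) : ℕ) : ℝ) / 
        ((P.Q * ((p.a1 - p.a0) * (p.a1 - p.a0)) * (P.N - 2) : ℕ) : ℝ)
      + ((2 * (P.D * P.D) * affN p.a0 p.a1 p.s0 p.s1 X : ℕ) : ℝ) /
        ((P.Q * (p.a1 - p.a0) * (X * X) * (P.N - 2) : ℕ) : ℝ)
      + ((P.O * X : ℕ) : ℝ) / ((P.Q * P.D * (P.N - 2) : ℕ) : ℝ)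
      + ((20 * ((P.D * P.D * P.D) * (P.D * P.D * P.D)) : ℕ) : ℝ) /
        (((X * X * X) * (X * X * X) * (P.N - 2) : ℕ) : ℝ)
      + ((2 * affN p.a0 p.a1 p.C0 p.C1 X : ℕ) : ℝ) / ((P.Q * (p.a1 - p.a0) * (P.N - 2) : ℕ) : ℝ)
      + ((2 * (P.D * P.D * P.D) * affN p.a0 p.a1 p.R0 p.R1 X : ℕ) : ℝ) /
        ((P.Q * (p.a1 - p.a0) * (X * X * X) * (P.N - 2) : ℕ) : ℝ)
      - (((4 * P.O * ((X - p.a0) * (p.a1 - X)) : ℕ) : ℝ) /
        ((P.Q * ((p.a1 - p.a0) * (p.a1 - p.a0)) * (P.N - 2) : ℕ) : ℝ)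
      + ((2 * (P.D * P.D) * P.O : ℕ) : ℝ) / ((P.Q * (X * X) * (P.N - 2) : ℕ) : ℝ)
      + ((X * affN p.a0 p.a1 p.s0 p.s1 X : ℕ) : ℝ) /
        ((P.Q * (p.a1 - p.a0) * P.D * (P.N - 2) : ℕ) : ℝ)
      + ((2 * (P.D * P.D * P.D) * (6 * P.Q + P.mu) : ℕ) : ℝ) /
        ((P.Q * (X * X * X) * (P.N - 2) : ℕ) : ℝ)
      + ((2 * (P.D * P.D * P.D) * P.O : ℕ) : ℝ) / ((P.Q * (X * X * X) * (P.N - 2) : ℕ) : ℝ)) := by
    unfold UR affR affN
    rw [hDX]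
    push_cast
    rw [c1, c2, c3, c4]
    have e1 : (p.a1 : ℝ) - p.a0 = ((p.a1 : ℝ) - X) + ((X : ℝ) - p.a0) := by ring
    rw [e1] at hha ⊢
    generalize (P.N : ℝ) - 2 = n at hn2 ⊢
    generalize (p.a1 : ℝ) - X = b1 at hha ⊢
    generalize (X : ℝ) - p.a0 = b0 at hha ⊢
    have hn := hn2.ne'
    have hh := hha.ne'
    have hq := hQ.ne'
    have hd := hD.ne'
    have hx := hXr.ne'
    field_simp
    ring
  rw [e]
  simp only [UP, UN]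
  push_cast
  push_cast at u1 u2 u3 u4 u5 u6 l1 l2 l3 l4 l5
  linarith

end RelEqN.Small.Tri
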