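import Pool.Agent.Lib.MP_b9e19b_mp.Small.Tri.Spec2

set_option autoImplicit false

/-!
# Three-point certificates: value of the vertex function
-/

namespace RelEqN.Small.Tri.WValM

open Chk

theorem up_ge (F n d : ℕ) (hd : 0 < d) : (F : ℝ) * (n / d) ≤ (up F n d : ℝ) := by
  have hd' : (0 : ℝ) < d := by exact_mod_cast hd
  have h1 : F * n < d * (F * n / d + 1) := Nat.lt_mul_div_succ _ hd
  have h2 : ((F * n : ℕ) : ℝ) < (d * (F * n / d + 1) : ℕ) := by exact_mod_cast h1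
  rw [up, ← mul_div_assoc, div_le_iff₀ hd']
  push_cast at h2 ⊢
  have h3 : (0 : ℝ) ≤ F := Nat.cast_nonneg _
  nlinarith

theorem dn_le (F n d : ℕ) (hd : 0 < d) : (dn F n d : ℝ) ≤ (F : ℝ) * (n / d) := by
  have hd' : (0 : ℝ) < d := by exact_mod_cast hd
  have h1 : (F * n / d) * d ≤ F * n := Nat.div_mul_le_self _ _
  have h2 : (((F * n / d) * d : ℕ) : ℝ) ≤ (F * n : ℕ) := by exact_mod_cast h1
  rw [dn, ← mul_div_assoc, le_div_iff₀ hd']
  push_cast at h2 ⊢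
  linarith

theorem piece (F n m d : ℕ) (hd : 0 < d) (r : ℝ) (h : r = ((n : ℝ) - m) / d) :
    (F : ℝ) * r ≤ (up F n d : ℝ) - dn F m d := by
  have h1 := up_ge F n d hd
  have h2 := dn_le F m d hd
  rw [h, sub_div, mul_sub]
  linarith

theorem affN_cast {a0 a1 X : ℕ} (f0 f1 : ℕ) (h0 : a0 ≤ X) (h1 : X ≤ a1) :
    (affN a0 a1 f0 f1 X : ℝ) = f0 * ((a1 : ℝ) - X) + f1 * ((X : ℝ) - a0) := by
  rw [affN]
  push_cast [Nat.cast_sub h0, Nat.cast_sub h1]
  ring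

theorem bilN_cast {p q : Cel} {X Y : ℕ} (g : Quad) (h0 : p.a0 ≤ X) (h1 : X ≤ p.a1)
    (h2 : q.a0 ≤ Y) (h3 : Y ≤ q.a1) :
    (bilN p q g X Y : ℝ) = (g.g00 * ((p.a1 : ℝ) - X) + g.g10 * ((X : ℝ) - p.a0)) * ((q.a1 : ℝ) - Y)
      + (g.g01 * ((p.a1 : ℝ) - X) + g.g11 * ((X : ℝ) - p.a0)) * ((Y : ℝ) - q.a0) := by
  rw [bilN]
  push_cast [Nat.cast_sub h0, Nat.cast_sub h1, Nat.cast_sub h2, Nat.cast_sub h3]
  ring

theorem affR_eq (P : Par) (p : Cel) (f0 f1 o X : ℕ) (hP : P.Ok) (h0 : p.a0 ≤ X)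
    (h1 : X ≤ p.a1) :
    affR P p f0 f1 o ((X : ℝ) / P.D) =
      ((affN p.a0 p.a1 f0 f1 X : ℝ) - o * ((p.a1 : ℝ) - p.a0)) / (P.Q * ((p.a1 : ℝ) - p.a0)) := by
  have hD : (P.D : ℝ) ≠ 0 := by exact_mod_cast hP.D0.ne'
  rw [affN_cast f0 f1 h0 h1, affR, mul_div_cancel₀ _ hD]
  congr 1
  ring

theorem bilR_eq (P : Par) (p q : Cel) (g : Quad) (X Y : ℕ) (hP : P.Ok) (h0 : p.a0 ≤ X)
    (h1 : X ≤ p.a1) (h2 : q.a0 ≤ Y) (h3 : Y ≤ q.a1) :
    bilR P p q g ((X : ℝ) / P.D) ((Y : ℝ) / P.D) =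
      ((bilN p q g X Y : ℝ) - P.O * (((p.a1 : ℝ) - p.a0) * ((q.a1 : ℝ) - q.a0))) /
        (P.Q * (((p.a1 : ℝ) - p.a0) * ((q.a1 : ℝ) - q.a0))) := by
  have hD : (P.D : ℝ) ≠ 0 := by exact_mod_cast hP.D0.ne'
  rw [bilN_cast g h0 h1 h2 h3, bilR, mul_div_cancel₀ _ hD, mul_div_cancel₀ _ hD]
  congr 1
  ring

theorem kern (B0 B1 B2 B3 B4 o ap an b M : ℝ) (hb : b ≠ 0) (hM : M ≠ 0) (h0 : ap * an = 0) :
    (B0 - o) / M + (B1 - o) / M * ((ap - an) / b) + (B2 - o) / M * (2 * ((ap - an) / b) ^ 2 - 1)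
      + (B3 - o) / M * (4 * ((ap - an) / b) ^ 3 - 3 * ((ap - an) / b))
      + (B4 - o) / M * (8 * ((ap - an) / b) ^ 4 - 8 * ((ap - an) / b) ^ 2 + 1) =
    (((((B0 * b + (B1 * ap + o * an)) * b + (B2 * (2 * ((ap + an) * (ap + an))) + o * (b * b))) * b
      + (B3 * (4 * ((ap + an) * (ap + an)) * ap + 3 * (b * b) * an)
        + o * (4 * ((ap + an) * (ap + an)) * an + 3 * (b * b) * ap))) * b
      + (B4 * (8 * ((ap + an) * (ap + an)) * ((ap + an) * (ap + an)) + (b * b) * (b * b))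
        + o * (8 * ((ap + an) * (ap + an)) * (b * b))))
     - ((((o * b + (B1 * an + o * ap)) * b + (B2 * (b * b) + o * (2 * ((ap + an) * (ap + an))))) * b
      + (B3 * (4 * ((ap + an) * (ap + an)) * an + 3 * (b * b) * ap)
        + o * (4 * ((ap + an) * (ap + an)) * ap + 3 * (b * b) * an))) * b
      + (B4 * (8 * ((ap + an) * (ap + an)) * (b * b))
        + o * (8 * ((ap + an) * (ap + an)) * ((ap + an) * (ap + an)) + (b * b) * (b * b)))))
      / (M * ((b * b) * (b * b))) := by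
  rcases mul_eq_zero.1 h0 with h | h <;> rw [h] <;> field_simp <;> ring

end RelEqN.Small.Tri.WValM

namespace RelEqN.Small.Tri

open Chk WValM

theorem stmtWVal : StmtWVal := by
  intro P p q k X Y Z hP hp hq hX hY hZ h0 h1 h2 h3
  have hD : (P.D : ℝ) ≠ 0 := by exact_mod_cast hP.D0.ne'
  have hQ : (P.Q : ℝ) ≠ 0 := by exact_mod_cast hP.Q0.ne'
  have hX' : (X : ℝ) ≠ 0 := by exact_mod_cast hX.ne'
  have hY' : (Y : ℝ) ≠ 0 := by exact_mod_cast hY.ne'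
  have hha : ((p.a1 - p.a0 : ℕ) : ℝ) = (p.a1 : ℝ) - p.a0 := Nat.cast_sub hp.lt.le
  have hhb : ((q.a1 - q.a0 : ℕ) : ℝ) = (q.a1 : ℝ) - q.a0 := Nat.cast_sub hq.lt.le
  have hha0 : 0 < p.a1 - p.a0 := Nat.sub_pos_of_lt hp.lt
  have hhb0 : 0 < q.a1 - q.a0 := Nat.sub_pos_of_lt hq.lt
  have hha1 : ((p.a1 - p.a0 : ℕ) : ℝ) ≠ 0 := by exact_mod_cast hha0.ne'
  have hhb1 : ((q.a1 - q.a0 : ℕ) : ℝ) ≠ 0 := by exact_mod_cast hhb0.ne'
  have hsub : ((X * X + Y * Y - Z * Z : ℕ) : ℝ) - ((Z * Z - (X * X + Y * Y) : ℕ) : ℝ) =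
      (X : ℝ) ^ 2 + Y ^ 2 - Z ^ 2 := by
    rcases le_total (Z * Z) (X * X + Y * Y) with h | h
    · rw [Nat.sub_eq_zero_of_le h, Nat.cast_sub h]
      push_cast
      ring
    · rw [Nat.sub_eq_zero_of_le h, Nat.cast_sub h]
      push_cast
      ring
  have hmul : ((X * X + Y * Y - Z * Z : ℕ) : ℝ) * ((Z * Z - (X * X + Y * Y) : ℕ) : ℝ) = 0 := by
    rcases le_total (Z * Z) (X * X + Y * Y) with h | h
    · rw [Nat.sub_eq_zero_of_le h]
      simp
    · rw [Nat.sub_eq_zero_of_le h]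
      simp
  have hco : co ((X : ℝ) / P.D) ((Y : ℝ) / P.D) ((Z : ℝ) / P.D) =
      (((X * X + Y * Y - Z * Z : ℕ) : ℝ) - ((Z * Z - (X * X + Y * Y) : ℕ) : ℝ)) /
        (2 * X * Y : ℕ) := by
    rw [hsub, co]
    push_cast
    field_simp
  have hb0 : 0 < 2 * X * Y := by positivity
  simp only [WR, hco, bilR_eq P p q _ X Y hP h0 h1 h2 h3, affR_eq P p _ _ _ X hP h0 h1,
    affR_eq P q _ _ _ Y hP h2 h3, WP, WN, ← hha, ← hhb]
  clear hco hsub
  generalize X * X + Y * Y - Z * Z = ap at *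
  generalize Z * Z - (X * X + Y * Y) = an at *
  generalize p.a1 - p.a0 = ha at *
  generalize q.a1 - q.a0 = hb at *
  generalize bilN p q k.k0 X Y = B0
  generalize bilN p q k.k1 X Y = B1
  generalize bilN p q k.k2 X Y = B2
  generalize bilN p q k.k3 X Y = B3
  generalize bilN p q k.k4 X Y = B4
  generalize affN p.a0 p.a1 p.A0 p.A1 X = Ax
  generalize affN q.a0 q.a1 q.A0 q.A1 Y = Ay
  generalize affN p.a0 p.a1 p.B0 p.B1 X = Bx
  generalize affN q.a0 q.a1 q.B0 q.B1 Y = By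
  generalize affN p.a0 p.a1 p.s0 p.s1 X = Sx
  generalize affN q.a0 q.a1 q.s0 q.s1 Y = Sy
  have ha2 : ((ap : ℝ) + an) * (ap + an) = ((ap : ℝ) - an) ^ 2 := by linear_combination 4 * hmul
  have hP0 := hP.Q0
  generalize 2 * X * Y = b at *
  have hb' : (b : ℝ) ≠ 0 := by exact_mod_cast hb0.ne'
  have p1 := piece P.F
    ((((B0 * b
      + (B1 * ap + P.O * (ha * hb) * an)) * b
      + (B2 * (2 * ((ap + an) * (ap + an))) + P.O * (ha * hb) * (b * b))) * b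
      + (B3 * (4 * ((ap + an) * (ap + an)) * ap + 3 * (b * b) * an)
        + P.O * (ha * hb) * (4 * ((ap + an) * (ap + an)) * an + 3 * (b * b) * ap))) * b
      + (B4 * (8 * ((ap + an) * (ap + an)) * ((ap + an) * (ap + an)) + b * b * (b * b))
        + P.O * (ha * hb) * (8 * ((ap + an) * (ap + an)) * (b * b))))
    ((((P.O * (ha * hb) * b
      + (B1 * an + P.O * (ha * hb) * ap)) * b
      + (B2 * (b * b) + P.O * (ha * hb) * (2 * ((ap + an) * (ap + an))))) * b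
      + (B3 * (4 * ((ap + an) * (ap + an)) * an + 3 * (b * b) * ap)
        + P.O * (ha * hb) * (4 * ((ap + an) * (ap + an)) * ap + 3 * (b * b) * an))) * b
      + (B4 * (8 * ((ap + an) * (ap + an)) * (b * b))
        + P.O * (ha * hb) * (8 * ((ap + an) * (ap + an)) * ((ap + an) * (ap + an))
          + b * b * (b * b))))
    (P.Q * (ha * hb) * (b * b * (b * b))) (by positivity) _
    (by
      push_cast
      exact kern (B0 : ℝ) B1 B2 B3 B4 (P.O * (ha * hb)) ap an b (P.Q * (ha * hb)) hb'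
        (mul_ne_zero hQ (mul_ne_zero hha1 hhb1)) hmul)
  have p2 := piece P.F (P.D * P.D * P.D * (P.D * P.D * P.D) * (18 * ((ap + an) * (ap + an))))
    (P.D * P.D * P.D * (P.D * P.D * P.D) * (8 * (b * b)))
    (X * X * X * (Y * Y * Y) * (b * b)) (by positivity)
    ((18 * (((ap : ℝ) - an) / b) ^ 2 - 8) / (((X : ℝ) / P.D) ^ 3 * ((Y : ℝ) / P.D) ^ 3))
    (by
      push_cast
      rw [ha2]
      field_simp)
  have p3 := piece P.F
    (P.D * P.D * P.D * (Ax * (b * b) + Bx * (b * b) + P.O * ha * (2 * ((ap + an) * (ap + an)))))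
    (P.D * P.D * P.D * (Bx * (2 * ((ap + an) * (ap + an))) + P.O * ha * (b * b)))
    (Y * Y * Y * (b * b) * (P.Q * ha)) (by positivity)
    ((((Ax : ℝ) - (0 : ℕ) * ha) / (P.Q * ha)
      - ((Bx : ℝ) - P.O * ha) / (P.Q * ha) * (2 * (((ap : ℝ) - an) / b) ^ 2 - 1))
        / ((Y : ℝ) / P.D) ^ 3)
    (by
      push_cast
      rw [ha2]
      field_simp
      ring)
  have p4 := piece P.F
    (P.D * P.D * P.D * (Ay * (b * b) + By * (b * b) + P.O * hb * (2 * ((ap + an) * (ap + an)))))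
    (P.D * P.D * P.D * (By * (2 * ((ap + an) * (ap + an))) + P.O * hb * (b * b)))
    (X * X * X * (b * b) * (P.Q * hb)) (by positivity)
    ((((Ay : ℝ) - (0 : ℕ) * hb) / (P.Q * hb)
      - ((By : ℝ) - P.O * hb) / (P.Q * hb) * (2 * (((ap : ℝ) - an) / b) ^ 2 - 1))
        / ((X : ℝ) / P.D) ^ 3)
    (by
      push_cast
      rw [ha2]
      field_simp
      ring)
  have p5 := piece P.F
    (P.D * P.D * (Sx * ap + P.O * ha * an)) (P.D * P.D * (Sx * an + P.O * ha * ap))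
    (Y * Y * b * (P.Q * ha)) (by positivity)
    (((Sx : ℝ) - P.O * ha) / (P.Q * ha) / ((Y : ℝ) / P.D) ^ 2 * (((ap : ℝ) - an) / b))
    (by
      push_cast
      field_simp
      ring)
  have p6 := piece P.F
    (P.D * P.D * (Sy * ap + P.O * hb * an)) (P.D * P.D * (Sy * an + P.O * hb * ap))
    (X * X * b * (P.Q * hb)) (by positivity)
    (((Sy : ℝ) - P.O * hb) / (P.Q * hb) / ((X : ℝ) / P.D) ^ 2 * (((ap : ℝ) - an) / b))
    (by
      push_cast
      field_simp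
      ring)
  simp only [Nat.cast_add]
  nlinarith only [p1, p2, p3, p4, p5, p6]

end RelEqN.Small.Tri
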