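import Pool.Agent.Lib.MP_b9e19b_mp.Small.Tri.Ker
import Pool.Agent.Lib.MP_b9e19b_mp.Small.Tri.Phi
import Pool.Agent.Lib.MP_b9e19b_mp.Small.Tri.PFour
import Pool.Agent.Lib.MP_b9e19b_mp.Small.Tri.PairTest
import Pool.Agent.Lib.MP_b9e19b_mp.Small.Tri.Dist
import Pool.Agent.Lib.MP_b9e19b_mp.Small.Tri.Main
import Pool.Agent.Lib.MP_b9e19b_mp.Small.Tri.Region
import Pool.Agent.Lib.MP_b9e19b_mp.Small.Tri.LCd
import Pool.Agent.Lib.MP_b9e19b_mp.Small.Tri.Chord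
import Pool.Agent.Lib.MP_b9e19b_mp.Small.Tri.WVal
import Pool.Agent.Lib.MP_b9e19b_mp.Small.Tri.UVal
import Pool.Agent.Lib.MP_b9e19b_mp.Small.Tri.CoBd
import Pool.Agent.Lib.MP_b9e19b_mp.Small.Tri.TBd
import Pool.Agent.Lib.MP_b9e19b_mp.Small.Tri.NodeBd
import Pool.Agent.Lib.MP_b9e19b_mp.Small.Tri.KXa
import Pool.Agent.Lib.MP_b9e19b_mp.Small.Tri.KYa
import Pool.Agent.Lib.MP_b9e19b_mp.Small.Tri.KZa
import Pool.Agent.Lib.MP_b9e19b_mp.Small.Tri.KUa
import Pool.Agent.Lib.MP_b9e19b_mp.Small.Tri.Leaf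
import Pool.Agent.Lib.MP_b9e19b_mp.Small.Tri.Skip
import Pool.Agent.Lib.MP_b9e19b_mp.Small.Tri.Go
import Pool.Agent.Lib.MP_b9e19b_mp.Small.Tri.Plf
import Pool.Agent.Lib.MP_b9e19b_mp.Small.Tri.Good
import Pool.Agent.Lib.MP_b9e19b_mp.Small.Tri.MatchU
import Pool.Agent.Lib.MP_b9e19b_mp.Small.Tri.MatchW
import Pool.Agent.Lib.MP_b9e19b_mp.Small.Tri.SymS
import Pool.Agent.Lib.MP_b9e19b_mp.Small.Tri.PsdC
import Pool.Agent.Lib.MP_b9e19b_mp.Small.Tri.Cov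
import Pool.Agent.Lib.MP_b9e19b_mp.Small.Tri.End
import Pool.Agent.Lib.MP_b9e19b_mp.Small.Tri.Pri8
import Pool.Agent.Lib.MP_b9e19b_mp.Small.Tri.Pri9

set_option autoImplicit false

/-!
# Three-point certificates: everything together
-/

namespace RelEqN.Small.Tri

open Chk RelEqN.Small

theorem leafAll : StmtLeaf :=
  stmtLeaf stmtLC stmtBox3 stmtWVal stmtUVal (stmtKX stmtLC stmtCoBd stmtTBd stmtNodeBd)
    (stmtKY stmtLC stmtCoBd stmtTBd stmtNodeBd) (stmtKZ stmtLC stmtCoBd stmtTBd stmtNodeBd)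
    (stmtKU stmtLC stmtCoBd stmtNodeBd)

theorem goAll : StmtGo := stmtGo leafAll stmtSkip

theorem mainAll : StmtMain := stmtMain stmtKer stmtPhi stmtPFour stmtPairTest stmtDist

theorem main0All : StmtMain0 := stmtMain0 stmtKer stmtPhi stmtPFour stmtDist

/-- A checked certificate excludes the configurations in its range. -/
theorem endAll : StmtEnd :=
  stmtEnd stmtGood (stmtMatchU stmtPlf stmtGood) (stmtMatchW stmtPlf stmtGood) stmtSymS
    (stmtPsdC stmtPlf stmtGood) stmtCov goAll mainAll main0All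

theorem pri8All : StmtPri8 := stmtPri8 stmtRegion stmtRange

theorem pri9All : StmtPri9 := stmtPri9 stmtRegion stmtRange

end RelEqN.Small.Tri
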