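import Pool.Agent.Lib.MP_b9e19b_mp.Small.Tri.Chk

set_option autoImplicit false

/-!
# Three-point certificates: the format (natural numbers only)

Knots in units `1/D`; node values of the kernel functions and of the multipliers in units `1/E`,
signed ones with the offset `H`; `Q = E * E`, `O = H * E`.
-/

namespace RelEqN.Small.Tri

open Chk

/-- certificate -/
structure Cert where
  par : Par
  E : Nat
  H : Nat
  ca : Nat
  cb : Nat
  /-- knots -/
  kn : List Nat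
  /-- node values of the kernel functions of degree `0, …, 4` (offset) -/
  v0 : List (List Nat)
  v1 : List (List Nat)
  v2 : List (List Nat)
  v3 : List (List Nat)
  v4 : List (List Nat)
  /-- node values of the multipliers (`psi`, `p1`, `e1` with offset) -/
  psi : List Nat
  p0 : List Nat
  p1 : List Nat
  p2 : List Nat
  e0 : List Nat
  e1 : List Nat
  e2 : List Nat
  /-- derived data used by the checker -/
  cells : List Cel
  kers : List (List Ker)

namespace Cert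

/-- knot -/
def kt (C : Cert) (a : Nat) : Nat := C.kn.getD a 0

/-- data of the `a`-th knot interval -/
def cel (C : Cert) (a : Nat) : Cel :=
  C.cells.getD a ⟨0, 0, 0, 0, 0, 0, 0, 0, 0, 0, 0, 0, 0, 0, 0⟩

/-- data of the product of the `a`-th and the `b`-th knot interval, `a ≤ b` -/
def ker (C : Cert) (a b : Nat) : Ker :=
  (C.kers.getD a []).getD (b - a)
    ⟨⟨0, 0, 0, 0⟩, ⟨0, 0, 0, 0⟩, ⟨0, 0, 0, 0⟩, ⟨0, 0, 0, 0⟩, ⟨0, 0, 0, 0⟩⟩

/-- `∑ (v_a - H) (v_b - H) = sA - sB` -/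
def sA (H : Nat) (vs : List (List Nat)) (a b : Nat) : Nat :=
  (vs.map fun v => v.getD a H * v.getD b H + H * H).sum

def sB (H : Nat) (vs : List (List Nat)) (a b : Nat) : Nat :=
  (vs.map fun v => H * (v.getD a H + v.getD b H)).sum

/-- `g - O = 2 ∑ (v_a - H) (v_b - H)` -/
def okG (C : Cert) (vs : List (List Nat)) (g a b : Nat) : Bool :=
  Nat.beq (g + 2 * sB C.H vs a b) (2 * sA C.H vs a b + C.par.O)

def okQ (C : Cert) (vs : List (List Nat)) (g : Quad) (a b : Nat) : Bool :=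
  okG C vs g.g00 a b && okG C vs g.g10 (a + 1) b && okG C vs g.g01 a (b + 1)
    && okG C vs g.g11 (a + 1) (b + 1)

def okKer (C : Cert) (k : Ker) (a b : Nat) : Bool :=
  okQ C C.v0 k.k0 a b && okQ C C.v1 k.k1 a b && okQ C C.v2 k.k2 a b && okQ C C.v3 k.k3 a b
    && okQ C C.v4 k.k4 a b

/-- one node: `s`, `A`, `B`, `C`, `R` -/
def okN (C : Cert) (s A B c R a : Nat) : Bool :=
  Nat.beq s (C.psi.getD a C.H * C.E)
    && Nat.beq (2 * A) ((C.p0.getD a 0 + C.p2.getD a 0 + C.e0.getD a 0 + C.e2.getD a 0) * C.E)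
    && Nat.beq (B + 5 * C.par.O) (3 * (C.p1.getD a C.H + C.e1.getD a C.H) * C.E)
    && Nat.beq c (C.ca * (C.p0.getD a 0 + C.e0.getD a 0) + C.cb * (C.p2.getD a 0 + C.e2.getD a 0))
    && Nat.beq (R + 6 * C.p1.getD a C.H * C.E)
        ((C.p0.getD a 0 + C.p2.getD a 0) * C.E + 7 * C.par.O)

def okCel (C : Cert) (p : Cel) (a : Nat) : Bool :=
  Nat.beq p.a0 (C.kt a) && Nat.beq p.a1 (C.kt (a + 1)) && Nat.blt 0 p.a0 && Nat.blt p.a0 p.a1
    && okN C p.s0 p.A0 p.B0 p.C0 p.R0 a && okN C p.s1 p.A1 p.B1 p.C1 p.R1 (a + 1)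
    && Nat.beq (p.d0 + sB C.H (C.v0 ++ C.v1 ++ C.v2 ++ C.v3 ++ C.v4) a a)
        (sA C.H (C.v0 ++ C.v1 ++ C.v2 ++ C.v3 ++ C.v4) a a)
    && Nat.beq (p.d1 + sB C.H (C.v0 ++ C.v1 ++ C.v2 ++ C.v3 ++ C.v4) a (a + 1))
        (sA C.H (C.v0 ++ C.v1 ++ C.v2 ++ C.v3 ++ C.v4) a (a + 1) + C.par.O)
    && Nat.beq (p.d2 + sB C.H (C.v0 ++ C.v1 ++ C.v2 ++ C.v3 ++ C.v4) (a + 1) (a + 1))
        (sA C.H (C.v0 ++ C.v1 ++ C.v2 ++ C.v3 ++ C.v4) (a + 1) (a + 1))
    && Nat.ble (2 * p.d1) (p.d0 + p.d2 + 2 * C.par.O)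

/-- positivity of the multiplier matrices at a node -/
def okP (C : Cert) (a : Nat) : Bool :=
  Nat.ble (ad (C.p1.getD a C.H) C.H * ad (C.p1.getD a C.H) C.H)
      (C.p0.getD a 0 * C.p2.getD a 0)
    && Nat.ble (ad (C.e1.getD a C.H) C.H * ad (C.e1.getD a C.H) C.H)
      (C.e0.getD a 0 * C.e2.getD a 0)

/-- the certificate is well formed -/
def good (C : Cert) : Bool :=
  Nat.ble 3 C.par.N && Nat.blt 0 C.par.D && Nat.blt 0 C.E && Nat.beq C.par.Q (C.E * C.E)
    && Nat.blt 0 C.par.F && Nat.blt 0 C.par.kd && Nat.beq C.par.O (C.H * C.E)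
    && Nat.ble 2 C.kn.length
    && (List.range (C.kn.length - 1)).all (fun a => okCel C (C.cel a) a)
    && (List.range (C.kn.length - 1)).all (fun a =>
        (List.range (C.kn.length - 1 - a)).all (fun b => okKer C (C.ker a (a + b)) a (a + b)))
    && (List.range C.kn.length).all (fun a => okP C a)

/-- all multipliers of the pair tests vanish -/
def zero (C : Cert) : Bool :=
  C.p0.all (Nat.beq 0) && C.p2.all (Nat.beq 0) && C.e0.all (Nat.beq 0) && C.e2.all (Nat.beq 0)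
    && C.p1.all (Nat.beq C.H) && C.e1.all (Nat.beq C.H)

/-- check of a knot cell; the matches force the evaluation of the data -/
def tri (C : Cert) (a b c : Nat) : Bool :=
  match C.cel a, C.cel b, C.cel c, C.ker a b, C.ker b c, C.ker a c with
  | ⟨x0, x1, x2, x3, x4, x5, x6, x7, x8, x9, x10, x11, x12, x13, x14⟩,
    ⟨y0, y1, y2, y3, y4, y5, y6, y7, y8, y9, y10, y11, y12, y13, y14⟩,
    ⟨z0, z1, z2, z3, z4, z5, z6, z7, z8, z9, z10, z11, z12, z13, z14⟩,
    ⟨k0, k1, k2, k3, k4⟩, ⟨l0, l1, l2, l3, l4⟩, ⟨m0, m1, m2, m3, m4⟩ =>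
    cell C.par ⟨x0, x1, x2, x3, x4, x5, x6, x7, x8, x9, x10, x11, x12, x13, x14⟩
      ⟨y0, y1, y2, y3, y4, y5, y6, y7, y8, y9, y10, y11, y12, y13, y14⟩
      ⟨z0, z1, z2, z3, z4, z5, z6, z7, z8, z9, z10, z11, z12, z13, z14⟩
      ⟨k0, k1, k2, k3, k4⟩ ⟨l0, l1, l2, l3, l4⟩ ⟨m0, m1, m2, m3, m4⟩

/-- check of a list of knot cells -/
def runL (C : Cert) (l : List (Nat × Nat × Nat)) : Bool :=
  l.all fun t => C.tri t.1 t.2.1 t.2.2

/-- every knot cell `a ≤ b ≤ c` is in the list -/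
def cov (C : Cert) (l : List (Nat × Nat × Nat)) : Bool :=
  (List.range (C.kn.length - 1)).all fun a =>
    (List.range (C.kn.length - 1 - a)).all fun b =>
      (List.range (C.kn.length - 1 - (a + b))).all fun c =>
        l.any fun t => Nat.beq t.1 a && Nat.beq t.2.1 (a + b) && Nat.beq t.2.2 (a + b + c)

end Cert

end RelEqN.Small.Tri
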