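set_option autoImplicit false

/-!
# Three-point certificates: the kernel checker (natural numbers only)

Units: lengths `1/D`; node values `1/Q`, signed node values are stored with the offset `O`
(`value = (n - O)/Q`); bounds and function values are in units `1/F`.
-/

namespace RelEqN.Small.Tri.Chk

/-- constants -/
structure Par where
  /-- number of bodies -/
  N : Nat
  /-- upper bound of `T` -/
  Tb : Nat
  D : Nat
  Q : Nat
  F : Nat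
  O : Nat
  /-- `μ Q` -/
  mu : Nat
  /-- `κ = kn / kd` -/
  kn : Nat
  kd : Nat
  /-- upper bound of `F * G0`, where `G0 = Tb/2 - (N(N-1)/2 - 3) t` -/
  G0 : Nat

/-- data of one knot interval: end points, node values of `ψ` (offset), `A`, `B` (offset),
`C`, `R` (offset), diagonal node values of the sum of the kernels (`d1` with offset) -/
structure Cel where
  a0 : Nat
  a1 : Nat
  s0 : Nat
  s1 : Nat
  A0 : Nat
  A1 : Nat
  B0 : Nat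
  B1 : Nat
  C0 : Nat
  C1 : Nat
  R0 : Nat
  R1 : Nat
  d0 : Nat
  d1 : Nat
  d2 : Nat

/-- node values of the doubled kernels (offset) at the four pairs of knots -/
structure Quad where
  g00 : Nat
  g10 : Nat
  g01 : Nat
  g11 : Nat

/-- the doubled kernels of degree `0, …, 4` on a product of two knot intervals -/
structure Ker where
  k0 : Quad
  k1 : Quad
  k2 : Quad
  k3 : Quad
  k4 : Quad

/-- numerator of an affine interpolation -/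
def affN (a0 a1 f0 f1 X : Nat) : Nat := f0 * (a1 - X) + f1 * (X - a0)

/-- numerator of a bilinear interpolation -/
def bilN (p q : Cel) (g : Quad) (X Y : Nat) : Nat :=
  (g.g00 * (p.a1 - X) + g.g10 * (X - p.a0)) * (q.a1 - Y)
    + (g.g01 * (p.a1 - X) + g.g11 * (X - p.a0)) * (Y - q.a0)

/-- upper rounding -/
def up (F n d : Nat) : Nat := F * n / d + 1

/-- lower rounding -/
def dn (F n d : Nat) : Nat := F * n / d

/-- positive part of the vertex value: `a = ap - an = X² + Y² - Z²`, `b = 2XY` -/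
def WP (P : Par) (p q : Cel) (k : Ker) (X Y Z : Nat) : Nat :=
  let ap := X * X + Y * Y - Z * Z
  let an := Z * Z - (X * X + Y * Y)
  let a2 := (ap + an) * (ap + an)
  let b := 2 * X * Y
  let b2 := b * b
  let ha := p.a1 - p.a0
  let hb := q.a1 - q.a0
  let o := P.O * (ha * hb)
  let x3 := X * X * X
  let y3 := Y * Y * Y
  let D2 := P.D * P.D
  let D3 := D2 * P.D
  let Ax := affN p.a0 p.a1 p.A0 p.A1 X
  let Ay := affN q.a0 q.a1 q.A0 q.A1 Y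
  let Bx := affN p.a0 p.a1 p.B0 p.B1 X
  let By := affN q.a0 q.a1 q.B0 q.B1 Y
  let Sx := affN p.a0 p.a1 p.s0 p.s1 X
  let Sy := affN q.a0 q.a1 q.s0 q.s1 Y
  up P.F
    ((((bilN p q k.k0 X Y * b
      + (bilN p q k.k1 X Y * ap + o * an)) * b
      + (bilN p q k.k2 X Y * (2 * a2) + o * b2)) * b
      + (bilN p q k.k3 X Y * (4 * a2 * ap + 3 * b2 * an) + o * (4 * a2 * an + 3 * b2 * ap))) * b
      + (bilN p q k.k4 X Y * (8 * a2 * a2 + b2 * b2) + o * (8 * a2 * b2)))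
    (P.Q * (ha * hb) * (b2 * b2))
  + up P.F (D3 * D3 * (18 * a2)) (x3 * y3 * b2)
  + up P.F (D3 * (Ax * b2 + Bx * b2 + P.O * ha * (2 * a2))) (y3 * b2 * (P.Q * ha))
  + up P.F (D3 * (Ay * b2 + By * b2 + P.O * hb * (2 * a2))) (x3 * b2 * (P.Q * hb))
  + up P.F (D2 * (Sx * ap + P.O * ha * an)) (Y * Y * b * (P.Q * ha))
  + up P.F (D2 * (Sy * ap + P.O * hb * an)) (X * X * b * (P.Q * hb))

/-- negative part of the vertex value -/
def WN (P : Par) (p q : Cel) (k : Ker) (X Y Z : Nat) : Nat :=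
  let ap := X * X + Y * Y - Z * Z
  let an := Z * Z - (X * X + Y * Y)
  let a2 := (ap + an) * (ap + an)
  let b := 2 * X * Y
  let b2 := b * b
  let ha := p.a1 - p.a0
  let hb := q.a1 - q.a0
  let o := P.O * (ha * hb)
  let x3 := X * X * X
  let y3 := Y * Y * Y
  let D2 := P.D * P.D
  let D3 := D2 * P.D
  let Bx := affN p.a0 p.a1 p.B0 p.B1 X
  let By := affN q.a0 q.a1 q.B0 q.B1 Y
  let Sx := affN p.a0 p.a1 p.s0 p.s1 X
  let Sy := affN q.a0 q.a1 q.s0 q.s1 Y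
  dn P.F
    ((((o * b
      + (bilN p q k.k1 X Y * an + o * ap)) * b
      + (bilN p q k.k2 X Y * b2 + o * (2 * a2))) * b
      + (bilN p q k.k3 X Y * (4 * a2 * an + 3 * b2 * ap) + o * (4 * a2 * ap + 3 * b2 * an))) * b
      + (bilN p q k.k4 X Y * (8 * a2 * b2) + o * (8 * a2 * a2 + b2 * b2)))
    (P.Q * (ha * hb) * (b2 * b2))
  + dn P.F (D3 * D3 * (8 * b2)) (x3 * y3 * b2)
  + dn P.F (D3 * (Bx * (2 * a2) + P.O * ha * b2)) (y3 * b2 * (P.Q * ha))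
  + dn P.F (D3 * (By * (2 * a2) + P.O * hb * b2)) (x3 * b2 * (P.Q * hb))
  + dn P.F (D2 * (Sx * an + P.O * ha * ap)) (Y * Y * b * (P.Q * ha))
  + dn P.F (D2 * (Sy * an + P.O * hb * ap)) (X * X * b * (P.Q * hb))

/-- positive part of `2/(N-2) U` -/
def UP (P : Par) (p : Cel) (X : Nat) : Nat :=
  let ha := p.a1 - p.a0
  let D2 := P.D * P.D
  let D3 := D2 * P.D
  let x3 := X * X * X
  let n2 := P.N - 2
  up P.F (2 * (p.d0 * ((p.a1 - X) * (p.a1 - X)) + 2 * p.d1 * ((X - p.a0) * (p.a1 - X))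
      + p.d2 * ((X - p.a0) * (X - p.a0)))) (P.Q * (ha * ha) * n2)
  + up P.F (2 * D2 * affN p.a0 p.a1 p.s0 p.s1 X) (P.Q * ha * (X * X) * n2)
  + up P.F (P.O * X) (P.Q * P.D * n2)
  + up P.F (20 * (D3 * D3)) (x3 * x3 * n2)
  + up P.F (2 * affN p.a0 p.a1 p.C0 p.C1 X) (P.Q * ha * n2)
  + up P.F (2 * D3 * affN p.a0 p.a1 p.R0 p.R1 X) (P.Q * ha * x3 * n2)

/-- negative part of `2/(N-2) U` -/
def UN (P : Par) (p : Cel) (X : Nat) : Nat :=
  let ha := p.a1 - p.a0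
  let D2 := P.D * P.D
  let D3 := D2 * P.D
  let x3 := X * X * X
  let n2 := P.N - 2
  dn P.F (4 * P.O * ((X - p.a0) * (p.a1 - X))) (P.Q * (ha * ha) * n2)
  + dn P.F (2 * D2 * P.O) (P.Q * (X * X) * n2)
  + dn P.F (X * affN p.a0 p.a1 p.s0 p.s1 X) (P.Q * ha * P.D * n2)
  + dn P.F (2 * D3 * (6 * P.Q + P.mu)) (P.Q * x3 * n2)
  + dn P.F (2 * D3 * P.O) (P.Q * x3 * n2)

/-- absolute difference -/
def ad (a b : Nat) : Nat := (a - b) + (b - a)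

/-- maximum -/
def mx (a b : Nat) : Nat := a + (b - a)

/-! ### Basic upper bounds on a box, in units `1/F` -/

/-- bound of `x^(-k)`, `x ≥ X0/D` -/
def ipw (P : Par) (k X0 : Nat) : Nat := P.F * P.D ^ k / X0 ^ k + 1

/-- bound of `|co x y z|` -/
def cmN (P : Par) (X0 X1 Y0 Y1 Z0 Z1 : Nat) : Nat :=
  up P.F (mx (X1 * X1 + Y1 * Y1 - Z0 * Z0) (Z1 * Z1 - (X0 * X0 + Y0 * Y0))) (2 * X0 * Y0)

/-- bound of `|(x² - y² + z²)/(2x²y)|`, the absolute value of the derivative of `co` in `x` -/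
def gaN (P : Par) (X0 X1 Y0 Y1 Z0 Z1 : Nat) : Nat :=
  up (P.F * P.D) (mx (X1 * X1 + Z1 * Z1 - Y0 * Y0) (Y1 * Y1 - (X0 * X0 + Z0 * Z0)))
    (2 * (X0 * X0) * Y0)

/-- bound of `|(y² - z²)/(x³y)|`, the second derivative of `co` in `x` -/
def haN (P : Par) (X0 Y0 Y1 Z0 Z1 : Nat) : Nat :=
  up (P.F * P.D * P.D) (mx (Z1 * Z1 - Y0 * Y0) (Y1 * Y1 - Z0 * Z0)) (X0 * X0 * X0 * Y0)

/-- bound of `z/(xy)` -/
def gzN (P : Par) (X0 Y0 Z1 : Nat) : Nat := up (P.F * P.D) Z1 (X0 * Y0)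

/-- bound of `1/(xy)` -/
def hzN (P : Par) (X0 Y0 : Nat) : Nat := up (P.F * P.D * P.D) 1 (X0 * Y0)

/-- bound of `|2c² - 1|` for `|c| ≤ cm/F` -/
def t02 (F cm : Nat) : Nat := mx F (2 * cm * cm / F + 1 - F)

/-- bound of `|12c² - 3|` -/
def t13 (F cm : Nat) : Nat := mx (3 * F) (12 * cm * cm / F + 1 - 3 * F)

/-- bound of `|32c³ - 16c|` -/
def t14 (F cm : Nat) : Nat := mx (5 * F) (32 * cm * cm * cm / (F * F) + 1 - 16 * cm)

/-- bound of `|96c² - 16|` -/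
def t24 (F cm : Nat) : Nat := mx (16 * F) (96 * cm * cm / F + 1 - 16 * F)

/-- bound of the absolute value of a doubled kernel on a rectangle -/
def sm (P : Par) (p q : Cel) (g : Quad) (X0 X1 Y0 Y1 : Nat) : Nat :=
  let o := P.O * ((p.a1 - p.a0) * (q.a1 - q.a0))
  up P.F (mx (mx (ad (bilN p q g X0 Y0) o) (ad (bilN p q g X1 Y0) o))
      (mx (ad (bilN p q g X0 Y1) o) (ad (bilN p q g X1 Y1) o)))
    (P.Q * ((p.a1 - p.a0) * (q.a1 - q.a0)))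

/-- bound of the derivative in the first variable -/
def sx (P : Par) (p q : Cel) (g : Quad) (Y0 Y1 : Nat) : Nat :=
  up (P.F * P.D) (mx
      (ad (g.g10 * (q.a1 - Y0) + g.g11 * (Y0 - q.a0)) (g.g00 * (q.a1 - Y0) + g.g01 * (Y0 - q.a0)))
      (ad (g.g10 * (q.a1 - Y1) + g.g11 * (Y1 - q.a0)) (g.g00 * (q.a1 - Y1) + g.g01 * (Y1 - q.a0))))
    (P.Q * ((p.a1 - p.a0) * (q.a1 - q.a0)))

/-- bound of the derivative in the second variable -/
def sy (P : Par) (p q : Cel) (g : Quad) (X0 X1 : Nat) : Nat :=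
  up (P.F * P.D) (mx
      (ad (g.g01 * (p.a1 - X0) + g.g11 * (X0 - p.a0)) (g.g00 * (p.a1 - X0) + g.g10 * (X0 - p.a0)))
      (ad (g.g01 * (p.a1 - X1) + g.g11 * (X1 - p.a0)) (g.g00 * (p.a1 - X1) + g.g10 * (X1 - p.a0))))
    (P.Q * ((p.a1 - p.a0) * (q.a1 - q.a0)))

/-- bound of the absolute value of an affine function with nodes `f0, f1` and offset `o` -/
def fa (P : Par) (p : Cel) (f0 f1 o X0 X1 : Nat) : Nat :=
  up P.F (mx (ad (affN p.a0 p.a1 f0 f1 X0) (o * (p.a1 - p.a0)))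
    (ad (affN p.a0 p.a1 f0 f1 X1) (o * (p.a1 - p.a0)))) (P.Q * (p.a1 - p.a0))

/-- bound of its negative part -/
def fneg (P : Par) (p : Cel) (f0 f1 o X0 X1 : Nat) : Nat :=
  up P.F (mx (o * (p.a1 - p.a0) - affN p.a0 p.a1 f0 f1 X0)
    (o * (p.a1 - p.a0) - affN p.a0 p.a1 f0 f1 X1)) (P.Q * (p.a1 - p.a0))

/-- bound of the absolute value of its slope -/
def fs (P : Par) (p : Cel) (f0 f1 : Nat) : Nat :=
  up (P.F * P.D) (ad f0 f1) (P.Q * (p.a1 - p.a0))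

/-- the polynomial formula for the second-derivative bound in an adjacent side, units `1/F⁴` -/
def kadj (F cm g h m1 m2 m3 m4 d1 d2 d3 d4 x2 x3 x4 x5 y2 y3 Ay Bx By Bs Sx Sy Ss : Nat) : Nat :=
  let t1 := 4 * cm
  let qx := 4 * g * g + t1 * h
  (m1 * F * F * h + m2 * F * qx
      + m3 * (24 * cm * g * g + F * t13 F cm * h) + m4 * (t24 F cm * g * g + F * t14 F cm * h))
    + 2 * g * F * (d1 * F + d2 * t1 + d3 * t13 F cm + d4 * t14 F cm)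
    + y3 * (12 * x5 * F * (F + 9 * t02 F cm) + 54 * x4 * t1 * g + 9 * x3 * qx)
    + y3 * (2 * Bs * t1 * g + Bx * qx) + 12 * Ay * x5 * F * F
    + By * (12 * x5 * t02 F cm * F + 6 * x4 * t1 * g + x3 * qx)
    + y2 * F * (2 * Ss * g + Sx * h) + Sy * F * (6 * x4 * cm + 4 * x3 * g + x2 * h)

/-- the polynomial formula for the second-derivative bound in the opposite side, units `1/F⁴` -/
def kopp (F cm g h m1 m2 m3 m4 x2 x3 y2 y3 Bx By Sx Sy : Nat) : Nat :=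
  let q := 4 * g * g + 4 * cm * h
  (m1 * F * F * h + m2 * F * q
      + m3 * (24 * cm * g * g + F * t13 F cm * h) + m4 * (t24 F cm * g * g + F * t14 F cm * h))
    + 9 * x3 * y3 * q + (y3 * Bx + x3 * By) * q + (Sx * y2 + Sy * x2) * F * h

/-- second-derivative bound of the vertex function in `x` -/
def KX (P : Par) (p q : Cel) (k : Ker) (X0 X1 Y0 Y1 Z0 Z1 : Nat) : Nat :=
  kadj P.F (cmN P X0 X1 Y0 Y1 Z0 Z1) (gaN P X0 X1 Y0 Y1 Z0 Z1) (haN P X0 Y0 Y1 Z0 Z1)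
    (sm P p q k.k1 X0 X1 Y0 Y1) (sm P p q k.k2 X0 X1 Y0 Y1)
    (sm P p q k.k3 X0 X1 Y0 Y1) (sm P p q k.k4 X0 X1 Y0 Y1)
    (sx P p q k.k1 Y0 Y1) (sx P p q k.k2 Y0 Y1) (sx P p q k.k3 Y0 Y1) (sx P p q k.k4 Y0 Y1)
    (ipw P 2 X0) (ipw P 3 X0) (ipw P 4 X0) (ipw P 5 X0) (ipw P 2 Y0) (ipw P 3 Y0)
    (fa P q q.A0 q.A1 0 Y0 Y1) (fa P p p.B0 p.B1 P.O X0 X1) (fa P q q.B0 q.B1 P.O Y0 Y1)
    (fs P p p.B0 p.B1) (fa P p p.s0 p.s1 P.O X0 X1) (fa P q q.s0 q.s1 P.O Y0 Y1)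
    (fs P p p.s0 p.s1)

/-- second-derivative bound of the vertex function in `y` -/
def KY (P : Par) (p q : Cel) (k : Ker) (X0 X1 Y0 Y1 Z0 Z1 : Nat) : Nat :=
  kadj P.F (cmN P X0 X1 Y0 Y1 Z0 Z1) (gaN P Y0 Y1 X0 X1 Z0 Z1) (haN P Y0 X0 X1 Z0 Z1)
    (sm P p q k.k1 X0 X1 Y0 Y1) (sm P p q k.k2 X0 X1 Y0 Y1)
    (sm P p q k.k3 X0 X1 Y0 Y1) (sm P p q k.k4 X0 X1 Y0 Y1)
    (sy P p q k.k1 X0 X1) (sy P p q k.k2 X0 X1) (sy P p q k.k3 X0 X1) (sy P p q k.k4 X0 X1)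
    (ipw P 2 Y0) (ipw P 3 Y0) (ipw P 4 Y0) (ipw P 5 Y0) (ipw P 2 X0) (ipw P 3 X0)
    (fa P p p.A0 p.A1 0 X0 X1) (fa P q q.B0 q.B1 P.O Y0 Y1) (fa P p p.B0 p.B1 P.O X0 X1)
    (fs P q q.B0 q.B1) (fa P q q.s0 q.s1 P.O Y0 Y1) (fa P p p.s0 p.s1 P.O X0 X1)
    (fs P q q.s0 q.s1)

/-- second-derivative bound of the vertex function in `z` -/
def KZ (P : Par) (p q : Cel) (k : Ker) (X0 X1 Y0 Y1 Z0 Z1 : Nat) : Nat :=
  kopp P.F (cmN P X0 X1 Y0 Y1 Z0 Z1) (gzN P X0 Y0 Z1) (hzN P X0 Y0)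
    (sm P p q k.k1 X0 X1 Y0 Y1) (sm P p q k.k2 X0 X1 Y0 Y1)
    (sm P p q k.k3 X0 X1 Y0 Y1) (sm P p q k.k4 X0 X1 Y0 Y1)
    (ipw P 2 X0) (ipw P 3 X0) (ipw P 2 Y0) (ipw P 3 Y0)
    (fa P p p.B0 p.B1 P.O X0 X1) (fa P q q.B0 q.B1 P.O Y0 Y1)
    (fa P p p.s0 p.s1 P.O X0 X1) (fa P q q.s0 q.s1 P.O Y0 Y1)

/-- upper bound of `-(2/(N-2) U)''` on an interval, in units `1/F⁴` -/
def KU (P : Par) (p : Cel) (X0 X1 : Nat) : Nat :=
  2 * (6 * fneg P p p.s0 p.s1 P.O X0 X1 * ipw P 4 X0 + 4 * fs P p p.s0 p.s1 * ipw P 3 X0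
      + fs P p p.s0 p.s1 * P.F
      + up (P.F * P.D ^ 5) (12 * (6 * P.Q + P.mu)) (P.Q * X0 ^ 5) * P.F
      + 6 * fs P p p.R0 p.R1 * ipw P 4 X0 + 12 * fneg P p p.R0 p.R1 P.O X0 X1 * ipw P 5 X0
      - 420 * P.F * P.D ^ 8 / X1 ^ 8 * P.F)
    * (P.F * P.F) / (P.N - 2) + 1

/-- positive part of the value of the triangle function at `(X, Y, Z)` -/
def SP (P : Par) (p q r : Cel) (k l m : Ker) (X Y Z : Nat) : Nat :=
  UP P p X + UP P q Y + UP P r Z + WP P p q k X Y Z + WP P q r l Y Z X + WP P p r m X Z Y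

/-- negative part of the value of the triangle function at `(X, Y, Z)` -/
def SN (P : Par) (p q r : Cel) (k l m : Ker) (X Y Z : Nat) : Nat :=
  UN P p X + UN P q Y + UN P r Z + WN P p q k X Y Z + WN P q r l Y Z X + WN P p r m X Z Y

/-- the constant of the triangle function -/
def CP (P : Par) : Nat :=
  up P.F (6 * ((2 * P.N - 3) * P.Q + P.mu * P.Tb)) (P.Q * (P.N * (P.N - 1) * (P.N - 2)))

/-- error term of the first direction, in units `1/F` -/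
def e1 (P : Par) (p q r : Cel) (k l m : Ker) (X0 X1 Y0 Y1 Z0 Z1 : Nat) : Nat :=
  (KX P p q k X0 X1 Y0 Y1 Z0 Z1 + KZ P q r l Y0 Y1 Z0 Z1 X0 X1 + KX P p r m X0 X1 Z0 Z1 Y0 Y1
    + KU P p X0 X1) * ((X1 - X0) * (X1 - X0)) / (8 * (P.D * P.D) * (P.F * P.F * P.F)) + 1

/-- error term of the second direction -/
def e2 (P : Par) (p q r : Cel) (k l m : Ker) (X0 X1 Y0 Y1 Z0 Z1 : Nat) : Nat :=
  (KY P p q k X0 X1 Y0 Y1 Z0 Z1 + KX P q r l Y0 Y1 Z0 Z1 X0 X1 + KZ P p r m X0 X1 Z0 Z1 Y0 Y1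
    + KU P q Y0 Y1) * ((Y1 - Y0) * (Y1 - Y0)) / (8 * (P.D * P.D) * (P.F * P.F * P.F)) + 1

/-- error term of the third direction -/
def e3 (P : Par) (p q r : Cel) (k l m : Ker) (X0 X1 Y0 Y1 Z0 Z1 : Nat) : Nat :=
  (KZ P p q k X0 X1 Y0 Y1 Z0 Z1 + KY P q r l Y0 Y1 Z0 Z1 X0 X1 + KY P p r m X0 X1 Z0 Z1 Y0 Y1
    + KU P r Z0 Z1) * ((Z1 - Z0) * (Z1 - Z0)) / (8 * (P.D * P.D) * (P.F * P.F * P.F)) + 1

/-- the corner test -/
def corner (P : Par) (p q r : Cel) (k l m : Ker) (e X Y Z : Nat) : Bool :=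
  Nat.ble (CP P + SP P p q r k l m X Y Z + e + 1) (SN P p q r k l m X Y Z)

/-- the eight corners -/
def corners (P : Par) (p q r : Cel) (k l m : Ker) (e X0 X1 Y0 Y1 Z0 Z1 : Nat) : Bool :=
  corner P p q r k l m e X0 Y0 Z0 && corner P p q r k l m e X1 Y0 Z0 &&
  corner P p q r k l m e X0 Y1 Z0 && corner P p q r k l m e X1 Y1 Z0 &&
  corner P p q r k l m e X0 Y0 Z1 && corner P p q r k l m e X1 Y0 Z1 &&
  corner P p q r k l m e X0 Y1 Z1 && corner P p q r k l m e X1 Y1 Z1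

/-- positive and negative part of a lower bound of `g(r) = 1/r³ - κ/r + κ r²/N` -/
def gP (P : Par) (X0 X1 : Nat) : Nat :=
  P.F * P.D ^ 3 / X1 ^ 3 + dn P.F (P.kn * (X0 * X0)) (P.kd * P.N * (P.D * P.D))

def gN (P : Par) (X0 : Nat) : Nat := up P.F (P.kn * P.D) (P.kd * X0)

/-- the box contains no admissible triangle -/
def skip (P : Par) (X0 X1 Y0 Y1 Z0 Z1 : Nat) : Bool :=
  Nat.blt (X1 + Y1) Z0 || Nat.blt Y1 X0 || Nat.blt Z1 Y0 ||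
  Nat.blt (P.G0 + gN P X0 + gN P Y0 + gN P Z0) (gP P X0 X1 + gP P Y0 Y1 + gP P Z0 Z1)

/-- adaptive bisection -/
def go (P : Par) (p q r : Cel) (k l m : Ker) : Nat → Nat → Nat → Nat → Nat → Nat → Nat → Bool
  | 0, _, _, _, _, _, _ => false
  | n + 1, X0, X1, Y0, Y1, Z0, Z1 =>
    if skip P X0 X1 Y0 Y1 Z0 Z1 then true else
    if corners P p q r k l m (e1 P p q r k l m X0 X1 Y0 Y1 Z0 Z1
      + e2 P p q r k l m X0 X1 Y0 Y1 Z0 Z1 + e3 P p q r k l m X0 X1 Y0 Y1 Z0 Z1)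
      X0 X1 Y0 Y1 Z0 Z1 then true else
    if Nat.ble (e2 P p q r k l m X0 X1 Y0 Y1 Z0 Z1) (e1 P p q r k l m X0 X1 Y0 Y1 Z0 Z1) &&
      Nat.ble (e3 P p q r k l m X0 X1 Y0 Y1 Z0 Z1) (e1 P p q r k l m X0 X1 Y0 Y1 Z0 Z1) then
      go P p q r k l m n X0 ((X0 + X1) / 2) Y0 Y1 Z0 Z1 &&
      go P p q r k l m n ((X0 + X1) / 2) X1 Y0 Y1 Z0 Z1
    else if Nat.ble (e3 P p q r k l m X0 X1 Y0 Y1 Z0 Z1)
        (e2 P p q r k l m X0 X1 Y0 Y1 Z0 Z1) then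
      go P p q r k l m n X0 X1 Y0 ((Y0 + Y1) / 2) Z0 Z1 &&
      go P p q r k l m n X0 X1 ((Y0 + Y1) / 2) Y1 Z0 Z1
    else
      go P p q r k l m n X0 X1 Y0 Y1 Z0 ((Z0 + Z1) / 2) &&
      go P p q r k l m n X0 X1 Y0 Y1 ((Z0 + Z1) / 2) Z1

/-- check of a knot cell (a product of three knot intervals) -/
def cell (P : Par) (p q r : Cel) (k l m : Ker) : Bool :=
  go P p q r k l m 40 p.a0 p.a1 q.a0 q.a1 r.a0 r.a1

end RelEqN.Small.Tri.Chk
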