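import Pool.Agent.Lib.MP_b9e19b_mp.Small.Tri.Spec2

set_option autoImplicit false

/-!
# Three-point certificates: the chord bound (C1) and the box bound (C2)
-/

namespace RelEqN.Small.Tri

namespace ChordM

theorem chord (f : ℝ → ℝ) (a b K : ℝ) (hK : 0 ≤ K) (h : LC f a b K)
    (t : ℝ) (ht : t ∈ Set.Icc a b) : f t ≤ max (f a) (f b) + K * (b - a) ^ 2 / 8 := by
  obtain ⟨h1, h2⟩ := ht
  rcases eq_or_lt_of_le (h1.trans h2) with hab | hab
  · have ta : t = a := le_antisymm (by rw [hab]; exact h2) h1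
    rw [ta]
    have : 0 ≤ K * (b - a) ^ 2 / 8 := by positivity
    linarith [le_max_left (f a) (f b)]
  · have hba : 0 < b - a := sub_pos.2 hab
    set s : ℝ := (t - a) / (b - a) with hs
    have s0 : 0 ≤ s := div_nonneg (by linarith) hba.le
    have s1 : s ≤ 1 := by
      rw [hs, div_le_one hba]; linarith
    have hst : s * (b - a) = t - a := by
      rw [hs]; field_simp
    have hc := h.2 (Set.left_mem_Icc.2 hab.le) (Set.right_mem_Icc.2 hab.le)
      (by linarith : 0 ≤ 1 - s) s0 (by ring)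
    simp only [smul_eq_mul] at hc
    have et : (1 - s) * a + s * b = t := by linarith
    rw [et] at hc
    have hq : (1 - s) * a ^ 2 + s * b ^ 2 - t ^ 2 = s * (1 - s) * (b - a) ^ 2 := by
      rw [← et]; ring
    have hs4 : s * (1 - s) ≤ 1 / 4 := by nlinarith [sq_nonneg (s - 1 / 2)]
    have hb2 : 0 ≤ (b - a) ^ 2 := sq_nonneg _
    have hm : K * (s * (1 - s) * (b - a) ^ 2) ≤ K * (1 / 4 * (b - a) ^ 2) :=
      mul_le_mul_of_nonneg_left (mul_le_mul_of_nonneg_right hs4 hb2) hK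
    rw [← hq] at hm
    have hfa : (1 - s) * f a ≤ (1 - s) * max (f a) (f b) :=
      mul_le_mul_of_nonneg_left (le_max_left _ _) (by linarith)
    have hfb : s * f b ≤ s * max (f a) (f b) :=
      mul_le_mul_of_nonneg_left (le_max_right _ _) s0
    nlinarith

end ChordM

theorem stmtChord : StmtChord := fun f a b K hK h t ht => ChordM.chord f a b K hK h t ht

theorem stmtBox3 : StmtBox3 := by
  intro f x0 x1 y0 y1 z0 z1 Kx Ky Kz c hx hy hz hKx hKy hKz hX hY hZ
    c000 c100 c010 c110 c001 c101 c011 c111 x hxm y hym z hzm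
  have xl : x0 ∈ Set.Icc x0 x1 := Set.left_mem_Icc.2 hx
  have xr : x1 ∈ Set.Icc x0 x1 := Set.right_mem_Icc.2 hx
  have yl : y0 ∈ Set.Icc y0 y1 := Set.left_mem_Icc.2 hy
  have yr : y1 ∈ Set.Icc y0 y1 := Set.right_mem_Icc.2 hy
  have zl : z0 ∈ Set.Icc z0 z1 := Set.left_mem_Icc.2 hz
  have zr : z1 ∈ Set.Icc z0 z1 := Set.right_mem_Icc.2 hz
  have A : ∀ y ∈ Set.Icc y0 y1, ∀ z ∈ Set.Icc z0 z1, ∀ d : ℝ, f x0 y z ≤ d → f x1 y z ≤ d →
      f x y z ≤ d + Kx * (x1 - x0) ^ 2 / 8 := by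
    intro y hy z hz d h0 h1
    have := ChordM.chord (fun x => f x y z) x0 x1 Kx hKx (hX y hy z hz) x hxm
    have hm : max (f x0 y z) (f x1 y z) ≤ d := max_le h0 h1
    linarith
  have B : ∀ z ∈ Set.Icc z0 z1, ∀ d : ℝ, f x y0 z ≤ d → f x y1 z ≤ d →
      f x y z ≤ d + Ky * (y1 - y0) ^ 2 / 8 := by
    intro z hz d h0 h1
    have := ChordM.chord (fun y => f x y z) y0 y1 Ky hKy (hY x hxm z hz) y hym
    have hm : max (f x y0 z) (f x y1 z) ≤ d := max_le h0 h1
    linarith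
  have C : ∀ d : ℝ, f x y z0 ≤ d → f x y z1 ≤ d →
      f x y z ≤ d + Kz * (z1 - z0) ^ 2 / 8 := by
    intro d h0 h1
    have := ChordM.chord (fun z => f x y z) z0 z1 Kz hKz (hZ x hxm y hym) z hzm
    have hm : max (f x y z0) (f x y z1) ≤ d := max_le h0 h1
    linarith
  have r0 := B z0 zl _ (A y0 yl z0 zl c c000 c100) (A y1 yr z0 zl c c010 c110)
  have r1 := B z1 zr _ (A y0 yl z1 zr c c001 c101) (A y1 yr z1 zr c c011 c111)
  have r2 := C _ r0 r1
  linarith

end RelEqN.Small.Tri
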