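import Pool.Agent.Lib.MP_b9e19b_mp.Small.Tri.Spec3

set_option autoImplicit false

/-!
# Three-point certificates: coverings
-/

namespace RelEqN.Small.Tri

open Chk RelEqN.Small

namespace CovM

/-- least index `a` with `D x ≤ kn[a + 1]` (or `0`) -/
noncomputable def idx (D : ℕ) (kn : List ℕ) (x : ℝ) : ℕ :=
  sInf {a : ℕ | (D : ℝ) * x ≤ (kn.getD (a + 1) 0 : ℝ)}

lemma first (D : ℕ) (hD : 0 < D) (kn : List ℕ) (hL : 2 ≤ kn.length) :
    ∃ ι : ℝ → ℕ, (∀ x ∈ Set.Icc ((kn.getD 0 0 : ℝ) / D) ((kn.getD (kn.length - 1) 0 : ℝ) / D),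
      ι x + 1 < kn.length ∧
      x ∈ Set.Icc ((kn.getD (ι x) 0 : ℝ) / D) ((kn.getD (ι x + 1) 0 : ℝ) / D)) ∧
      ∀ x y : ℝ, x ≤ y →
        x ∈ Set.Icc ((kn.getD 0 0 : ℝ) / D) ((kn.getD (kn.length - 1) 0 : ℝ) / D) →
        y ∈ Set.Icc ((kn.getD 0 0 : ℝ) / D) ((kn.getD (kn.length - 1) 0 : ℝ) / D) → ι x ≤ ι y := by
  have hD' : (0 : ℝ) < D := by exact_mod_cast hD
  have hlast : ∀ x : ℝ, x ≤ (kn.getD (kn.length - 1) 0 : ℝ) / D →
      (kn.length - 2) ∈ {a : ℕ | (D : ℝ) * x ≤ (kn.getD (a + 1) 0 : ℝ)} := by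
    intro x hx
    rw [le_div_iff₀ hD'] at hx
    show (D : ℝ) * x ≤ (kn.getD (kn.length - 2 + 1) 0 : ℝ)
    rw [show kn.length - 2 + 1 = kn.length - 1 by omega]
    linarith
  refine ⟨idx D kn, ?_, ?_⟩
  · intro x hx
    have hmem := hlast x hx.2
    have hle : idx D kn x ≤ kn.length - 2 := Nat.sInf_le hmem
    have hin : (D : ℝ) * x ≤ (kn.getD (idx D kn x + 1) 0 : ℝ) := Nat.sInf_mem ⟨_, hmem⟩
    refine ⟨by omega, ?_, ?_⟩
    · rw [div_le_iff₀ hD']
      rcases Nat.eq_zero_or_pos (idx D kn x) with h0 | h0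
      · rw [h0]
        have := hx.1
        rwa [div_le_iff₀ hD'] at this
      · have hnot : (idx D kn x - 1) ∉ {a : ℕ | (D : ℝ) * x ≤ (kn.getD (a + 1) 0 : ℝ)} :=
          Nat.notMem_of_lt_sInf (by
            show idx D kn x - 1 < idx D kn x
            omega)
        have : ¬ (D : ℝ) * x ≤ (kn.getD (idx D kn x - 1 + 1) 0 : ℝ) := hnot
        rw [show idx D kn x - 1 + 1 = idx D kn x by omega] at this
        linarith
    · rw [le_div_iff₀ hD']
      linarith
  · intro x y hxy _ hy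
    have hmem := hlast y hy.2
    have hin : (D : ℝ) * y ≤ (kn.getD (idx D kn y + 1) 0 : ℝ) := Nat.sInf_mem ⟨_, hmem⟩
    refine Nat.sInf_le ?_
    show (D : ℝ) * x ≤ (kn.getD (idx D kn y + 1) 0 : ℝ)
    have : (D : ℝ) * x ≤ D * y := mul_le_mul_of_nonneg_left hxy hD'.le
    linarith

end CovM

open CovM

theorem stmtCov : StmtCov := by
  refine ⟨fun D hD kn hL _ => first D hD kn hL, ?_, ?_, ?_⟩
  · intro C l hl hc a b c hab hbc hcL
    unfold Cert.cov at hc
    simp only [List.all_eq_true, List.mem_range, List.any_eq_true, Bool.and_eq_true] at hc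
    obtain ⟨t, ht, ⟨h1, h2⟩, h3⟩ := hc a (by omega) (b - a) (by omega) (c - b) (by omega)
    have h1' := Nat.eq_of_beq_eq_true h1
    have h2' := Nat.eq_of_beq_eq_true h2
    have h3' := Nat.eq_of_beq_eq_true h3
    unfold Cert.runL at hl
    rw [List.all_eq_true] at hl
    have := hl t ht
    rw [h1', h2', h3', show a + (b - a) + (c - b) = c by omega,
      show a + (b - a) = b by omega] at this
    exact this
  · intro C l m hl hm
    unfold Cert.runL at hl hm ⊢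
    rw [List.all_append, hl, hm]
    rfl
  · intro C a b c
    rfl

end RelEqN.Small.Tri
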