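import Pool.Agent.Lib.MP_b9e19b_mp.Small.Defs

set_option autoImplicit false

/-!
# Three-point certificates: the objects

`pS q g = ∑_{i ≠ j} g (r_ij)` and `tS q G = ∑_i ∑_{j ≠ k, both ≠ i} G (r_ij) (r_ik) (cos of the angle at i)`.
-/

namespace RelEqN.Small.Tri

open RelEqN.Small

variable {N : ℕ}

/-- cosine of the angle at `i` of the triangle `i j k` -/
noncomputable def cs (q : Fin N → ℂ) (i j k : Fin N) : ℝ :=
  (star (q i - q j) * (q i - q k)).re / (‖q i - q j‖ * ‖q i - q k‖)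

/-- Chebyshev polynomials `cos (m θ) = ch m (cos θ)` -/
def ch : ℕ → ℝ → ℝ
  | 0, _ => 1
  | 1, c => c
  | (m + 2), c => 2 * c * ch (m + 1) c - ch m c

/-- sum over ordered pairs -/
noncomputable def pS (q : Fin N → ℂ) (g : ℝ → ℝ) : ℝ :=
  ∑ i, ∑ j ∈ Finset.univ.erase i, g ‖q i - q j‖

/-- sum over the vertices and the ordered pairs of different neighbours -/
noncomputable def tS (q : Fin N → ℂ) (G : ℝ → ℝ → ℝ → ℝ) : ℝ :=
  ∑ i, ∑ j ∈ Finset.univ.erase i, ∑ k ∈ (Finset.univ.erase i).erase j,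
    G ‖q i - q j‖ ‖q i - q k‖ (cs q i j k)

/-- cosine from the sides: `x`, `y` adjacent to the angle, `z` opposite -/
noncomputable def co (x y z : ℝ) : ℝ := (x ^ 2 + y ^ 2 - z ^ 2) / (2 * x * y)

/-- The functions of a three-point certificate. -/
structure Fn where
  /-- the pinned functions with their angular degrees -/
  ker : List (ℕ × (ℝ → ℝ))
  /-- multiplier of the equation of the central configuration -/
  psi : ℝ → ℝ
  /-- multiplier of `T ≤ Tb` -/
  mu : ℝ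
  /-- multipliers of the pair tests (odd and even), symmetric matrices `(p0, p1; p1, p2)` -/
  p0 : ℝ → ℝ
  p1 : ℝ → ℝ
  p2 : ℝ → ℝ
  e0 : ℝ → ℝ
  e1 : ℝ → ℝ
  e2 : ℝ → ℝ
  ca : ℝ
  cb : ℝ

/-- the pair function -/
noncomputable def Fn.U (F : Fn) (r : ℝ) : ℝ :=
  (F.ker.map fun p => (p.2 r) ^ 2).sum + F.psi r / r ^ 2 - F.psi r * r / 2
    - (6 + F.mu) / r ^ 3 + 10 / r ^ 6
    + F.ca * (F.p0 r + F.e0 r) + F.cb * (F.p2 r + F.e2 r)
    + (F.p0 r + F.p2 r - 6 * F.p1 r) / r ^ 3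

/-- the vertex function (first neighbour at distance `x`, second at distance `y`) -/
noncomputable def Fn.V (F : Fn) (x y c : ℝ) : ℝ :=
  (F.ker.map fun p => p.2 x * p.2 y * ch p.1 c).sum
    + F.psi x * c / y ^ 2 + (9 * c ^ 2 - 4) / (x ^ 3 * y ^ 3)
    + ((F.p0 x + F.p2 x + F.e0 x + F.e2 x) / 2
        - 3 * (F.p1 x + F.e1 x) * (2 * c ^ 2 - 1)) / y ^ 3

/-- the triangle function -/
noncomputable def Fn.S (F : Fn) (N : ℕ) (Tb : ℝ) (x y z : ℝ) : ℝ :=
  ((2 * N - 3) + F.mu * Tb) * 6 / (N * (N - 1) * (N - 2))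
    + 2 / (N - 2) * (F.U x + F.U y + F.U z)
    + (F.V x y (co x y z) + F.V y x (co x y z))
    + (F.V y z (co y z x) + F.V z y (co y z x))
    + (F.V x z (co x z y) + F.V z x (co x z y))

end RelEqN.Small.Tri
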