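import Pool.Agent.Lib.MP_b9e19b_mp.Small.Tri.Spec

set_option autoImplicit false

/-!
Three-point certificates: positivity of the pinned kernels
-/

namespace RelEqN.Small.Tri

open RelEqN.Small

namespace KerM

private lemma re_pow (v : ℂ) (hv : ‖v‖ = 1) (m : ℕ) :
    (v ^ m).re = ch m v.re ∧ (v ^ (m + 1)).re = ch (m + 1) v.re := by
  have h2 : v.re * v.re + v.im * v.im = 1 := by
    have h3 := Complex.normSq_eq_norm_sq v
    rw [hv, Complex.normSq_apply] at h3
    linarith
  have hsq : v ^ 2 = 2 * (v.re : ℂ) * v - 1 := by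
    apply Complex.ext
    · rw [pow_two, Complex.sub_re, Complex.mul_re, Complex.mul_re, Complex.one_re]
      simp
      nlinarith
    · rw [pow_two, Complex.sub_im, Complex.mul_im, Complex.mul_im, Complex.one_im]
      simp
      ring
  induction m with
  | zero => simp [ch]
  | succ m ih =>
    refine ⟨ih.2, ?_⟩
    have h3 : v ^ (m + 1 + 1) = ((2 * v.re : ℝ) : ℂ) * v ^ (m + 1) - v ^ m := by
      calc v ^ (m + 1 + 1) = v ^ m * v ^ 2 := by ring
        _ = ((2 * v.re : ℝ) : ℂ) * v ^ (m + 1) - v ^ m := by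
          rw [hsq]
          push_cast
          ring
    rw [h3, Complex.sub_re, Complex.re_ofReal_mul, ih.1, ih.2]
    rfl

private lemma vertex {N : ℕ} (q : Fin N → ℂ) (hq : Function.Injective q) (m : ℕ) (f : ℝ → ℝ)
    (i : Fin N) :
    0 ≤ ∑ j ∈ Finset.univ.erase i, f ‖q i - q j‖ ^ 2 +
      ∑ j ∈ Finset.univ.erase i, ∑ k ∈ (Finset.univ.erase i).erase j,
        f ‖q i - q j‖ * f ‖q i - q k‖ * ch m (cs q i j k) := by
  classical
  let z : Fin N → ℂ := fun j => (f ‖q i - q j‖ : ℂ) * ((q i - q j) / (‖q i - q j‖ : ℂ)) ^ m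
  have hne : ∀ j ∈ Finset.univ.erase i, q i - q j ≠ 0 := by
    intro j hj h
    exact (Finset.mem_erase.1 hj).1 (hq (sub_eq_zero.1 h)).symm
  have hzz : ∀ j ∈ Finset.univ.erase i, ∀ k ∈ Finset.univ.erase i,
      (star (z j) * z k).re = f ‖q i - q j‖ * f ‖q i - q k‖ * ch m (cs q i j k) := by
    intro j hj k hk
    have h1 := hne j hj
    have h2 := hne k hk
    have h3 : star (z j) * z k = ((f ‖q i - q j‖ * f ‖q i - q k‖ : ℝ) : ℂ) *
        (star ((q i - q j) / (‖q i - q j‖ : ℂ)) * ((q i - q k) / (‖q i - q k‖ : ℂ))) ^ m := by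
      simp only [z, star_mul', star_pow, mul_pow]
      have h4 : star (f ‖q i - q j‖ : ℂ) = (f ‖q i - q j‖ : ℂ) := Complex.conj_ofReal _
      rw [h4]
      push_cast
      ring
    have h5 : ‖star ((q i - q j) / (‖q i - q j‖ : ℂ)) * ((q i - q k) / (‖q i - q k‖ : ℂ))‖ = 1 := by
      rw [norm_mul, norm_star, norm_div, norm_div, Complex.norm_real, Complex.norm_real,
        norm_norm, norm_norm, div_self (norm_ne_zero_iff.2 h1), div_self (norm_ne_zero_iff.2 h2),
        one_mul]
    have h6 : (star ((q i - q j) / (‖q i - q j‖ : ℂ)) * ((q i - q k) / (‖q i - q k‖ : ℂ))).re =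
        cs q i j k := by
      have h7 : star ((q i - q j) / (‖q i - q j‖ : ℂ)) * ((q i - q k) / (‖q i - q k‖ : ℂ)) =
          (star (q i - q j) * (q i - q k)) / ((‖q i - q j‖ * ‖q i - q k‖ : ℝ) : ℂ) := by
        rw [star_div₀]
        have h8 : star (‖q i - q j‖ : ℂ) = (‖q i - q j‖ : ℂ) := Complex.conj_ofReal _
        rw [h8, div_mul_div_comm]
        push_cast
        rfl
      rw [h7, Complex.div_ofReal_re]
      rfl
    rw [h3, Complex.re_ofReal_mul, (re_pow _ h5 m).1, h6]
  have hch1 : ∀ n, ch n 1 = 1 ∧ ch (n + 1) 1 = 1 := by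
    intro n
    induction n with
    | zero => simp [ch]
    | succ n ih =>
      refine ⟨ih.2, ?_⟩
      change 2 * 1 * ch (n + 1) 1 - ch n 1 = 1
      rw [ih.1, ih.2]
      norm_num
  have hcs : ∀ j ∈ Finset.univ.erase i, cs q i j j = 1 := by
    intro j hj
    have h1 := hne j hj
    have h2 : (star (q i - q j) * (q i - q j)).re = ‖q i - q j‖ * ‖q i - q j‖ := by
      have h3 : star (q i - q j) * (q i - q j) = ((Complex.normSq (q i - q j) : ℝ) : ℂ) :=
        (Complex.normSq_eq_conj_mul_self).symm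
      rw [h3, Complex.ofReal_re, Complex.normSq_eq_norm_sq, pow_two]
    rw [cs, h2, div_self]
    exact mul_ne_zero (norm_ne_zero_iff.2 h1) (norm_ne_zero_iff.2 h1)
  have key : 0 ≤ (star (∑ j ∈ Finset.univ.erase i, z j) * ∑ k ∈ Finset.univ.erase i, z k).re := by
    have h3 : star (∑ j ∈ Finset.univ.erase i, z j) * ∑ k ∈ Finset.univ.erase i, z k =
        ((Complex.normSq (∑ j ∈ Finset.univ.erase i, z j) : ℝ) : ℂ) :=
      (Complex.normSq_eq_conj_mul_self).symm
    rw [h3, Complex.ofReal_re]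
    exact Complex.normSq_nonneg _
  rw [star_sum, Finset.sum_mul_sum, Complex.re_sum] at key
  refine key.trans (le_of_eq ?_)
  rw [← Finset.sum_add_distrib]
  refine Finset.sum_congr rfl fun j hj => ?_
  rw [Complex.re_sum, ← Finset.add_sum_erase _ _ hj, hzz j hj j hj, hcs j hj, (hch1 m).1]
  congr 1
  · ring
  · exact Finset.sum_congr rfl fun k hk => hzz j hj k (Finset.mem_of_mem_erase hk)

end KerM

theorem stmtKer : StmtKer := by
  intro N q hq m f
  rw [pS, tS, ← Finset.sum_add_distrib]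
  exact Finset.sum_nonneg fun i _ => KerM.vertex q hq m f i

end RelEqN.Small.Tri
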