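import Pool.Agent.Lib.MP_b9e19b_mp.Small.Tri.Spec2

set_option autoImplicit false

/-!
# Three-point certificates: the corner test
-/

namespace RelEqN.Small.Tri.LeafM

open Chk

theorem up_ge (F n d : ℕ) (hd : 0 < d) : (F : ℝ) * n / d ≤ (up F n d : ℝ) := by
  have hd' : (0 : ℝ) < d := by exact_mod_cast hd
  have h1 : F * n < d * (F * n / d + 1) := Nat.lt_mul_div_succ _ hd
  have h2 : ((F * n : ℕ) : ℝ) < (d * (F * n / d + 1) : ℕ) := by exact_mod_cast h1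
  rw [up, div_le_iff₀ hd']
  push_cast at h2 ⊢
  nlinarith

theorem const_le (P : Par) (hP : P.Ok) :
    (P.F : ℝ) * (((2 * (P.N : ℝ) - 3) + (P.mu : ℝ) / P.Q * P.Tb) * 6 /
      (P.N * ((P.N : ℝ) - 1) * ((P.N : ℝ) - 2))) ≤ (CP P : ℝ) := by
  have hN := hP.N3
  have h := up_ge P.F (6 * ((2 * P.N - 3) * P.Q + P.mu * P.Tb))
    (P.Q * (P.N * (P.N - 1) * (P.N - 2)))
    (Nat.mul_pos hP.Q0 (Nat.mul_pos (Nat.mul_pos (by omega) (by omega)) (by omega)))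
  refine le_trans (le_of_eq ?_) h
  have hQ : (P.Q : ℝ) ≠ 0 := by exact_mod_cast hP.Q0.ne'
  have h3 : (3 : ℝ) ≤ P.N := by exact_mod_cast hN
  have hn0 : (P.N : ℝ) ≠ 0 := by linarith
  have hn1 : (P.N : ℝ) - 1 ≠ 0 := by linarith
  have hn2 : (P.N : ℝ) - 2 ≠ 0 := by linarith
  rw [Nat.cast_mul P.Q, Nat.cast_mul (P.N * (P.N - 1)), Nat.cast_mul P.N,
    Nat.cast_sub (by omega : 1 ≤ P.N), Nat.cast_sub (by omega : 2 ≤ P.N), Nat.cast_mul 6,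
    Nat.cast_add, Nat.cast_mul (2 * P.N - 3), Nat.cast_sub (by omega : 3 ≤ 2 * P.N)]
  push_cast
  field_simp

theorem corner_le (h3 : StmtWVal) (h4 : StmtUVal) (P : Par) (p q r : Cel) (k l m : Ker)
    (e X Y Z : ℕ) (hP : P.Ok) (hp : p.Ok P) (hq : q.Ok P) (hr : r.Ok P)
    (p0 : p.a0 ≤ X) (p1 : X ≤ p.a1) (q0 : q.a0 ≤ Y) (q1 : Y ≤ q.a1) (r0 : r.a0 ≤ Z)
    (r1 : Z ≤ r.a1) (h : corner P p q r k l m e X Y Z = true) :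
    SR P p q r k l m ((X : ℝ) / P.D) ((Y : ℝ) / P.D) ((Z : ℝ) / P.D) ≤ (-1 - e) / P.F := by
  have hF : (0 : ℝ) < P.F := by exact_mod_cast hP.F0
  have hX : 0 < X := hp.pos.trans_le p0
  have hY : 0 < Y := hq.pos.trans_le q0
  have hZ : 0 < Z := hr.pos.trans_le r0
  have hc : CP P + SP P p q r k l m X Y Z + e + 1 ≤ SN P p q r k l m X Y Z :=
    Nat.le_of_ble_eq_true h
  have hc' : ((CP P + SP P p q r k l m X Y Z + e + 1 : ℕ) : ℝ) ≤ (SN P p q r k l m X Y Z : ℕ) := by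
    exact_mod_cast hc
  rw [SP, SN] at hc'
  have u1 := h4 P p X hP hp hX p0 p1
  have u2 := h4 P q Y hP hq hY q0 q1
  have u3 := h4 P r Z hP hr hZ r0 r1
  have w1 := h3 P p q k X Y Z hP hp hq hX hY hZ p0 p1 q0 q1
  have w2 := h3 P q r l Y Z X hP hq hr hY hZ hX q0 q1 r0 r1
  have w3 := h3 P p r m X Z Y hP hp hr hX hZ hY p0 p1 r0 r1
  have hk := const_le P hP
  rw [le_div_iff₀ hF, mul_comm, SR]
  simp only [Nat.cast_add, Nat.cast_one] at hc'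
  rw [mul_add, mul_add, mul_add, mul_add, mul_add, mul_add]
  linarith

theorem err_le (S X0 X1 D F : ℕ) (hX : X0 ≤ X1) (hD : 0 < D) (hF : 0 < F) :
    (F : ℝ) * ((S : ℝ) / F ^ 4 * ((X1 : ℝ) / D - X0 / D) ^ 2 / 8) ≤
      ((S * ((X1 - X0) * (X1 - X0)) / (8 * (D * D) * (F * F * F)) + 1 : ℕ) : ℝ) := by
  have hd : 0 < 8 * (D * D) * (F * F * F) := by positivity
  have hd' : (0 : ℝ) < ((8 * (D * D) * (F * F * F) : ℕ) : ℝ) := by exact_mod_cast hd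
  have h1 : S * ((X1 - X0) * (X1 - X0)) < 8 * (D * D) * (F * F * F) *
    (S * ((X1 - X0) * (X1 - X0)) / (8 * (D * D) * (F * F * F)) + 1) := Nat.lt_mul_div_succ _ hd
  have h2 : ((S * ((X1 - X0) * (X1 - X0)) : ℕ) : ℝ) < ((8 * (D * D) * (F * F * F) *
    (S * ((X1 - X0) * (X1 - X0)) / (8 * (D * D) * (F * F * F)) + 1) : ℕ) : ℝ) := by
    exact_mod_cast h1
  rw [Nat.cast_mul (8 * (D * D) * (F * F * F)), ← div_lt_iff₀' hd'] at h2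
  refine le_trans (le_of_eq ?_) h2.le
  have hD' : (D : ℝ) ≠ 0 := by exact_mod_cast hD.ne'
  have hF' : (F : ℝ) ≠ 0 := by exact_mod_cast hF.ne'
  push_cast [Nat.cast_sub hX]
  field_simp

theorem lc_of (h0 : StmtLC) (f f0 f1 f2 f3 : ℝ → ℝ) (a b K K0 K1 K2 K3 c : ℝ)
    (l0 : LC f0 a b K0) (l1 : LC f1 a b K1) (l2 : LC f2 a b K2) (l3 : LC f3 a b K3)
    (h : ∀ t, f t = c + (f0 t + f1 t + f2 t + f3 t)) (hK : K = K0 + K1 + K2 + K3) :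
    LC f a b K := by
  have e := h0.2.2.2.1 _ a b c _ (h0.2.1 _ _ a b _ _ (h0.2.1 _ _ a b _ _ (h0.2.1 _ _ a b _ _
    l0 l1) l2) l3)
  rw [hK]
  have hf : f = fun t => c + (f0 t + f1 t + f2 t + f3 t) := funext h
  rw [hf]
  exact e

end RelEqN.Small.Tri.LeafM

namespace RelEqN.Small.Tri

open Chk LeafM

theorem stmtLeaf (h0 : StmtLC) (h2 : StmtBox3) (h3 : StmtWVal) (h4 : StmtUVal) (h8 : StmtKX)
    (h9 : StmtKY) (h10 : StmtKZ) (h11 : StmtKU) : StmtLeaf := by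
  intro P p q r k l m X0 X1 Y0 Y1 Z0 Z1 hP hp hq hr p0 hX p1 q0 hY q1 r0 hZ r1 hc x hx y hy z hz
  have hF : (0 : ℝ) < P.F := by exact_mod_cast hP.F0
  have hD : (0 : ℝ) < P.D := by exact_mod_cast hP.D0
  have hX0 : 0 < X0 := hp.pos.trans_le p0
  have hY0 : 0 < Y0 := hq.pos.trans_le q0
  have hZ0 : 0 < Z0 := hr.pos.trans_le r0
  have hX' : (X0 : ℝ) / P.D ≤ (X1 : ℝ) / P.D :=
    div_le_div_of_nonneg_right (by exact_mod_cast hX) hD.le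
  have hY' : (Y0 : ℝ) / P.D ≤ (Y1 : ℝ) / P.D :=
    div_le_div_of_nonneg_right (by exact_mod_cast hY) hD.le
  have hZ' : (Z0 : ℝ) / P.D ≤ (Z1 : ℝ) / P.D :=
    div_le_div_of_nonneg_right (by exact_mod_cast hZ) hD.le
  have E1 := err_le (KX P p q k X0 X1 Y0 Y1 Z0 Z1 + KZ P q r l Y0 Y1 Z0 Z1 X0 X1
    + KX P p r m X0 X1 Z0 Z1 Y0 Y1 + KU P p X0 X1) X0 X1 P.D P.F hX hP.D0 hP.F0
  have E2 := err_le (KY P p q k X0 X1 Y0 Y1 Z0 Z1 + KX P q r l Y0 Y1 Z0 Z1 X0 X1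
    + KZ P p r m X0 X1 Z0 Z1 Y0 Y1 + KU P q Y0 Y1) Y0 Y1 P.D P.F hY hP.D0 hP.F0
  have E3 := err_le (KZ P p q k X0 X1 Y0 Y1 Z0 Z1 + KY P q r l Y0 Y1 Z0 Z1 X0 X1
    + KY P p r m X0 X1 Z0 Z1 Y0 Y1 + KU P r Z0 Z1) Z0 Z1 P.D P.F hZ hP.D0 hP.F0
  rw [corners] at hc
  simp only [Bool.and_eq_true] at hc
  obtain ⟨⟨⟨⟨⟨⟨⟨c1, c2⟩, c3⟩, c4⟩, c5⟩, c6⟩, c7⟩, c8⟩ := hc
  have B := h2 (fun x y z => SR P p q r k l m x y z) ((X0 : ℝ) / P.D) ((X1 : ℝ) / P.D)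
    ((Y0 : ℝ) / P.D) ((Y1 : ℝ) / P.D) ((Z0 : ℝ) / P.D) ((Z1 : ℝ) / P.D)
    (((KX P p q k X0 X1 Y0 Y1 Z0 Z1 + KZ P q r l Y0 Y1 Z0 Z1 X0 X1
      + KX P p r m X0 X1 Z0 Z1 Y0 Y1 + KU P p X0 X1 : ℕ) : ℝ) / (P.F : ℝ) ^ 4)
    (((KY P p q k X0 X1 Y0 Y1 Z0 Z1 + KX P q r l Y0 Y1 Z0 Z1 X0 X1
      + KZ P p r m X0 X1 Z0 Z1 Y0 Y1 + KU P q Y0 Y1 : ℕ) : ℝ) / (P.F : ℝ) ^ 4)
    (((KZ P p q k X0 X1 Y0 Y1 Z0 Z1 + KY P q r l Y0 Y1 Z0 Z1 X0 X1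
      + KY P p r m X0 X1 Z0 Z1 Y0 Y1 + KU P r Z0 Z1 : ℕ) : ℝ) / (P.F : ℝ) ^ 4)
    ((-1 - ((e1 P p q r k l m X0 X1 Y0 Y1 Z0 Z1 + e2 P p q r k l m X0 X1 Y0 Y1 Z0 Z1
      + e3 P p q r k l m X0 X1 Y0 Y1 Z0 Z1 : ℕ) : ℝ)) / P.F)
    hX' hY' hZ' (by positivity) (by positivity) (by positivity) ?_ ?_ ?_
    (corner_le h3 h4 P p q r k l m _ X0 Y0 Z0 hP hp hq hr p0 (hX.trans p1) q0 (hY.trans q1) r0
      (hZ.trans r1) c1)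
    (corner_le h3 h4 P p q r k l m _ X1 Y0 Z0 hP hp hq hr (p0.trans hX) p1 q0 (hY.trans q1) r0
      (hZ.trans r1) c2)
    (corner_le h3 h4 P p q r k l m _ X0 Y1 Z0 hP hp hq hr p0 (hX.trans p1) (q0.trans hY) q1 r0
      (hZ.trans r1) c3)
    (corner_le h3 h4 P p q r k l m _ X1 Y1 Z0 hP hp hq hr (p0.trans hX) p1 (q0.trans hY) q1 r0
      (hZ.trans r1) c4)
    (corner_le h3 h4 P p q r k l m _ X0 Y0 Z1 hP hp hq hr p0 (hX.trans p1) q0 (hY.trans q1)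
      (r0.trans hZ) r1 c5)
    (corner_le h3 h4 P p q r k l m _ X1 Y0 Z1 hP hp hq hr (p0.trans hX) p1 q0 (hY.trans q1)
      (r0.trans hZ) r1 c6)
    (corner_le h3 h4 P p q r k l m _ X0 Y1 Z1 hP hp hq hr p0 (hX.trans p1) (q0.trans hY) q1
      (r0.trans hZ) r1 c7)
    (corner_le h3 h4 P p q r k l m _ X1 Y1 Z1 hP hp hq hr (p0.trans hX) p1 (q0.trans hY) q1
      (r0.trans hZ) r1 c8) x hx y hy z hz
  · have hb := mul_le_mul_of_nonneg_left B hF.le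
    rw [mul_add, mul_div_cancel₀ _ hF.ne'] at hb
    have he1 : (e1 P p q r k l m X0 X1 Y0 Y1 Z0 Z1 : ℝ) = ((((KX P p q k X0 X1 Y0 Y1 Z0 Z1
      + KZ P q r l Y0 Y1 Z0 Z1 X0 X1 + KX P p r m X0 X1 Z0 Z1 Y0 Y1 + KU P p X0 X1)
      * ((X1 - X0) * (X1 - X0)) / (8 * (P.D * P.D) * (P.F * P.F * P.F)) + 1 : ℕ)) : ℝ) := rfl
    have he2 : (e2 P p q r k l m X0 X1 Y0 Y1 Z0 Z1 : ℝ) = ((((KY P p q k X0 X1 Y0 Y1 Z0 Z1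
      + KX P q r l Y0 Y1 Z0 Z1 X0 X1 + KZ P p r m X0 X1 Z0 Z1 Y0 Y1 + KU P q Y0 Y1)
      * ((Y1 - Y0) * (Y1 - Y0)) / (8 * (P.D * P.D) * (P.F * P.F * P.F)) + 1 : ℕ)) : ℝ) := rfl
    have he3 : (e3 P p q r k l m X0 X1 Y0 Y1 Z0 Z1 : ℝ) = ((((KZ P p q k X0 X1 Y0 Y1 Z0 Z1
      + KY P q r l Y0 Y1 Z0 Z1 X0 X1 + KY P p r m X0 X1 Z0 Z1 Y0 Y1 + KU P r Z0 Z1)
      * ((Z1 - Z0) * (Z1 - Z0)) / (8 * (P.D * P.D) * (P.F * P.F * P.F)) + 1 : ℕ)) : ℝ) := rfl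
    rw [← he1] at E1
    rw [← he2] at E2
    rw [← he3] at E3
    rw [Nat.cast_add, Nat.cast_add] at hb
    have hs : (P.F : ℝ) * SR P p q r k l m x y z < 0 := by
      refine lt_of_le_of_lt hb ?_
      rw [add_div, add_div, mul_add, mul_add]
      linarith
    by_contra hcon
    exact absurd hs (not_lt.2 (mul_nonneg hF.le (not_lt.1 hcon)))
  · intro y hy z hz
    have l0 := h11 P p X0 X1 hP hp hX0 hX p0 p1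
    have l1 := h8 P p q k X0 X1 Y0 Y1 Z0 Z1 hP hp hq hX0 hX hY0 hY hZ0 hZ p0 p1 q0 q1 y hy z hz
    have l2 := h10 P q r l Y0 Y1 Z0 Z1 X0 X1 hP hq hr hY0 hY hZ0 hZ hX0 hX q0 q1 r0 r1 y hy z hz
    have l3 := h8 P p r m X0 X1 Z0 Z1 Y0 Y1 hP hp hr hX0 hX hZ0 hZ hY0 hY p0 p1 r0 r1 z hz y hy
    refine lc_of h0 _ _ _ _ _ _ _ _ _ _ _ _
      (((2 * (P.N : ℝ) - 3) + (P.mu : ℝ) / P.Q * P.Tb) * 6 /
        (P.N * ((P.N : ℝ) - 1) * ((P.N : ℝ) - 2)) + UR P q y + UR P r z) l0 l1 l2 l3 ?_ ?_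
    · intro t
      rw [SR]
      ring
    · push_cast
      ring
  · intro x hx z hz
    have l0 := h11 P q Y0 Y1 hP hq hY0 hY q0 q1
    have l1 := h9 P p q k X0 X1 Y0 Y1 Z0 Z1 hP hp hq hX0 hX hY0 hY hZ0 hZ p0 p1 q0 q1 x hx z hz
    have l2 := h8 P q r l Y0 Y1 Z0 Z1 X0 X1 hP hq hr hY0 hY hZ0 hZ hX0 hX q0 q1 r0 r1 z hz x hx
    have l3 := h10 P p r m X0 X1 Z0 Z1 Y0 Y1 hP hp hr hX0 hX hZ0 hZ hY0 hY p0 p1 r0 r1 x hx z hz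
    refine lc_of h0 _ _ _ _ _ _ _ _ _ _ _ _
      (((2 * (P.N : ℝ) - 3) + (P.mu : ℝ) / P.Q * P.Tb) * 6 /
        (P.N * ((P.N : ℝ) - 1) * ((P.N : ℝ) - 2)) + UR P p x + UR P r z) l0 l1 l2 l3 ?_ ?_
    · intro t
      rw [SR]
      ring
    · push_cast
      ring
  · intro x hx y hy
    have l0 := h11 P r Z0 Z1 hP hr hZ0 hZ r0 r1
    have l1 := h10 P p q k X0 X1 Y0 Y1 Z0 Z1 hP hp hq hX0 hX hY0 hY hZ0 hZ p0 p1 q0 q1 x hx y hy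
    have l2 := h9 P q r l Y0 Y1 Z0 Z1 X0 X1 hP hq hr hY0 hY hZ0 hZ hX0 hX q0 q1 r0 r1 y hy x hx
    have l3 := h9 P p r m X0 X1 Z0 Z1 Y0 Y1 hP hp hr hX0 hX hZ0 hZ hY0 hY p0 p1 r0 r1 x hx y hy
    refine lc_of h0 _ _ _ _ _ _ _ _ _ _ _ _
      (((2 * (P.N : ℝ) - 3) + (P.mu : ℝ) / P.Q * P.Tb) * 6 /
        (P.N * ((P.N : ℝ) - 1) * ((P.N : ℝ) - 2)) + UR P p x + UR P q y) l0 l1 l2 l3 ?_ ?_
    · intro t
      rw [SR]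
      ring
    · push_cast
      ring

end RelEqN.Small.Tri
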