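import Pool.Agent.Lib.MP_b9e19b_mp.Small.Tri.Spec2
import Pool.Agent.Lib.MP_b9e19b_mp.Small.Tri.Cert

set_option autoImplicit false

/-!
# Three-point certificates: the functions of a certificate
-/

namespace RelEqN.Small.Tri

open Chk

/-- piecewise linear function with the knots `kn` (units `1/D`) and the node values `f 0, f 1, …` -/
noncomputable def plf (D : ℕ) : List ℕ → (ℕ → ℝ) → ℝ → ℝ
  | k0 :: k1 :: ks, f, x =>
    if (D : ℝ) * x ≤ k1 then (f 0 * (k1 - D * x) + f 1 * (D * x - k0)) / ((k1 : ℝ) - k0)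
    else plf D (k1 :: ks) (fun i => f (i + 1)) x
  | _, _, _ => 0

namespace Cert

/-- piecewise linear function of a list with offset `H`, unit `1/E` -/
noncomputable def pH (C : Cert) (v : List ℕ) : ℝ → ℝ :=
  plf C.par.D C.kn (fun i => ((v.getD i C.H : ℝ) - C.H) / C.E)

/-- piecewise linear function of a list without offset, unit `1/E` -/
noncomputable def p00 (C : Cert) (v : List ℕ) : ℝ → ℝ :=
  plf C.par.D C.kn (fun i => (v.getD i 0 : ℝ) / C.E)

/-- the functions of the certificate -/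
noncomputable def fn (C : Cert) : Fn where
  ker := C.v0.map (fun v => (0, C.pH v)) ++ (C.v1.map (fun v => (1, C.pH v)) ++
    (C.v2.map (fun v => (2, C.pH v)) ++ (C.v3.map (fun v => (3, C.pH v)) ++
      C.v4.map (fun v => (4, C.pH v)))))
  psi := C.pH C.psi
  mu := (C.par.mu : ℝ) / C.par.Q
  p0 := C.p00 C.p0
  p1 := C.pH C.p1
  p2 := C.p00 C.p2
  e0 := C.p00 C.e0
  e1 := C.pH C.e1
  e2 := C.p00 C.e2
  ca := (C.ca : ℝ) / C.E
  cb := (C.cb : ℝ) / C.E

/-- the knot interval `a` -/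
def Icl (C : Cert) (a : ℕ) : Set ℝ :=
  Set.Icc ((C.kt a : ℝ) / C.par.D) ((C.kt (a + 1) : ℝ) / C.par.D)

/-- all knot cells are checked -/
def Run (C : Cert) : Prop := ∀ a b c : ℕ, a ≤ b → b ≤ c → c + 1 < C.kn.length →
  C.tri a b c = true

end Cert

end RelEqN.Small.Tri
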