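import Pool.Agent.Lib.MP_b9e19b_mp.Small.Tri.All
import Pool.Agent.Lib.MP_b9e19b_mp.Small.Tri.Run.G9a
import Pool.Agent.Lib.MP_b9e19b_mp.Small.Tri.Run.G9b

set_option autoImplicit false

/-!
# Nine bodies
-/

namespace RelEqN.Small.Tri

open Chk RelEqN.Small

/-- No configuration of nine unit masses satisfies the necessary conditions. -/
theorem noNec9 : NoNec 9 := by
  intro q hq
  have htr : T q ≤ 15 := by
    have h := hq.tr
    norm_num at h
    exact h
  by_cases h : T q ≤ 14
  · obtain ⟨h1, h2⟩ := pri9All q hq.isCC 14 (by norm_num) h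
    refine endAll Dat9a.cert G9a.good G9a.run q hq ?_ ?_ ?_ (Or.inl (by decide +kernel))
    · have e : (Dat9a.cert.par.Tb : ℝ) = 14 := by
        have : Dat9a.cert.par.Tb = 14 := rfl
        rw [this]; norm_num
      rw [e]; exact h
    · intro i j hij
      have e0 : Dat9a.cert.kt 0 = 2580 := rfl
      have e1 : Dat9a.cert.kt (Dat9a.cert.kn.length - 1) = 27034 := rfl
      have e2 : Dat9a.cert.par.D = 4096 := rfl
      rw [e0, e1, e2]
      have := h1 i j hij
      push_cast
      exact this
    · intro i j k hij hik hjk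
      have := h2 i j k hij hik hjk
      have eF : Dat9a.cert.par.F = 65536 := rfl
      have eG : Dat9a.cert.par.G0 = 218910 := rfl
      have ek : Dat9a.cert.par.kn = 3 := rfl
      have ed : Dat9a.cert.par.kd = 13 := rfl
      have eN : Dat9a.cert.par.N = 9 := rfl
      simp only [gR, eF, eG, ek, ed, eN]
      push_cast
      linarith
  · push Not at h
    obtain ⟨h1, h2⟩ := pri9All q hq.isCC 15 le_rfl htr
    refine endAll Dat9b.cert G9b.good G9b.run q hq ?_ ?_ ?_ (Or.inr ⟨?_, rfl⟩)
    · have e : (Dat9b.cert.par.Tb : ℝ) = 15 := by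
        have : Dat9b.cert.par.Tb = 15 := rfl
        rw [this]; norm_num
      rw [e]; exact htr
    · intro i j hij
      have e0 : Dat9b.cert.kt 0 = 2580 := rfl
      have e1 : Dat9b.cert.kt (Dat9b.cert.kn.length - 1) = 27034 := rfl
      have e2 : Dat9b.cert.par.D = 4096 := rfl
      rw [e0, e1, e2]
      have := h1 i j hij
      push_cast
      exact this
    · intro i j k hij hik hjk
      have := h2 i j k hij hik hjk
      have eF : Dat9b.cert.par.F = 65536 := rfl
      have eG : Dat9b.cert.par.G0 = 251678 := rfl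
      have ek : Dat9b.cert.par.kn = 3 := rfl
      have ed : Dat9b.cert.par.kd = 13 := rfl
      have eN : Dat9b.cert.par.N = 9 := rfl
      simp only [gR, eF, eG, ek, ed, eN]
      push_cast
      linarith
    · show (2 * ((9 : ℕ) : ℝ) - 3) - T q ≤ 1
      push_cast
      linarith

end RelEqN.Small.Tri
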