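import Pool.Agent.Lib.MP_b9e19b_mp.Small.Tri.Spec
import Pool.Agent.Lib.MP_b9e19b_mp.Small.Tri.Chk

set_option autoImplicit false

/-!
# Three-point certificates: real functions of the checker

The functions `affR`, `bilR`, `WR`, `UR`, `SR` are the functions which `Chk.affN`, `Chk.bilN`,
`Chk.WP - Chk.WN`, `Chk.UP - Chk.UN`, `Chk.SP - Chk.SN` evaluate at the lattice points `X/D`.
-/

namespace RelEqN.Small.Tri

open Chk

/-- affine interpolation of the node values `(f0 - o)/Q`, `(f1 - o)/Q` on the knot interval `p` -/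
noncomputable def affR (P : Par) (p : Cel) (f0 f1 o : ℕ) (x : ℝ) : ℝ :=
  (((f0 : ℝ) - o) * (p.a1 - P.D * x) + ((f1 : ℝ) - o) * (P.D * x - p.a0))
    / (P.Q * ((p.a1 : ℝ) - p.a0))

/-- slope of `affR` -/
noncomputable def affS (P : Par) (p : Cel) (f0 f1 : ℕ) : ℝ :=
  P.D * ((f1 : ℝ) - f0) / (P.Q * ((p.a1 : ℝ) - p.a0))

/-- bilinear interpolation -/
noncomputable def bilR (P : Par) (p q : Cel) (g : Quad) (x y : ℝ) : ℝ :=
  ((((g.g00 : ℝ) - P.O) * (p.a1 - P.D * x) + ((g.g10 : ℝ) - P.O) * (P.D * x - p.a0))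
      * (q.a1 - P.D * y)
    + (((g.g01 : ℝ) - P.O) * (p.a1 - P.D * x) + ((g.g11 : ℝ) - P.O) * (P.D * x - p.a0))
      * (P.D * y - q.a0))
    / (P.Q * (((p.a1 : ℝ) - p.a0) * ((q.a1 : ℝ) - q.a0)))

/-- derivative of `bilR` in `x` -/
noncomputable def bilX (P : Par) (p q : Cel) (g : Quad) (y : ℝ) : ℝ :=
  P.D * (((g.g10 : ℝ) - g.g00) * (q.a1 - P.D * y) + ((g.g11 : ℝ) - g.g01) * (P.D * y - q.a0))
    / (P.Q * (((p.a1 : ℝ) - p.a0) * ((q.a1 : ℝ) - q.a0)))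

/-- derivative of `bilR` in `y` -/
noncomputable def bilY (P : Par) (p q : Cel) (g : Quad) (x : ℝ) : ℝ :=
  P.D * (((g.g01 : ℝ) - g.g00) * (p.a1 - P.D * x) + ((g.g11 : ℝ) - g.g10) * (P.D * x - p.a0))
    / (P.Q * (((p.a1 : ℝ) - p.a0) * ((q.a1 : ℝ) - q.a0)))

/-- the vertex function -/
noncomputable def WR (P : Par) (p q : Cel) (k : Ker) (x y z : ℝ) : ℝ :=
  bilR P p q k.k0 x y
    + bilR P p q k.k1 x y * co x y z
    + bilR P p q k.k2 x y * (2 * co x y z ^ 2 - 1)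
    + bilR P p q k.k3 x y * (4 * co x y z ^ 3 - 3 * co x y z)
    + bilR P p q k.k4 x y * (8 * co x y z ^ 4 - 8 * co x y z ^ 2 + 1)
    + (18 * co x y z ^ 2 - 8) / (x ^ 3 * y ^ 3)
    + (affR P p p.A0 p.A1 0 x - affR P p p.B0 p.B1 P.O x * (2 * co x y z ^ 2 - 1)) / y ^ 3
    + (affR P q q.A0 q.A1 0 y - affR P q q.B0 q.B1 P.O y * (2 * co x y z ^ 2 - 1)) / x ^ 3
    + (affR P p p.s0 p.s1 P.O x / y ^ 2 + affR P q q.s0 q.s1 P.O y / x ^ 2) * co x y z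

/-- the pair function, multiplied with `2/(N-2)` -/
noncomputable def UR (P : Par) (p : Cel) (x : ℝ) : ℝ :=
  2 / ((P.N : ℝ) - 2) *
    (((p.d0 : ℝ) * (p.a1 - P.D * x) ^ 2
        + 2 * ((p.d1 : ℝ) - P.O) * ((P.D * x - p.a0) * (p.a1 - P.D * x))
        + (p.d2 : ℝ) * (P.D * x - p.a0) ^ 2) / (P.Q * ((p.a1 : ℝ) - p.a0) ^ 2)
      + affR P p p.s0 p.s1 P.O x / x ^ 2 - affR P p p.s0 p.s1 P.O x * x / 2
      - (6 + (P.mu : ℝ) / P.Q) / x ^ 3 + 10 / x ^ 6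
      + affR P p p.C0 p.C1 0 x + affR P p p.R0 p.R1 P.O x / x ^ 3)

/-- the triangle function -/
noncomputable def SR (P : Par) (p q r : Cel) (k l m : Ker) (x y z : ℝ) : ℝ :=
  ((2 * (P.N : ℝ) - 3) + (P.mu : ℝ) / P.Q * P.Tb) * 6 / (P.N * ((P.N : ℝ) - 1) * ((P.N : ℝ) - 2))
    + UR P p x + UR P q y + UR P r z
    + WR P p q k x y z + WR P q r l y z x + WR P p r m x z y

/-- admissible constants -/
structure Chk.Par.Ok (P : Par) : Prop where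
  N3 : 3 ≤ P.N
  D0 : 0 < P.D
  Q0 : 0 < P.Q
  F0 : 0 < P.F
  k0 : 0 < P.kd

/-- admissible knot intervals (the last condition says that the diagonal of the kernels is convex) -/
structure Chk.Cel.Ok (P : Par) (p : Cel) : Prop where
  pos : 0 < p.a0
  lt : p.a0 < p.a1
  cvx : 2 * p.d1 ≤ p.d0 + p.d2 + 2 * P.O

/-- `f'' ≥ -K` on `[a, b]` -/
def LC (f : ℝ → ℝ) (a b K : ℝ) : Prop :=
  ConvexOn ℝ (Set.Icc a b) (fun t => f t + K / 2 * t ^ 2)

/-- `g(r) = 1/r³ - κ (1/r - r²/N)` -/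
noncomputable def gR (P : Par) (r : ℝ) : ℝ :=
  1 / r ^ 3 - (P.kn : ℝ) / P.kd * (1 / r - r ^ 2 / P.N)

/-- admissible triangles: sorted sides, triangle inequality, a-priori region -/
structure Adm (P : Par) (x y z : ℝ) : Prop where
  xy : x ≤ y
  yz : y ≤ z
  tri : z ≤ x + y
  reg : P.F * (gR P x + gR P y + gR P z) ≤ P.G0

end RelEqN.Small.Tri
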