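import Pool.Agent.Lib.MP_b9e19b_mp.Small.Tri.Defs

set_option autoImplicit false

/-!
# Three-point certificates: statements of the theory part

Notation: `r_ij = ‖q i - q j‖`, `w_ij = wt q i j = (r_ij ^ 3)⁻¹`, `M = 2N - 3`.
Every statement is a `def Stmt… : Prop`; the module named in its docstring proves it.
-/

namespace RelEqN.Small.Tri

open RelEqN.Small

/-- (T1, module Small/Tri/Ker.lean) Positivity of the pinned kernels.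
Proof. For `j ≠ i` put `u_ij = (q i - q j)/r_ij`, `|u_ij| = 1`. For every `i`
`0 ≤ |∑_{j≠i} f(r_ij) u_ij^m|² = ∑_j f(r_ij)² + ∑_{j≠k} f(r_ij) f(r_ik) Re((conj u_ij * u_ik)^m)` and
for a complex number `v` with `|v| = 1`: `Re (v^m) = ch m (Re v)` (induction on `m`:
`v^{m+2} = (2 Re v) v^{m+1} - v^m`); `Re (conj u_ij * u_ik) = cs q i j k`. Sum over `i`. -/
def StmtKer : Prop := ∀ (N : ℕ) (q : Fin N → ℂ), Function.Injective q →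
  ∀ (m : ℕ) (f : ℝ → ℝ),
    0 ≤ pS q (fun r => f r ^ 2) + tS q (fun x y c => f x * f y * ch m c)

/-- (T2, module Small/Tri/Phi.lean) The equation of the central configuration, tested with
`ψ(r_ik)/r_ik (q_i - q_k)`.
Proof. For every `i`: `∑_j w_ij (q_i - q_j) = q_i`. Multiply with
`conj (ψ(r_ik)/r_ik (q_i - q_k))`, take real parts and sum over `k ≠ i` and `i`. The terms `j = k` give
`ψ(r_ik)/r_ik w_ik r_ik² = ψ(r_ik)/r_ik²`, the terms `j ≠ k` give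
`ψ(r_ik)/r_ik w_ij r_ik r_ij cs q i k j = ψ(r_ik) cs q i k j / r_ij²` (so `x = r_ik`, `y = r_ij`), and
`∑_i ∑_k ψ(r_ik)/r_ik Re(conj(q_i - q_k) q_i) = (1/2) ∑_i ∑_k ψ(r_ik) r_ik`
(symmetrise in `(i, k)`). -/
def StmtPhi : Prop := ∀ (N : ℕ) (q : Fin N → ℂ), CC q → ∀ (ψ : ℝ → ℝ),
    pS q (fun r => ψ r / r ^ 2 - ψ r * r / 2) + tS q (fun x y c => ψ x * c / y ^ 2) = 0

/-- (T3, module Small/Tri/PFour.lean) `T` and `p4` as sums over pairs and vertices.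
Proof. `dd q i = ∑_{j ≠ i} w_ij`, `cc q i = ∑_{j ≠ i} w_ij u_ij²` (here
`wu q i j = w_ij u_ij²`, `u_ij = (q i - q j)/r_ij`); expand the squares:
`dd q i ^ 2 = ∑_j w_ij² + ∑_{j≠k} w_ij w_ik`,
`‖cc q i‖ ^ 2 = ∑_j w_ij² + ∑_{j≠k} w_ij w_ik (2 c² - 1)`, `c = cs q i j k`
(`Re (conj(u_ij²) u_ik²) = 2 c² - 1`). So
`p4 = M - 6 T + (1/2 + 9/2 + 5) ∑∑ w² + ∑_i ∑_{j≠k} (1/2 + 9/2 (2c² - 1)) w_ij w_ik`. -/
def StmtPFour : Prop := ∀ (N : ℕ) (q : Fin N → ℂ), Function.Injective q →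
    T q = pS q (fun r => 1 / r ^ 3) ∧
    p4 q = (2 * N - 3) + pS q (fun r => -6 / r ^ 3 + 10 / r ^ 6)
      + tS q (fun x y c => (9 * c ^ 2 - 4) / (x ^ 3 * y ^ 3))

/-- (T4, module Small/Tri/PairTest.lean) The pair tests, odd case (`σ = 1`) and even case
(`σ = 0`).
Proof. Fix `i ≠ j` and real numbers `α, β`; let `u = (q i - q j)/r_ij`. In the odd case take
`a = α u (e_i - e_j)`, `b = -β conj(u) (e_i - e_j)`, in the even case `a = α u (e_i + e_j)`,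
`b = -β conj(u) (e_i + e_j)` (`e_i` the standard basis vectors). Then
`∑ ‖a‖² = 2 α²`, `∑ ‖b‖² = 2 β²` and
`Hf q ν a b = 2 (ν+1)² α² + 2 (ν-1)² β²
 + σ (2 w_ij (α² + β²) - 12 w_ij α β)
 + ∑_{k ≠ i,j} [(1/2) w_ik (α² + β²) - 3 w_ik (2 cs(i;j,k)² - 1) α β]
 + ∑_{k ≠ i,j} [(1/2) w_jk (α² + β²) - 3 w_jk (2 cs(j;i,k)² - 1) α β]`.
By `Nec.pos` (`sS q ≤ ν²`) this is `≥ lam ν (2 α² + 2 β²)`; so the quadratic form
`Q_ij(α, β) = (this) - lam ν (2 α² + 2 β²)` is nonnegative, and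
`Q_ij(α, β) = A00 α² + 2 A01 α β + A11 β²` with `A00, A11 ≥ 0`, `A01² ≤ A00 A11`. For a positive
semidefinite matrix `(p0, p1; p1, p2)` therefore `p0 A00 + 2 p1 A01 + p2 A11 ≥ 0` (write the matrix as
a sum of two squares, or Cauchy-Schwarz). Take the matrix at `r_ij` and sum over all ordered pairs
`(i, j)`, divide by `2`; use `(ν+1)² - lam ν ≤ ca`, `(ν-1)² - lam ν ≤ cb` and `p0, p2 ≥ 0`. The two
sums over `k` give the same total, which is the `tS` term. -/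
def StmtPairTest : Prop := ∀ (N : ℕ) (q : Fin N → ℂ), 3 ≤ N → Nec q →
  ∀ (ν ca cb σ : ℝ), (σ = 0 ∨ σ = 1) → 0 ≤ ν → ν ≤ 1 → sS q ≤ ν ^ 2 →
    (ν + 1) ^ 2 - lam ν ≤ ca → (ν - 1) ^ 2 - lam ν ≤ cb →
  ∀ (p0 p1 p2 : ℝ → ℝ),
    (∀ i j : Fin N, i ≠ j → 0 ≤ p0 ‖q i - q j‖ ∧ 0 ≤ p2 ‖q i - q j‖ ∧
      p1 ‖q i - q j‖ ^ 2 ≤ p0 ‖q i - q j‖ * p2 ‖q i - q j‖) →
    0 ≤ pS q (fun r => ca * p0 r + cb * p2 r + σ * ((p0 r + p2 r - 6 * p1 r) / r ^ 3))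
      + tS q (fun x y c => ((p0 x + p2 x) / 2 - 3 * p1 x * (2 * c ^ 2 - 1)) / y ^ 3)

/-- (T5, module Small/Tri/Dist.lean) Distribution over the triangles.
Proof. `pS q u = ∑_{(i,j,k) distinct} u(r_ij)/(N-2)` and `tS q G = ∑_{(i,j,k) distinct} G(r_ij, r_ik, cs i j k)`;
so `C + pS q u + tS q G = ∑_{(i,j,k) distinct} R(i,j,k)` with
`R = C/(N(N-1)(N-2)) + u(r_ij)/(N-2) + G(r_ij, r_ik, cs i j k)`. Summing the hypothesis over all ordered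
triples counts every `R` six times (permute the indices). `cs q i j k = co r_ij r_ik r_jk` for
distinct `i, j, k` (law of cosines). -/
def StmtDist : Prop := ∀ (N : ℕ) (q : Fin N → ℂ), 3 ≤ N → Function.Injective q →
  ∀ (C : ℝ) (u : ℝ → ℝ) (G : ℝ → ℝ → ℝ → ℝ),
    (∀ i j k : Fin N, i ≠ j → i ≠ k → j ≠ k →
      C * 6 / (N * (N - 1) * (N - 2))
      + 2 / (N - 2) * (u ‖q i - q j‖ + u ‖q i - q k‖ + u ‖q j - q k‖)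
      + (G ‖q i - q j‖ ‖q i - q k‖ (co ‖q i - q j‖ ‖q i - q k‖ ‖q j - q k‖)
        + G ‖q i - q k‖ ‖q i - q j‖ (co ‖q i - q j‖ ‖q i - q k‖ ‖q j - q k‖))
      + (G ‖q i - q j‖ ‖q j - q k‖ (co ‖q i - q j‖ ‖q j - q k‖ ‖q i - q k‖)
        + G ‖q j - q k‖ ‖q i - q j‖ (co ‖q i - q j‖ ‖q j - q k‖ ‖q i - q k‖))
      + (G ‖q i - q k‖ ‖q j - q k‖ (co ‖q i - q k‖ ‖q j - q k‖ ‖q i - q j‖)
        + G ‖q j - q k‖ ‖q i - q k‖ (co ‖q i - q k‖ ‖q j - q k‖ ‖q i - q j‖)) < 0) →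
    C + pS q u + tS q G < 0

/-- Positivity of the multiplier matrices at the distances of `q`. -/
def Fn.Psd {N : ℕ} (F : Fn) (q : Fin N → ℂ) : Prop :=
  (∀ i j : Fin N, i ≠ j → 0 ≤ F.p0 ‖q i - q j‖ ∧ 0 ≤ F.p2 ‖q i - q j‖ ∧
      F.p1 ‖q i - q j‖ ^ 2 ≤ F.p0 ‖q i - q j‖ * F.p2 ‖q i - q j‖) ∧
  (∀ i j : Fin N, i ≠ j → 0 ≤ F.e0 ‖q i - q j‖ ∧ 0 ≤ F.e2 ‖q i - q j‖ ∧
      F.e1 ‖q i - q j‖ ^ 2 ≤ F.e0 ‖q i - q j‖ * F.e2 ‖q i - q j‖)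

/-- (T6, module Small/Tri/Main.lean; uses T1 - T5) The three-point inequality, version with pair
tests. Proof. Otherwise `Fn.S < 0` at all triples of distinct bodies, so T5 with
`C = (2N-3) + μ Tb`, `u = F.U`, `G = F.V` gives `C + pS q F.U + tS q F.V < 0`. But
`C + pS q F.U + tS q F.V = p4 q + μ (Tb - T q) + ∑_{(m,f) ∈ F.ker} (T1) + (T2) + (T4, odd) + (T4, even)`
(linearity of `pS`, `tS`; T3), and `p4 q ≥ 0` by `Nec.lo` (`(2N - 4) p4 ≥ sS² ≥ 0`, `N ≥ 3`). -/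
def StmtMain : Prop := ∀ (N : ℕ) (q : Fin N → ℂ), 3 ≤ N → Nec q →
  ∀ (F : Fn) (Tb ν : ℝ), 0 ≤ F.mu → T q ≤ Tb → 0 ≤ ν → ν ≤ 1 → sS q ≤ ν ^ 2 →
    (ν + 1) ^ 2 - lam ν ≤ F.ca → (ν - 1) ^ 2 - lam ν ≤ F.cb → F.Psd q →
  ∃ i j k : Fin N, i ≠ j ∧ i ≠ k ∧ j ≠ k ∧
    0 ≤ F.S N Tb ‖q i - q j‖ ‖q i - q k‖ ‖q j - q k‖

/-- (T6', same module) The three-point inequality without pair tests (all `p`, `e` zero). -/
def StmtMain0 : Prop := ∀ (N : ℕ) (q : Fin N → ℂ), 3 ≤ N → Nec q →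
  ∀ (F : Fn) (Tb : ℝ), 0 ≤ F.mu → T q ≤ Tb →
    (∀ r, F.p0 r = 0 ∧ F.p1 r = 0 ∧ F.p2 r = 0 ∧ F.e0 r = 0 ∧ F.e1 r = 0 ∧ F.e2 r = 0) →
  ∃ i j k : Fin N, i ≠ j ∧ i ≠ k ∧ j ≠ k ∧
    0 ≤ F.S N Tb ‖q i - q j‖ ‖q i - q k‖ ‖q j - q k‖

/-- (T7, module Small/Tri/Region.lean) The a-priori region of triangles.
Let `g(r) = 1/r³ - κ (1/r - r²/N)`. Proof. `∑_{i<j} (1/r_ij - r_ij²/N) = 0`: the virial identity
(`RelEqN.virial` for unit masses, or directly: multiply the equation at `i` with `conj q_i`, sum, take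
real parts) gives `∑_i |q_i|² = ∑_{i<j} 1/r_ij`, and `∑_{i<j} r_ij² = N ∑_i |q_i|²` because
`∑ q_i = 0`. So `T/2 = ∑_{i<j} g(r_ij)`. If `t ≤ g` everywhere then
`g(r_ij) + g(r_ik) + g(r_jk) + (N(N-1)/2 - 3) t ≤ T/2` and `g(r_ij) + (N(N-1)/2 - 1) t ≤ T/2`. -/
def StmtRegion : Prop := ∀ (N : ℕ) (q : Fin N → ℂ), 3 ≤ N → CC q →
  ∀ (κ t : ℝ), (∀ r : ℝ, 0 < r → t ≤ 1 / r ^ 3 - κ * (1 / r - r ^ 2 / N)) →
  (∀ i j k : Fin N, i ≠ j → i ≠ k → j ≠ k →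
    (1 / ‖q i - q j‖ ^ 3 - κ * (1 / ‖q i - q j‖ - ‖q i - q j‖ ^ 2 / N))
    + (1 / ‖q i - q k‖ ^ 3 - κ * (1 / ‖q i - q k‖ - ‖q i - q k‖ ^ 2 / N))
    + (1 / ‖q j - q k‖ ^ 3 - κ * (1 / ‖q j - q k‖ - ‖q j - q k‖ ^ 2 / N))
    ≤ T q / 2 - (N * (N - 1) / 2 - 3) * t) ∧
  (∀ i j : Fin N, i ≠ j →
    (1 / ‖q i - q j‖ ^ 3 - κ * (1 / ‖q i - q j‖ - ‖q i - q j‖ ^ 2 / N))
    ≤ T q / 2 - (N * (N - 1) / 2 - 1) * t)

/-- (T8, module Small/Tri/Region.lean as well) Upper bound of the distances.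
Proof. `r_ij² ≤ 2 |q_i|² + 2 |q_j|² ≤ 2 ∑ |q_k|² = 2 ∑_{k<l} 1/r_kl` (see T7), and
`1/r ≤ l²/(3 r³) + 2/(3 l)` for `r, l > 0` (AM-GM: `l² /r³ + 1/l + 1/l ≥ 3/r`), so
`r_ij² ≤ 2 (l²/3 T/2 + (2/(3 l)) N(N-1)/2)`. -/
def StmtRange : Prop := ∀ (N : ℕ) (q : Fin N → ℂ), 3 ≤ N → CC q → ∀ l : ℝ, 0 < l →
  ∀ i j : Fin N, i ≠ j → ‖q i - q j‖ ^ 2 ≤ l ^ 2 / 3 * T q + 2 / (3 * l) * (N * (N - 1))

end RelEqN.Small.Tri
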