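import Pool.Agent.Lib.MP_b9e19b_mp.Small.Tri.Real

set_option autoImplicit false

/-!
# Three-point certificates: statements of the checker part

A box is `[X0/D, X1/D] × [Y0/D, Y1/D] × [Z0/D, Z1/D]` with natural numbers `0 < X0 < X1` etc.
-/

namespace RelEqN.Small.Tri

open Chk

/-- (C0, module Small/Tri/LCd.lean) Rules for `LC`.
Proof. Second derivative test (`f + K/2 t²` has the second derivative `f'' + K ≥ 0`; e.g.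
`convexOn_of_hasDerivWithinAt2_nonneg` or monotonicity of the derivative), sums and nonnegative
multiples of convex functions, `(K' - K)/2 t²` is convex. -/
def StmtLC : Prop :=
  (∀ (f f' f'' : ℝ → ℝ) (a b K : ℝ), (∀ x ∈ Set.Icc a b, HasDerivAt f (f' x) x) →
    (∀ x ∈ Set.Icc a b, HasDerivAt f' (f'' x) x) → (∀ x ∈ Set.Icc a b, -K ≤ f'' x) →
    LC f a b K) ∧
  (∀ (f g : ℝ → ℝ) (a b K L : ℝ), LC f a b K → LC g a b L →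
    LC (fun t => f t + g t) a b (K + L)) ∧
  (∀ (f : ℝ → ℝ) (a b c K : ℝ), 0 ≤ c → LC f a b K → LC (fun t => c * f t) a b (c * K)) ∧
  (∀ (f : ℝ → ℝ) (a b c K : ℝ), LC f a b K → LC (fun t => c + f t) a b K) ∧
  (∀ (f : ℝ → ℝ) (a b K L : ℝ), K ≤ L → LC f a b K → LC f a b L)

/-- (C1, module Small/Tri/Chord.lean) Chord bound.
Proof. `g t = f t + K/2 t²` is convex; for `t = (1-s) a + s b`:
`f t ≤ (1-s) f a + s f b + K/2 ((1-s) a² + s b² - t²)` and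
`(1-s) a² + s b² - t² = s (1-s) (b-a)² ≤ (b-a)²/4`. -/
def StmtChord : Prop := ∀ (f : ℝ → ℝ) (a b K : ℝ), 0 ≤ K → LC f a b K →
  ∀ t ∈ Set.Icc a b, f t ≤ max (f a) (f b) + K * (b - a) ^ 2 / 8

/-- (C2, same module Small/Tri/Chord.lean) Box bound: apply C1 in `x`, `y`, `z` one after the other. -/
def StmtBox3 : Prop := ∀ (f : ℝ → ℝ → ℝ → ℝ) (x0 x1 y0 y1 z0 z1 Kx Ky Kz c : ℝ),
  x0 ≤ x1 → y0 ≤ y1 → z0 ≤ z1 → 0 ≤ Kx → 0 ≤ Ky → 0 ≤ Kz →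
  (∀ y ∈ Set.Icc y0 y1, ∀ z ∈ Set.Icc z0 z1, LC (fun x => f x y z) x0 x1 Kx) →
  (∀ x ∈ Set.Icc x0 x1, ∀ z ∈ Set.Icc z0 z1, LC (fun y => f x y z) y0 y1 Ky) →
  (∀ x ∈ Set.Icc x0 x1, ∀ y ∈ Set.Icc y0 y1, LC (fun z => f x y z) z0 z1 Kz) →
  f x0 y0 z0 ≤ c → f x1 y0 z0 ≤ c → f x0 y1 z0 ≤ c → f x1 y1 z0 ≤ c →
  f x0 y0 z1 ≤ c → f x1 y0 z1 ≤ c → f x0 y1 z1 ≤ c → f x1 y1 z1 ≤ c →
  ∀ x ∈ Set.Icc x0 x1, ∀ y ∈ Set.Icc y0 y1, ∀ z ∈ Set.Icc z0 z1,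
    f x y z ≤ c + (Kx * (x1 - x0) ^ 2 + Ky * (y1 - y0) ^ 2 + Kz * (z1 - z0) ^ 2) / 8

/-- (C3, module Small/Tri/WVal.lean) Value of the vertex function at a lattice point.
Proof. `n/d ≤ up F n d / F` and `dn F n d / F ≤ n/d` for `d > 0`. With `a = X² + Y² - Z²`
(`a = ap - an`, `a² = a2` because one of `ap, an` is `0`), `b = 2XY`, `co = a/b`, each of the six
summands of `WR` (the five bilinear terms together, the term `(18c² - 8)/(x³y³)`, the two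
`A, B`-terms, the two `ψ`-terms) is `(pos - neg)/den` with the numerators and denominators of `WP`, `WN`
(the denominators of the `B`-terms: `A - B (2c² - 1) = (Ax b² - (Bx - O ha)(2a² - b²))/(b² Q ha)`). -/
def StmtWVal : Prop := ∀ (P : Par) (p q : Cel) (k : Ker) (X Y Z : ℕ), P.Ok → p.Ok P → q.Ok P →
  0 < X → 0 < Y → 0 < Z → p.a0 ≤ X → X ≤ p.a1 → q.a0 ≤ Y → Y ≤ q.a1 →
  (P.F : ℝ) * WR P p q k ((X : ℝ) / P.D) ((Y : ℝ) / P.D) ((Z : ℝ) / P.D)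
    ≤ (WP P p q k X Y Z : ℝ) - (WN P p q k X Y Z : ℝ)

/-- (C4, module Small/Tri/UVal.lean) Value of the pair function at a lattice point. Proof as C3. -/
def StmtUVal : Prop := ∀ (P : Par) (p : Cel) (X : ℕ), P.Ok → p.Ok P →
  0 < X → p.a0 ≤ X → X ≤ p.a1 →
  (P.F : ℝ) * UR P p ((X : ℝ) / P.D) ≤ (UP P p X : ℝ) - (UN P p X : ℝ)

/-- (C5, module Small/Tri/CoBd.lean) Bounds of the cosine and of its derivatives on a box.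
Proof. `n/d ≤ up F n d / F`; natural subtraction only makes the positive part larger; the
numerators are bounded by their values at the suitable corners, the denominators from below by their
values at `(X0, Y0)`. -/
def StmtCoBd : Prop := ∀ (P : Par) (X0 X1 Y0 Y1 Z0 Z1 : ℕ), P.Ok → 0 < X0 → 0 < Y0 → 0 < Z0 →
  ∀ x ∈ Set.Icc ((X0 : ℝ) / P.D) ((X1 : ℝ) / P.D), ∀ y ∈ Set.Icc ((Y0 : ℝ) / P.D) ((Y1 : ℝ) / P.D),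
  ∀ z ∈ Set.Icc ((Z0 : ℝ) / P.D) ((Z1 : ℝ) / P.D),
    (P.F : ℝ) * |co x y z| ≤ cmN P X0 X1 Y0 Y1 Z0 Z1 ∧
    (P.F : ℝ) * |(x ^ 2 - y ^ 2 + z ^ 2) / (2 * x ^ 2 * y)| ≤ gaN P X0 X1 Y0 Y1 Z0 Z1 ∧
    (P.F : ℝ) * |(y ^ 2 - z ^ 2) / (x ^ 3 * y)| ≤ haN P X0 Y0 Y1 Z0 Z1 ∧
    (P.F : ℝ) * (z / (x * y)) ≤ gzN P X0 Y0 Z1 ∧
    (P.F : ℝ) * (1 / (x * y)) ≤ hzN P X0 Y0 ∧
    cmN P Y0 Y1 X0 X1 Z0 Z1 = cmN P X0 X1 Y0 Y1 Z0 Z1 ∧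
    (∀ k : ℕ, (P.F : ℝ) * (1 / x ^ k) ≤ ipw P k X0)

/-- (C6, module Small/Tri/TBd.lean) Bounds of the Chebyshev polynomials and their derivatives.
Proof. `|c| ≤ C = cm/F`. `-1 ≤ 2c² - 1 ≤ 2C² - 1`; `-3 ≤ 12c² - 3 ≤ 12C² - 3`;
`-16 ≤ 96c² - 16 ≤ 96C² - 16`; for `u = |c|`: `32u³ - 16u ≥ -5` for all `u ≥ 0` (the minimum is
`-4.36…`), and `32u³ - 16u ≤ max(5, 32C³ - 16C)`: it is convex in `u ≥ 0` and `0` at `u = 0`, so on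
`[0, C]` it is at most `max(0, 32C³ - 16C)`. Natural subtraction and division: rounding up. -/
def StmtTBd : Prop := ∀ (F cm : ℕ) (c : ℝ), 0 < F → (F : ℝ) * |c| ≤ (cm : ℝ) →
    (F : ℝ) * |2 * c ^ 2 - 1| ≤ (t02 F cm : ℝ) ∧ (F : ℝ) * |12 * c ^ 2 - 3| ≤ (t13 F cm : ℝ) ∧
    (F : ℝ) * |32 * c ^ 3 - 16 * c| ≤ (t14 F cm : ℝ) ∧
    (F : ℝ) * |96 * c ^ 2 - 16| ≤ (t24 F cm : ℝ)

/-- (C7, module Small/Tri/NodeBd.lean) Bounds of the interpolations on a box.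
Proof. A bilinear (affine) function on a rectangle (interval) takes its extreme values at the
corners (end points); `|n - o| = ad n o`. -/
def StmtNodeBd : Prop := ∀ (P : Par) (p q : Cel) (X0 X1 Y0 Y1 : ℕ), P.Ok → p.Ok P → q.Ok P →
  p.a0 ≤ X0 → X0 ≤ X1 → X1 ≤ p.a1 → q.a0 ≤ Y0 → Y0 ≤ Y1 → Y1 ≤ q.a1 →
  ∀ x ∈ Set.Icc ((X0 : ℝ) / P.D) ((X1 : ℝ) / P.D), ∀ y ∈ Set.Icc ((Y0 : ℝ) / P.D) ((Y1 : ℝ) / P.D),
    (∀ g : Quad, (P.F : ℝ) * |bilR P p q g x y| ≤ sm P p q g X0 X1 Y0 Y1 ∧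
      (P.F : ℝ) * |bilX P p q g y| ≤ sx P p q g Y0 Y1 ∧ (P.F : ℝ) * |bilY P p q g x| ≤ sy P p q g X0 X1) ∧
    (∀ f0 f1 o : ℕ, (P.F : ℝ) * |affR P p f0 f1 o x| ≤ fa P p f0 f1 o X0 X1 ∧
      (P.F : ℝ) * (-affR P p f0 f1 o x) ≤ fneg P p f0 f1 o X0 X1 ∧
      (P.F : ℝ) * |affS P p f0 f1| ≤ fs P p f0 f1)

/-- (C8, module Small/Tri/KXa.lean; uses C0, C5, C6, C7) Second derivative of the vertex function in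
the first side.
Proof. Fix `y, z`. With `c(x) = co x y z`: `c' = (x² - y² + z²)/(2x²y)`, `c'' = (y² - z²)/(x³y)`.
For a twice differentiable `t` and `L` affine: `(L t(c))'' = 2 L' t'(c) c' + L (t''(c) c'² + t'(c) c'')`.
Apply to the five kernels (`L = bilR`, `L' = bilX`; `t = 1, c, 2c²-1, 4c³-3c, 8c⁴-8c²+1`;
`t' = 0, 1, 4c, 12c²-3, 32c³-16c`, `t'' = 0, 0, 4, 24c, 96c²-16`), to `B_p(x)(2c²-1)/y³`, and similarly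
`((18c²-8)x⁻³)'' = 12x⁻⁵(18c²-8) - 6x⁻⁴·36cc' + x⁻³(36c'² + 36cc'')` with `18c² - 8 = 1 + 9(2c²-1)`,
`(x⁻³(A_q - B_q(2c²-1)))''`, `(ψ_p c)'' = 2ψ_p'c' + ψ_p c''`,
`(x⁻²c)'' = 6x⁻⁴c - 4x⁻³c' + x⁻²c''`. The absolute value of the sum is at most `KX/F⁴` (replace every
factor by its bound; `kadj` is this sum, multiplied with `F⁴`). A twice differentiable function with
`f'' ≥ -K` satisfies `LC f a b K` (`f + K/2 x²` has nonnegative second derivative; Mathlib: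
`convexOn_of_hasDerivWithinAt2_nonneg` or `convexOn_of_deriv2_nonneg`; work on an interval inside
`(0, ∞)`). -/
def StmtKX : Prop := ∀ (P : Par) (p q : Cel) (k : Ker) (X0 X1 Y0 Y1 Z0 Z1 : ℕ),
  P.Ok → p.Ok P → q.Ok P → 0 < X0 → X0 ≤ X1 → 0 < Y0 → Y0 ≤ Y1 → 0 < Z0 → Z0 ≤ Z1 →
  p.a0 ≤ X0 → X1 ≤ p.a1 → q.a0 ≤ Y0 → Y1 ≤ q.a1 →
  ∀ y ∈ Set.Icc ((Y0 : ℝ) / P.D) ((Y1 : ℝ) / P.D), ∀ z ∈ Set.Icc ((Z0 : ℝ) / P.D) ((Z1 : ℝ) / P.D),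
    LC (fun x => WR P p q k x y z) ((X0 : ℝ) / P.D) ((X1 : ℝ) / P.D)
      ((KX P p q k X0 X1 Y0 Y1 Z0 Z1 : ℝ) / (P.F : ℝ) ^ 4)

/-- (C9, module Small/Tri/KYa.lean; uses C0, C5, C6, C7) Second derivative of the vertex function in
the second side. Proof as C8 with the roles of the two sides exchanged (`co x y z = co y x z`; apply
C5 with `(x, y)` exchanged for `c' = (y² - x² + z²)/(2y²x)`, `c'' = (x² - z²)/(y³x)`). -/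
def StmtKY : Prop := ∀ (P : Par) (p q : Cel) (k : Ker) (X0 X1 Y0 Y1 Z0 Z1 : ℕ),
  P.Ok → p.Ok P → q.Ok P → 0 < X0 → X0 ≤ X1 → 0 < Y0 → Y0 ≤ Y1 → 0 < Z0 → Z0 ≤ Z1 →
  p.a0 ≤ X0 → X1 ≤ p.a1 → q.a0 ≤ Y0 → Y1 ≤ q.a1 →
  ∀ x ∈ Set.Icc ((X0 : ℝ) / P.D) ((X1 : ℝ) / P.D), ∀ z ∈ Set.Icc ((Z0 : ℝ) / P.D) ((Z1 : ℝ) / P.D),
    LC (fun y => WR P p q k x y z) ((Y0 : ℝ) / P.D) ((Y1 : ℝ) / P.D)
      ((KY P p q k X0 X1 Y0 Y1 Z0 Z1 : ℝ) / (P.F : ℝ) ^ 4)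

/-- (C10, module Small/Tri/KZa.lean; uses C0, C5, C6, C7) Second derivative of the vertex function in
the opposite side. Proof. `c' = -z/(xy)`, `c'' = -1/(xy)`; only `c` depends on `z`. -/
def StmtKZ : Prop := ∀ (P : Par) (p q : Cel) (k : Ker) (X0 X1 Y0 Y1 Z0 Z1 : ℕ),
  P.Ok → p.Ok P → q.Ok P → 0 < X0 → X0 ≤ X1 → 0 < Y0 → Y0 ≤ Y1 → 0 < Z0 → Z0 ≤ Z1 →
  p.a0 ≤ X0 → X1 ≤ p.a1 → q.a0 ≤ Y0 → Y1 ≤ q.a1 →
  ∀ x ∈ Set.Icc ((X0 : ℝ) / P.D) ((X1 : ℝ) / P.D), ∀ y ∈ Set.Icc ((Y0 : ℝ) / P.D) ((Y1 : ℝ) / P.D),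
    LC (fun z => WR P p q k x y z) ((Z0 : ℝ) / P.D) ((Z1 : ℝ) / P.D)
      ((KZ P p q k X0 X1 Y0 Y1 Z0 Z1 : ℝ) / (P.F : ℝ) ^ 4)

/-- (C11, module Small/Tri/KUa.lean; uses C0, C5 (only `ipw`), C7) Second derivative of the pair
function. Proof. The diagonal term is a quadratic polynomial with nonnegative leading coefficient
`D² (d0 - 2(d1 - O) + d2)/(Q (a1-a0)²)` (`Cel.Ok.cvx`), so it is convex. For affine `ψ`: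
`(ψ/x²)'' = 6ψ/x⁴ - 4ψ'/x³`, `(-ψx/2)'' = -ψ'`; `(-(6+μ)/x³)'' = -12(6+μ)/x⁵`; `(10/x⁶)'' = 420/x⁸`;
`C'' = 0`; `(R/x³)'' = 12R/x⁵ - 6R'/x⁴`. So `-U'' ≤ 6ψ⁻/x⁴ + 4|ψ'|/x³ + |ψ'| + 12(6+μ)/x⁵ + 6|R'|/x⁴
+ 12R⁻/x⁵ - 420/x⁸`; bound `1/x^k` by `ipw`, `420/x⁸` from below by its value at `X1` rounded down; the
natural subtraction in `KU` makes the result nonnegative (it is an upper bound of the positive
part). Multiply with `2/(N-2)`; `KU` has the unit `1/F⁴`. -/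
def StmtKU : Prop := ∀ (P : Par) (p : Cel) (X0 X1 : ℕ),
  P.Ok → p.Ok P → 0 < X0 → X0 ≤ X1 → p.a0 ≤ X0 → X1 ≤ p.a1 →
    LC (fun x => UR P p x) ((X0 : ℝ) / P.D) ((X1 : ℝ) / P.D)
      ((KU P p X0 X1 : ℝ) / (P.F : ℝ) ^ 4)

/-- (C12, module Small/Tri/Leaf.lean; uses C0, C2, C3, C4, C8 - C11) The corner test.
Proof. `SR` is a constant plus `UR p x + UR q y + UR r z + WR p q (x, y, z) + WR q r (y, z, x)
+ WR p r (x, z, y)`; `LC` is additive. In the direction `x` the constant is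
`Kx = (KX pqk + KZ qrl + KX prm + KU p)/F⁴` (see `e1`), and
`F · Kx (x1 - x0)²/8 ≤ e1`; similarly `e2`, `e3`. At a corner the test says
`CP + SP + e + 1 ≤ SN`, hence `F · SR(corner) ≤ CP + SP - SN ≤ -1 - e`. -/
def StmtLeaf : Prop := ∀ (P : Par) (p q r : Cel) (k l m : Ker) (X0 X1 Y0 Y1 Z0 Z1 : ℕ),
  P.Ok → p.Ok P → q.Ok P → r.Ok P →
  p.a0 ≤ X0 → X0 ≤ X1 → X1 ≤ p.a1 → q.a0 ≤ Y0 → Y0 ≤ Y1 → Y1 ≤ q.a1 →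
  r.a0 ≤ Z0 → Z0 ≤ Z1 → Z1 ≤ r.a1 →
  corners P p q r k l m (e1 P p q r k l m X0 X1 Y0 Y1 Z0 Z1
      + e2 P p q r k l m X0 X1 Y0 Y1 Z0 Z1 + e3 P p q r k l m X0 X1 Y0 Y1 Z0 Z1)
      X0 X1 Y0 Y1 Z0 Z1 = true →
  ∀ x ∈ Set.Icc ((X0 : ℝ) / P.D) ((X1 : ℝ) / P.D), ∀ y ∈ Set.Icc ((Y0 : ℝ) / P.D) ((Y1 : ℝ) / P.D),
  ∀ z ∈ Set.Icc ((Z0 : ℝ) / P.D) ((Z1 : ℝ) / P.D), SR P p q r k l m x y z < 0

/-- (C13, module Small/Tri/Skip.lean) The skip test.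
Proof. `g(r) ≥ 1/r1³ - κ/r0 + κ r0²/N` on `[r0, r1]`, so `F g ≥ gP - gN` (rounding: `gP` down, `gN` up);
if `G0 + ∑ gN < ∑ gP` then `F (g x + g y + g z) > G0`. -/
def StmtSkip : Prop := ∀ (P : Par) (X0 X1 Y0 Y1 Z0 Z1 : ℕ),
  P.Ok → 0 < X0 → X0 ≤ X1 → 0 < Y0 → Y0 ≤ Y1 → 0 < Z0 → Z0 ≤ Z1 →
  skip P X0 X1 Y0 Y1 Z0 Z1 = true →
  ∀ x ∈ Set.Icc ((X0 : ℝ) / P.D) ((X1 : ℝ) / P.D), ∀ y ∈ Set.Icc ((Y0 : ℝ) / P.D) ((Y1 : ℝ) / P.D),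
  ∀ z ∈ Set.Icc ((Z0 : ℝ) / P.D) ((Z1 : ℝ) / P.D), ¬ Adm P x y z

/-- (C14, module Small/Tri/Go.lean; uses C12, C13) Soundness of the adaptive bisection.
Proof. Induction on the fuel; the midpoint `c = (X0 + X1)/2` satisfies `X0 ≤ c ≤ X1` and every `x` of
`[X0/D, X1/D]` is in `[X0/D, c/D]` or in `[c/D, X1/D]`. Then specialise to `cell`. -/
def StmtGo : Prop := ∀ (P : Par) (p q r : Cel) (k l m : Ker),
  P.Ok → p.Ok P → q.Ok P → r.Ok P → cell P p q r k l m = true →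
  ∀ x ∈ Set.Icc ((p.a0 : ℝ) / P.D) ((p.a1 : ℝ) / P.D),
  ∀ y ∈ Set.Icc ((q.a0 : ℝ) / P.D) ((q.a1 : ℝ) / P.D),
  ∀ z ∈ Set.Icc ((r.a0 : ℝ) / P.D) ((r.a1 : ℝ) / P.D), Adm P x y z → SR P p q r k l m x y z < 0

end RelEqN.Small.Tri
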