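import Pool.Agent.Lib.MP_b9e19b_mp.Small.Tri.Link

set_option autoImplicit false

/-!
# Three-point certificates: statements of the link between the checker and the theory

In `Nat`, `C.kt a = C.kn.getD a 0`. `C.good = true` contains: `3 ≤ N`, `0 < D, E, F, kd`, `Q = E * E`,
`O = H * E`, `2 ≤ C.kn.length`, and the checks `okCel`, `okKer`, `okP` for all indices.
-/

namespace RelEqN.Small.Tri

open Chk RelEqN.Small

/-- (D1, module Small/Tri/Plf.lean) Formula on a knot interval.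
Proof. Induction on `a` (generalising `kn` and `f`). For `a = 0` the first branch applies. For
`a + 1`: `x ≥ kn[a+1]/D ≥ kn[1]/D`; if `D x ≤ kn[1]` then `D x = kn[1]`, `a = 0` (strict monotonicity) and both sides are `f 1`;
otherwise use the induction hypothesis for the tail. -/
def StmtPlf : Prop := ∀ (D : ℕ), 0 < D → ∀ (kn : List ℕ) (f : ℕ → ℝ) (a : ℕ) (x : ℝ),
  (∀ i, i + 1 < kn.length → kn.getD i 0 < kn.getD (i + 1) 0) → a + 1 < kn.length →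
  x ∈ Set.Icc ((kn.getD a 0 : ℝ) / D) ((kn.getD (a + 1) 0 : ℝ) / D) →
  plf D kn f x = (f a * ((kn.getD (a + 1) 0 : ℝ) - D * x) + f (a + 1) * (D * x - (kn.getD a 0 : ℝ)))
    / ((kn.getD (a + 1) 0 : ℝ) - (kn.getD a 0 : ℝ))

/-- (D2, module Small/Tri/Good.lean) What `good` says.
Proof. Unfold `good`, `List.all_eq_true`, `List.mem_range`; `okCel` contains `Cel.Ok` and the end
points. For the sums: `(sA H vs a b : ℝ) - sB H vs a b = (vs.map fun v => (v_a - H) * (v_b - H)).sum`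
by induction on `vs`. Positivity of the multipliers at the nodes: `(ad p H)² = (p - H)²`. -/
def StmtGood : Prop := ∀ C : Cert, C.good = true →
  C.par.Ok ∧ 0 < C.E ∧ C.par.Q = C.E * C.E ∧ C.par.O = C.H * C.E ∧ 2 ≤ C.kn.length ∧
  (∀ i, i + 1 < C.kn.length → C.kn.getD i 0 < C.kn.getD (i + 1) 0) ∧
  (∀ a, a + 1 < C.kn.length → (C.cel a).Ok C.par ∧ (C.cel a).a0 = C.kt a ∧
    (C.cel a).a1 = C.kt (a + 1) ∧ C.okCel (C.cel a) a = true) ∧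
  (∀ a b, a ≤ b → b + 1 < C.kn.length → C.okKer (C.ker a b) a b = true) ∧
  (∀ a, a < C.kn.length →
    ((C.p1.getD a C.H : ℝ) - C.H) ^ 2 ≤ (C.p0.getD a 0 : ℝ) * C.p2.getD a 0 ∧
    ((C.e1.getD a C.H : ℝ) - C.H) ^ 2 ≤ (C.e0.getD a 0 : ℝ) * C.e2.getD a 0) ∧
  (∀ (vs : List (List ℕ)) (a b : ℕ), (Cert.sA C.H vs a b : ℝ) - Cert.sB C.H vs a b
    = (vs.map fun v => ((v.getD a C.H : ℝ) - C.H) * ((v.getD b C.H : ℝ) - C.H)).sum)

/-- (D3, module Small/Tri/MatchU.lean; uses D1, D2) The pair function.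
Proof. On the knot interval `a` every `C.pH v x` is the affine interpolation of the node values
`(v_a - H)/E`, `(v_{a+1} - H)/E` (D1). So `∑ (C.pH v x)²` over all kernels is
`(Saa (k₁ - Dx)² + 2 Sab (Dx - k₀)(k₁ - Dx) + Sbb (Dx - k₀)²)/(E² (k₁ - k₀)²)` with
`Saa = ∑ (v_a - H)²` etc., and `d0 = Saa`, `d1 - O = Sab`, `d2 = Sbb`. By `okN` (at both nodes):
`s - O = (psi - H) E`, `A = (p0 + p2 + e0 + e2) E/2`, `B - O = 3 (p1 - H + e1 - H) E`,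
`C = ca (p0 + e0) + cb (p2 + e2)`, `R - O = (p0 + p2 - 6 (p1 - H)) E`, all divided by `Q = E²`. -/
def StmtMatchU : Prop := ∀ C : Cert, C.good = true → ∀ (a : ℕ), a + 1 < C.kn.length →
  ∀ x ∈ C.Icl a, 2 / ((C.par.N : ℝ) - 2) * C.fn.U x = UR C.par (C.cel a) x

/-- (D4, module Small/Tri/MatchW.lean; uses D1, D2) The vertex function.
Proof. As D3: for the kernels of degree `m` the sum of `2 f(x) f(y)` over the vectors of degree `m` is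
`bilR` of the `Quad` of degree `m` (`g - O = 2 ∑ (v_a - H)(v_b - H)`, `Q = E²`), and
`ch 0 = 1`, `ch 1 c = c`, `ch 2 c = 2c² - 1`, `ch 3 c = 4c³ - 3c`, `ch 4 c = 8c⁴ - 8c² + 1`;
`2 (9c² - 4) = 18c² - 8`; the `A`, `B`, `ψ` terms as in D3 (`C.fn.V y x c` gives the terms with `x`
and `y` exchanged, with the same `c = co x y z`). -/
def StmtMatchW : Prop := ∀ C : Cert, C.good = true → ∀ (a b : ℕ), a ≤ b →
  b + 1 < C.kn.length → ∀ x ∈ C.Icl a, ∀ y ∈ C.Icl b, ∀ z : ℝ,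
    C.fn.V x y (co x y z) + C.fn.V y x (co x y z)
      = WR C.par (C.cel a) (C.cel b) (C.ker a b) x y z

/-- (D5, module Small/Tri/SymS.lean) Symmetry of the triangle function. Proof: `co x y z = co y x z`,
and reordering of the summands. -/
def StmtSymS : Prop := ∀ (F : Fn) (N : ℕ) (Tb x y z : ℝ),
  F.S N Tb x y z = F.S N Tb y x z ∧ F.S N Tb x y z = F.S N Tb x z y

/-- (D6, module Small/Tri/PsdC.lean; uses D1, D2) Positivity of the multipliers and the case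
without multipliers. Proof. On a knot interval the values are convex combinations
`(1-s) u + s v` (`0 ≤ s ≤ 1`) of the node values; if `p1² ≤ p0 p2`, `p0, p2 ≥ 0` at both nodes then
`((1-s) p1 + s p1')² ≤ ((1-s) p0 + s p0') ((1-s) p2 + s p2')` (expand, `2 p1 p1' ≤ p0 p2' + p0' p2` by
AM-GM). Second part: if `zero` holds all nodes are `0` (also the default values), and `plf` of the zero
function is `0` (induction). -/
def StmtPsdC : Prop := (∀ C : Cert, C.good = true → ∀ (a : ℕ), a + 1 < C.kn.length →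
    ∀ x ∈ C.Icl a, (0 ≤ C.fn.p0 x ∧ 0 ≤ C.fn.p2 x ∧ C.fn.p1 x ^ 2 ≤ C.fn.p0 x * C.fn.p2 x) ∧
      (0 ≤ C.fn.e0 x ∧ 0 ≤ C.fn.e2 x ∧ C.fn.e1 x ^ 2 ≤ C.fn.e0 x * C.fn.e2 x)) ∧
  (∀ C : Cert, C.zero = true → ∀ r : ℝ, C.fn.p0 r = 0 ∧ C.fn.p1 r = 0 ∧ C.fn.p2 r = 0 ∧
    C.fn.e0 r = 0 ∧ C.fn.e1 r = 0 ∧ C.fn.e2 r = 0)

/-- (D7, module Small/Tri/Cov.lean) Coverings.
Proof. `ι x` = the least `a` with `D x ≤ kn[a+1]` (`Nat.find`); monotone in `x`. Second part: `cov`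
unfolded (`List.all_eq_true`, `List.any_eq_true`), `runL` says that `tri` holds for the members. -/
def StmtCov : Prop :=
  (∀ (D : ℕ), 0 < D → ∀ (kn : List ℕ), 2 ≤ kn.length →
    (∀ i, i + 1 < kn.length → kn.getD i 0 < kn.getD (i + 1) 0) →
    ∃ ι : ℝ → ℕ, (∀ x ∈ Set.Icc ((kn.getD 0 0 : ℝ) / D) ((kn.getD (kn.length - 1) 0 : ℝ) / D),
      ι x + 1 < kn.length ∧
      x ∈ Set.Icc ((kn.getD (ι x) 0 : ℝ) / D) ((kn.getD (ι x + 1) 0 : ℝ) / D)) ∧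
      ∀ x y : ℝ, x ≤ y →
        x ∈ Set.Icc ((kn.getD 0 0 : ℝ) / D) ((kn.getD (kn.length - 1) 0 : ℝ) / D) →
        y ∈ Set.Icc ((kn.getD 0 0 : ℝ) / D) ((kn.getD (kn.length - 1) 0 : ℝ) / D) → ι x ≤ ι y) ∧
  (∀ (C : Cert) (l : List (ℕ × ℕ × ℕ)), C.runL l = true → C.cov l = true → C.Run) ∧
  (∀ (C : Cert) (l m : List (ℕ × ℕ × ℕ)), C.runL l = true → C.runL m = true →
    C.runL (l ++ m) = true) ∧
  (∀ (C : Cert) (a b c : ℕ), C.tri a b c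
    = cell C.par (C.cel a) (C.cel b) (C.cel c) (C.ker a b) (C.ker b c) (C.ker a c))

/-- (D8, module Small/Tri/End.lean; uses D2 - D7, C14 `StmtGo`, T6 `StmtMain`, `StmtMain0`)
The end of the argument.
Proof. `StmtMain` (case `sS q ≤ 1`, `ν = 1`, `lam 1 = 0`, `(1 + 1)² - 0 = 4 ≤ ca`, `0 ≤ cb`) or
`StmtMain0` (case `zero`) with `F = C.fn`, `Tb = C.par.Tb` gives distinct bodies `i, j, k` with
`0 ≤ S(x, y, z)`, `x = ‖q i - q j‖`, `y = ‖q i - q k‖`, `z = ‖q j - q k‖` (`Psd` by D6, D7, since all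
distances are in the range of the knots). Sort the three sides (D5); they satisfy the triangle
inequality (all three versions hold), so the sorted triple is `Adm` (`hreg` for suitable order: the sum
is symmetric; `gR` is the function in `hreg`). D7 gives cells `a ≤ b ≤ c`, D3 and D4 give
`S = SR (cel a) (cel b) (cel c) (ker a b) (ker b c) (ker a c)`: for `co y z x` and `co x z y` apply D4 with
the pairs `(b, c)`, `(a, c)`. `StmtGo` gives `SR < 0`, a contradiction. -/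
def StmtEnd : Prop := ∀ C : Cert, C.good = true → C.Run → ∀ q : Fin C.par.N → ℂ, Nec q →
  T q ≤ C.par.Tb →
  (∀ i j : Fin C.par.N, i ≠ j → ((C.kt 0 : ℝ) / C.par.D ≤ ‖q i - q j‖ ∧
    ‖q i - q j‖ ≤ (C.kt (C.kn.length - 1) : ℝ) / C.par.D)) →
  (∀ i j k : Fin C.par.N, i ≠ j → i ≠ k → j ≠ k →
    C.par.F * (gR C.par ‖q i - q j‖ + gR C.par ‖q i - q k‖ + gR C.par ‖q j - q k‖) ≤ C.par.G0) →
  (C.zero = true ∨ (sS q ≤ 1 ∧ C.ca = 4 * C.E)) → False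

/-- (D9, module Small/Tri/Pri8.lean; uses T7 `StmtRegion`, T8 `StmtRange`) A priori bounds, 8 bodies.
Proof. `κ = 1/4`, `t = 1/8`: `g(r) - 1/8 = (r-2)² (r³ + 4r² + 8r + 8)/(32 r³) ≥ 0`. Triples: T7 with
`T ≤ Tb`. Lower bound of the distance: `g` is decreasing on `(0, 2]` and
`g(2662/4096) > 13/2 - 27/8` (for `r ≤ ρ := 2662/4096`, `g(r) = 1/r³ - 1/(4r) + r²/32 ≥ 1/r³ - 1/(4r)`, and
`1/r³ - 1/(4r) = (1/r)(1/r² - 1/4)` is decreasing: `≥ 1/ρ³ - 1/(4ρ) = 3.258… > 3.125`).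
Upper bound: T8 with `l = 163/100`: `r² ≤ 34.42 < (24166/4096)² = 34.808`. -/
def StmtPri8 : Prop := ∀ q : Fin 8 → ℂ, CC q → ∀ Tb : ℝ, Tb ≤ 13 → T q ≤ Tb →
  (∀ i j : Fin 8, i ≠ j → (2662 : ℝ) / 4096 ≤ ‖q i - q j‖ ∧ ‖q i - q j‖ ≤ (24166 : ℝ) / 4096) ∧
  (∀ i j k : Fin 8, i ≠ j → i ≠ k → j ≠ k →
    (1 / ‖q i - q j‖ ^ 3 - 1 / 4 * (1 / ‖q i - q j‖ - ‖q i - q j‖ ^ 2 / 8))
    + (1 / ‖q i - q k‖ ^ 3 - 1 / 4 * (1 / ‖q i - q k‖ - ‖q i - q k‖ ^ 2 / 8))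
    + (1 / ‖q j - q k‖ ^ 3 - 1 / 4 * (1 / ‖q j - q k‖ - ‖q j - q k‖ ^ 2 / 8)) ≤ Tb / 2 - 25 / 8)

/-- (D10, module Small/Tri/Pri9.lean; uses T7 `StmtRegion`, T8 `StmtRange`) A priori bounds, 9 bodies.
Proof. `κ = 3/13`, `t = 1109/10000`:
`r³ (g(r) - t) = (r - 52/25)² (r³/39 + (8/75) r² + (2219/10000) r + c) + α r + β` with positive
constants (`c = 0.23085…`, `α = 0.000316…`, `β = 0.00124…`; polynomial division). Triples: T7 with
`T ≤ Tb`. Lower bound of the distance: for `r ≤ ρ := 2580/4096`: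
`g(r) ≥ 1/r³ - 3/(13 r) ≥ 1/ρ³ - 3/(13 ρ) = 3.635… > 15/2 - 35 t = 3.6185`
(`1/r³ - 3/(13r) = (1/r)(1/r² - 3/13)` is decreasing).
Upper bound: T8 with `l = 169/100`: `r² ≤ 42.69 < (27034/4096)² = 43.56…`. -/
def StmtPri9 : Prop := ∀ q : Fin 9 → ℂ, CC q → ∀ Tb : ℝ, Tb ≤ 15 → T q ≤ Tb →
  (∀ i j : Fin 9, i ≠ j → (2580 : ℝ) / 4096 ≤ ‖q i - q j‖ ∧ ‖q i - q j‖ ≤ (27034 : ℝ) / 4096) ∧
  (∀ i j k : Fin 9, i ≠ j → i ≠ k → j ≠ k →
    (1 / ‖q i - q j‖ ^ 3 - 3 / 13 * (1 / ‖q i - q j‖ - ‖q i - q j‖ ^ 2 / 9))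
    + (1 / ‖q i - q k‖ ^ 3 - 3 / 13 * (1 / ‖q i - q k‖ - ‖q i - q k‖ ^ 2 / 9))
    + (1 / ‖q j - q k‖ ^ 3 - 3 / 13 * (1 / ‖q j - q k‖ - ‖q j - q k‖ ^ 2 / 9))
      ≤ Tb / 2 - 33 * (1109 / 10000))

end RelEqN.Small.Tri
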